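import Pool.Agent.LE87.PolA

set_option autoImplicit false

open Complex MeasureTheory Set Filter Topology Metric
open scoped Real

namespace Pool.Agent.LE87.BD

/-! ### elementary facts on `mass` -/

theorem integrableOn_ball_of_cont {g : ℂ → ℝ} (hg : Continuous g) (c : ℂ) (r : ℝ) :
    IntegrableOn g (ball c r) :=
  (hg.continuousOn.integrableOn_compact (isCompact_closedBall c r)).mono_set
    ball_subset_closedBall

theorem mass_nonneg {g : ℂ → ℝ} (hg : ∀ z, 0 ≤ g z) (c : ℂ) (t : ℝ) : 0 ≤ mass g c t := by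
  unfold mass
  have : 0 ≤ ∫ z in ball c (Real.exp t), g z := integral_nonneg hg
  positivity

theorem mass_mono_fun {g h : ℂ → ℝ} (hg : Continuous g) (hh : Continuous h)
    (hgh : ∀ z, g z ≤ h z) (c : ℂ) (t : ℝ) : mass g c t ≤ mass h c t := by
  unfold mass
  refine mul_le_mul_of_nonneg_left ?_ (by positivity)
  exact setIntegral_mono (integrableOn_ball_of_cont hg c _) (integrableOn_ball_of_cont hh c _)
    (fun z => hgh z)

theorem mass_mono_ball {g : ℂ → ℝ} (hg : Continuous g) (hg0 : ∀ z, 0 ≤ g z) {c c' : ℂ}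
    {s t : ℝ} (hst : ball c (Real.exp s) ⊆ ball c' (Real.exp t)) :
    mass g c s ≤ mass g c' t := by
  unfold mass
  refine mul_le_mul_of_nonneg_left ?_ (by positivity)
  exact setIntegral_mono_set (integrableOn_ball_of_cont hg c' _)
    (ae_of_all _ (fun z => hg0 z)) hst.eventuallyLE

theorem mass_mono {g : ℂ → ℝ} (hg : Continuous g) (hg0 : ∀ z, 0 ≤ g z) (c : ℂ)
    {s t : ℝ} (hst : s ≤ t) : mass g c s ≤ mass g c t :=
  mass_mono_ball hg hg0 (ball_subset_ball (Real.exp_le_exp.2 hst))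

theorem continuous_mass {g : ℂ → ℝ} (hg : Continuous g) (c : ℂ) : Continuous (mass g c) := by
  rw [continuous_iff_continuousAt]
  intro t
  exact (mass_hasDerivAt (T := t + 1) hg.continuousOn (by linarith)).continuousAt

theorem cont_abs_rpow {u : ℂ → ℝ} (hu : Continuous u) {p : ℝ} (hp : 1 < p) :
    Continuous (fun z => |u z| ^ p) :=
  hu.abs.rpow_const (fun _ => Or.inr (by linarith))

theorem abs_mul_rpow {p x : ℝ} (hp : 1 < p) : |(|x| ^ (p - 1) * x)| = |x| ^ p := by
  rw [abs_mul, abs_of_nonneg (Real.rpow_nonneg (abs_nonneg x) _)]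
  rcases eq_or_ne x 0 with h | h
  · subst h
    simp only [abs_zero, mul_zero]
    rw [Real.zero_rpow (by linarith)]
  · have hx : 0 < |x| := abs_pos.2 h
    conv_lhs => rw [← Real.rpow_one |x|]
    rw [← Real.rpow_mul hx.le, one_mul, ← Real.rpow_add hx]
    congr 1
    ring

/-- the nonlinearity is continuous -/
theorem cont_nonlin {u : ℂ → ℝ} (hu : Continuous u) {p : ℝ} (hp : 1 < p) :
    Continuous (fun z => |u z| ^ (p - 1) * u z) :=
  (hu.abs.rpow_const (fun _ => Or.inr (by linarith))).mul hu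

theorem mass_lap_eq {Ω : Set ℂ} {p T t : ℝ} {u : ℂ → ℝ} {c : ℂ} (hu : Sol Ω p u)
    (hc : ball c (Real.exp T) ⊆ Ω) (ht : t < T) :
    mass (lap u) c t = - mass (fun z => |u z| ^ (p - 1) * u z) c t := by
  unfold mass
  rw [← mul_neg, ← integral_neg]
  congr 1
  refine setIntegral_congr_fun measurableSet_ball ?_
  intro z hz
  have hzΩ : z ∈ Ω := hc (ball_subset_ball (Real.exp_le_exp.2 ht.le) hz)
  have := hu.eq z hzΩ
  simp only
  linarith

theorem abs_mass_le {g h : ℂ → ℝ} (hg : Continuous g) (hh : Continuous h)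
    (hgh : ∀ z, |g z| ≤ h z) (c : ℂ) (t : ℝ) : |mass g c t| ≤ mass h c t := by
  unfold mass
  rw [abs_mul, abs_of_pos (by positivity : (0 : ℝ) < (2 * π)⁻¹)]
  refine mul_le_mul_of_nonneg_left ?_ (by positivity)
  have h1 : |∫ z in ball c (Real.exp t), g z| ≤ ∫ z in ball c (Real.exp t), |g z| := by
    simpa [Real.norm_eq_abs] using
      norm_integral_le_integral_norm (μ := volume.restrict (ball c (Real.exp t))) g
  refine h1.trans ?_
  exact setIntegral_mono (integrableOn_ball_of_cont hg.abs c _)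
    (integrableOn_ball_of_cont hh c _) (fun z => hgh z)

/-- Jensen for the circle mean -/
theorem jensen_avg {u : ℂ → ℝ} (hu : Continuous u) {p : ℝ} (hp : 1 < p) (c : ℂ) (t : ℝ) :
    |avg u c t| ^ p ≤ avg (fun z => |u z| ^ p) c t := by
  have hpi : (0 : ℝ) < 2 * π := by positivity
  have hcont : Continuous (fun θ : ℝ => |u (pt c t θ)|) :=
    (hu.comp (continuous_pt_right c t)).abs
  have hcontp : Continuous (fun θ : ℝ => |u (pt c t θ)| ^ p) :=
    hcont.rpow_const (fun _ => Or.inr (by linarith))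
  have hvol : (volume (Ioc (0 : ℝ) (2 * π))) = ENNReal.ofReal (2 * π) := by
    rw [Real.volume_Ioc, sub_zero]
  have hJ := (convexOn_rpow hp.le).map_set_average_le
    (μ := (volume : Measure ℝ)) (t := Ioc (0 : ℝ) (2 * π)) (f := fun θ : ℝ => |u (pt c t θ)|)
    (Real.continuous_rpow_const (by linarith)).continuousOn isClosed_Ici
    (by rw [hvol]; simpa using hpi) (by rw [hvol]; exact ENNReal.ofReal_ne_top)
    (ae_of_all _ (fun θ => mem_Ici.2 (abs_nonneg _)))
    ((hcont.integrableOn_Icc).mono_set Ioc_subset_Icc_self)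
    ((hcontp.integrableOn_Icc).mono_set Ioc_subset_Icc_self)
  rw [setAverage_eq, setAverage_eq, measureReal_def, hvol, ENNReal.toReal_ofReal hpi.le,
    smul_eq_mul, smul_eq_mul, ← intervalIntegral.integral_of_le hpi.le,
    ← intervalIntegral.integral_of_le hpi.le] at hJ
  have h2 : |avg u c t| ≤ (2 * π)⁻¹ * ∫ θ in (0 : ℝ)..(2 * π), |u (pt c t θ)| := by
    unfold avg
    rw [abs_mul, abs_of_pos (by positivity : (0 : ℝ) < (2 * π)⁻¹)]
    exact mul_le_mul_of_nonneg_left (intervalIntegral.abs_integral_le_integral_abs hpi.le)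
      (by positivity)
  exact (Real.rpow_le_rpow (abs_nonneg _) h2 (by linarith)).trans hJ

theorem barrier {Ω : Set ℂ} {p m T t : ℝ} {u : ℂ → ℝ} {c : ℂ} (hΩ : IsOpen Ω)
    (hp : 1 < p) (hu : Sol Ω p u) (hc : ball c (Real.exp T) ⊆ Ω) (ht : t < T)
    (hm : mass (fun z => |u z| ^ p) c t ≤ m) :
    (max (|avg u c t| - m) 0) ^ p * (Real.exp (2 * t) * (1 - Real.exp (-2)) / 2) ≤ m := by
  have hfc := cont_abs_rpow hu.cont hp
  have hf0 : ∀ z, 0 ≤ |u z| ^ p := fun z => Real.rpow_nonneg (abs_nonneg _) _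
  have hC2 : ContDiffOn ℝ 2 u (ball c (Real.exp T)) := hu.smooth.mono hc
  have hm0 : 0 ≤ m := (mass_nonneg hf0 c t).trans hm
  -- derivative of the mean
  have hder : ∀ s ∈ Icc (t - 1) t,
      HasDerivWithinAt (avg u c) (mass (lap u) c s) (Icc (t - 1) t) s := fun s hs =>
    (avg_hasDerivAt hC2 (lt_of_le_of_lt hs.2 ht)).hasDerivWithinAt
  have hbd : ∀ s ∈ Icc (t - 1) t, ‖mass (lap u) c s‖ ≤ m := by
    intro s hs
    rw [mass_lap_eq hu hc (lt_of_le_of_lt hs.2 ht), norm_neg, Real.norm_eq_abs]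
    refine (abs_mass_le (cont_nonlin hu.cont hp) hfc (fun z => (abs_mul_rpow hp).le) c s).trans ?_
    exact (mass_mono hfc hf0 c hs.2).trans hm
  have hav : ∀ s ∈ Icc (t - 1) t, |avg u c t| - m ≤ |avg u c s| := by
    intro s hs
    have h1 := (convex_Icc (t - 1) t).norm_image_sub_le_of_norm_hasDerivWithin_le hder hbd hs
      (right_mem_Icc.2 (by linarith))
    rw [Real.norm_eq_abs, Real.norm_eq_abs, abs_of_nonneg (by linarith [hs.2] : 0 ≤ t - s)] at h1
    have h2 : m * (t - s) ≤ m := by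
      have : t - s ≤ 1 := by linarith [hs.1]
      nlinarith
    have h3 := abs_sub_abs_le_abs_sub (avg u c t) (avg u c s)
    linarith
  set B : ℝ := (max (|avg u c t| - m) 0) ^ p with hB
  have hB0 : 0 ≤ B := Real.rpow_nonneg (le_max_right _ _) _
  have hpt : ∀ s ∈ Icc (t - 1) t, B ≤ avg (fun z => |u z| ^ p) c s := by
    intro s hs
    refine le_trans ?_ (jensen_avg hu.cont hp c s)
    exact Real.rpow_le_rpow (le_max_right _ _) (max_le (hav s hs) (abs_nonneg _)) (by linarith)
  -- monotone auxiliary function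
  have hmono : MonotoneOn (fun s => mass (fun z => |u z| ^ p) c s - B * (Real.exp (2 * s) / 2))
      (Icc (t - 1) t) := by
    have hd : ∀ s : ℝ, HasDerivAt
        (fun s => mass (fun z => |u z| ^ p) c s - B * (Real.exp (2 * s) / 2))
        (Real.exp (2 * s) * avg (fun z => |u z| ^ p) c s - B * Real.exp (2 * s)) s := by
      intro s
      have h1 := mass_hasDerivAt (c := c) (T := s + 1) hfc.continuousOn (by linarith : s < s + 1)
      have h2 : HasDerivAt (fun s : ℝ => Real.exp (2 * s) / 2) (Real.exp (2 * s)) s := by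
        have h3 : HasDerivAt (fun s : ℝ => Real.exp (2 * s) / 2)
            (Real.exp (2 * s) * (2 * 1) / 2) s :=
          ((hasDerivAt_id' s).const_mul (2 : ℝ)).exp.div_const 2
        have h4 : Real.exp (2 * s) * (2 * 1) / 2 = Real.exp (2 * s) := by ring
        rw [h4] at h3
        exact h3
      exact h1.sub (h2.const_mul B)
    apply monotoneOn_of_deriv_nonneg (convex_Icc _ _)
    · exact fun s _ => (hd s).continuousAt.continuousWithinAt
    · exact fun s _ => (hd s).differentiableAt.differentiableWithinAt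
    · intro s hs
      rw [interior_Icc] at hs
      rw [(hd s).deriv]
      have := hpt s ⟨hs.1.le, hs.2.le⟩
      have he := Real.exp_pos (2 * s)
      nlinarith
  have h1 := hmono (left_mem_Icc.2 (by linarith : t - 1 ≤ t)) (right_mem_Icc.2 (by linarith))
    (by linarith : t - 1 ≤ t)
  simp only at h1
  have h2 := mass_nonneg hf0 c (t - 1)
  have h3 : Real.exp (2 * (t - 1)) = Real.exp (2 * t) * Real.exp (-2) := by
    rw [← Real.exp_add]
    congr 1
    ring
  rw [h3] at h1
  have h4 : B * (Real.exp (2 * t) * (1 - Real.exp (-2)) / 2)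
      = B * (Real.exp (2 * t) / 2) - B * (Real.exp (2 * t) * Real.exp (-2) / 2) := by ring
  rw [h4]
  linarith

/-! ### two centres -/

theorem abs_setIntegral_le {g : ℂ → ℝ} {M : ℝ} (hg : Continuous g) (hM : ∀ z, |g z| ≤ M)
    {S : Set ℂ} (hS : volume S ≠ ⊤) : |∫ z in S, g z| ≤ M * (volume S).toReal := by
  have h := norm_setIntegral_le_of_norm_le_const (μ := volume) (s := S) (f := g) (C := M)
    (lt_top_iff_ne_top.2 hS) (fun z _ => by simpa [Real.norm_eq_abs] using hM z)
  simpa [Real.norm_eq_abs, measureReal_def] using h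

theorem volume_sdiff_ball {c c' : ℂ} {ρ : ℝ} (hd : ‖c - c'‖ ≤ ρ) :
    (volume (ball c ρ \ ball c' ρ)).toReal ≤ π * (2 * ρ * ‖c - c'‖) := by
  have hρ : 0 ≤ ρ := (norm_nonneg _).trans hd
  set d : ℝ := ‖c - c'‖ with hd'
  have hsub : ball c ρ \ ball c' ρ ⊆ ball c ρ \ ball c (ρ - d) := by
    rintro z ⟨h1, h2⟩
    refine ⟨h1, fun h3 => h2 ?_⟩
    rw [mem_ball, dist_eq_norm] at h3 ⊢
    calc ‖z - c'‖ = ‖(z - c) + (c - c')‖ := by congr 1; ring
      _ ≤ ‖z - c‖ + ‖c - c'‖ := norm_add_le _ _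
      _ < ρ := by rw [← hd']; linarith
  have hin : ball c (ρ - d) ⊆ ball c ρ := ball_subset_ball (by linarith [norm_nonneg (c - c')])
  have hv : ∀ x : ℝ, 0 ≤ x → (volume (ball c x)).toReal = π * x ^ 2 := by
    intro x hx
    rw [Complex.volume_ball, ENNReal.toReal_mul, ENNReal.toReal_pow, ENNReal.toReal_ofReal hx]
    simp only [ENNReal.coe_toReal, NNReal.coe_real_pi]
    ring
  have hne : ∀ x : ℝ, volume (ball c x) ≠ ⊤ := fun x => measure_ball_lt_top.ne
  have h1 : (volume (ball c ρ \ ball c' ρ)).toReal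
      ≤ (volume (ball c ρ \ ball c (ρ - d))).toReal :=
    ENNReal.toReal_mono (measure_ne_top_of_subset sdiff_subset (hne ρ)) (measure_mono hsub)
  have h2 : (volume (ball c ρ \ ball c (ρ - d))).toReal = π * ρ ^ 2 - π * (ρ - d) ^ 2 := by
    rw [measure_sdiff hin measurableSet_ball.nullMeasurableSet (hne _),
      ENNReal.toReal_sub_of_le (measure_mono hin) (hne _), hv _ hρ, hv _ (by linarith)]
  rw [h2] at h1
  refine h1.trans ?_
  have : 0 ≤ d := norm_nonneg _
  nlinarith [Real.pi_pos, mul_nonneg Real.pi_pos.le (sq_nonneg d)]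

theorem mass_two_centres {u : ℂ → ℝ} {M : ℝ} (hu : Continuous u) (hM : ∀ z, |u z| ≤ M)
    {c c' : ℂ} {s : ℝ} (hd : ‖c - c'‖ ≤ Real.exp s) :
    |mass u c s - mass u c' s| ≤ 2 * M * Real.exp s * ‖c - c'‖ := by
  set ρ : ℝ := Real.exp s with hρ
  have hρ0 : 0 < ρ := Real.exp_pos s
  have hM0 : 0 ≤ M := (abs_nonneg _).trans (hM 0)
  have hi := integrableOn_ball_of_cont hu c ρ
  have hi' := integrableOn_ball_of_cont hu c' ρ
  have e1 : ∫ z in ball c ρ, u z
      = (∫ z in ball c ρ ∩ ball c' ρ, u z) + ∫ z in ball c ρ \ ball c' ρ, u z :=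
    (integral_inter_add_sdiff measurableSet_ball hi).symm
  have e2 : ∫ z in ball c' ρ, u z
      = (∫ z in ball c' ρ ∩ ball c ρ, u z) + ∫ z in ball c' ρ \ ball c ρ, u z :=
    (integral_inter_add_sdiff measurableSet_ball hi').symm
  have hne : volume (ball c ρ \ ball c' ρ) ≠ ⊤ :=
    measure_ne_top_of_subset sdiff_subset measure_ball_lt_top.ne
  have hne' : volume (ball c' ρ \ ball c ρ) ≠ ⊤ :=
    measure_ne_top_of_subset sdiff_subset measure_ball_lt_top.ne
  have b1 := (abs_setIntegral_le hu hM hne).trans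
    (mul_le_mul_of_nonneg_left (volume_sdiff_ball hd) hM0)
  have hd2 : ‖c' - c‖ ≤ ρ := by rw [norm_sub_rev]; exact hd
  have b2 := (abs_setIntegral_le hu hM hne').trans
    (mul_le_mul_of_nonneg_left (volume_sdiff_ball hd2) hM0)
  rw [norm_sub_rev c' c] at b2
  unfold mass
  rw [← mul_sub, e1, e2, inter_comm (ball c' ρ) (ball c ρ), abs_mul,
    abs_of_pos (by positivity : (0 : ℝ) < (2 * π)⁻¹)]
  have h3 : |(∫ z in ball c ρ ∩ ball c' ρ, u z) + (∫ z in ball c ρ \ ball c' ρ, u z)
      - ((∫ z in ball c ρ ∩ ball c' ρ, u z) + ∫ z in ball c' ρ \ ball c ρ, u z)|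
      ≤ 2 * (M * (π * (2 * ρ * ‖c - c'‖))) := by
    rw [add_sub_add_left_eq_sub]
    refine (abs_sub _ _).trans ?_
    linarith
  calc (2 * π)⁻¹ * _ ≤ (2 * π)⁻¹ * (2 * (M * (π * (2 * ρ * ‖c - c'‖)))) := by gcongr
    _ = 2 * M * ρ * ‖c - c'‖ := by field_simp

/-- the shifted comparison of the integrated masses -/
theorem int_mass_two_centres {g : ℂ → ℝ} {m : ℝ} (hg : Continuous g) (hg0 : ∀ z, 0 ≤ g z)
    (hm : ∀ (x : ℂ) (τ : ℝ), mass g x τ ≤ m) {c c' : ℂ} {t τ : ℝ} (htτ : t ≤ τ)
    (hcc : ‖c - c'‖ ≤ Real.exp t) :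
    (∫ s in t..τ, mass g c' s) ≤ (∫ s in t..τ, mass g c s) + m := by
  have hc := continuous_mass hg c
  have hc' := continuous_mass hg c'
  have hII : ∀ a b : ℝ, IntervalIntegrable (mass g c) volume a b := fun a b =>
    hc.intervalIntegrable a b
  have h1 : (∫ s in t..τ, mass g c' s) ≤ ∫ s in t..τ, mass g c (s + 1) := by
    refine intervalIntegral.integral_mono_on htτ (hc'.intervalIntegrable _ _)
      ((hc.comp (continuous_add_const 1)).intervalIntegrable _ _) ?_
    intro s hs
    refine mass_mono_ball hg hg0 ?_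
    intro z hz
    rw [mem_ball, dist_eq_norm] at hz ⊢
    have hs1 : Real.exp t ≤ Real.exp s := Real.exp_le_exp.2 hs.1
    have h2 : (2 : ℝ) ≤ Real.exp 1 := by
      have := Real.add_one_le_exp (1 : ℝ)
      linarith
    calc ‖z - c‖ = ‖(z - c') - (c - c')‖ := by congr 1; ring
      _ ≤ ‖z - c'‖ + ‖c - c'‖ := norm_sub_le _ _
      _ < Real.exp s + Real.exp s := by linarith
      _ = 2 * Real.exp s := by ring
      _ ≤ Real.exp (s + 1) := by
        rw [Real.exp_add, mul_comm]
        exact mul_le_mul_of_nonneg_left h2 (Real.exp_pos s).le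
  have h2 : (∫ s in t..τ, mass g c (s + 1)) = ∫ s in (t + 1)..(τ + 1), mass g c s :=
    intervalIntegral.integral_comp_add_right (mass g c) 1
  have h3 : (∫ s in (t + 1)..(τ + 1), mass g c s)
      = (∫ s in t..τ, mass g c s) + (∫ s in τ..(τ + 1), mass g c s)
        - ∫ s in t..(t + 1), mass g c s := by
    have a1 := intervalIntegral.integral_add_adjacent_intervals (hII t (t + 1))
      (hII (t + 1) (τ + 1))
    have a2 := intervalIntegral.integral_add_adjacent_intervals (hII t τ) (hII τ (τ + 1))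
    linarith
  have h4 : (∫ s in τ..(τ + 1), mass g c s) ≤ m := by
    have := intervalIntegral.integral_mono_on (by linarith : τ ≤ τ + 1) (hII τ (τ + 1))
      (intervalIntegrable_const (c := m)) (fun s _ => hm c s)
    simpa using this
  have h5 : 0 ≤ ∫ s in t..(t + 1), mass g c s :=
    intervalIntegral.integral_nonneg (by linarith) (fun s _ => mass_nonneg hg0 c s)
  linarith

theorem two_centres {Ω : Set ℂ} {p m M r t : ℝ} {u : ℂ → ℝ} {c c' : ℂ} (hΩ : IsOpen Ω)
    (hp : 1 < p) (hu : Sol Ω p u) (hr : 0 < r) (hrΩ : ball 0 (2 * r) ⊆ Ω)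
    (hM : ∀ z, |u z| ≤ M)
    (hm : ∀ (x : ℂ) (τ : ℝ), mass (fun z => |u z| ^ p) x τ ≤ m)
    (hc : ‖c‖ ≤ r / 4) (hc' : ‖c'‖ ≤ r / 4) (hcc : ‖c - c'‖ ≤ Real.exp t)
    (ht : Real.exp t ≤ r / 4) :
    |avg u c t - avg u c' t| ≤ 100 * M * ‖c - c'‖ / r + 4 * m := by
  have hM0 : 0 ≤ M := (abs_nonneg _).trans (hM 0)
  set d : ℝ := ‖c - c'‖ with hd
  have hd0 : 0 ≤ d := norm_nonneg _
  -- the balls around the two centres
  set T : ℝ := Real.log (3 / 2 * r) with hT
  have hTexp : Real.exp T = 3 / 2 * r := Real.exp_log (by positivity)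
  have hball : ∀ x : ℂ, ‖x‖ ≤ r / 4 → ball x (Real.exp T) ⊆ Ω := by
    intro x hx z hz
    apply hrΩ
    rw [mem_ball, dist_eq_norm, hTexp] at hz
    rw [mem_ball_zero_iff]
    calc ‖z‖ = ‖(z - x) + x‖ := by congr 1; ring
      _ ≤ ‖z - x‖ + ‖x‖ := norm_add_le _ _
      _ < 2 * r := by linarith
  have hbc := hball c hc
  have hbc' := hball c' hc'
  have hC := hu.smooth.mono hbc
  have hC' := hu.smooth.mono hbc'
  set a : ℝ := Real.log (r / 2) with ha
  set b : ℝ := Real.log r with hb
  have hea : Real.exp a = r / 2 := Real.exp_log (by positivity)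
  have heb : Real.exp b = r := Real.exp_log hr
  have hab : a < b := Real.log_lt_log (by positivity) (by linarith)
  have hbT : b < T := Real.log_lt_log hr (by linarith)
  have hta : t ≤ a := by
    rw [← Real.exp_le_exp, hea]
    linarith
  -- mean value theorem
  have hdd : ∀ s ∈ Icc a b, HasDerivAt (fun s => mass u c s - mass u c' s)
      (Real.exp (2 * s) * (avg u c s - avg u c' s)) s := by
    intro s hs
    have h1 := mass_hasDerivAt (c := c) (T := T) hu.cont.continuousOn
      (lt_of_le_of_lt hs.2 hbT)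
    have h2 := mass_hasDerivAt (c := c') (T := T) hu.cont.continuousOn
      (lt_of_le_of_lt hs.2 hbT)
    rw [mul_sub]
    exact h1.sub h2
  obtain ⟨τ, hτ, hτe⟩ := exists_hasDerivAt_eq_slope (fun s => mass u c s - mass u c' s)
    (fun s => Real.exp (2 * s) * (avg u c s - avg u c' s)) hab
    (fun s hs => (hdd s hs).continuousAt.continuousWithinAt)
    (fun s hs => hdd s ⟨hs.1.le, hs.2.le⟩)
  have hlog : b - a = Real.log 2 := by
    rw [ha, hb, ← Real.log_div (by positivity) (by positivity)]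
    congr 1
    field_simp
  have hlog2 : (1 : ℝ) / 2 ≤ b - a := by
    rw [hlog]
    have := Real.log_two_gt_d9
    linarith
  have hda : ‖c - c'‖ ≤ Real.exp a := hcc.trans (Real.exp_le_exp.2 hta)
  have hdb : ‖c - c'‖ ≤ Real.exp b := hda.trans (Real.exp_le_exp.2 hab.le)
  have hm1 := mass_two_centres hu.cont hM hda
  have hm2 := mass_two_centres hu.cont hM hdb
  rw [hea] at hm1
  rw [heb] at hm2
  have hfar : |avg u c τ - avg u c' τ| ≤ 24 * M * d / r := by
    have h1 : |Real.exp (2 * τ) * (avg u c τ - avg u c' τ)| * (b - a)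
        ≤ 3 * M * r * d := by
      rw [hτe, abs_div, abs_of_pos (by linarith : 0 < b - a), div_mul_cancel₀ _ (by linarith)]
      refine (abs_sub _ _).trans ?_
      have : 2 * M * r * d + 2 * M * (r / 2) * d = 3 * M * r * d := by ring
      linarith
    have h2 : r ^ 2 / 4 ≤ Real.exp (2 * τ) := by
      have h3 : Real.exp (2 * a) ≤ Real.exp (2 * τ) := Real.exp_le_exp.2 (by linarith [hτ.1])
      rw [two_mul a, Real.exp_add, hea] at h3
      nlinarith
    rw [abs_mul, abs_of_pos (Real.exp_pos _)] at h1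
    have h4 : r ^ 2 / 4 * |avg u c τ - avg u c' τ| * (1 / 2) ≤ 3 * M * r * d := by
      refine le_trans ?_ h1
      have hnn := abs_nonneg (avg u c τ - avg u c' τ)
      gcongr
    rw [le_div_iff₀ hr]
    have h5 : r * (|avg u c τ - avg u c' τ| * r) ≤ r * (24 * M * d) := by nlinarith
    exact le_of_mul_le_mul_left h5 hr
  -- the two nonlinear parts
  set f : ℂ → ℝ := fun z => |u z| ^ (p - 1) * u z with hf
  have hfc : Continuous f := cont_nonlin hu.cont hp
  have hpc := cont_abs_rpow hu.cont hp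
  set g1 : ℂ → ℝ := fun z => max (f z) 0 with hg1
  set g2 : ℂ → ℝ := fun z => max (-f z) 0 with hg2
  have hg1c : Continuous g1 := hfc.max continuous_const
  have hg2c : Continuous g2 := hfc.neg.max continuous_const
  have hg10 : ∀ z, 0 ≤ g1 z := fun z => le_max_right _ _
  have hg20 : ∀ z, 0 ≤ g2 z := fun z => le_max_right _ _
  have hfa : ∀ z, |f z| = |u z| ^ p := fun z => abs_mul_rpow hp
  have hg1m : ∀ (x : ℂ) (s : ℝ), mass g1 x s ≤ m := fun x s =>
    (mass_mono_fun hg1c hpc (fun z => by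
      rw [← hfa z]; exact max_le (le_abs_self _) (abs_nonneg _)) x s).trans (hm x s)
  have hg2m : ∀ (x : ℂ) (s : ℝ), mass g2 x s ≤ m := fun x s =>
    (mass_mono_fun hg2c hpc (fun z => by
      rw [← hfa z]; exact max_le (neg_le_abs _) (abs_nonneg _)) x s).trans (hm x s)
  have hfg : ∀ (x : ℂ) (s : ℝ), mass f x s = mass g1 x s - mass g2 x s := by
    intro x s
    unfold mass
    rw [← mul_sub, ← integral_sub (integrableOn_ball_of_cont hg1c x _)
      (integrableOn_ball_of_cont hg2c x _)]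
    congr 2
    funext z
    simp only [hg1, hg2]
    rcases le_total (f z) 0 with h | h
    · rw [max_eq_right h, max_eq_left (by linarith)]
      ring
    · rw [max_eq_left h, max_eq_right (by linarith)]
      ring
  -- integrated equation
  have hFTC : ∀ x : ℂ, ‖x‖ ≤ r / 4 → avg u x τ - avg u x t
      = -((∫ s in t..τ, mass g1 x s) - ∫ s in t..τ, mass g2 x s) := by
    intro x hx
    have hbx := hball x hx
    have hCx := hu.smooth.mono hbx
    have h1 := intervalIntegral.integral_eq_sub_of_hasDerivAt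
      (f := avg u x) (f' := fun s => -(mass g1 x s - mass g2 x s)) (a := t) (b := τ) ?_ ?_
    · rw [← h1, intervalIntegral.integral_neg, intervalIntegral.integral_sub
        ((continuous_mass hg1c x).intervalIntegrable _ _)
        ((continuous_mass hg2c x).intervalIntegrable _ _)]
    · intro s hs
      have hsT : s < T := by
        rcases mem_uIcc.1 hs with h | h
        · linarith [h.2, hτ.2]
        · linarith [h.1, h.2, hτ.1, hτ.2]
      have h2 := avg_hasDerivAt hCx hsT
      rw [mass_lap_eq hu hbx hsT] at h2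
      have h3 := hfg x s
      rw [← h3]
      exact h2
    · exact (((continuous_mass hg1c x).sub (continuous_mass hg2c x)).neg).intervalIntegrable _ _
  have htτ : t ≤ τ := by linarith [hτ.1]
  have e1 := hFTC c hc
  have e2 := hFTC c' hc'
  have hcc2 : ‖c' - c‖ ≤ Real.exp t := by rw [norm_sub_rev]; exact hcc
  have i1 := int_mass_two_centres hg1c hg10 hg1m htτ hcc
  have i2 := int_mass_two_centres hg1c hg10 hg1m htτ hcc2
  have i3 := int_mass_two_centres hg2c hg20 hg2m htτ hcc
  have i4 := int_mass_two_centres hg2c hg20 hg2m htτ hcc2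
  have hm0 : 0 ≤ m := (mass_nonneg hg10 0 0).trans (hg1m 0 0)
  have hfin : 24 * M * d / r ≤ 100 * M * d / r := by
    have : 0 ≤ M * d := mul_nonneg hM0 hd0
    gcongr
    nlinarith
  rw [abs_le] at hfar ⊢
  constructor
  · linarith [hfar.1]
  · linarith [hfar.2]

end Pool.Agent.LE87.BD
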