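import Mathlib

set_option autoImplicit false

open Complex MeasureTheory Set Filter Topology Metric
open scoped Real

namespace Pool.Agent.LE87

/-- the point with log-radius `t` and angle `θ` around `c` -/
noncomputable def pt (c : ℂ) (t θ : ℝ) : ℂ := c + Complex.exp ((t : ℂ) + θ * Complex.I)

/-- mean of `g` over the circle of radius `exp t` around `c` -/
noncomputable def avg (g : ℂ → ℝ) (c : ℂ) (t : ℝ) : ℝ :=
  (2 * π)⁻¹ * ∫ θ in (0 : ℝ)..(2 * π), g (pt c t θ)

/-- `1/(2π)` times the integral of `g` over the open disc of radius `exp t` around `c` -/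
noncomputable def mass (g : ℂ → ℝ) (c : ℂ) (t : ℝ) : ℝ :=
  (2 * π)⁻¹ * ∫ z in ball c (Real.exp t), g z

/-- the Laplacian of `u` (sum of the two pure second derivatives in the directions `1`, `I`) -/
noncomputable def lap (u : ℂ → ℝ) (z : ℂ) : ℝ :=
  fderiv ℝ (fun w => fderiv ℝ u w 1) z 1 + fderiv ℝ (fun w => fderiv ℝ u w Complex.I) z Complex.I

/-- `u` is a classical solution of `-Δu = |u|^(p-1) u` in `Ω`, continuous on the plane and zero
off `Ω`. -/
structure Sol (Ω : Set ℂ) (p : ℝ) (u : ℂ → ℝ) : Prop where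
  cont : Continuous u
  zero : ∀ z, z ∉ Ω → u z = 0
  smooth : ContDiffOn ℝ 2 u Ω
  eq : ∀ z ∈ Ω, -lap u z = |u z| ^ (p - 1) * u z

end Pool.Agent.LE87
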