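import Pool.Agent.LE87.ProfDef

set_option autoImplicit false

open Set Filter Topology

namespace Pool.Agent.LE87

variable {V a b T : ℝ → ℝ} {C0 M0 : ℝ}

/-! ## Module G1: symmetry, continuity, jump, run -/

theorem Prof.neg (h : Prof V a b T C0 M0) : Prof (fun s => -V s) b a T C0 M0 where
  ha0 := h.hb0
  hb0 := h.ha0
  hT0 := h.hT0
  hTC := h.hTC
  ha := h.hb
  hb := h.ha
  hT := h.hT
  hVl := fun s s' hs hss => by have := h.hVu s s' hs hss; nlinarith
  hVu := fun s s' hs hss => by have := h.hVl s s' hs hss; nlinarith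
  hbar := fun s hs => by rw [abs_neg]; exact h.hbar s hs
  hV0 := by simpa using h.hV0.neg
  hbd := fun s hs => by rw [abs_neg]; exact h.hbd s hs
  hPa := fun s s' hs hss hx => h.hPb s s' hs hss (fun x hx' => by linarith [hx x hx'])
  hPb := fun s s' hs hss hx => h.hPa s s' hs hss (fun x hx' => by linarith [hx x hx'])
  hTu := fun s s' hs hss => by have := h.hTu s s' hs hss; linarith
  hTa := fun s s' v ε hs hss hv hx => h.hTb s s' v ε hs hss hv hx
  hTb := fun s s' v ε hs hss hv hx => h.hTa s s' v ε hs hss hv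
    (fun x hx' => by have := hx x hx'; simpa using this)
  hPoh := fun s s' hs hss => by
    obtain ⟨A, Tm, h1, h2, h3, h4, h5⟩ := h.hPoh s s' hs hss
    exact ⟨-A, Tm, by linarith, by linarith, h3, h4, by rw [neg_sq]; exact h5⟩
  hinf := by
    obtain ⟨S, hS, h1⟩ := h.hinf
    exact ⟨S, hS, fun s hs => ⟨(h1 s hs).2.1, (h1 s hs).1, (h1 s hs).2.2⟩⟩
  hapos := h.hbpos
  hbpos := h.hapos

theorem Prof.lip (h : Prof V a b T C0 M0) {c : ℝ} (hc : 0 < c) {s s' : ℝ} (hs : c < s)
    (hss : s ≤ s') : |V s' - V s| ≤ 2 * (a c + b c) * (s' - s) := by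
  rcases hss.eq_or_lt with e | e
  · subst e; simp
  · have hs0 : 0 < s := hc.trans hs
    have hs0' : 0 < s' := hs0.trans e
    have h1 := h.hVl s s' hs0 e
    have h2 := h.hVu s s' hs0 e
    have a1 := h.ha (mem_Ioi.2 hc) (mem_Ioi.2 hs0) hs.le
    have b1 := h.hb (mem_Ioi.2 hc) (mem_Ioi.2 hs0) hs.le
    have a2 := h.ha0 s' hs0'
    have b2 := h.hb0 s' hs0'
    have a3 := h.ha0 c hc
    have b3 := h.hb0 c hc
    have hp : 0 < s' - s := by linarith
    rw [abs_le]
    constructor <;> nlinarith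

theorem Prof.contOn (h : Prof V a b T C0 M0) : ContinuousOn V (Ioi 0) := by
  intro c hc
  have hc' : (0 : ℝ) < c := hc
  have hc2 : 0 < c / 2 := by linarith
  have hK : 0 ≤ 2 * (a (c / 2) + b (c / 2)) := by
    have := h.ha0 _ hc2
    have := h.hb0 _ hc2
    positivity
  have hl : LipschitzOnWith (Real.toNNReal (2 * (a (c / 2) + b (c / 2)))) V (Ioi (c / 2)) := by
    apply LipschitzOnWith.of_dist_le_mul
    intro x hx y hy
    rw [Real.coe_toNNReal _ hK, Real.dist_eq, Real.dist_eq]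
    rcases le_total x y with e | e
    · have := h.lip hc2 hx e
      rw [abs_sub_comm, abs_sub_comm x y, abs_of_nonneg (by linarith : 0 ≤ y - x)]
      exact this
    · have := h.lip hc2 hy e
      rw [abs_of_nonneg (by linarith : 0 ≤ x - y)]
      exact this
  have hcont := hl.continuousOn
  exact (hcont.continuousAt (Ioi_mem_nhds (by linarith))).continuousWithinAt

theorem Prof.contAt (h : Prof V a b T C0 M0) {c : ℝ} (hc : 0 < c) : ContinuousAt V c :=
  h.contOn.continuousAt (Ioi_mem_nhds hc)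

/-- an antitone function bounded below has a left limit, which is a lower bound -/
theorem left_lim {f : ℝ → ℝ} (hf : AntitoneOn f (Ioi 0)) (hf0 : ∀ s, 0 < s → 0 ≤ f s) {c : ℝ}
    (hc : 0 < c) : ∃ l, Tendsto f (𝓝[<] c) (𝓝 l) := by
  have hm : MonotoneOn (fun s => -f s) (Ioo 0 c) := by
    intro x hx y hy hxy
    exact neg_le_neg (hf (mem_Ioi.2 hx.1) (mem_Ioi.2 hy.1) hxy)
  have hb : BddAbove ((fun s => -f s) '' Ioo 0 c) := by
    refine ⟨0, ?_⟩
    rintro y ⟨x, hx, rfl⟩
    have := hf0 x hx.1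
    simp only; linarith
  have h1 := hm.tendsto_nhdsWithin_Ioo_left (nonempty_Ioo.2 hc) hb
  refine ⟨-sSup ((fun s => -f s) '' Ioo 0 c), ?_⟩
  simpa using h1.neg

theorem left_lim_le {f : ℝ → ℝ} (hf : AntitoneOn f (Ioi 0)) {c l : ℝ}
    (hl : Tendsto f (𝓝[<] c) (𝓝 l)) {s : ℝ} (hs : 0 < s) (hsc : s < c) : l ≤ f s := by
  apply le_of_tendsto hl
  filter_upwards [Ioo_mem_nhdsLT hsc] with x hx
  exact hf (mem_Ioi.2 hs) (mem_Ioi.2 (hs.trans hx.1)) hx.1.le

/-- passage from right to left through a point of `P = {V = e^{2s}}` -/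
theorem Prof.jump (h : Prof V a b T C0 M0) {c ar br Tr δ : ℝ} (hc : 0 < c)
    (hVc : V c = Real.exp (2 * c)) (hδ : 0 < δ)
    (hr : ∀ s ∈ Ioo c (c + δ), a s = ar ∧ b s = br ∧ T s = Tr) :
    ∃ al : ℝ, br + Real.exp (2 * c) ≤ al ∧
      (al - br) ^ 2 = 2 * (Tr + Real.exp (2 * c) * (al - ar)) ∧
      (∃ δ' > 0, ∀ s ∈ Ioo (c - δ') c, b s = br) ∧
      Tendsto a (𝓝[<] c) (𝓝 al) ∧
      Tendsto T (𝓝[<] c) (𝓝 (Tr + Real.exp (2 * c) * (al - ar))) := by
  have hcont := h.contAt hc
  have hVpos : 0 < V c := by rw [hVc]; exact Real.exp_pos _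
  -- positivity near `c`
  obtain ⟨d0, hd0, hd0V⟩ := Metric.eventually_nhds_iff.1 (hcont.eventually (lt_mem_nhds hVpos))
  set d1 := min d0 (min (c / 2) δ) with hd1
  have hd1p : 0 < d1 := by rw [hd1]; positivity
  have hd1a : d1 ≤ d0 := min_le_left _ _
  have hd1b : d1 ≤ c / 2 := (min_le_right _ _).trans (min_le_left _ _)
  have hd1c : d1 ≤ δ := (min_le_right _ _).trans (min_le_right _ _)
  have hpos : ∀ x, c - d1 < x → x < c + d1 → 0 < V x := by
    intro x h1 h2
    apply hd0V
    rw [Real.dist_eq, abs_lt]; constructor <;> linarith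
  have hb : ∀ s, c - d1 < s → s ≤ c + d1 / 2 → b s = br := by
    intro s h1 h2
    have e := h.hPb s (c + d1 / 2) (by linarith) h2 (fun x hx => by
      have := hpos x (by linarith [hx.1]) (by linarith [hx.2])
      have := Real.exp_pos (2 * x)
      linarith)
    rw [e]
    exact (hr _ ⟨by linarith, by linarith⟩).2.1
  obtain ⟨al, hal⟩ := left_lim h.ha h.ha0 hc
  have hale : ∀ s, 0 < s → s < c → al ≤ a s := fun s h1 h2 => left_lim_le h.ha hal h1 h2
  have hmem : Ioo (c - d1) c ∈ 𝓝[<] c := Ioo_mem_nhdsLT (by linarith)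
  -- slope bound
  have hslope : ∀ s, c - d1 < s → s < c → Real.exp (2 * s) ≤ a s - br := by
    intro s h1 h2
    have hs : 0 < s := by linarith
    have e1 := h.hVu s c hs h2
    rw [hb c (by linarith) (by linarith), hVc] at e1
    have e2 := (abs_le.1 (h.hbar s hs)).2
    have e3 : Real.exp (2 * s) * (2 * (c - s)) ≤ Real.exp (2 * c) - Real.exp (2 * s) := by
      have e4 : Real.exp (2 * c) = Real.exp (2 * s) * Real.exp (2 * (c - s)) := by
        rw [← Real.exp_add]; ring_nf
      have e5 := Real.add_one_le_exp (2 * (c - s))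
      rw [e4]
      nlinarith [Real.exp_pos (2 * s)]
    have e6 : Real.exp (2 * s) * (2 * (c - s)) ≤ (a s - br) * (2 * (c - s)) := by linarith
    exact le_of_mul_le_mul_right e6 (by linarith)
  have hexpc : Tendsto (fun s : ℝ => Real.exp (2 * s)) (𝓝[<] c) (𝓝 (Real.exp (2 * c))) := by
    have : Continuous (fun s : ℝ => Real.exp (2 * s)) := by fun_prop
    exact (this.tendsto c).mono_left nhdsWithin_le_nhds
  have hk1 : br + Real.exp (2 * c) ≤ al := by
    have : Real.exp (2 * c) ≤ al - br := by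
      apply le_of_tendsto_of_tendsto hexpc (hal.sub_const br)
      filter_upwards [hmem] with s hs
      exact hslope s hs.1 hs.2
    linarith
  -- the limit of T
  have hTlim0 : Tendsto (fun s => T s - Tr - Real.exp (2 * c) * (a s - ar)) (𝓝[<] c) (𝓝 0) := by
    rw [Metric.tendsto_nhds]
    intro ε hε
    set B := a (c / 2) - ar with hB
    have harB : ar ≤ a (c / 2) := by
      have := (hr (c + δ / 2) ⟨by linarith, by linarith⟩).1
      rw [← this]
      exact h.ha (mem_Ioi.2 (by linarith)) (mem_Ioi.2 (by linarith)) (by linarith)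
    have hB0 : 0 ≤ B := by linarith
    set e := min (ε / (2 * (B + 1))) (Real.exp (2 * c) / 2) with he
    have hexp := Real.exp_pos (2 * c)
    have he0 : 0 < e := by rw [he]; positivity
    have he1 : e ≤ ε / (2 * (B + 1)) := min_le_left _ _
    have he2 : e ≤ Real.exp (2 * c) / 2 := min_le_right _ _
    obtain ⟨d2, hd2, hd2V⟩ := Metric.continuousAt_iff.1 hcont e he0
    set d3 := min d1 d2 with hd3
    have hd3p : 0 < d3 := by rw [hd3]; positivity
    have hd3a : d3 ≤ d1 := min_le_left _ _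
    have hd3b : d3 ≤ d2 := min_le_right _ _
    filter_upwards [Ioo_mem_nhdsLT (by linarith : c - d3 < c)] with s hs
    have hs0 : 0 < s := by linarith [hs.1]
    have h1 := h.hTa s (c + d3 / 2) (Real.exp (2 * c)) e hs0 (by linarith [hs.2]) (by linarith)
      (fun x hx => by
        have := @hd2V x (by rw [Real.dist_eq, abs_lt]; constructor <;> linarith [hx.1, hx.2, hs.1])
        rw [Real.dist_eq, hVc, abs_lt] at this
        constructor <;> linarith [this.1, this.2])
    obtain ⟨r1, r2, r3⟩ := hr (c + d3 / 2) ⟨by linarith, by linarith⟩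
    rw [r1, r3] at h1
    have h2 : a s ≤ a (c / 2) :=
      h.ha (mem_Ioi.2 (by linarith)) (mem_Ioi.2 hs0) (by linarith [hs.1])
    have h3 : ar ≤ a s := by
      rw [← r1]
      exact h.ha (mem_Ioi.2 hs0) (mem_Ioi.2 (by linarith)) (by linarith [hs.2])
    have h4 : e * (a s - ar) ≤ ε / 2 := by
      calc e * (a s - ar) ≤ ε / (2 * (B + 1)) * (B + 1) := by
            apply mul_le_mul he1 (by linarith) (by linarith) (by positivity)
        _ = ε / 2 := by field_simp
    rw [Real.dist_eq, sub_zero, abs_lt]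
    constructor <;> nlinarith [h1.1, h1.2]
  have hTlim : Tendsto T (𝓝[<] c) (𝓝 (Tr + Real.exp (2 * c) * (al - ar))) := by
    have h1 := hTlim0.add (((hal.sub_const ar).const_mul (Real.exp (2 * c))).const_add Tr)
    rw [zero_add] at h1
    refine h1.congr (fun s => ?_)
    ring
  refine ⟨al, hk1, ?_, ⟨d1, hd1p, fun s hs => hb s hs.1 (by linarith [hs.2])⟩, hal, hTlim⟩
  set Tl := Tr + Real.exp (2 * c) * (al - ar) with hTl
  have hTle : ∀ s, 0 < s → s < c → Tl ≤ T s := fun s h1 h2 => left_lim_le h.hT hTlim h1 h2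
  have hexp := Real.exp_pos (2 * c)
  have hpoh : ∀ s, c - d1 < s → s < c → (al - br) ^ 2 ≤ 2 * T s ∧ 2 * Tl ≤ (a s - br) ^ 2 := by
    intro s h1 h2
    have hs0 : 0 < s := by linarith
    obtain ⟨s', h3, h4⟩ := exists_between h2
    obtain ⟨A, Tm, p1, p2, p3, p4, p5⟩ := h.hPoh s s' hs0 h3
    rw [hb s h1 (by linarith)] at p1
    rw [hb s' (by linarith) (by linarith)] at p2
    have q1 := hale s' (by linarith) h4
    have q2 := hTle s' (by linarith) h4
    constructor <;> nlinarith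
  apply le_antisymm
  · apply ge_of_tendsto (hTlim.const_mul 2)
    filter_upwards [hmem] with s hs
    exact (hpoh s hs.1 hs.2).1
  · apply ge_of_tendsto ((hal.sub_const br).pow 2)
    filter_upwards [hmem] with s hs
    exact (hpoh s hs.1 hs.2).2

/-- to the left of a point of `P`, as long as there is no point of `N = {V = -e^{2s}}` -/
theorem Prof.run (h : Prof V a b T C0 M0) {c d al br Tl : ℝ} (hd : 0 ≤ d) (hdc : d < c)
    (hVc : V c = Real.exp (2 * c)) (hal : br + Real.exp (2 * c) ≤ al)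
    (hNo : ∀ s ∈ Ioo d c, V s ≠ -Real.exp (2 * s))
    (hb : ∃ δ' > 0, ∀ s ∈ Ioo (c - δ') c, b s = br)
    (ha : Tendsto a (𝓝[<] c) (𝓝 al)) (hT : Tendsto T (𝓝[<] c) (𝓝 Tl)) :
    ∀ s ∈ Ioo d c, a s = al ∧ b s = br ∧ T s = Tl ∧
      V s = Real.exp (2 * c) - 2 * (al - br) * (c - s) := by
  have hc : 0 < c := by linarith
  have hcont := h.contAt hc
  have hVlim : Tendsto V (𝓝[<] c) (𝓝 (V c)) := hcont.tendsto.mono_left nhdsWithin_le_nhds
  obtain ⟨δ', hδ', hbδ⟩ := hb
  have hexp := Real.exp_pos (2 * c)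
  have hB : ∀ s ∈ Ioo d c, b s = br := by
    intro s hs
    obtain ⟨s', h1, h2⟩ := exists_between (max_lt hs.2 (by linarith : c - δ' < c))
    have h3 := (le_max_left _ _).trans_lt h1
    have h4 := (le_max_right _ _).trans_lt h1
    rw [h.hPb s s' (by linarith [hs.1]) h3.le (fun x hx => by
      have hx' : x ∈ Ioo d c := ⟨lt_of_lt_of_le hs.1 hx.1, lt_of_le_of_lt hx.2 h2⟩
      have := (abs_le.1 (h.hbar x (by linarith [hx'.1]))).1
      exact lt_of_le_of_ne this (Ne.symm (hNo x hx')))]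
    exact hbδ s' ⟨h4, h2⟩
  have hale : ∀ s, 0 < s → s < c → al ≤ a s := fun s h1 h2 => left_lim_le h.ha ha h1 h2
  have hlin : Tendsto (fun s' : ℝ => 2 * (al - br) * (c - s')) (𝓝[<] c) (𝓝 0) := by
    have h1 : Continuous (fun s' : ℝ => 2 * (al - br) * (c - s')) := by fun_prop
    have h2 := (h1.tendsto c).mono_left (nhdsWithin_le_nhds (s := Iio c))
    simpa using h2
  have hVup : ∀ s ∈ Ioo d c, V s ≤ Real.exp (2 * c) - 2 * (al - br) * (c - s) := by
    intro s hs
    have hs0 : 0 < s := by linarith [hs.1]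
    have h1 : V s + 2 * (al - br) * (c - s) ≤ V c + 0 := by
      apply le_of_tendsto_of_tendsto tendsto_const_nhds (hVlim.add hlin)
      filter_upwards [Ioo_mem_nhdsLT hs.2] with s' hs'
      have h2 := h.hVl s s' hs0 hs'.1
      rw [hB s hs] at h2
      have h3 := hale s' (by linarith [hs'.1]) hs'.2
      have h4 : 0 < s' - s := by linarith [hs'.1]
      nlinarith
    rw [hVc] at h1
    linarith
  have hlt : ∀ s ∈ Ioo d c, V s < Real.exp (2 * s) := by
    intro s hs
    have h1 := hVup s hs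
    have h2 : Real.exp (2 * s) = Real.exp (2 * c) * Real.exp (-(2 * (c - s))) := by
      rw [← Real.exp_add]; ring_nf
    have h3 := Real.add_one_lt_exp (x := -(2 * (c - s))) (by
      have := hs.2
      intro h0; linarith)
    rw [h2]
    have h4 : 0 < c - s := by linarith [hs.2]
    nlinarith
  have hA1 : ∀ s s', d < s → s ≤ s' → s' < c → a s = a s' := by
    intro s s' h1 h2 h3
    exact h.hPa s s' (by linarith) h2 (fun x hx => hlt x ⟨by linarith [hx.1], by linarith [hx.2]⟩)
  have hA : ∀ s ∈ Ioo d c, a s = al := by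
    intro s hs
    have h1 : Tendsto a (𝓝[<] c) (𝓝 (a s)) := by
      apply tendsto_const_nhds.congr'
      filter_upwards [Ioo_mem_nhdsLT hs.2] with s' hs'
      exact hA1 s s' hs.1 hs'.1.le hs'.2
    exact tendsto_nhds_unique h1 ha
  have hT1 : ∀ s s', d < s → s ≤ s' → s' < c → T s = T s' := by
    intro s s' h1 h2 h3
    have hs0 : 0 < s := by linarith
    have h4 := h.hTu s s' hs0 h2
    rw [hA s ⟨h1, by linarith⟩, hA s' ⟨by linarith, h3⟩, hB s ⟨h1, by linarith⟩,
      hB s' ⟨by linarith, h3⟩] at h4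
    have h5 := h.hT (mem_Ioi.2 hs0) (mem_Ioi.2 (by linarith)) h2
    simp only [sub_self, add_zero, mul_zero] at h4
    linarith
  have hTT : ∀ s ∈ Ioo d c, T s = Tl := by
    intro s hs
    have h1 : Tendsto T (𝓝[<] c) (𝓝 (T s)) := by
      apply tendsto_const_nhds.congr'
      filter_upwards [Ioo_mem_nhdsLT hs.2] with s' hs'
      exact hT1 s s' hs.1 hs'.1.le hs'.2
    exact tendsto_nhds_unique h1 hT
  intro s hs
  refine ⟨hA s hs, hB s hs, hTT s hs, ?_⟩
  have hs0 : 0 < s := by linarith [hs.1]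
  have h1 : Tendsto (fun s' => V s' + 2 * (al - br) * (c - s')) (𝓝[<] c) (𝓝 (V c + 0)) :=
    hVlim.add hlin
  have h2 : Tendsto (fun s' => V s' + 2 * (al - br) * (c - s')) (𝓝[<] c)
      (𝓝 (V s + 2 * (al - br) * (c - s))) := by
    apply tendsto_const_nhds.congr'
    filter_upwards [Ioo_mem_nhdsLT hs.2] with s' hs'
    have hs'2 : s' ∈ Ioo d c := ⟨hs.1.trans hs'.1, hs'.2⟩
    have e1 := h.hVl s s' hs0 hs'.1
    have e2 := h.hVu s s' hs0 hs'.1
    rw [hA s' hs'2, hB s hs] at e1
    rw [hA s hs, hB s' hs'2] at e2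
    linarith
  have h3 := tendsto_nhds_unique h1 h2
  rw [hVc] at h3
  linarith

end Pool.Agent.LE87
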