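import Pool.Agent.LE87.Cls1

set_option autoImplicit false

open Set Filter Topology

namespace Pool.Agent.LE87

variable {V a b T : ℝ → ℝ} {C0 M0 : ℝ}

/-- there is a point of `P` -/
theorem Prof.exists_P (h : Prof V a b T C0 M0) : ∃ s, 0 < s ∧ V s = Real.exp (2 * s) := by
  by_contra hcon
  push Not at hcon
  obtain ⟨s, hs, has⟩ := h.hapos
  obtain ⟨S, hS, hinf⟩ := h.hinf
  have h1 := h.hPa s (max s S) hs (le_max_left _ _) (fun x hx => by
    have hx0 : 0 < x := lt_of_lt_of_le hs hx.1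
    exact lt_of_le_of_ne (le_trans (le_abs_self _) (h.hbar x hx0)) (hcon x hx0))
  rw [h1, (hinf _ (le_max_right _ _)).1] at has
  exact lt_irrefl _ has

/-- the last point of `P` before `c` -/
theorem Prof.exists_last (h : Prof V a b T C0 M0) {c : ℝ}
    (hex : ∃ s, 0 < s ∧ s ≤ c ∧ V s = Real.exp (2 * s)) :
    ∃ m, 0 < m ∧ m ≤ c ∧ V m = Real.exp (2 * m) ∧
      ∀ s, m < s → s ≤ c → V s ≠ Real.exp (2 * s) := by
  obtain ⟨s, hs0, hsc, hVs⟩ := hex
  -- no point of `P` near `0`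
  have h1 : ∀ᶠ s in 𝓝[>] (0 : ℝ), V s < 1 := h.hV0.eventually (gt_mem_nhds one_pos)
  obtain ⟨α, hα, hα1⟩ := (mem_nhdsGT_iff_exists_Ioo_subset).1 h1
  have hα0 : (0 : ℝ) < α := hα
  have hnoP : ∀ x, 0 < x → x < α → V x ≠ Real.exp (2 * x) := by
    intro x hx0 hxα hV
    have h2 : V x < 1 := hα1 ⟨hx0, hxα⟩
    have h3 : 1 ≤ Real.exp (2 * x) := Real.one_le_exp (by linarith)
    linarith
  have hsα : α ≤ s := by
    by_contra h2
    exact hnoP s hs0 (not_le.1 h2) hVs
  have hcont : ContinuousOn (fun x => V x - Real.exp (2 * x)) (Icc α c) := by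
    apply ContinuousOn.sub
    · exact h.contOn.mono (fun x hx => lt_of_lt_of_le hα0 hx.1)
    · fun_prop
  have hcl : IsClosed (Icc α c ∩ (fun x => V x - Real.exp (2 * x)) ⁻¹' {0}) :=
    hcont.preimage_isClosed_of_isClosed isClosed_Icc isClosed_singleton
  have hcpt : IsCompact (Icc α c ∩ (fun x => V x - Real.exp (2 * x)) ⁻¹' {0}) :=
    isCompact_Icc.of_isClosed_subset hcl inter_subset_left
  obtain ⟨m, ⟨hmI, hm0⟩, hmax⟩ := hcpt.exists_isGreatest
    ⟨s, ⟨hsα, hsc⟩, by simp only [mem_preimage, mem_singleton_iff]; linarith⟩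
  have hm : V m = Real.exp (2 * m) := by
    simp only [mem_preimage, mem_singleton_iff] at hm0
    linarith
  refine ⟨m, lt_of_lt_of_le hα0 hmI.1, hmI.2, hm, fun x hmx hxc hVx => ?_⟩
  have := hmax ⟨⟨hmI.1.trans hmx.le, hxc⟩, by
    simp only [mem_preimage, mem_singleton_iff]; linarith⟩
  linarith

/-- points of `P` are bounded -/
theorem Prof.P_le (h : Prof V a b T C0 M0) {s : ℝ} (hs : 0 < s) (hV : V s = Real.exp (2 * s)) :
    s ≤ M0 := by
  have h1 := h.hbd s hs
  rw [hV, abs_of_pos (Real.exp_pos _)] at h1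
  have h2 := Real.add_one_le_exp (2 * s)
  linarith

/-- the arguments of the numerical contradiction -/
theorem cls_num {x M M' M'' : ℝ} (hx : 0 < x) (h4 : 4 * x = 1 + Real.exp (-(2 * x)))
    (hM : M = M' * Real.exp (2 * x)) (hM' : 1 ≤ M') (hM'' : 1 ≤ M'') :
    10 * Real.exp 1 < 2 * (M + M' + M'') ^ 2 := by
  have e1 := Real.exp_one_lt_d9
  have e2 := Real.exp_neg_one_gt_d9
  have h1 : Real.exp (-(2 * x)) ≤ 1 := Real.exp_le_one_iff.2 (by linarith)
  have h2 : x ≤ 1 / 2 := by linarith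
  have h3 : Real.exp (-1) ≤ Real.exp (-(2 * x)) := Real.exp_le_exp.2 (by linarith)
  have h5 : 0.341 ≤ x := by linarith
  have h6 := Real.quadratic_le_exp_of_nonneg (by linarith : 0 ≤ 2 * x)
  have h7 : 1.9 ≤ Real.exp (2 * x) := by nlinarith
  have h8 : 1.9 ≤ M := by rw [hM]; nlinarith
  have h9 : 3.9 ≤ M + M' + M'' := by linarith
  nlinarith

/-- the classification when the last point of `P ∪ N` is in `P` -/
theorem Prof.core (h : Prof V a b T C0 M0) (hC0 : C0 < 10 * Real.exp 1) {s1 s2 : ℝ}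
    (h2 : 0 < s2) (h21 : s2 < s1) (hV1 : V s1 = Real.exp (2 * s1))
    (hV2 : V s2 = -Real.exp (2 * s2)) (hP : ∀ s, s1 < s → V s ≠ Real.exp (2 * s))
    (hN : ∀ s, s2 < s → V s ≠ -Real.exp (2 * s)) :
    ∃ x s1 : ℝ, 0 < x ∧ 4 * x = 1 + Real.exp (-(2 * x)) ∧
      s1 = x + 1 / (4 * (1 + Real.exp (2 * x))) ∧
      (∀ s, 0 < s → |V s| ≤ Real.exp (2 * s1)) ∧ (∃ s, 0 < s ∧ |V s| = Real.exp (2 * s1)) := by
  have h1 : 0 < s1 := h2.trans h21
  obtain ⟨S, hS, hinf⟩ := h.hinf
  have hcont := h.contOn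
  -- right of `s1`
  have hr : ∀ s, s1 < s → a s = 0 ∧ b s = 0 ∧ T s = 0 := by
    intro s hs
    have hs0 : 0 < s := h1.trans hs
    obtain ⟨i1, i2, i3⟩ := hinf (max s S) (le_max_right _ _)
    have k1 := h.hPa s (max s S) hs0 (le_max_left _ _) (fun x hx => by
      have hx0 : 0 < x := lt_of_lt_of_le hs0 hx.1
      exact lt_of_le_of_ne (le_trans (le_abs_self _) (h.hbar x hx0))
        (hP x (lt_of_lt_of_le hs hx.1)))
    have k2 := h.hPb s (max s S) hs0 (le_max_left _ _) (fun x hx => by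
      have hx0 : 0 < x := lt_of_lt_of_le hs0 hx.1
      have := h.hbar x hx0
      rw [abs_le] at this
      exact lt_of_le_of_ne this.1 (Ne.symm (hN x (h21.trans (lt_of_lt_of_le hs hx.1)))))
    have k3 := h.hTu s (max s S) hs0 (le_max_left _ _)
    rw [i1] at k1
    rw [i2] at k2
    rw [k1, k2, i1, i2, i3] at k3
    have k4 := h.hT0 s hs0
    exact ⟨k1, k2, by linarith⟩
  have hVr : ∀ s s', s1 < s → s < s' → V s' = V s := by
    intro s s' hs hss
    have k1 := h.hVl s s' (h1.trans hs) hss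
    have k2 := h.hVu s s' (h1.trans hs) hss
    rw [(hr s' (hs.trans hss)).1, (hr s hs).2.1] at k1
    rw [(hr s hs).1, (hr s' (hs.trans hss)).2.1] at k2
    linarith
  have hVr1 : ∀ s, s1 < s → V s = Real.exp (2 * s1) := by
    intro s hs
    have c1 : Tendsto V (𝓝[>] s1) (𝓝 (V s1)) :=
      ((hcont.continuousAt (Ioi_mem_nhds h1)).tendsto).mono_left nhdsWithin_le_nhds
    have c2 : V =ᶠ[𝓝[>] s1] fun _ => V s := by
      filter_upwards [Ioo_mem_nhdsGT hs] with x hx
      exact (hVr x s hx.1 hx.2).symm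
    have c3 : Tendsto V (𝓝[>] s1) (𝓝 (V s)) := (tendsto_congr' c2).2 tendsto_const_nhds
    rw [← tendsto_nhds_unique c1 c3, hV1]
  -- the jump at `s1`
  obtain ⟨al, hal1, hal2, hal3, hal4, hal5⟩ := h.jump h1 hV1 one_pos
    (ar := 0) (br := 0) (Tr := 0) (fun s hs => hr s hs.1)
  set M := Real.exp (2 * s1) with hM
  have hMpos : 0 < M := Real.exp_pos _
  have hal : al = 2 * M := by
    have hal0 : al ≠ 0 := by
      intro h0
      rw [h0] at hal1
      linarith
    have k : al * (al - 2 * M) = 0 := by linarith [hal2]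
    rcases mul_eq_zero.1 k with k | k
    · exact absurd k hal0
    · linarith
  subst hal
  -- the run from `s1` to `s2`
  have hrun := h.run (c := s1) (d := s2) h2.le h21 hV1 hal1 (fun s hs => hN s hs.1) hal3 hal4 hal5
  have hV12 : ∀ s ∈ Ioo s2 s1, V s = M - 4 * M * (s1 - s) := by
    intro s hs
    rw [(hrun s hs).2.2.2]; ring
  -- continuity at `s2`
  have hx0 : -Real.exp (2 * s2) = M - 4 * M * (s1 - s2) := by
    have c1 : Tendsto V (𝓝[>] s2) (𝓝 (V s2)) :=
      ((hcont.continuousAt (Ioi_mem_nhds h2)).tendsto).mono_left nhdsWithin_le_nhds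
    have c2 : V =ᶠ[𝓝[>] s2] fun s => M - 4 * M * (s1 - s) := by
      filter_upwards [Ioo_mem_nhdsGT h21] with s hs
      exact hV12 s hs
    have c3 : Tendsto (fun s => M - 4 * M * (s1 - s)) (𝓝[>] s2) (𝓝 (M - 4 * M * (s1 - s2))) := by
      apply (Continuous.tendsto _ s2).mono_left nhdsWithin_le_nhds
      fun_prop
    rw [← hV2]
    exact tendsto_nhds_unique c1 ((tendsto_congr' c2).2 c3)
  set x := s1 - s2 with hx
  have hxpos : 0 < x := by linarith
  set M' := Real.exp (2 * s2) with hM'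
  have hM'pos : 0 < M' := Real.exp_pos _
  have hM'1 : 1 ≤ M' := Real.one_le_exp (by linarith)
  have hMM' : M = M' * Real.exp (2 * x) := by
    rw [hM, hM', ← Real.exp_add, hx]; ring_nf
  have h4x : 4 * x = 1 + Real.exp (-(2 * x)) := by
    have k1 : M' = M * Real.exp (-(2 * x)) := by
      rw [hM, hM', ← Real.exp_add, hx]; ring_nf
    have k2 : M * (4 * x) = M * (1 + Real.exp (-(2 * x))) := by linarith
    exact mul_left_cancel₀ hMpos.ne' k2
  have hM'M : M' ≤ M := by
    rw [hMM']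
    have : 1 ≤ Real.exp (2 * x) := Real.one_le_exp (by linarith)
    nlinarith
  -- the jump at `s2`
  have hn := h.neg
  obtain ⟨bl, hbl1, hbl2, hbl3, hbl4, hbl5⟩ := hn.jump h2 (by rw [hV2, neg_neg]) hxpos
    (ar := 0) (br := 2 * M) (Tr := 0 + M * (2 * M - 0)) (fun s hs => by
      have hs' : s ∈ Ioo s2 s1 := ⟨hs.1, by have := hs.2; rw [hx] at this; linarith⟩
      obtain ⟨k1, k2, k3, -⟩ := hrun s hs'
      exact ⟨k2, k1, k3⟩)
  rw [← hM'] at hbl1 hbl2 hbl5
  have hbl : bl = 4 * M + 2 * M' := by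
    have hbl0 : bl ≠ 0 := by
      intro h0
      rw [h0] at hbl1
      linarith
    have k : bl * (bl - (4 * M + 2 * M')) = 0 := by linarith [hbl2]
    rcases mul_eq_zero.1 k with k | k
    · exact absurd k hbl0
    · linarith
  subst hbl
  by_cases hB : ∃ s, 0 < s ∧ s ≤ s2 ∧ V s = Real.exp (2 * s)
  · -- case B
    exfalso
    obtain ⟨s3, h3, h32, hV3, hP3⟩ := h.exists_last hB
    have h32' : s3 < s2 := by
      rcases h32.lt_or_eq with k | k
      · exact k
      · exfalso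
        rw [k, hV2] at hV3
        linarith
    have hrun2 := hn.run (c := s2) (d := s3) h3.le h32' (by rw [hV2, neg_neg]) hbl1
      (fun s hs he => hP3 s hs.1 hs.2.le (by linarith)) hbl3 hbl4 hbl5
    obtain ⟨cl, hcl1, hcl2, hcl3, hcl4, hcl5⟩ := h.jump h3 hV3 (by linarith : 0 < s2 - s3)
      (ar := 2 * M) (br := 4 * M + 2 * M') (Tr := 0 + M * (2 * M - 0) + M' * (4 * M + 2 * M' - 0))
      (fun s hs => by
        have hs' : s ∈ Ioo s3 s2 := ⟨hs.1, by linarith [hs.2]⟩
        obtain ⟨k1, k2, k3, -⟩ := hrun2 s hs'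
        exact ⟨k2, k1, k3⟩)
    set M'' := Real.exp (2 * s3) with hM''
    have hM''1 : 1 ≤ M'' := Real.one_le_exp (by linarith)
    have hcl : cl = 2 * M + 4 * (M + M') + 2 * M'' := by
      have hne : cl - 2 * M ≠ 0 := by
        intro h0
        linarith
      have k : (cl - 2 * M) * (cl - (2 * M + 4 * (M + M') + 2 * M'')) = 0 := by
        linarith [hcl2]
      rcases mul_eq_zero.1 k with k | k
      · exact absurd k hne
      · linarith
    subst hcl
    have hle : 0 + M * (2 * M - 0) + M' * (4 * M + 2 * M' - 0) +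
        M'' * (2 * M + 4 * (M + M') + 2 * M'' - 2 * M) ≤ C0 := by
      apply le_of_tendsto hcl5
      filter_upwards [Ioo_mem_nhdsLT h3] with s hs
      exact h.hTC s hs.1
    have hnum := cls_num hxpos h4x hMM' hM'1 hM''1
    nlinarith
  · -- case A
    push Not at hB
    have hrun2 := hn.run (c := s2) (d := 0) le_rfl h2 (by rw [hV2, neg_neg]) hbl1
      (fun s hs he => hB s hs.1 hs.2.le (by linarith)) hbl3 hbl4 hbl5
    have hV02 : ∀ s ∈ Ioo 0 s2, V s = 4 * (M + M') * (s2 - s) - M' := by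
      intro s hs
      have := (hrun2 s hs).2.2.2
      rw [← hM'] at this
      linarith
    have hs2 : 4 * (M + M') * s2 - M' = 0 := by
      have c2 : V =ᶠ[𝓝[>] 0] fun s => 4 * (M + M') * (s2 - s) - M' := by
        filter_upwards [Ioo_mem_nhdsGT h2] with s hs
        exact hV02 s hs
      have c3 : Tendsto (fun s => 4 * (M + M') * (s2 - s) - M') (𝓝[>] 0)
          (𝓝 (4 * (M + M') * (s2 - 0) - M')) := by
        apply (Continuous.tendsto _ 0).mono_left nhdsWithin_le_nhds
        fun_prop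
      have := tendsto_nhds_unique h.hV0 ((tendsto_congr' c2).2 c3)
      rw [sub_zero] at this
      exact this.symm
    refine ⟨x, s1, hxpos, h4x, ?_, ?_, s1, h1, ?_⟩
    · have hE : 0 < Real.exp (2 * x) := Real.exp_pos _
      have k1 : 4 * (M' * Real.exp (2 * x) + M') * s2 = M' := by rw [← hMM']; linarith
      have k2 : s2 = 1 / (4 * (1 + Real.exp (2 * x))) := by
        rw [eq_div_iff (by positivity)]
        have k3 : M' * (s2 * (4 * (1 + Real.exp (2 * x)))) = M' * 1 := by linarith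
        exact mul_left_cancel₀ hM'pos.ne' k3
      rw [← k2, hx]; ring
    · intro s hs
      rcases lt_trichotomy s s2 with k | k | k
      · rw [hV02 s ⟨hs, k⟩, abs_le]
        have k1 : 4 * (M + M') * (s2 - s) - M' = -(4 * (M + M') * s) := by linarith
        have k2 : 0 ≤ 4 * (M + M') * s := by positivity
        have k3 : 4 * (M + M') * s ≤ 4 * (M + M') * s2 :=
          mul_le_mul_of_nonneg_left k.le (by positivity)
        rw [k1]
        constructor <;> linarith
      · rw [k, hV2, abs_neg, abs_of_pos (Real.exp_pos _)]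
        exact hM'M
      · rcases lt_trichotomy s s1 with l | l | l
        · rw [hV12 s ⟨k, l⟩, abs_le]
          have k2 : 4 * M * (s1 - s) ≤ 4 * M * x :=
            mul_le_mul_of_nonneg_left (by rw [hx]; linarith) (by positivity)
          have k3 : 0 ≤ 4 * M * (s1 - s) := mul_nonneg (by positivity) (by linarith)
          constructor <;> linarith
        · rw [l, hV1, abs_of_pos (Real.exp_pos _)]
        · rw [hVr1 s l, abs_of_pos (Real.exp_pos _)]
    · rw [hV1, abs_of_pos (Real.exp_pos _)]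

theorem Prof.main (h : Prof V a b T C0 M0) (hC0 : C0 < 10 * Real.exp 1) :
    ∃ x s1 : ℝ, 0 < x ∧ 4 * x = 1 + Real.exp (-(2 * x)) ∧
      s1 = x + 1 / (4 * (1 + Real.exp (2 * x))) ∧
      (∀ s, 0 < s → |V s| ≤ Real.exp (2 * s1)) ∧ (∃ s, 0 < s ∧ |V s| = Real.exp (2 * s1)) := by
  have hn := h.neg
  obtain ⟨p, hp, hVp⟩ := h.exists_P
  obtain ⟨n, hn0, hVn⟩ := hn.exists_P
  obtain ⟨p1, hp1, -, hVp1, hlp⟩ := h.exists_last ⟨p, hp, h.P_le hp hVp, hVp⟩
  obtain ⟨n1, hn1, -, hVn1, hln⟩ := hn.exists_last ⟨n, hn0, hn.P_le hn0 hVn, hVn⟩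
  have hlp' : ∀ s, p1 < s → V s ≠ Real.exp (2 * s) := fun s hs he =>
    hlp s hs (h.P_le (hp1.trans hs) he) he
  have hln' : ∀ s, n1 < s → -V s ≠ Real.exp (2 * s) := fun s hs he =>
    hln s hs (hn.P_le (hn1.trans hs) he) he
  have hne : n1 ≠ p1 := by
    intro he
    rw [he] at hVn1
    have := Real.exp_pos (2 * p1)
    linarith
  rcases lt_or_gt_of_ne hne with hlt | hlt
  · exact h.core hC0 hn1 hlt hVp1 (by linarith) hlp' (fun s hs he => hln' s hs (by linarith))
  · have := hn.core hC0 hp1 hlt hVn1 (by linarith) (fun s hs => hln' s hs)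
      (fun s hs he => hlp' s hs (by linarith))
    simpa only [abs_neg] using this

end Pool.Agent.LE87
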