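import Pool.Agent.LE87.Cls2

set_option autoImplicit false

open Set Filter Topology

namespace Pool.Agent.LE87

/-! ## Module G (classification of the limit profile) -/

theorem classify (V a b T : ℝ → ℝ) (C0 M0 : ℝ) (hC0 : C0 < 10 * Real.exp 1)
    (ha0 : ∀ s, 0 < s → 0 ≤ a s) (hb0 : ∀ s, 0 < s → 0 ≤ b s)
    (hT0 : ∀ s, 0 < s → 0 ≤ T s) (hTC : ∀ s, 0 < s → T s ≤ C0)
    (ha : AntitoneOn a (Ioi 0)) (hb : AntitoneOn b (Ioi 0)) (hT : AntitoneOn T (Ioi 0))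
    (hVl : ∀ s s', 0 < s → s < s' → 2 * (a s' - b s) * (s' - s) ≤ V s' - V s)
    (hVu : ∀ s s', 0 < s → s < s' → V s' - V s ≤ 2 * (a s - b s') * (s' - s))
    (hbar : ∀ s, 0 < s → |V s| ≤ Real.exp (2 * s))
    (hV0 : Tendsto V (𝓝[>] 0) (𝓝 0))
    (hbd : ∀ s, 0 < s → |V s| ≤ M0)
    (hPa : ∀ s s', 0 < s → s ≤ s' → (∀ x ∈ Icc s s', V x < Real.exp (2 * x)) → a s = a s')
    (hPb : ∀ s s', 0 < s → s ≤ s' → (∀ x ∈ Icc s s', -Real.exp (2 * x) < V x) → b s = b s')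
    (hTu : ∀ s s', 0 < s → s ≤ s' → T s - T s' ≤ M0 * ((a s - a s') + (b s - b s')))
    (hTa : ∀ s s' v ε, 0 < s → s ≤ s' → 0 < v - ε →
      (∀ x ∈ Icc s s', v - ε ≤ V x ∧ V x ≤ v + ε) →
      (v - ε) * (a s - a s') ≤ T s - T s' ∧ T s - T s' ≤ (v + ε) * (a s - a s'))
    (hTb : ∀ s s' v ε, 0 < s → s ≤ s' → 0 < v - ε →
      (∀ x ∈ Icc s s', v - ε ≤ -V x ∧ -V x ≤ v + ε) →
      (v - ε) * (b s - b s') ≤ T s - T s' ∧ T s - T s' ≤ (v + ε) * (b s - b s'))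
    (hPoh : ∀ s s', 0 < s → s < s' → ∃ A Tm : ℝ, a s' - b s ≤ A ∧ A ≤ a s - b s' ∧
      T s' ≤ Tm ∧ Tm ≤ T s ∧ A ^ 2 = 2 * Tm)
    (hinf : ∃ S, 0 < S ∧ ∀ s, S ≤ s → a s = 0 ∧ b s = 0 ∧ T s = 0)
    (hapos : ∃ s, 0 < s ∧ 0 < a s) (hbpos : ∃ s, 0 < s ∧ 0 < b s) :
    ∃ x s1 : ℝ, 0 < x ∧ 4 * x = 1 + Real.exp (-(2 * x)) ∧
      s1 = x + 1 / (4 * (1 + Real.exp (2 * x))) ∧
      (∀ s, 0 < s → |V s| ≤ Real.exp (2 * s1)) ∧ (∃ s, 0 < s ∧ |V s| = Real.exp (2 * s1)) := by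
  have h : Prof V a b T C0 M0 :=
    { ha0 := ha0, hb0 := hb0, hT0 := hT0, hTC := hTC, ha := ha, hb := hb, hT := hT, hVl := hVl,
      hVu := hVu, hbar := hbar, hV0 := hV0, hbd := hbd, hPa := hPa, hPb := hPb, hTu := hTu,
      hTa := hTa, hTb := hTb, hPoh := hPoh, hinf := hinf, hapos := hapos, hbpos := hbpos }
  exact h.main hC0

end Pool.Agent.LE87
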