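import Pool.Agent.LE87.LimN

set_option autoImplicit false

open Complex MeasureTheory Set Filter Topology Metric
open scoped Real Laplacian

namespace Pool.Agent.LE87

/-! ### the constant -/

theorem root_exists : ∃ x : ℝ, 0 < x ∧ 4 * x = 1 + Real.exp (-(2 * x)) := by
  have hc : ContinuousOn (fun x : ℝ => 4 * x - Real.exp (-(2 * x))) (Icc 0 1) := by fun_prop
  have h := intermediate_value_Icc (zero_le_one) hc
  have h1 : (1 : ℝ) ∈ Icc (4 * (0 : ℝ) - Real.exp (-(2 * 0))) (4 * (1 : ℝ) - Real.exp (-(2 * 1))) := by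
    constructor
    · simp
    · have : Real.exp (-(2 * 1)) ≤ 1 := Real.exp_le_one_iff.2 (by norm_num)
      linarith
  obtain ⟨x, hx, he⟩ := h h1
  simp only at he
  refine ⟨x, ?_, by linarith⟩
  have := Real.exp_pos (-(2 * x))
  linarith

theorem root_unique {x y : ℝ} (hx : 4 * x = 1 + Real.exp (-(2 * x)))
    (hy : 4 * y = 1 + Real.exp (-(2 * y))) : x = y := by
  rcases lt_trichotomy x y with h | h | h
  · have : Real.exp (-(2 * y)) < Real.exp (-(2 * x)) := Real.exp_lt_exp.2 (by linarith)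
    linarith
  · exact h
  · have : Real.exp (-(2 * x)) < Real.exp (-(2 * y)) := Real.exp_lt_exp.2 (by linarith)
    linarith

theorem sqrt_e_lt {x s : ℝ} (hx : 4 * x = 1 + Real.exp (-(2 * x)))
    (hs : s = x + 1 / (4 * (1 + Real.exp (2 * x)))) :
    Real.sqrt (Real.exp 1) < Real.exp (2 * s) := by
  have h1 := Real.exp_pos (-(2 * x))
  have h2 : 0 < 1 / (4 * (1 + Real.exp (2 * x))) := by positivity
  have h3 : Real.sqrt (Real.exp 1) = Real.exp (1 / 2) := by
    rw [show Real.exp 1 = Real.exp (1 / 2) ^ 2 by rw [← Real.exp_nat_mul]; norm_num]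
    exact Real.sqrt_sq (Real.exp_pos _).le
  rw [h3]
  apply Real.exp_lt_exp.2
  linarith

theorem t_bounds {t : ℝ} (ht : 4 * t = 1 + Real.exp (-(2 * t))) :
    (0.3694 : ℝ) < t ∧ t < 0.3695 := by
  constructor
  · by_contra h
    push Not at h
    have h1 : Real.exp (-0.7388) ≤ Real.exp (-(2 * t)) := Real.exp_le_exp.2 (by linarith)
    have h2 := Real.exp_bound' (x := 0.7388) (by norm_num) (by norm_num) (n := 9) (by norm_num)
    have h3 : Real.exp 0.7388 < 2.0937 := by
      refine lt_of_le_of_lt h2 ?_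
      norm_num [Finset.sum_range_succ, Nat.factorial]
    have h4 : (0.4776 : ℝ) < Real.exp (-0.7388) := by
      rw [Real.exp_neg, lt_inv_comm₀ (by norm_num) (Real.exp_pos _)]
      refine lt_trans h3 (by norm_num)
    linarith
  · by_contra h
    push Not at h
    have h1 : Real.exp (-(2 * t)) ≤ Real.exp (-0.739) := Real.exp_le_exp.2 (by linarith)
    have h2 := Real.sum_le_exp_of_nonneg (x := 0.739) (by norm_num) 9
    have h3 : 2.093 < Real.exp 0.739 := by
      refine lt_of_lt_of_le ?_ h2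
      norm_num [Finset.sum_range_succ, Nat.factorial]
    have h4 : Real.exp (-0.739) < 0.478 := by
      rw [Real.exp_neg, inv_lt_comm₀ (Real.exp_pos _) (by norm_num)]
      refine lt_trans (by norm_num) h3
    linarith

theorem A_bounds {t s : ℝ} (ht : 4 * t = 1 + Real.exp (-(2 * t)))
    (hs : s = t + 1 / (4 * (1 + Real.exp (2 * t)))) :
    2.46 < Real.exp (2 * s) ∧ Real.exp (2 * s) < 2.47 := by
  obtain ⟨h1, h2⟩ := t_bounds ht
  have he : Real.exp (2 * t) * (4 * t - 1) = 1 := by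
    have : 4 * t - 1 = Real.exp (-(2 * t)) := by linarith
    rw [this, ← Real.exp_add]; simp
  have hE : Real.exp (2 * t) = 1 / (4 * t - 1) := by
    rw [eq_div_iff (by linarith), he]
  have hs' : s = t + 1 / 4 - 1 / (16 * t) := by
    rw [hs, hE]
    have n1 : (4 * t - 1) ≠ 0 := by linarith
    have n2 : t ≠ 0 := by linarith
    have e : 1 + 1 / (4 * t - 1) = 4 * t / (4 * t - 1) := by
      rw [eq_div_iff n1, add_mul, div_mul_cancel₀ _ n1]; ring
    rw [e]
    have e2 : 1 / (4 * (4 * t / (4 * t - 1))) = (4 * t - 1) / (16 * t) := by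
      rw [← mul_div_assoc, one_div_div]; ring
    rw [e2]
    field_simp
    ring
  have hinv1 : 1 / (16 * t) < 1 / (16 * 0.3694) := by
    apply one_div_lt_one_div_of_lt (by norm_num); linarith
  have hinv2 : 1 / (16 * 0.3695) < 1 / (16 * t) := by
    apply one_div_lt_one_div_of_lt (by linarith); linarith
  have hlo : (0.9004 : ℝ) < 2 * s := by
    have : (1 : ℝ) / (16 * 0.3694) < 0.1692 := by norm_num
    rw [hs']; linarith
  have hhi : 2 * s < 0.902 := by
    have : (0.169 : ℝ) < 1 / (16 * 0.3695) := by norm_num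
    rw [hs']; linarith
  constructor
  · have a1 : Real.exp 0.9004 < Real.exp (2 * s) := Real.exp_lt_exp.2 hlo
    have a2 := Real.sum_le_exp_of_nonneg (x := 0.9004) (by norm_num) 10
    have a3 : (2.46 : ℝ) < Real.exp 0.9004 := by
      refine lt_of_lt_of_le ?_ a2
      norm_num [Finset.sum_range_succ, Nat.factorial]
    linarith
  · have a1 : Real.exp (2 * s) < Real.exp 0.902 := Real.exp_lt_exp.2 hhi
    have a2 := Real.exp_bound' (x := 0.902) (by norm_num) (by norm_num) (n := 9) (by norm_num)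
    have a3 : Real.exp 0.902 < 2.47 := by
      refine lt_of_le_of_lt a2 ?_
      norm_num [Finset.sum_range_succ, Nat.factorial]
    linarith

/-! ### Mathlib's Laplacian -/

theorem lap_eq_laplacian {Ω : Set ℂ} {u : ℂ → ℝ} (hΩ : IsOpen Ω) (hu : ContDiffOn ℝ 2 u Ω) {z : ℂ}
    (hz : z ∈ Ω) : lap u z = Δ u z := by
  have hc : ContDiffAt ℝ 2 u z := hu.contDiffAt (hΩ.mem_nhds hz)
  have hd : DifferentiableAt ℝ (fderiv ℝ u) z :=
    (hc.fderiv_right (m := 1) (by norm_num)).differentiableAt (by norm_num)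
  have key : ∀ v : ℂ, fderiv ℝ (fun w => fderiv ℝ u w v) z v = iteratedFDeriv ℝ 2 u z ![v, v] := by
    intro v
    rw [iteratedFDeriv_two_apply]
    have h := hd.hasFDerivAt.clm_apply (hasFDerivAt_const v z)
    rw [h.fderiv]
    simp
  rw [InnerProductSpace.laplacian_eq_iteratedFDeriv_complexPlane]
  unfold lap
  rw [key 1, key Complex.I]

/-! ### rotations -/

theorem zt_pow_k (k : ℕ) (hk : 0 < k) : zt k ^ k = 1 := by
  unfold zt
  rw [← Complex.exp_nat_mul]
  have : (k : ℂ) ≠ 0 := by exact_mod_cast hk.ne'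
  rw [show (k : ℂ) * (2 * π * Complex.I / k) = 2 * π * Complex.I by field_simp]
  exact Complex.exp_two_pi_mul_I

theorem rot_iter {Ω : Set ℂ} {ζ : ℂ} (h : ∀ z ∈ Ω, ζ * z ∈ Ω) (n : ℕ) {z : ℂ} (hz : z ∈ Ω) :
    ζ ^ n * z ∈ Ω := by
  induction n with
  | zero => simpa using hz
  | succ n ih =>
    have := h _ ih
    rwa [← mul_assoc, ← pow_succ'] at this

theorem rot_back {Ω : Set ℂ} {k : ℕ} (hk : 0 < k) (h : ∀ z ∈ Ω, zt k * z ∈ Ω) {z : ℂ}
    (hz : zt k * z ∈ Ω) : z ∈ Ω := by
  have := rot_iter h (k - 1) hz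
  rwa [← mul_assoc, ← pow_succ, Nat.sub_add_cancel hk, zt_pow_k k hk, one_mul] at this

end Pool.Agent.LE87
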