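import Pool.Agent.LE87.ClsG

set_option autoImplicit false

open Complex MeasureTheory Set Filter Topology Metric
open scoped Real

namespace Pool.Agent.LE87

namespace LM

/-- bounded functions converge along an ultrafilter -/
theorem ulim {ι : Type*} (U : Ultrafilter ι) {f : ι → ℝ} {m M : ℝ}
    (h : ∀ᶠ i in (U : Filter ι), m ≤ f i ∧ f i ≤ M) :
    ∃ L, Tendsto f (U : Filter ι) (𝓝 L) := by
  have h1 : (↑(U.map f) : Filter ℝ) ≤ 𝓟 (Icc m M) := by
    rw [le_principal_iff]
    exact h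
  obtain ⟨x, _, hx⟩ := isCompact_iff_ultrafilter_le_nhds.1 (isCompact_Icc (a := m) (b := M)) _ h1
  exact ⟨x, hx⟩

/-- uniform convergence of equi-Lipschitz functions on a compact interval -/
theorem unif {ι : Type*} {l : Filter ι} {f : ι → ℝ → ℝ} {g : ℝ → ℝ} {s0 S K η : ℝ}
    (hK : 0 ≤ K) (hη : 0 < η)
    (hf : ∀ᶠ i in l, ∀ s s', s0 ≤ s → s ≤ s' → |f i s' - f i s| ≤ K * (s' - s))
    (hg : ∀ s s', s0 ≤ s → s ≤ s' → |g s' - g s| ≤ K * (s' - s))
    (hlim : ∀ s, s0 ≤ s → Tendsto (fun i => f i s) l (𝓝 (g s))) :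
    ∀ᶠ i in l, ∀ x ∈ Icc s0 S, |f i x - g x| ≤ η := by
  obtain ⟨h, hh⟩ : ∃ h, h = η / (4 * (K + 1)) := ⟨_, rfl⟩
  have hpos : 0 < h := by rw [hh]; positivity
  have hKh : K * h ≤ η / 4 := by
    rw [hh]
    have : K * (η / (4 * (K + 1))) = (K / (K + 1)) * (η / 4) := by field_simp
    rw [this]
    have h1 : K / (K + 1) ≤ 1 := by rw [div_le_one (by linarith)]; linarith
    nlinarith
  have h1 : ∀ᶠ i in l, ∀ j ∈ Finset.range (⌊(S - s0) / h⌋₊ + 1),
      |f i (s0 + j * h) - g (s0 + j * h)| ≤ η / 2 := by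
    rw [Filter.eventually_all_finset]
    intro j _
    have hj : s0 ≤ s0 + j * h := by
      have : 0 ≤ (j : ℝ) * h := by positivity
      linarith
    have h2 := hlim _ hj
    have h3 := Metric.tendsto_nhds.1 h2 (η / 2) (by positivity)
    filter_upwards [h3] with i hi
    rw [Real.dist_eq] at hi
    exact hi.le
  filter_upwards [h1, hf] with i hi hfi x hx
  obtain ⟨j, hj⟩ : ∃ j, j = ⌊(x - s0) / h⌋₊ := ⟨_, rfl⟩
  have hx0 : 0 ≤ (x - s0) / h := div_nonneg (by linarith [hx.1]) hpos.le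
  have hjr : j ∈ Finset.range (⌊(S - s0) / h⌋₊ + 1) := by
    rw [Finset.mem_range, hj]
    apply Nat.lt_succ_of_le
    apply Nat.floor_le_floor
    apply div_le_div_of_nonneg_right _ hpos.le
    linarith [hx.2]
  have h2 := hi j hjr
  have h3 : (j : ℝ) * h ≤ x - s0 := by
    have := Nat.floor_le hx0
    rw [← hj, le_div_iff₀ hpos] at this
    exact this
  have h4 : x - s0 < (j : ℝ) * h + h := by
    have := Nat.lt_floor_add_one ((x - s0) / h)
    rw [← hj, div_lt_iff₀ hpos] at this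
    linarith
  have hj0 : 0 ≤ (j : ℝ) * h := by positivity
  have h5 := hfi (s0 + j * h) x (by linarith) (by linarith)
  have h6 := hg (s0 + j * h) x (by linarith) (by linarith)
  have h7 : K * (x - (s0 + j * h)) ≤ K * h := mul_le_mul_of_nonneg_left (by linarith) hK
  rw [abs_le] at h2 h5 h6 ⊢
  constructor <;> linarith [h2.1, h2.2, h5.1, h5.2, h6.1, h6.2]

end LM

/-- Module M: the limit along an ultrafilter (pure real analysis; uses `classify`). -/
theorem limit_abstract {ι : Type*} (𝒰 : Ultrafilter ι) (V a b ta tb : ι → ℝ → ℝ) (C0 M0 : ℝ)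
    (hC0 : C0 < 10 * Real.exp 1)
    (h0 : ∀ᶠ i in (𝒰 : Filter ι), ∀ s, 0 ≤ a i s ∧ 0 ≤ b i s ∧ 0 ≤ ta i s ∧ 0 ≤ tb i s)
    (hT : ∀ᶠ i in (𝒰 : Filter ι), ∀ s, ta i s + tb i s ≤ C0)
    (hab : ∀ᶠ i in (𝒰 : Filter ι), ∀ s, a i s + b i s ≤ M0)
    (hanti : ∀ᶠ i in (𝒰 : Filter ι),
      Antitone (a i) ∧ Antitone (b i) ∧ Antitone (ta i) ∧ Antitone (tb i))
    (hsl : ∀ s0 > 0, ∀ᶠ i in (𝒰 : Filter ι), ∀ s s', s0 ≤ s → s ≤ s' →
      2 * (a i s' - b i s) * (s' - s) ≤ V i s' - V i s ∧
      V i s' - V i s ≤ 2 * (a i s - b i s') * (s' - s))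
    (hbar : ∀ s0 > 0, ∀ ε > 0, ∀ᶠ i in (𝒰 : Filter ι), ∀ s, s0 ≤ s →
      |V i s| ≤ Real.exp (2 * s) + ε)
    (hsm : ∀ ε > 0, ∃ sb > 0, ∀ s, 0 < s → s ≤ sb → ∀ᶠ i in (𝒰 : Filter ι), |V i s| ≤ ε)
    (hbd : ∀ s, 0 < s → ∀ᶠ i in (𝒰 : Filter ι), |V i s| ≤ M0)
    (hPa : ∀ s0 > 0, ∀ S, ∀ η > 0, ∀ ε > 0, ∀ᶠ i in (𝒰 : Filter ι), ∀ s s', s0 ≤ s → s ≤ s' →
      s' ≤ S → (∀ x ∈ Icc s s', V i x ≤ Real.exp (2 * x) - η) → a i s - a i s' ≤ ε)
    (hPb : ∀ s0 > 0, ∀ S, ∀ η > 0, ∀ ε > 0, ∀ᶠ i in (𝒰 : Filter ι), ∀ s s', s0 ≤ s → s ≤ s' →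
      s' ≤ S → (∀ x ∈ Icc s s', -V i x ≤ Real.exp (2 * x) - η) → b i s - b i s' ≤ ε)
    (hTu : ∀ᶠ i in (𝒰 : Filter ι), ∀ s s', s ≤ s' →
      ta i s - ta i s' ≤ M0 * (a i s - a i s') ∧ tb i s - tb i s' ≤ M0 * (b i s - b i s'))
    (hTa : ∀ s0 > 0, ∀ ε > 0, ∀ᶠ i in (𝒰 : Filter ι), ∀ s s' v w, s0 ≤ s → s ≤ s' → 0 < v - ε →
      (∀ x ∈ Icc s s', v ≤ V i x ∧ V i x ≤ w) →
      (v - ε) * (a i s - a i s') ≤ ta i s - ta i s' ∧
      ta i s - ta i s' ≤ (w + ε) * (a i s - a i s') ∧ tb i s = tb i s')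
    (hTb : ∀ s0 > 0, ∀ ε > 0, ∀ᶠ i in (𝒰 : Filter ι), ∀ s s' v w, s0 ≤ s → s ≤ s' → 0 < v - ε →
      (∀ x ∈ Icc s s', v ≤ -V i x ∧ -V i x ≤ w) →
      (v - ε) * (b i s - b i s') ≤ tb i s - tb i s' ∧
      tb i s - tb i s' ≤ (w + ε) * (b i s - b i s') ∧ ta i s = ta i s')
    (hPoh : ∀ s s' ε, 0 < s → s < s' → 0 < ε → ∀ᶠ i in (𝒰 : Filter ι),
      ∃ σ ∈ Icc s s', |(a i σ - b i σ) ^ 2 - 2 * (ta i σ + tb i σ)| ≤ ε)
    (hinf : ∃ S > 0, ∀ ε > 0, ∀ᶠ i in (𝒰 : Filter ι), ∀ s, S ≤ s →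
      a i s ≤ ε ∧ b i s ≤ ε ∧ ta i s ≤ ε ∧ tb i s ≤ ε)
    (hapos : ∃ s > 0, ∃ c > 0, ∀ᶠ i in (𝒰 : Filter ι), c ≤ a i s)
    (hbpos : ∃ s > 0, ∃ c > 0, ∀ᶠ i in (𝒰 : Filter ι), c ≤ b i s) :
    ∃ x s1 : ℝ, 0 < x ∧ 4 * x = 1 + Real.exp (-(2 * x)) ∧
      s1 = x + 1 / (4 * (1 + Real.exp (2 * x))) ∧
      (∀ s0 > 0, ∀ S, ∀ δ > 0, ∀ᶠ i in (𝒰 : Filter ι), ∀ s ∈ Icc s0 S,
        |V i s| ≤ Real.exp (2 * s1) + δ) ∧
      (∃ s > 0, ∀ δ > 0, ∀ᶠ i in (𝒰 : Filter ι), Real.exp (2 * s1) - δ ≤ |V i s|) := by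
  have hM0 : 0 ≤ M0 := by
    obtain ⟨i, h1, h2⟩ := (h0.and hab).exists
    have := h1 0
    have := h2 0
    linarith
  -- the limits
  have eV : ∀ s, ∃ L, 0 < s → Tendsto (fun i => V i s) (𝒰 : Filter ι) (𝓝 L) := by
    intro s
    by_cases hs : 0 < s
    · obtain ⟨L, hL⟩ := LM.ulim 𝒰 (f := fun i => V i s) (m := -M0) (M := M0) (by
        filter_upwards [hbd s hs] with i hi
        exact abs_le.1 hi)
      exact ⟨L, fun _ => hL⟩
    · exact ⟨0, fun h => absurd h hs⟩
  have ea : ∀ s, ∃ L, Tendsto (fun i => a i s) (𝒰 : Filter ι) (𝓝 L) := fun s =>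
    LM.ulim 𝒰 (m := 0) (M := M0) (by
      filter_upwards [h0, hab] with i h1 h2
      have := h1 s; have := h2 s
      constructor <;> linarith)
  have eb : ∀ s, ∃ L, Tendsto (fun i => b i s) (𝒰 : Filter ι) (𝓝 L) := fun s =>
    LM.ulim 𝒰 (m := 0) (M := M0) (by
      filter_upwards [h0, hab] with i h1 h2
      have := h1 s; have := h2 s
      constructor <;> linarith)
  have eta : ∀ s, ∃ L, Tendsto (fun i => ta i s) (𝒰 : Filter ι) (𝓝 L) := fun s =>
    LM.ulim 𝒰 (m := 0) (M := C0) (by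
      filter_upwards [h0, hT] with i h1 h2
      have := h1 s; have := h2 s
      constructor <;> linarith)
  have etb : ∀ s, ∃ L, Tendsto (fun i => tb i s) (𝒰 : Filter ι) (𝓝 L) := fun s =>
    LM.ulim 𝒰 (m := 0) (M := C0) (by
      filter_upwards [h0, hT] with i h1 h2
      have := h1 s; have := h2 s
      constructor <;> linarith)
  choose W hW using eV
  choose A hA using ea
  choose B hB using eb
  choose Ta hTa' using eta
  choose Tb hTb' using etb
  have hTT : ∀ s, Tendsto (fun i => ta i s + tb i s) (𝒰 : Filter ι) (𝓝 (Ta s + Tb s)) :=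
    fun s => (hTa' s).add (hTb' s)
  -- simple facts
  have A0 : ∀ s, 0 ≤ A s := fun s => ge_of_tendsto (hA s) (by
    filter_upwards [h0] with i h1; exact (h1 s).1)
  have B0 : ∀ s, 0 ≤ B s := fun s => ge_of_tendsto (hB s) (by
    filter_upwards [h0] with i h1; exact (h1 s).2.1)
  have Ta0 : ∀ s, 0 ≤ Ta s := fun s => ge_of_tendsto (hTa' s) (by
    filter_upwards [h0] with i h1; exact (h1 s).2.2.1)
  have Tb0 : ∀ s, 0 ≤ Tb s := fun s => ge_of_tendsto (hTb' s) (by
    filter_upwards [h0] with i h1; exact (h1 s).2.2.2)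
  have TC : ∀ s, Ta s + Tb s ≤ C0 := fun s => le_of_tendsto (hTT s) (by
    filter_upwards [hT] with i h1; exact h1 s)
  have AB : ∀ s, A s + B s ≤ M0 := fun s => le_of_tendsto ((hA s).add (hB s)) (by
    filter_upwards [hab] with i h1; exact h1 s)
  have Aanti : Antitone A := fun s s' h => le_of_tendsto_of_tendsto (hA s') (hA s) (by
    filter_upwards [hanti] with i h1; exact h1.1 h)
  have Banti : Antitone B := fun s s' h => le_of_tendsto_of_tendsto (hB s') (hB s) (by
    filter_upwards [hanti] with i h1; exact h1.2.1 h)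
  have Taanti : Antitone Ta := fun s s' h => le_of_tendsto_of_tendsto (hTa' s') (hTa' s) (by
    filter_upwards [hanti] with i h1; exact h1.2.2.1 h)
  have Tbanti : Antitone Tb := fun s s' h => le_of_tendsto_of_tendsto (hTb' s') (hTb' s) (by
    filter_upwards [hanti] with i h1; exact h1.2.2.2 h)
  have Wsl : ∀ s s', 0 < s → s ≤ s' →
      2 * (A s' - B s) * (s' - s) ≤ W s' - W s ∧ W s' - W s ≤ 2 * (A s - B s') * (s' - s) := by
    intro s s' hs hss
    have hs' : 0 < s' := lt_of_lt_of_le hs hss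
    have h1 := hsl s hs
    constructor
    · refine le_of_tendsto_of_tendsto ((((hA s').sub (hB s)).const_mul 2).mul_const (s' - s))
        ((hW s' hs').sub (hW s hs)) ?_
      filter_upwards [h1] with i hi
      exact (hi s s' le_rfl hss).1
    · refine le_of_tendsto_of_tendsto ((hW s' hs').sub (hW s hs))
        ((((hA s).sub (hB s')).const_mul 2).mul_const (s' - s)) ?_
      filter_upwards [h1] with i hi
      exact (hi s s' le_rfl hss).2
  have Wlip : ∀ s s', 0 < s → s ≤ s' → |W s' - W s| ≤ 2 * M0 * (s' - s) := by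
    intro s s' hs hss
    have h1 := Wsl s s' hs hss
    have h2 : 0 ≤ s' - s := by linarith
    have h3 := A0 s'; have h4 := A0 s; have h5 := B0 s; have h6 := B0 s'
    have h7 := AB s; have h8 := AB s'
    rw [abs_le]
    constructor
    · nlinarith
    · nlinarith
  have Uni : ∀ s0 > 0, ∀ S, ∀ η > 0, ∀ᶠ i in (𝒰 : Filter ι), ∀ x ∈ Icc s0 S,
      |V i x - W x| ≤ η := by
    intro s0 hs0 S η hη
    apply LM.unif (K := 2 * M0) (by linarith) hη
    · filter_upwards [h0, hab, hsl s0 hs0] with i h1 h2 h3 s s' hs hss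
      have h4 := h3 s s' hs hss
      have h5 : 0 ≤ s' - s := by linarith
      have h6 := h1 s; have h7 := h1 s'; have h8 := h2 s; have h9 := h2 s'
      rw [abs_le]
      constructor
      · nlinarith
      · nlinarith
    · exact fun s s' hs hss => Wlip s s' (lt_of_lt_of_le hs0 hs) hss
    · exact fun s hs => hW s (lt_of_lt_of_le hs0 hs)
  have Wcont : ContinuousOn W (Ioi 0) := by
    apply LipschitzOnWith.continuousOn (K := Real.toNNReal (2 * M0))
    apply LipschitzOnWith.of_dist_le_mul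
    intro x hx y hy
    rw [Real.dist_eq, Real.dist_eq, Real.coe_toNNReal _ (by linarith)]
    rcases le_total x y with h | h
    · rw [abs_sub_comm, abs_sub_comm x y, abs_of_nonneg (by linarith : 0 ≤ y - x)]
      exact Wlip x y hx h
    · rw [abs_of_nonneg (by linarith : 0 ≤ x - y)]
      exact Wlip y x hy h
  -- positivity of the gap on compact intervals
  have gap : ∀ (g : ℝ → ℝ) (s s' : ℝ), ContinuousOn g (Icc s s') → s ≤ s' →
      (∀ x ∈ Icc s s', g x < Real.exp (2 * x)) → ∃ η > 0, ∀ x ∈ Icc s s',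
      g x ≤ Real.exp (2 * x) - 2 * η := by
    intro g s s' hg hss hlt
    obtain ⟨x, hx, hmin⟩ := isCompact_Icc.exists_isMinOn (nonempty_Icc.2 hss)
      ((by fun_prop : Continuous (fun x : ℝ => Real.exp (2 * x))).continuousOn.sub hg)
    refine ⟨(Real.exp (2 * x) - g x) / 2, by linarith [hlt x hx], fun y hy => ?_⟩
    have := hmin hy
    simp only [mem_setOf_eq, Pi.sub_apply] at this
    linarith
  have hcl := classify W A B (fun s => Ta s + Tb s) C0 M0 hC0 (fun s _ => A0 s) (fun s _ => B0 s)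
    (fun s _ => add_nonneg (Ta0 s) (Tb0 s)) (fun s _ => TC s) (Aanti.antitoneOn _)
    (Banti.antitoneOn _) ((fun s _ s' _ h => add_le_add (Taanti h) (Tbanti h)))
    (fun s s' hs hss => (Wsl s s' hs hss.le).1) (fun s s' hs hss => (Wsl s s' hs hss.le).2)
    ?_ ?_ ?_ ?_ ?_ ?_ ?_ ?_ ?_ ?_ ?_ ?_
  · obtain ⟨x, s1, hx, hx2, hs1, hle, s, hs, heq⟩ := hcl
    refine ⟨x, s1, hx, hx2, hs1, ?_, s, hs, ?_⟩
    · intro s0 hs0 S δ hδ
      filter_upwards [Uni s0 hs0 S δ hδ] with i hi y hy
      have h1 := hi y hy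
      have h2 := hle y (lt_of_lt_of_le hs0 hy.1)
      have h3 := abs_sub_abs_le_abs_sub (V i y) (W y)
      linarith
    · intro δ hδ
      have h1 := Metric.tendsto_nhds.1 (hW s hs) δ hδ
      filter_upwards [h1] with i hi
      rw [Real.dist_eq, abs_sub_comm] at hi
      have h3 := abs_sub_abs_le_abs_sub (W s) (V i s)
      linarith
  · -- barrier
    intro s hs
    apply le_of_forall_pos_le_add
    intro ε hε
    refine le_of_tendsto (hW s hs).abs ?_
    filter_upwards [hbar s hs ε hε] with i hi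
    exact hi s le_rfl
  · -- limit at zero
    rw [Metric.tendsto_nhdsWithin_nhds]
    intro ε hε
    obtain ⟨sb, hsb, h1⟩ := hsm (ε / 2) (by linarith)
    refine ⟨sb, hsb, fun {x} hx hd => ?_⟩
    have hx0 : 0 < x := hx
    rw [dist_zero_right, Real.norm_eq_abs, abs_of_pos hx0] at hd
    rw [dist_zero_right, Real.norm_eq_abs]
    have h2 : |W x| ≤ ε / 2 := by
      refine le_of_tendsto (hW x hx0).abs ?_
      exact h1 x hx0 hd.le
    linarith
  · intro s hs
    refine le_of_tendsto (hW s hs).abs ?_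
    exact hbd s hs
  · -- hPa
    intro s s' hs hss hlt
    obtain ⟨η, hη, h1⟩ := gap W s s' (Wcont.mono (fun x hx => lt_of_lt_of_le hs hx.1)) hss hlt
    apply le_antisymm _ (Aanti hss)
    apply le_of_forall_pos_le_add
    intro ε hε
    have h3 : A s - A s' ≤ ε := by
      refine le_of_tendsto ((hA s).sub (hA s')) ?_
      filter_upwards [Uni s hs s' η hη, hPa s hs s' η hη ε hε] with i hi hi2
      apply hi2 s s' le_rfl hss le_rfl
      intro x hx
      have := h1 x hx
      have := (abs_le.1 (hi x hx)).2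
      linarith
    linarith
  · -- hPb
    intro s s' hs hss hlt
    obtain ⟨η, hη, h1⟩ := gap (fun x => -W x) s s'
      (Wcont.mono (fun x hx => lt_of_lt_of_le hs hx.1)).neg hss (fun x hx => by
        have := hlt x hx; linarith)
    apply le_antisymm _ (Banti hss)
    apply le_of_forall_pos_le_add
    intro ε hε
    have h3 : B s - B s' ≤ ε := by
      refine le_of_tendsto ((hB s).sub (hB s')) ?_
      filter_upwards [Uni s hs s' η hη, hPb s hs s' η hη ε hε] with i hi hi2
      apply hi2 s s' le_rfl hss le_rfl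
      intro x hx
      have := h1 x hx
      have := (abs_le.1 (hi x hx)).1
      linarith
    linarith
  · -- hTu
    intro s s' hs hss
    refine le_of_tendsto_of_tendsto ((hTT s).sub (hTT s'))
      ((((hA s).sub (hA s')).add ((hB s).sub (hB s'))).const_mul M0) ?_
    filter_upwards [hTu] with i hi
    have h1 := (hi s s' hss).1
    have h2 := (hi s s' hss).2
    linarith
  · -- hTa
    intro s s' v ε hs hss hv hx
    have key : ∀ η > 0, 2 * η < v - ε →
        (v - ε - 2 * η) * (A s - A s') ≤ (Ta s + Tb s) - (Ta s' + Tb s') ∧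
        (Ta s + Tb s) - (Ta s' + Tb s') ≤ (v + ε + 2 * η) * (A s - A s') := by
      intro η hη hη2
      have h1 : ∀ᶠ i in (𝒰 : Filter ι),
          (v - ε - 2 * η) * (a i s - a i s') ≤ (ta i s + tb i s) - (ta i s' + tb i s') ∧
          (ta i s + tb i s) - (ta i s' + tb i s') ≤ (v + ε + 2 * η) * (a i s - a i s') := by
        filter_upwards [Uni s hs s' η hη, hTa s hs η hη] with i hi hi2
        obtain ⟨h3, h4, h5⟩ := hi2 s s' (v - ε - η) (v + ε + η) le_rfl hss (by linarith) (by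
          intro x hx'
          have h6 := hx x hx'
          have h7 := abs_le.1 (hi x hx')
          constructor
          · linarith [h7.1, h6.1]
          · linarith [h7.2, h6.2])
        constructor
        · have : v - ε - η - η = v - ε - 2 * η := by ring
          rw [this] at h3
          linarith
        · have : v + ε + η + η = v + ε + 2 * η := by ring
          rw [this] at h4
          linarith
      constructor
      · refine le_of_tendsto_of_tendsto (((hA s).sub (hA s')).const_mul _)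
          ((hTT s).sub (hTT s')) ?_
        filter_upwards [h1] with i hi using hi.1
      · refine le_of_tendsto_of_tendsto ((hTT s).sub (hTT s'))
          (((hA s).sub (hA s')).const_mul _) ?_
        filter_upwards [h1] with i hi using hi.2
    have hd : 0 ≤ A s - A s' := by linarith [Aanti hss]
    have hd2 : A s - A s' ≤ M0 := by linarith [A0 s', AB s, B0 s]
    constructor
    · apply le_of_forall_pos_le_add
      intro e he
      obtain ⟨h1, _⟩ := key (min ((v - ε) / 4) (e / (2 * (M0 + 1)))) (by positivity) (by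
        have := min_le_left ((v - ε) / 4) (e / (2 * (M0 + 1))); linarith)
      have h2 := min_le_right ((v - ε) / 4) (e / (2 * (M0 + 1)))
      have h2' : 0 < min ((v - ε) / 4) (e / (2 * (M0 + 1))) := by positivity
      obtain ⟨η, hη⟩ : ∃ η, η = min ((v - ε) / 4) (e / (2 * (M0 + 1))) := ⟨_, rfl⟩
      rw [← hη] at h1 h2 h2'
      rw [le_div_iff₀ (by positivity)] at h2
      nlinarith
    · apply le_of_forall_pos_le_add
      intro e he
      obtain ⟨_, h1⟩ := key (min ((v - ε) / 4) (e / (2 * (M0 + 1)))) (by positivity) (by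
        have := min_le_left ((v - ε) / 4) (e / (2 * (M0 + 1))); linarith)
      have h2 := min_le_right ((v - ε) / 4) (e / (2 * (M0 + 1)))
      have h2' : 0 < min ((v - ε) / 4) (e / (2 * (M0 + 1))) := by positivity
      obtain ⟨η, hη⟩ : ∃ η, η = min ((v - ε) / 4) (e / (2 * (M0 + 1))) := ⟨_, rfl⟩
      rw [← hη] at h1 h2 h2'
      rw [le_div_iff₀ (by positivity)] at h2
      nlinarith
  · -- hTb
    intro s s' v ε hs hss hv hx
    have key : ∀ η > 0, 2 * η < v - ε →
        (v - ε - 2 * η) * (B s - B s') ≤ (Ta s + Tb s) - (Ta s' + Tb s') ∧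
        (Ta s + Tb s) - (Ta s' + Tb s') ≤ (v + ε + 2 * η) * (B s - B s') := by
      intro η hη hη2
      have h1 : ∀ᶠ i in (𝒰 : Filter ι),
          (v - ε - 2 * η) * (b i s - b i s') ≤ (ta i s + tb i s) - (ta i s' + tb i s') ∧
          (ta i s + tb i s) - (ta i s' + tb i s') ≤ (v + ε + 2 * η) * (b i s - b i s') := by
        filter_upwards [Uni s hs s' η hη, hTb s hs η hη] with i hi hi2
        obtain ⟨h3, h4, h5⟩ := hi2 s s' (v - ε - η) (v + ε + η) le_rfl hss (by linarith) (by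
          intro x hx'
          have h6 := hx x hx'
          have h7 := abs_le.1 (hi x hx')
          constructor
          · linarith [h7.2, h6.1]
          · linarith [h7.1, h6.2])
        constructor
        · have : v - ε - η - η = v - ε - 2 * η := by ring
          rw [this] at h3
          linarith
        · have : v + ε + η + η = v + ε + 2 * η := by ring
          rw [this] at h4
          linarith
      constructor
      · refine le_of_tendsto_of_tendsto (((hB s).sub (hB s')).const_mul _)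
          ((hTT s).sub (hTT s')) ?_
        filter_upwards [h1] with i hi using hi.1
      · refine le_of_tendsto_of_tendsto ((hTT s).sub (hTT s'))
          (((hB s).sub (hB s')).const_mul _) ?_
        filter_upwards [h1] with i hi using hi.2
    have hd : 0 ≤ B s - B s' := by linarith [Banti hss]
    have hd2 : B s - B s' ≤ M0 := by linarith [B0 s', AB s, A0 s]
    constructor
    · apply le_of_forall_pos_le_add
      intro e he
      obtain ⟨h1, _⟩ := key (min ((v - ε) / 4) (e / (2 * (M0 + 1)))) (by positivity) (by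
        have := min_le_left ((v - ε) / 4) (e / (2 * (M0 + 1))); linarith)
      have h2 := min_le_right ((v - ε) / 4) (e / (2 * (M0 + 1)))
      have h2' : 0 < min ((v - ε) / 4) (e / (2 * (M0 + 1))) := by positivity
      obtain ⟨η, hη⟩ : ∃ η, η = min ((v - ε) / 4) (e / (2 * (M0 + 1))) := ⟨_, rfl⟩
      rw [← hη] at h1 h2 h2'
      rw [le_div_iff₀ (by positivity)] at h2
      nlinarith
    · apply le_of_forall_pos_le_add
      intro e he
      obtain ⟨_, h1⟩ := key (min ((v - ε) / 4) (e / (2 * (M0 + 1)))) (by positivity) (by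
        have := min_le_left ((v - ε) / 4) (e / (2 * (M0 + 1))); linarith)
      have h2 := min_le_right ((v - ε) / 4) (e / (2 * (M0 + 1)))
      have h2' : 0 < min ((v - ε) / 4) (e / (2 * (M0 + 1))) := by positivity
      obtain ⟨η, hη⟩ : ∃ η, η = min ((v - ε) / 4) (e / (2 * (M0 + 1))) := ⟨_, rfl⟩
      rw [← hη] at h1 h2 h2'
      rw [le_div_iff₀ (by positivity)] at h2
      nlinarith
  · -- hPoh
    intro s s' hs hss
    -- for each ε there is a point of the box
    have key : ∀ ε > 0, ∃ x ∈ Icc (A s' - B s) (A s - B s') ×ˢ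
        Icc (Ta s' + Tb s') (Ta s + Tb s), |x.1 ^ 2 - 2 * x.2| ≤ ε := by
      intro ε hε
      have h1 := hPoh s s' ε hs hss hε
      have hex : ∀ i, ∃ σ, (∃ σ ∈ Icc s s',
          |(a i σ - b i σ) ^ 2 - 2 * (ta i σ + tb i σ)| ≤ ε) → σ ∈ Icc s s' ∧
          |(a i σ - b i σ) ^ 2 - 2 * (ta i σ + tb i σ)| ≤ ε := by
        intro i
        by_cases h : ∃ σ ∈ Icc s s', |(a i σ - b i σ) ^ 2 - 2 * (ta i σ + tb i σ)| ≤ ε
        · obtain ⟨σ, h2, h3⟩ := h
          exact ⟨σ, fun _ => ⟨h2, h3⟩⟩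
        · exact ⟨0, fun h' => absurd h' h⟩
      choose σ hσ using hex
      have h2 : ∀ᶠ i in (𝒰 : Filter ι), σ i ∈ Icc s s' ∧
          |(a i (σ i) - b i (σ i)) ^ 2 - 2 * (ta i (σ i) + tb i (σ i))| ≤ ε := by
        filter_upwards [h1] with i hi using hσ i hi
      have h3 : ∀ᶠ i in (𝒰 : Filter ι), (a i s' - b i s ≤ a i (σ i) - b i (σ i) ∧
          a i (σ i) - b i (σ i) ≤ a i s - b i s') ∧ (ta i s' + tb i s' ≤ ta i (σ i) + tb i (σ i) ∧
          ta i (σ i) + tb i (σ i) ≤ ta i s + tb i s) := by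
        filter_upwards [h2, hanti] with i hi hi2
        obtain ⟨h4, h5, h6, h7⟩ := hi2
        obtain ⟨⟨h8, h9⟩, _⟩ := hi
        have a1 := h4 h8; have a2 := h4 h9; have a3 := h5 h8; have a4 := h5 h9
        have a5 := h6 h8; have a6 := h6 h9; have a7 := h7 h8; have a8 := h7 h9
        refine ⟨⟨?_, ?_⟩, ?_, ?_⟩ <;> linarith
      obtain ⟨X, hX⟩ := LM.ulim 𝒰 (f := fun i => a i (σ i) - b i (σ i)) (m := -M0) (M := M0) (by
        filter_upwards [h3, h0, hab] with i h4 h5 h6
        have := h5 s; have := h5 s'; have := h6 s; have := h6 s'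
        constructor <;> linarith [h4.1.1, h4.1.2])
      obtain ⟨Y, hY⟩ := LM.ulim 𝒰 (f := fun i => ta i (σ i) + tb i (σ i)) (m := 0) (M := C0) (by
        filter_upwards [h3, h0, hT] with i h4 h5 h6
        have := h5 s; have := h5 s'; have := h6 s; have := h6 s'
        constructor <;> linarith [h4.2.1, h4.2.2])
      refine ⟨(X, Y), ⟨⟨?_, ?_⟩, ?_, ?_⟩, ?_⟩
      · refine le_of_tendsto_of_tendsto ((hA s').sub (hB s)) hX ?_
        filter_upwards [h3] with i hi using hi.1.1
      · refine le_of_tendsto_of_tendsto hX ((hA s).sub (hB s')) ?_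
        filter_upwards [h3] with i hi using hi.1.2
      · refine le_of_tendsto_of_tendsto (hTT s') hY ?_
        filter_upwards [h3] with i hi using hi.2.1
      · refine le_of_tendsto_of_tendsto hY (hTT s) ?_
        filter_upwards [h3] with i hi using hi.2.2
      · refine le_of_tendsto ((hX.pow 2).sub (hY.const_mul 2)).abs ?_
        filter_upwards [h2] with i hi using hi.2
    have hne : (Icc (A s' - B s) (A s - B s') ×ˢ
        Icc (Ta s' + Tb s') (Ta s + Tb s)).Nonempty := by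
      obtain ⟨x, hx, _⟩ := key 1 one_pos
      exact ⟨x, hx⟩
    obtain ⟨x, hx, hmin⟩ := (isCompact_Icc.prod isCompact_Icc).exists_isMinOn hne
      (f := fun x : ℝ × ℝ => |x.1 ^ 2 - 2 * x.2|) (by fun_prop)
    refine ⟨x.1, x.2, hx.1.1, hx.1.2, hx.2.1, hx.2.2, ?_⟩
    by_contra hne0
    have hpos : 0 < |x.1 ^ 2 - 2 * x.2| := by
      rw [abs_pos]
      intro h
      apply hne0
      linarith
    obtain ⟨y, hy, hy2⟩ := key (|x.1 ^ 2 - 2 * x.2| / 2) (by linarith)
    have := hmin hy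
    simp only [mem_setOf_eq] at this
    linarith
  · -- hinf
    obtain ⟨S, hS, h1⟩ := hinf
    refine ⟨S, hS, fun s hs => ?_⟩
    have e1 : A s ≤ 0 := by
      apply le_of_forall_pos_le_add
      intro ε hε
      rw [zero_add]
      refine le_of_tendsto (hA s) ?_
      filter_upwards [h1 ε hε] with i hi using (hi s hs).1
    have e2 : B s ≤ 0 := by
      apply le_of_forall_pos_le_add
      intro ε hε
      rw [zero_add]
      refine le_of_tendsto (hB s) ?_
      filter_upwards [h1 ε hε] with i hi using (hi s hs).2.1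
    have e3 : Ta s ≤ 0 := by
      apply le_of_forall_pos_le_add
      intro ε hε
      rw [zero_add]
      refine le_of_tendsto (hTa' s) ?_
      filter_upwards [h1 ε hε] with i hi using (hi s hs).2.2.1
    have e4 : Tb s ≤ 0 := by
      apply le_of_forall_pos_le_add
      intro ε hε
      rw [zero_add]
      refine le_of_tendsto (hTb' s) ?_
      filter_upwards [h1 ε hε] with i hi using (hi s hs).2.2.2
    refine ⟨le_antisymm e1 (A0 s), le_antisymm e2 (B0 s), ?_⟩
    have := Ta0 s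
    have := Tb0 s
    linarith
  · obtain ⟨s, hs, c, hc, h1⟩ := hapos
    refine ⟨s, hs, lt_of_lt_of_le hc ?_⟩
    exact ge_of_tendsto (hA s) h1
  · obtain ⟨s, hs, c, hc, h1⟩ := hbpos
    refine ⟨s, hs, lt_of_lt_of_le hc ?_⟩
    exact ge_of_tendsto (hB s) h1

end Pool.Agent.LE87
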