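import Pool.Agent.LE87.P2L
import Pool.Agent.LE87.LimM

set_option autoImplicit false

open Complex MeasureTheory Set Filter Topology Metric
open scoped Real

namespace Pool.Agent.LE87

variable {Ω : Set ℂ} {R ρ : ℝ} {k : ℕ} {C0 : ℝ}

/-- from uniform statements to `eventually` statements -/
theorem ev_of {ι : Type*} {U : Ultrafilter ι} {p : ι → ℝ} {u : ι → ℂ → ℝ}
    (hp : Tendsto p U atTop) (hg : ∀ᶠ i in (U : Filter ι), Good Ω k C0 (p i) (u i))
    {Q : ℝ → (ℂ → ℝ) → Prop}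
    (h : ∃ P0 : ℝ, ∀ p ≥ P0, ∀ u : ℂ → ℝ, Good Ω k C0 p u → Q p u) :
    ∀ᶠ i in (U : Filter ι), Q (p i) (u i) := by
  obtain ⟨P0, hP⟩ := h
  filter_upwards [hp.eventually_ge_atTop P0, hg] with i h1 h2
  exact hP _ h1 _ h2

/-- scale of a point -/
theorem exists_scale {p : ℝ} (hp : 0 < p) {z : ℂ} (hz : 0 < ‖z‖) :
    ‖z‖ = Real.exp (-(p * (-(Real.log ‖z‖ / p)))) := by
  have : -(p * (-(Real.log ‖z‖ / p))) = Real.log ‖z‖ := by field_simp
  rw [this, Real.exp_log hz]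

theorem scale_mem {p s s' : ℝ} (hp : 0 < p) {z : ℂ} (h1 : Real.exp (-(p * s')) ≤ ‖z‖)
    (h2 : ‖z‖ ≤ Real.exp (-(p * s))) :
    -(Real.log ‖z‖ / p) ∈ Icc s s' := by
  have hz : 0 < ‖z‖ := lt_of_lt_of_le (Real.exp_pos _) h1
  have a1 : -(p * s') ≤ Real.log ‖z‖ := (Real.le_log_iff_exp_le hz).2 h1
  have a2 : Real.log ‖z‖ ≤ -(p * s) := (Real.log_le_iff_le_exp hz).2 h2
  constructor
  · have : Real.log ‖z‖ / p ≤ -s := by rw [div_le_iff₀ hp]; linarith
    linarith
  · have : -s' ≤ Real.log ‖z‖ / p := by rw [le_div_iff₀ hp]; linarith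
    linarith

/-- the domain scale is reached -/
theorem scale_ev (hD : Dom Ω R ρ k C0) {s0 : ℝ} (hs0 : 0 < s0) : ∃ P0 : ℝ, 0 < P0 ∧ ∀ p ≥ P0,
    ∀ s ≥ s0, -(p * s) < Real.log (2 * ρ) := by
  refine ⟨(|Real.log (2 * ρ)| + 1) / s0, by positivity, fun p hp s hs => ?_⟩
  have h0 : 0 < (|Real.log (2 * ρ)| + 1) / s0 := by positivity
  have hp0 : 0 < p := lt_of_lt_of_le h0 hp
  have h1 : |Real.log (2 * ρ)| + 1 ≤ p * s0 := by
    have := mul_le_mul_of_nonneg_right hp hs0.le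
    rwa [div_mul_cancel₀ _ hs0.ne'] at this
  have h2 : p * s0 ≤ p * s := mul_le_mul_of_nonneg_left hs hp0.le
  have h3 := neg_abs_le (Real.log (2 * ρ))
  linarith

theorem ball_log (hD : Dom Ω R ρ k C0) : ball (0 : ℂ) (Real.exp (Real.log (2 * ρ))) ⊆ Ω := by
  have := hD.hρ
  rw [Real.exp_log (by linarith)]
  exact hD.ball_sub

section one

/-- `hTa` for finite `p` -/
theorem hTa_fin (hD : Dom Ω R ρ k C0) {s0 ε : ℝ} (hs0 : 0 < s0) (hε : 0 < ε) : ∃ P0 : ℝ,
    ∀ p ≥ P0, ∀ u : ℂ → ℝ, Good Ω k C0 p u → ∀ s s' v w, s0 ≤ s → s ≤ s' → 0 < v - ε →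
      (∀ x ∈ Icc s s', v ≤ VV p u 0 x ∧ VV p u 0 x ≤ w) →
      (v - ε) * (aP p u 0 s - aP p u 0 s') ≤ tP p u 0 s - tP p u 0 s' ∧
      tP p u 0 s - tP p u 0 s' ≤ (w + ε) * (aP p u 0 s - aP p u 0 s') ∧
      tM p u 0 s = tM p u 0 s' := by
  obtain ⟨P0, hP⟩ := OSC hD hs0 hε
  refine ⟨P0, fun p hp u hu s s' v w hs hss hv hV => ?_⟩
  have hp1 := hu.hp
  have hp0 : 0 < p := by linarith
  have key : ∀ z : ℂ, Real.exp (-(p * s')) ≤ ‖z‖ → ‖z‖ < Real.exp (-(p * s)) →
      v - ε ≤ u z ∧ u z ≤ w + ε := by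
    intro z h1 h2
    have hz : 0 < ‖z‖ := lt_of_lt_of_le (Real.exp_pos _) h1
    have hm := scale_mem hp0 h1 h2.le
    have h3 := hP p hp u hu z (-(Real.log ‖z‖ / p)) (hs.trans hm.1) (exists_scale hp0 hz)
    have h4 := hV _ hm
    rw [abs_le] at h3
    constructor <;> linarith [h3.1, h3.2, h4.1, h4.2]
  have hw : 0 ≤ w + ε := by
    have := hV s ⟨le_rfl, hss⟩
    linarith [this.1, this.2]
  refine ⟨?_, ?_, ?_⟩
  · exact t_diff_ge hD hp0 hu.sol hss hv.le (fun z h1 h2 => (key z h1 h2).1)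
  · exact t_diff_le hD hp0 hu.sol hss hw (fun z h1 h2 => (key z h1 h2).2)
  · exact (a_diff_zero hD hp0 hu.sol.neg hss (fun z h1 h2 => by
      have := (key z h1 h2).1
      show -u z ≤ 0
      linarith)).2

/-- `hPa` for finite `p` -/
theorem hPa_fin (hD : Dom Ω R ρ k C0) {s0 S η ε : ℝ} (hs0 : 0 < s0) (hη : 0 < η) (hε : 0 < ε) :
    ∃ P0 : ℝ, ∀ p ≥ P0, ∀ u : ℂ → ℝ, Good Ω k C0 p u → ∀ s s', s0 ≤ s → s ≤ s' → s' ≤ S →
      (∀ x ∈ Icc s s', VV p u 0 x ≤ Real.exp (2 * x) - η) → aP p u 0 s - aP p u 0 s' ≤ ε := by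
  obtain ⟨P1, hP1⟩ := OSC hD hs0 (by linarith : 0 < η / 2)
  obtain ⟨P2, hP2⟩ := aP_diff_small hD (S := S) hs0 (by linarith : 0 < η / 2) hε
  refine ⟨max P1 P2, fun p hp u hu s s' hs hss hsS hV => ?_⟩
  apply hP2 p ((le_max_right _ _).trans hp) u hu s s' hs hss hsS
  intro z x hx hz
  have h1 := hP1 p ((le_max_left _ _).trans hp) u hu z x (hs.trans hx.1) hz
  have h2 := hV x hx
  have h3 := (abs_le.1 h1).2
  linarith

/-- `hPoh` for finite `p` -/
theorem hPoh_fin (hD : Dom Ω R ρ k C0) {s s' ε : ℝ} (hs : 0 < s) (hss : s < s') (hε : 0 < ε) :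
    ∃ P0 : ℝ, ∀ p ≥ P0, ∀ u : ℂ → ℝ, Good Ω k C0 p u → ∃ σ ∈ Icc s s',
      |(aP p u 0 σ - aM p u 0 σ) ^ 2 - 2 * (tP p u 0 σ + tM p u 0 σ)| ≤ ε := by
  have hC0 := hD.hC0
  have hL : 0 < s' - s := by linarith
  set W := ε * (s' - s) / (C0 + 1) with hW
  have hW0 : 0 < W := by positivity
  obtain ⟨P1, hP1⟩ := window_scaled hD (by linarith : 0 < s / 2) hL (by linarith : 0 < ε / 2)
  obtain ⟨P2, hP2⟩ := OSC hD (by linarith : 0 < s / 2) hW0
  obtain ⟨P3, hP30, hP3⟩ := scale_ev hD (by linarith : 0 < s / 2)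
  obtain ⟨P4, hP4⟩ := mu_add_le hD one_pos
  refine ⟨max (max P1 P2) (max P3 P4), fun p hp u hu => ?_⟩
  have hp1 : P1 ≤ p := (le_max_left _ _).trans ((le_max_left _ _).trans hp)
  have hp2 : P2 ≤ p := (le_max_right _ _).trans ((le_max_left _ _).trans hp)
  have hp3 : P3 ≤ p := (le_max_left _ _).trans ((le_max_right _ _).trans hp)
  have hp4 : P4 ≤ p := (le_max_right _ _).trans ((le_max_right _ _).trans hp)
  have hp0 : 0 < p := by linarith
  obtain ⟨σ, hσ, h⟩ := hP1 p hp1 u hu 0 (Real.log (2 * ρ)) s s' W (ball_log hD)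
    (hP3 p hp3 _ (by linarith)) (by linarith) hW0.le (by
      intro σ hσ θ
      apply hP2 p hp2 u hu _ σ _ (norm_pt0 _ _)
      have := hσ.1
      linarith)
  refine ⟨σ, hσ, h.trans ?_⟩
  have m1 := aP_le_mu hD hp0 hu.sol 0 (s - s / 2)
  have m2 := aP_le_mu hD hp0 hu.sol.neg 0 (s - s / 2)
  have m3 := hP4 p hp4 u hu
  have m4 := aP_nonneg (u := u) hp0.le 0 (s' + s / 2)
  have m5 := aP_nonneg (u := fun z => -u z) hp0.le 0 (s' + s / 2)
  have m6 : (aP p u 0 (s - s / 2) + aM p u 0 (s - s / 2)) -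
      (aP p u 0 (s' + s / 2) + aM p u 0 (s' + s / 2)) ≤ C0 + 1 := by
    unfold aM; linarith
  have m7 : W * ((aP p u 0 (s - s / 2) + aM p u 0 (s - s / 2)) -
      (aP p u 0 (s' + s / 2) + aM p u 0 (s' + s / 2))) / (2 * (s' - s)) ≤ ε / 2 := by
    rw [div_le_iff₀ (by linarith)]
    calc _ ≤ W * (C0 + 1) := mul_le_mul_of_nonneg_left m6 hW0.le
      _ = ε / 2 * (2 * (s' - s)) := by rw [hW]; field_simp
  linarith

end one

theorem main_lim (hD : Dom Ω R ρ k C0) {ι : Type*}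
    (U : Ultrafilter ι) {p : ι → ℝ} {u : ι → ℂ → ℝ} (hp : Tendsto p U atTop)
    (hg : ∀ᶠ i in (U : Filter ι), Good Ω k C0 (p i) (u i)) :
    ∃ x s1 : ℝ, 0 < x ∧ 4 * x = 1 + Real.exp (-(2 * x)) ∧
      s1 = x + 1 / (4 * (1 + Real.exp (2 * x))) ∧
      (∀ ε > 0, ∀ᶠ i in (U : Filter ι), ∀ z, |u i z| ≤ Real.exp (2 * s1) + ε) ∧
      (∀ ε > 0, ∀ᶠ i in (U : Filter ι), ∃ z, Real.exp (2 * s1) - ε ≤ |u i z|) := by
  have hgn : ∀ᶠ i in (U : Filter ι), Good Ω k C0 (p i) (fun z => -u i z) :=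
    hg.mono (fun i h => h.neg')
  obtain ⟨M1, P1, hM1, hP1⟩ := sup_bound hD
  obtain ⟨S, hS, hfar⟩ := far_small hD
  set M0 := max M1 (C0 + 1) with hM0
  have hM0' : 0 ≤ M0 := by
    have := le_max_left M1 (C0 + 1)
    linarith
  have hsup : ∀ᶠ i in (U : Filter ι), ∀ z, |u i z| ≤ M0 := by
    filter_upwards [ev_of hp hg (Q := fun _ u => ∀ z, |u z| ≤ M1) ⟨P1, hP1⟩] with i hi z
    exact (hi z).trans (le_max_left _ _)
  obtain ⟨x, s1, hx0, hx, hs1, hup, s2, hs2, hlow⟩ := limit_abstract U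
    (fun i s => VV (p i) (u i) 0 s) (fun i s => aP (p i) (u i) 0 s)
    (fun i s => aM (p i) (u i) 0 s) (fun i s => tP (p i) (u i) 0 s)
    (fun i s => tM (p i) (u i) 0 s) C0 M0 hD.hC
    (by -- h0
      filter_upwards [hg] with i hi s
      have := hi.hp
      exact ⟨aP_nonneg (by linarith) _ _, aP_nonneg (by linarith) _ _,
        tP_nonneg (by linarith) _ _, tP_nonneg (by linarith) _ _⟩)
    (by -- hT
      filter_upwards [hg] with i hi s
      have := hi.hp
      have h1 := tP_le_te hD (by linarith) hi.sol 0 s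
      have h2 := tP_le_te hD (by linarith) hi.sol.neg 0 s
      have h3 := te_add hD hi
      unfold tM
      linarith)
    (by -- hab
      filter_upwards [hg, ev_of hp hg (mu_add_le hD one_pos)] with i hi h3 s
      have := hi.hp
      have h1 := aP_le_mu hD (by linarith) hi.sol 0 s
      have h2 := aP_le_mu hD (by linarith) hi.sol.neg 0 s
      have h4 := le_max_right M1 (C0 + 1)
      unfold aM
      linarith)
    (by -- hanti
      filter_upwards [hg] with i hi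
      have := hi.hp
      exact ⟨aP_anti hD (by linarith) hi.sol 0, aP_anti hD (by linarith) hi.sol.neg 0,
        tP_anti hD (by linarith) hi.sol 0, tP_anti hD (by linarith) hi.sol.neg 0⟩)
    (by -- hsl
      intro s0 hs0
      obtain ⟨P2, hP20, hP2⟩ := scale_ev hD hs0
      filter_upwards [hg, hp.eventually_ge_atTop P2] with i hi hpi s s' hs hss
      have := hi.hp
      exact VV_slope hD (by linarith) hi.sol (ball_log hD) (hP2 _ hpi s hs) hss)
    (by -- hbar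
      intro s0 hs0 ε hε
      obtain ⟨P2, hP20, hP2⟩ := scale_ev hD hs0
      filter_upwards [ev_of hp hg (barrier_scaled hD hε), hp.eventually_ge_atTop P2]
        with i hi hpi s hs
      exact hi 0 _ s (ball_log hD) (hP2 _ hpi s hs))
    (by -- hsm
      intro ε hε
      obtain ⟨sb, hsb, h⟩ := outer_small hD hε
      refine ⟨sb, hsb, fun s hs hss => ?_⟩
      filter_upwards [ev_of hp hg h, hg] with i hi hgi
      apply VV_abs_le
      intro z hz
      apply hi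
      rw [hz]
      have := hgi.hp
      exact Real.exp_le_exp.2 (by nlinarith))
    (by -- hbd
      intro s _
      filter_upwards [hsup] with i hi
      exact VV_abs_le (fun z _ => hi z))
    (by -- hPa
      intro s0 hs0 S η hη ε hε
      exact ev_of hp hg (hPa_fin hD hs0 hη hε))
    (by -- hPb
      intro s0 hs0 S η hη ε hε
      filter_upwards [ev_of hp hgn (hPa_fin hD (S := S) hs0 hη hε)] with i hi s s' hs hss hsS hV
      apply hi s s' hs hss hsS
      intro x hx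
      rw [VV_neg]
      exact hV x hx)
    (by -- hTu
      filter_upwards [hg, hsup] with i hi hsi s s' hss
      have := hi.hp
      exact ⟨t_diff_le hD (by linarith) hi.sol hss hM0' (fun z _ _ => (le_abs_self _).trans (hsi z)),
        t_diff_le hD (by linarith) hi.sol.neg hss hM0'
          (fun z _ _ => (neg_le_abs _).trans (hsi z))⟩)
    (by -- hTa
      intro s0 hs0 ε hε
      exact ev_of hp hg (hTa_fin hD hs0 hε))
    (by -- hTb
      intro s0 hs0 ε hε
      filter_upwards [ev_of hp hgn (hTa_fin hD hs0 hε)] with i hi s s' v w hs hss hv hV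
      have := hi s s' v w hs hss hv (by
        intro x hx
        rw [VV_neg]
        exact hV x hx)
      rw [tM_neg, tM_neg] at this
      exact this)
    (by -- hPoh
      intro s s' ε hs hss hε
      exact ev_of hp hg (hPoh_fin hD hs hss hε))
    (by -- hinf
      refine ⟨S, hS, fun ε hε => ?_⟩
      filter_upwards [ev_of hp hg (hfar ε hε), ev_of hp hgn (hfar ε hε)] with i h1 h2 s hs
      exact ⟨(h1.1 0 s hs).1, (h2.1 0 s hs).1, (h1.1 0 s hs).2, (h2.1 0 s hs).2⟩)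
    (by -- hapos
      obtain ⟨c0, hc0, hmu⟩ := mu_lower hD
      obtain ⟨sb, hsb, hm⟩ := outer_mass hD
      refine ⟨sb, hsb, c0 / 2, by linarith, ?_⟩
      filter_upwards [ev_of hp hg hmu, ev_of hp hg (hm (c0 / 2) (by linarith))] with i h1 h2
      have := (h2.2 sb le_rfl).1
      linarith [h1.1])
    (by -- hbpos
      obtain ⟨c0, hc0, hmu⟩ := mu_lower hD
      obtain ⟨sb, hsb, hm⟩ := outer_mass hD
      refine ⟨sb, hsb, c0 / 2, by linarith, ?_⟩
      filter_upwards [ev_of hp hgn hmu, ev_of hp hgn (hm (c0 / 2) (by linarith))] with i h1 h2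
      have := (h2.2 sb le_rfl).1
      unfold aM
      linarith [h1.1])
  refine ⟨x, s1, hx0, hx, hs1, ?_, ?_⟩
  · intro ε hε
    have hs1p : 0 < s1 := by rw [hs1]; positivity
    have hE : 1 ≤ Real.exp (2 * s1) := Real.one_le_exp (by linarith)
    obtain ⟨sb, hsb, hout⟩ := outer_small hD one_pos
    filter_upwards [hg, ev_of hp hg hout, ev_of hp hg (hfar (ε / 2) (by linarith)),
      ev_of hp hg (OSC hD hsb (by linarith : 0 < ε / 2)),
      hup (min sb S) (lt_min hsb hS) (max sb S) (ε / 2) (by linarith)] with i hi h1 h2 h3 h4 z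
    have hp0 : 0 < p i := by linarith [hi.hp]
    rcases le_total (Real.exp (-(p i * sb))) ‖z‖ with hz | hz
    · linarith [h1 z hz]
    · rcases le_total ‖z‖ (Real.exp (-(p i * S))) with hz' | hz'
      · have a1 := h2.2 z hz'
        have a2 := h4 S ⟨min_le_right _ _, le_max_right _ _⟩
        have a3 := abs_sub_abs_le_abs_sub (u i z) (VV (p i) (u i) 0 S)
        linarith
      · have hz0 : 0 < ‖z‖ := lt_of_lt_of_le (Real.exp_pos _) hz'
        have hm := scale_mem hp0 hz' hz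
        have a1 := h3 z _ hm.1 (exists_scale hp0 hz0)
        have a2 := h4 _ ⟨(min_le_left _ _).trans hm.1, hm.2.trans (le_max_right _ _)⟩
        have a3 := abs_sub_abs_le_abs_sub (u i z) (VV (p i) (u i) 0 (-(Real.log ‖z‖ / p i)))
        linarith
  · intro ε hε
    filter_upwards [ev_of hp hg (OSC hD hs2 (by linarith : 0 < ε / 2)),
      hlow (ε / 2) (by linarith)] with i h1 h2
    refine ⟨pt 0 (-(p i * s2)) 0, ?_⟩
    have a1 := h1 _ s2 le_rfl (norm_pt0 (-(p i * s2)) 0)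
    have a3 := abs_sub_abs_le_abs_sub (VV (p i) (u i) 0 s2) (u i (pt 0 (-(p i * s2)) 0))
    rw [abs_sub_comm] at a3
    linarith

end Pool.Agent.LE87
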