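import Pool.Agent.LE87.PohB2

set_option autoImplicit false

open Complex MeasureTheory Set Filter Topology Metric
open scoped Real

namespace Pool.Agent.LE87

namespace PB

/-- monotonicity through derivatives: if `K' ≤ L'` on `(a, b)` then `K b - K a ≤ L b - L a` -/
theorem sub_le_sub_of_deriv {K L K' L' : ℝ → ℝ} {a b : ℝ} (hab : a ≤ b)
    (hK : ∀ x ∈ Icc a b, HasDerivAt K (K' x) x) (hL : ∀ x ∈ Icc a b, HasDerivAt L (L' x) x)
    (h : ∀ x ∈ Icc a b, K' x ≤ L' x) : K b - K a ≤ L b - L a := by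
  have hd : ∀ x ∈ Icc a b, HasDerivAt (fun x => L x - K x) (L' x - K' x) x :=
    fun x hx => (hL x hx).sub (hK x hx)
  have hm : MonotoneOn (fun x => L x - K x) (Icc a b) := by
    refine monotoneOn_of_deriv_nonneg (convex_Icc a b)
      (fun x hx => (hd x hx).continuousAt.continuousWithinAt)
      (fun x hx => (hd x (interior_subset hx)).differentiableAt.differentiableWithinAt)
      (fun x hx => ?_)
    rw [(hd x (interior_subset hx)).deriv]
    linarith [h x (interior_subset hx)]
  have := hm (left_mem_Icc.2 hab) (right_mem_Icc.2 hab) hab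
  simp only at this
  linarith

theorem mass_mono_t {g : ℂ → ℝ} {c : ℂ} {T a b : ℝ}
    (hg : ContinuousOn g (ball c (Real.exp T))) (hg0 : ∀ z ∈ ball c (Real.exp T), 0 ≤ g z)
    (hab : a ≤ b) (hb : b < T) : mass g c a ≤ mass g c b := by
  have h := sub_le_sub_of_deriv (K := fun _ => (0 : ℝ)) (L := mass g c) (K' := fun _ => 0)
    (L' := fun x => Real.exp (2 * x) * avg g c x) hab (fun x _ => hasDerivAt_const _ _)
    (fun x hx => mass_hasDerivAt hg (lt_of_le_of_lt hx.2 hb)) (fun x hx => ?_)
  · simp only [sub_self] at h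
    linarith
  · have hx' : x < T := lt_of_le_of_lt hx.2 hb
    have : 0 ≤ avg g c x := by
      rw [avg_eq_mn]
      exact mn_nonneg (avg_continuous_slice hg hx') (fun θ => hg0 _ (mem_ball_pt hx' θ))
    positivity

theorem mass_nonneg {g : ℂ → ℝ} {c : ℂ} {t : ℝ}
    (hg0 : ∀ z ∈ ball c (Real.exp t), 0 ≤ g z) : 0 ≤ mass g c t := by
  unfold mass
  exact mul_nonneg (by positivity) (setIntegral_nonneg measurableSet_ball hg0)

end PB

open PB

/-- Pohozaev + Saint-Venant: the window inequality -/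
theorem window {u : ℂ → ℝ} {f F : ℝ → ℝ} {c : ℂ} {T t1 t2 d W : ℝ}
    (hu : ContDiffOn ℝ 2 u (ball c (Real.exp T)))
    (hf : Continuous f) (hF : ∀ y, HasDerivAt F (f y) y) (hF0 : ∀ y, 0 ≤ F y)
    (heq : ∀ z ∈ ball c (Real.exp T), -lap u z = f (u z))
    (ht : t1 ≤ t2) (hd : 0 < d) (hT : t2 + d < T)
    (hW : ∀ t ∈ Icc (t1 - d) (t2 + d), ∀ θ : ℝ, |u (pt c t θ) - avg u c t| ≤ W) :
    ∫ t in t1..t2, |(mass (fun z => f (u z)) c t) ^ 2 - 4 * mass (fun z => F (u z)) c t| ≤
      W * (mass (fun z => |f (u z)|) c (t2 + d) - mass (fun z => |f (u z)|) c (t1 - d))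
      + Real.exp (-(2 * d / π)) * mass (fun z => ‖fderiv ℝ u z‖ ^ 2) c (t2 + d)
      + 2 * mass (fun z => F (u z)) c t2 := by
  have hpi : 0 < π := Real.pi_pos
  have hFc : Continuous F := continuous_iff_continuousAt.2 fun x => (hF x).continuousAt
  have hFu : ContinuousOn (fun z => F (u z)) (ball c (Real.exp T)) :=
    hFc.comp_continuousOn hu.continuousOn
  have hfu : ContinuousOn (fun z => f (u z)) (ball c (Real.exp T)) :=
    hf.comp_continuousOn hu.continuousOn
  have hafu : ContinuousOn (fun z => |f (u z)|) (ball c (Real.exp T)) := hfu.abs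
  have hgu : ContinuousOn (fun z => ‖fderiv ℝ u z‖ ^ 2) (ball c (Real.exp T)) :=
    (cont_du hu).norm.pow 2
  have hWnn : 0 ≤ W :=
    le_trans (abs_nonneg _) (hW t1 ⟨by linarith, by linarith⟩ 0)
  -- the primitive of `N`
  set K : ℝ → ℝ := fun s => ∫ x in t1..s, NN u c x with hK
  have hNc : ContinuousOn (NN u c) (Iio T) :=
    fun x hx => (NN_continuousAt hu hx).continuousWithinAt
  have hKd : ∀ s < T, HasDerivAt K (NN u c s) s := by
    intro s hs
    have hsub : uIcc t1 s ⊆ Iio T := by
      intro x hx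
      rcases mem_uIcc.1 hx with h | h
      · exact lt_of_le_of_lt h.2 hs
      · exact lt_of_le_of_lt h.2 (by linarith)
    exact intervalIntegral.integral_hasDerivAt_right ((hNc.mono hsub).intervalIntegrable)
      (ContinuousOn.stronglyMeasurableAtFilter isOpen_Iio hNc _ hs) (NN_continuousAt hu hs)
  set mf : ℝ → ℝ := mass (fun z => |f (u z)|) c with hmf
  have hmfd : ∀ s < T, HasDerivAt mf (Real.exp (2 * s) * avg (fun z => |f (u z)|) c s) s :=
    fun s hs => mass_hasDerivAt hafu hs
  have hmono : ∀ a b : ℝ, a ≤ b → b < T → mf a ≤ mf b :=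
    fun a b hab hb => mass_mono_t hafu (fun z _ => abs_nonneg _) hab hb
  set G : ℝ := W * (mf (t2 + d) - mf (t1 - d)) with hG
  -- the Gronwall quantity
  set Y : ℝ → ℝ := fun r => K (t2 + r) - K (t1 - r) with hY
  have hYd : ∀ r ∈ Icc 0 d, HasDerivAt Y (NN u c (t2 + r) + NN u c (t1 - r)) r := by
    intro r hr
    have h1 : HasDerivAt (fun r => K (t2 + r)) (NN u c (t2 + r)) r :=
      (hKd (t2 + r) (by linarith [hr.2])).comp_const_add t2 r
    have h2 : HasDerivAt (fun r => K (t1 - r)) (-NN u c (t1 - r)) r :=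
      (hKd (t1 - r) (by linarith [hr.1])).comp_const_sub t1 r
    have h3 := h1.sub h2
    refine h3.congr_deriv ?_
    ring
  have hYle : ∀ r ∈ Icc 0 d, Y r - G ≤ π / 2 * (NN u c (t2 + r) + NN u c (t1 - r)) := by
    intro r hr
    have hab : t1 - r ≤ t2 + r := by linarith [hr.1]
    have hlt : ∀ x ∈ Icc (t1 - r) (t2 + r), x < T :=
      fun x hx => by linarith [hx.2, hr.2]
    have h1 := sub_le_sub_of_deriv (K := fun x => K x - QQ u c x) (L := fun x => W * mf x)
      (K' := fun x => NN u c x - (NN u c x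
        - Real.exp (2 * x) * mn (fun θ => (u (pt c x θ) - avg u c x) * f (u (pt c x θ)))))
      (L' := fun x => W * (Real.exp (2 * x) * avg (fun z => |f (u z)|) c x)) hab
      (fun x hx => (hKd x (hlt x hx)).sub (QQ_hasDerivAt hu hf heq (hlt x hx)))
      (fun x hx => (hmfd x (hlt x hx)).const_mul W) (fun x hx => ?_)
    · have h2 := QQ_bound hu (hlt (t2 + r) (right_mem_Icc.2 hab))
      have h3 := QQ_bound hu (hlt (t1 - r) (left_mem_Icc.2 hab))
      have h4 := (abs_le.1 h2).2
      have h5 := (abs_le.1 h3).1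
      have h6 := hmono (t2 + r) (t2 + d) (by linarith [hr.2]) hT
      have h7 := hmono (t1 - d) (t1 - r) (by linarith [hr.2]) (by linarith [hr.1])
      have h8 : W * (mf (t2 + r) - mf (t1 - r)) ≤ G := by
        rw [hG]
        exact mul_le_mul_of_nonneg_left (by linarith) hWnn
      have h9 : Y r = K (t2 + r) - K (t1 - r) := rfl
      rw [h9]
      nlinarith
    · have hxT := hlt x hx
      have h2 : mn (fun θ => (u (pt c x θ) - avg u c x) * f (u (pt c x θ)))
          ≤ W * avg (fun z => |f (u z)|) c x := by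
        have e : avg (fun z => |f (u z)|) c x = mn (fun θ => |f (u (pt c x θ))|) := rfl
        rw [e, ← mn_const_mul]
        refine mn_mono (((sP hu hxT).sub continuous_const).mul (sf hu hf hxT))
          (continuous_const.mul (sf hu hf hxT).abs) fun θ _ => ?_
        have h3 := hW x ⟨by linarith [hx.1, hr.2], by linarith [hx.2, hr.2]⟩ θ
        calc (u (pt c x θ) - avg u c x) * f (u (pt c x θ))
            ≤ |(u (pt c x θ) - avg u c x) * f (u (pt c x θ))| := le_abs_self _
          _ = |u (pt c x θ) - avg u c x| * |f (u (pt c x θ))| := abs_mul _ _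
          _ ≤ W * |f (u (pt c x θ))| := mul_le_mul_of_nonneg_right h3 (abs_nonneg _)
      have h4 := mul_le_mul_of_nonneg_left h2 (Real.exp_pos (2 * x)).le
      nlinarith
  -- Gronwall
  have hgr : Y 0 - G ≤ Real.exp (-(2 * d / π)) * (Y d - G) := by
    have hΦd : ∀ r ∈ Icc 0 d, HasDerivAt (fun r => Real.exp (-(2 * r / π)) * (Y r - G))
        (Real.exp (-(2 * r / π)) * (-(2 / π)) * (Y r - G)
          + Real.exp (-(2 * r / π)) * (NN u c (t2 + r) + NN u c (t1 - r))) r := by
      intro r hr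
      have h1 : HasDerivAt (fun r : ℝ => Real.exp (-(2 * r / π)))
          (Real.exp (-(2 * r / π)) * (-(2 / π))) r := by
        have h2 : HasDerivAt (fun r : ℝ => -(2 * r / π)) (-(2 / π)) r := by
          refine HasDerivAt.congr_deriv (f' := -(2 * 1 / π)) ?_ (by ring)
          exact (((hasDerivAt_id' r).const_mul 2).div_const π).neg
        exact h2.exp
      exact h1.mul ((hYd r hr).sub_const G)
    have h1 := sub_le_sub_of_deriv (K := fun _ => (0 : ℝ))
      (L := fun r => Real.exp (-(2 * r / π)) * (Y r - G)) (K' := fun _ => 0)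
      (L' := fun r => Real.exp (-(2 * r / π)) * (-(2 / π)) * (Y r - G)
          + Real.exp (-(2 * r / π)) * (NN u c (t2 + r) + NN u c (t1 - r))) hd.le
      (fun x _ => hasDerivAt_const _ _) hΦd (fun r hr => ?_)
    · simp only [sub_self, mul_zero, zero_div, neg_zero, Real.exp_zero, one_mul] at h1
      linarith
    · have h2 := hYle r hr
      have h3 : (2 / π) * (Y r - G) ≤ NN u c (t2 + r) + NN u c (t1 - r) := by
        have h4 := mul_le_mul_of_nonneg_left h2 (by positivity : (0 : ℝ) ≤ 2 / π)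
        have h5 : 2 / π * (π / 2 * (NN u c (t2 + r) + NN u c (t1 - r)))
            = NN u c (t2 + r) + NN u c (t1 - r) := by
          field_simp
        linarith
      have h6 := mul_le_mul_of_nonneg_left h3 (Real.exp_pos (-(2 * r / π))).le
      nlinarith
  have hYdle : Y d ≤ mass (fun z => ‖fderiv ℝ u z‖ ^ 2) c (t2 + d) := by
    have hab : t1 - d ≤ t2 + d := by linarith
    have hlt : ∀ x ∈ Icc (t1 - d) (t2 + d), x < T := fun x hx => by linarith [hx.2]
    have h1 := sub_le_sub_of_deriv (K := K) (L := mass (fun z => ‖fderiv ℝ u z‖ ^ 2) c)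
      (K' := NN u c) (L' := fun x => Real.exp (2 * x) * avg (fun z => ‖fderiv ℝ u z‖ ^ 2) c x) hab
      (fun x hx => hKd x (hlt x hx)) (fun x hx => mass_hasDerivAt hgu (hlt x hx))
      (fun x hx => NN_le hu (hlt x hx))
    have h2 : 0 ≤ mass (fun z => ‖fderiv ℝ u z‖ ^ 2) c (t1 - d) :=
      mass_nonneg fun z _ => sq_nonneg _
    have h3 : Y d = K (t2 + d) - K (t1 - d) := rfl
    linarith
  have hG0 : 0 ≤ G := mul_nonneg hWnn (by linarith [hmono (t1 - d) (t2 + d) (by linarith) hT])
  have hY0 : Y 0 ≤ G + Real.exp (-(2 * d / π)) * mass (fun z => ‖fderiv ℝ u z‖ ^ 2) c (t2 + d) := by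
    have he : 0 < Real.exp (-(2 * d / π)) := Real.exp_pos _
    have h1 : Real.exp (-(2 * d / π)) * (Y d - G)
        ≤ Real.exp (-(2 * d / π)) * mass (fun z => ‖fderiv ℝ u z‖ ^ 2) c (t2 + d) :=
      mul_le_mul_of_nonneg_left (by linarith) he.le
    linarith
  -- the integral
  have hfin : ∫ t in t1..t2, |(mass (fun z => f (u z)) c t) ^ 2
      - 4 * mass (fun z => F (u z)) c t| ≤
      (K t2 + 2 * mass (fun z => F (u z)) c t2) - (K t1 + 2 * mass (fun z => F (u z)) c t1) := by
    have hlt : ∀ x ∈ Icc t1 t2, x < T := fun x hx => by linarith [hx.2]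
    have hder : ∀ x ∈ Icc t1 t2, HasDerivAt (fun x => K x + 2 * mass (fun z => F (u z)) c x)
        (NN u c x + 2 * (Real.exp (2 * x) * avg (fun z => F (u z)) c x)) x :=
      fun x hx => (hKd x (hlt x hx)).add ((mass_hasDerivAt hFu (hlt x hx)).const_mul 2)
    refine intervalIntegral.integral_le_sub_of_hasDeriv_right_of_le
      (g := fun x => K x + 2 * mass (fun z => F (u z)) c x) ht
      (fun x hx => (hder x hx).continuousAt.continuousWithinAt)
      (fun x hx => (hder x (Ioo_subset_Icc_self hx)).hasDerivWithinAt) ?_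
      (fun x hx => pointwise_window hu hf hF hF0 heq (hlt x (Ioo_subset_Icc_self hx)))
    refine ContinuousOn.integrableOn_Icc fun x hx => ?_
    have h1 := (mass_hasDerivAt hfu (hlt x hx)).continuousAt
    have h2 := (mass_hasDerivAt hFu (hlt x hx)).continuousAt
    exact (((h1.pow 2).sub (h2.const_mul 4)).abs).continuousWithinAt
  have hK1 : Y 0 = K t2 - K t1 := by
    have : Y 0 = K (t2 + 0) - K (t1 - 0) := rfl
    rw [this, add_zero, sub_zero]
  have hF1 : 0 ≤ mass (fun z => F (u z)) c t1 := mass_nonneg fun z _ => hF0 _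
  linarith

end Pool.Agent.LE87
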