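import Pool.Agent.LE87.TrC1

set_option autoImplicit false

open Complex MeasureTheory Set Filter Topology Metric
open scoped Real

namespace Pool.Agent.LE87

theorem plus_cont {Ω : Set ℂ} {p q : ℝ} {u : ℂ → ℝ} (hu : Sol Ω p u) (hq : 0 < q) :
    Continuous (fun z => (max (u z) 0) ^ q) :=
  (hu.cont.max continuous_const).rpow_const (fun _ => Or.inr hq.le)

theorem plus_compact {Ω : Set ℂ} {p q R : ℝ} {u : ℂ → ℝ} (hΩR : Ω ⊆ ball 0 R) (hu : Sol Ω p u)
    (hq : 0 < q) : HasCompactSupport (fun z => (max (u z) 0) ^ q) := by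
  refine HasCompactSupport.intro (isCompact_closedBall (0 : ℂ) R) (fun z hz => ?_)
  have : u z = 0 := hu.zero z (fun h => hz (ball_subset_closedBall (hΩR h)))
  rw [this, max_self, Real.zero_rpow hq.ne']

theorem plus_integrable {Ω : Set ℂ} {p q R : ℝ} {u : ℂ → ℝ} (hΩR : Ω ⊆ ball 0 R)
    (hu : Sol Ω p u) (hq : 0 < q) : Integrable (fun z => (max (u z) 0) ^ q) :=
  (plus_cont hu hq).integrable_of_hasCompactSupport (plus_compact hΩR hu hq)

/-- `h(u) Δu = -h(u) (u^+)^p` when `h = 0` on `(-∞, ε]` -/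
theorem trunc_lap {Ω : Set ℂ} {p ε : ℝ} {u : ℂ → ℝ} {h : ℝ → ℝ} (hu : Sol Ω p u)
    (hε : 0 < ε) (h0 : ∀ s ≤ ε, h s = 0) (z : ℂ) :
    h (u z) * lap u z = -(h (u z) * (max (u z) 0) ^ p) := by
  rcases le_or_gt (u z) ε with hz | hz
  · rw [h0 _ hz]; simp
  · have hpos : 0 < u z := hε.trans hz
    have hzΩ : z ∈ Ω := by
      by_contra hc
      rw [hu.zero z hc] at hpos
      exact lt_irrefl _ hpos
    have he := hu.eq z hzΩ
    rw [abs_of_pos hpos] at he
    have e2 : (u z) ^ (p - 1) * u z = (u z) ^ p := by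
      rw [Real.rpow_sub_one hpos.ne']
      field_simp
    rw [e2] at he
    rw [max_eq_left hpos.le, ← he]
    ring

theorem energy_eps {Ω : Set ℂ} {p R ε : ℝ} {u : ℂ → ℝ} (hΩ : IsOpen Ω)
    (hΩR : Ω ⊆ ball 0 R) (hp : 0 < p) (hu : Sol Ω p u) (hε : 0 < ε)
    (hint : IntegrableOn (fun z => ‖fderiv ℝ u z‖ ^ 2) Ω) :
    ∫ z, psi ε (u z) * (max (u z) 0) ^ p ≤
      ∫ z in Ω ∩ {z | 0 < u z}, ‖fderiv ℝ u z‖ ^ 2 := by
  have hC1 : ∀ v : ℂ, ContDiff ℝ 1 (fun w => psi ε (u w) * fderiv ℝ u w v) := fun v =>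
    X_contDiff hΩ hu hε ((psi_contDiff hε).of_le (by norm_num)) (fun s hs => psi_zero hs) v
  have hcs : ∀ v : ℂ, HasCompactSupport (fun w => psi ε (u w) * fderiv ℝ u w v) := fun v =>
    X_compact hΩR hu hε (fun s hs => psi_zero hs) v
  obtain ⟨i1, e1⟩ := integral_fderiv_zero (hC1 1) (hcs 1) 1
  obtain ⟨i2, e2⟩ := integral_fderiv_zero (hC1 Complex.I) (hcs Complex.I) Complex.I
  have hdiv : ∀ z, psi1 ε (u z) * ((fderiv ℝ u z 1) ^ 2 + (fderiv ℝ u z Complex.I) ^ 2)
      = (fderiv ℝ (fun w => psi ε (u w) * fderiv ℝ u w 1) z 1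
      + fderiv ℝ (fun w => psi ε (u w) * fderiv ℝ u w Complex.I) z Complex.I)
      + psi ε (u z) * (max (u z) 0) ^ p := by
    intro z
    rw [X_div hΩ hu hε (psi_hasDerivAt hε) (fun s hs => psi_zero hs) (fun s hs => psi1_zero hs) z,
      trunc_lap hu hε (fun s hs => psi_zero hs) z]
    ring
  have iB : Integrable (fun z => psi ε (u z) * (max (u z) 0) ^ p) := by
    refine Continuous.integrable_of_hasCompactSupport
      (((psi_cont ε).comp hu.cont).mul (plus_cont hu hp)) ?_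
    exact (plus_compact hΩR hu hp).mul_left
  have iS : Integrable (fun z => psi1 ε (u z) *
      ((fderiv ℝ u z 1) ^ 2 + (fderiv ℝ u z Complex.I) ^ 2)) :=
    ((i1.add i2).add iB).congr (Filter.Eventually.of_forall fun z => (hdiv z).symm)
  have eS : ∫ z, psi1 ε (u z) * ((fderiv ℝ u z 1) ^ 2 + (fderiv ℝ u z Complex.I) ^ 2)
      = ∫ z, psi ε (u z) * (max (u z) 0) ^ p := by
    have i12 : Integrable (fun z => fderiv ℝ (fun w => psi ε (u w) * fderiv ℝ u w 1) z 1
        + fderiv ℝ (fun w => psi ε (u w) * fderiv ℝ u w Complex.I) z Complex.I) := i1.add i2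
    rw [integral_congr_ae (Filter.Eventually.of_forall hdiv)]
    rw [integral_add i12 iB, integral_add i1 i2, e1, e2]
    ring
  have hmeas : MeasurableSet (Ω ∩ {z | 0 < u z}) :=
    (hΩ.inter (isOpen_lt continuous_const hu.cont)).measurableSet
  rw [← eS, ← integral_indicator hmeas]
  refine integral_mono iS ?_ ?_
  · exact (integrable_indicator_iff hmeas).2 (hint.mono_set inter_subset_left)
  · intro z
    by_cases hz : z ∈ Ω ∩ {z | 0 < u z}
    · simp only [indicator_of_mem hz]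
      have h1 := sq_add_sq_le_norm_sq (fderiv ℝ u z)
      have h2 := psi1_le_one hε (u z)
      have h3 := psi1_nonneg ε (u z)
      have h4 : 0 ≤ (fderiv ℝ u z 1) ^ 2 + (fderiv ℝ u z Complex.I) ^ 2 := by positivity
      calc psi1 ε (u z) * ((fderiv ℝ u z 1) ^ 2 + (fderiv ℝ u z Complex.I) ^ 2)
          ≤ 1 * ((fderiv ℝ u z 1) ^ 2 + (fderiv ℝ u z Complex.I) ^ 2) :=
            mul_le_mul_of_nonneg_right h2 h4
        _ ≤ ‖fderiv ℝ u z‖ ^ 2 := by rw [one_mul]; exact h1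
    · simp only [indicator_of_notMem hz]
      have : u z ≤ ε := by
        by_contra hc
        push Not at hc
        have hpos : 0 < u z := hε.trans hc
        refine hz ⟨?_, hpos⟩
        by_contra hcc
        rw [hu.zero z hcc] at hpos
        exact lt_irrefl _ hpos
      rw [psi1_zero this, zero_mul]

theorem energy_pos {Ω : Set ℂ} {p R : ℝ} {u : ℂ → ℝ} (hΩ : IsOpen Ω)
    (hΩR : Ω ⊆ ball 0 R) (hp : 0 < p) (hu : Sol Ω p u)
    (hint : IntegrableOn (fun z => ‖fderiv ℝ u z‖ ^ 2) Ω) :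
    ∫ z, (max (u z) 0) ^ (p + 1) ≤ ∫ z in Ω ∩ {z | 0 < u z}, ‖fderiv ℝ u z‖ ^ 2 := by
  set J := ∫ z in Ω ∩ {z | 0 < u z}, ‖fderiv ℝ u z‖ ^ 2 with hJ
  set K := ∫ z, (max (u z) 0) ^ p with hK
  have hK0 : 0 ≤ K := integral_nonneg fun z => by positivity
  have key : ∀ ε : ℝ, 0 < ε → ∫ z, (max (u z) 0) ^ (p + 1) ≤ J + 3 * ε * K := by
    intro ε hε
    have iB : Integrable (fun z => psi ε (u z) * (max (u z) 0) ^ p) := by
      refine Continuous.integrable_of_hasCompactSupport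
        (((psi_cont ε).comp hu.cont).mul (plus_cont hu hp)) ?_
      exact (plus_compact hΩR hu hp).mul_left
    have i1 := plus_integrable hΩR hu hp
    have h1 : ∫ z, (max (u z) 0) ^ (p + 1) ≤
        ∫ z, (psi ε (u z) * (max (u z) 0) ^ p + 3 * ε * (max (u z) 0) ^ p) := by
      refine integral_mono (plus_integrable hΩR hu (by linarith)) (iB.add (i1.const_mul _)) ?_
      intro z
      simp only
      rcases le_or_gt (u z) 0 with hz | hz
      · rw [max_eq_right hz, Real.zero_rpow (by linarith), Real.zero_rpow hp.ne']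
        simp
      · rw [max_eq_left hz.le, Real.rpow_add_one hz.ne']
        have h2 := psi_lower hε (u z)
        have h3 : 0 ≤ (u z) ^ p := Real.rpow_nonneg hz.le _
        nlinarith
    rw [integral_add iB (i1.const_mul _), integral_const_mul] at h1
    have h2 := energy_eps hΩ hΩR hp hu hε hint
    linarith
  refine le_of_forall_pos_le_add fun δ hδ => ?_
  have h := key (δ / (3 * (K + 1))) (by positivity)
  have h2 : 3 * (δ / (3 * (K + 1))) * K ≤ δ := by
    have : 3 * (δ / (3 * (K + 1))) * K = δ * (K / (K + 1)) := by field_simp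
    rw [this]
    have h3 : K / (K + 1) ≤ 1 := by rw [div_le_one (by positivity)]; linarith
    nlinarith
  linarith

theorem lap_neg (u : ℂ → ℝ) (z : ℂ) : lap (fun w => -u w) z = -lap u z := by
  have h : ∀ v : ℂ, (fun w => fderiv ℝ (fun w => -u w) w v) = fun w => -(fderiv ℝ u w v) := by
    intro v
    funext w
    rw [fderiv_fun_neg]
    rfl
  unfold lap
  rw [h 1, h Complex.I, fderiv_fun_neg, fderiv_fun_neg]
  simp only [_root_.neg_apply]
  ring

theorem Sol.neg {Ω : Set ℂ} {p : ℝ} {u : ℂ → ℝ} (hu : Sol Ω p u) : Sol Ω p (fun z => -u z) where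
  cont := hu.cont.neg
  zero := fun z hz => by rw [hu.zero z hz, neg_zero]
  smooth := hu.smooth.neg
  eq := fun z hz => by
    have := hu.eq z hz
    rw [lap_neg, abs_neg, neg_neg]
    linarith

theorem energy {Ω : Set ℂ} {p R : ℝ} {u : ℂ → ℝ} (hΩ : IsOpen Ω)
    (hΩR : Ω ⊆ ball 0 R) (hp : 1 < p) (hu : Sol Ω p u)
    (hint : IntegrableOn (fun z => ‖fderiv ℝ u z‖ ^ 2) Ω) :
    ∫ z, |u z| ^ (p + 1) ≤ ∫ z in Ω, ‖fderiv ℝ u z‖ ^ 2 := by
  have hp0 : 0 < p := by linarith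
  have hn : ∀ z, fderiv ℝ (fun w => -u w) z = -fderiv ℝ u z := fun z => fderiv_fun_neg
  have hint' : IntegrableOn (fun z => ‖fderiv ℝ (fun w => -u w) z‖ ^ 2) Ω := by
    simpa only [hn, norm_neg] using hint
  have h1 := energy_pos hΩ hΩR hp0 hu hint
  have h2 := energy_pos hΩ hΩR hp0 hu.neg hint'
  simp only [hn, norm_neg] at h2
  have e1 : ∫ z, |u z| ^ (p + 1) =
      ∫ z, ((max (u z) 0) ^ (p + 1) + (max (-u z) 0) ^ (p + 1)) := by
    congr 1
    funext z
    have hne : p + 1 ≠ 0 := by linarith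
    rcases le_or_gt (u z) 0 with hz | hz
    · rw [max_eq_right hz, max_eq_left (by linarith : 0 ≤ -u z), abs_of_nonpos hz,
        Real.zero_rpow hne, zero_add]
    · rw [max_eq_left hz.le, max_eq_right (by linarith : -u z ≤ 0), abs_of_pos hz,
        Real.zero_rpow hne, add_zero]
  rw [e1, integral_add (plus_integrable hΩR hu (by linarith))
    (plus_integrable hΩR hu.neg (by linarith))]
  have hm1 : MeasurableSet (Ω ∩ {z | 0 < u z}) :=
    (hΩ.inter (isOpen_lt continuous_const hu.cont)).measurableSet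
  have hm2 : MeasurableSet (Ω ∩ {z | 0 < -u z}) :=
    (hΩ.inter (isOpen_lt continuous_const hu.cont.neg)).measurableSet
  have hdisj : Disjoint (Ω ∩ {z | 0 < u z}) (Ω ∩ {z | 0 < -u z}) := by
    rw [Set.disjoint_left]
    rintro z ⟨_, hz1⟩ ⟨_, hz2⟩
    have h3 : 0 < u z := hz1
    have h4 : 0 < -u z := hz2
    linarith
  have h3 : (∫ z in Ω ∩ {z | 0 < u z}, ‖fderiv ℝ u z‖ ^ 2)
      + (∫ z in Ω ∩ {z | 0 < -u z}, ‖fderiv ℝ u z‖ ^ 2)
      = ∫ z in (Ω ∩ {z | 0 < u z}) ∪ (Ω ∩ {z | 0 < -u z}), ‖fderiv ℝ u z‖ ^ 2 :=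
    (setIntegral_union hdisj hm2 (hint.mono_set inter_subset_left)
      (hint.mono_set inter_subset_left)).symm
  have h4 : ∫ z in (Ω ∩ {z | 0 < u z}) ∪ (Ω ∩ {z | 0 < -u z}), ‖fderiv ℝ u z‖ ^ 2
      ≤ ∫ z in Ω, ‖fderiv ℝ u z‖ ^ 2 := by
    refine setIntegral_mono_set hint (Filter.Eventually.of_forall fun z => by positivity) ?_
    exact (union_subset inter_subset_left inter_subset_left).eventuallyLE
  linarith

end Pool.Agent.LE87
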