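import Pool.Agent.LE87.PolA
import Pool.Agent.LE87.TrC2

set_option autoImplicit false

open Complex MeasureTheory Set Filter Topology Metric
open scoped Real

namespace Pool.Agent.LE87

/-! ## Module C: `green` -/

theorem phi_contDiff {Ω : Set ℂ} {p ε : ℝ} {u : ℂ → ℝ} (hΩ : IsOpen Ω) (hu : Sol Ω p u)
    (hε : 0 < ε) : ContDiff ℝ 2 (fun w => psi ε (u w)) := by
  rw [contDiff_iff_contDiffAt]
  intro z
  by_cases hz : z ∈ Ω
  · exact (psi_contDiff hε).contDiffAt.comp z (u_diff hΩ hu hz)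
  · refine (contDiffAt_const (c := (0 : ℝ))).congr_of_eventuallyEq ?_
    filter_upwards [near_off hu hε hz] with w hw
    exact psi_zero hw.le

theorem phi_fderiv {Ω : Set ℂ} {p ε : ℝ} {u : ℂ → ℝ} (hΩ : IsOpen Ω) (hu : Sol Ω p u)
    (hε : 0 < ε) (z v : ℂ) :
    fderiv ℝ (fun w => psi ε (u w)) z v = psi1 ε (u z) * fderiv ℝ u z v := by
  by_cases hz : z ∈ Ω
  · have h1 : HasFDerivAt u (fderiv ℝ u z) z :=
      ((u_diff hΩ hu hz).differentiableAt (by norm_num)).hasFDerivAt
    have h2 : HasFDerivAt (fun w => psi ε (u w)) (psi1 ε (u z) • fderiv ℝ u z) z :=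
      (psi_hasDerivAt hε (u z)).comp_hasFDerivAt z h1
    rw [h2.fderiv]
    rfl
  · have e0 : u z ≤ ε := by rw [hu.zero z hz]; exact hε.le
    have h2 : HasFDerivAt (fun w => psi ε (u w)) (0 : ℂ →L[ℝ] ℝ) z := by
      refine (hasFDerivAt_const (0 : ℝ) z).congr_of_eventuallyEq ?_
      filter_upwards [near_off hu hε hz] with w hw
      exact psi_zero hw.le
    rw [h2.fderiv, psi1_zero e0, zero_mul]
    rfl

theorem phi_lap {Ω : Set ℂ} {p ε : ℝ} {u : ℂ → ℝ} (hΩ : IsOpen Ω) (hu : Sol Ω p u)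
    (hε : 0 < ε) (z : ℂ) :
    lap (fun w => psi ε (u w)) z = -(psi1 ε (u z) * (max (u z) 0) ^ p)
      + psi2 ε (u z) * ((fderiv ℝ u z 1) ^ 2 + (fderiv ℝ u z Complex.I) ^ 2) := by
  have h : ∀ v : ℂ, (fun w => fderiv ℝ (fun w => psi ε (u w)) w v)
      = fun w => psi1 ε (u w) * fderiv ℝ u w v := fun v => funext fun w => phi_fderiv hΩ hu hε w v
  have h1 := X_div hΩ hu hε (psi1_hasDerivAt hε) (fun s hs => psi1_zero hs)
    (fun s hs => psi2_zero hs) z
  rw [trunc_lap hu hε (fun s hs => psi1_zero hs) z] at h1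
  rw [← h1]
  unfold lap
  rw [h 1, h Complex.I]

theorem phi_lap_lower {Ω : Set ℂ} {p ε : ℝ} {u : ℂ → ℝ} (hΩ : IsOpen Ω) (hu : Sol Ω p u)
    (hε : 0 < ε) (z : ℂ) :
    -((max (u z) 0) ^ p) ≤ lap (fun w => psi ε (u w)) z := by
  rw [phi_lap hΩ hu hε z]
  have h1 := psi1_le_one hε (u z)
  have h2 := psi1_nonneg ε (u z)
  have h3 : 0 ≤ (max (u z) 0) ^ p := Real.rpow_nonneg (le_max_right _ _) _
  have h4 := mul_nonneg (psi2_nonneg ε (u z))
    (by positivity : 0 ≤ (fderiv ℝ u z 1) ^ 2 + (fderiv ℝ u z Complex.I) ^ 2)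
  nlinarith

theorem phi_lap_cont {Ω : Set ℂ} {p ε : ℝ} {u : ℂ → ℝ} (hΩ : IsOpen Ω) (hu : Sol Ω p u)
    (hε : 0 < ε) : Continuous (lap (fun w => psi ε (u w))) := by
  have hC : ∀ v : ℂ, Continuous (fun z => fderiv ℝ (fun w => psi1 ε (u w) * fderiv ℝ u w v) z v) :=
    fun v => ((X_contDiff hΩ hu hε (psi1_contDiff hε) (fun s hs => psi1_zero hs) v
      ).continuous_fderiv (by norm_num)).clm_apply continuous_const
  have h : ∀ v : ℂ, (fun w => fderiv ℝ (fun w => psi ε (u w)) w v)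
      = fun w => psi1 ε (u w) * fderiv ℝ u w v := fun v => funext fun w => phi_fderiv hΩ hu hε w v
  have e : lap (fun w => psi ε (u w)) = fun z =>
      fderiv ℝ (fun w => psi1 ε (u w) * fderiv ℝ u w 1) z 1
      + fderiv ℝ (fun w => psi1 ε (u w) * fderiv ℝ u w Complex.I) z Complex.I := by
    funext z
    unfold lap
    rw [h 1, h Complex.I]
  rw [e]
  exact (hC 1).add (hC Complex.I)

theorem mass_mono_fun {f g : ℂ → ℝ} (hf : Continuous f) (hg : Continuous g) (h : ∀ z, f z ≤ g z)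
    (c : ℂ) (t : ℝ) : mass f c t ≤ mass g c t := by
  unfold mass
  have hif : ∀ {k : ℂ → ℝ}, Continuous k → IntegrableOn k (ball c (Real.exp t)) := fun hk =>
    (hk.continuousOn.integrableOn_compact (isCompact_closedBall c (Real.exp t))).mono_set
      ball_subset_closedBall
  refine mul_le_mul_of_nonneg_left (integral_mono (hif hf) (hif hg) h) ?_
  positivity

theorem mass_neg_fun (f : ℂ → ℝ) (c : ℂ) (t : ℝ) : mass (fun z => -f z) c t = -mass f c t := by
  unfold mass
  rw [integral_neg]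
  ring

theorem mass_nonneg_fun {f : ℂ → ℝ} (h : ∀ z, 0 ≤ f z) (c : ℂ) (t : ℝ) : 0 ≤ mass f c t := by
  unfold mass
  have : 0 ≤ ∫ z in ball c (Real.exp t), f z := integral_nonneg fun z => h z
  positivity

theorem mass_continuous {g : ℂ → ℝ} (hg : Continuous g) (c : ℂ) : Continuous (mass g c) := by
  rw [continuous_iff_continuousAt]
  intro t
  exact (mass_hasDerivAt (T := t + 1) hg.continuousOn (by linarith)).continuousAt

/-- a bounded continuous function has mass `≤ K e^{2t} / 2` -/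
theorem mass_le_of_bound {g : ℂ → ℝ} {K : ℝ} (hg : Continuous g) (hK : ∀ z, g z ≤ K)
    (c : ℂ) (t : ℝ) : mass g c t ≤ K / 2 * Real.exp (2 * t) := by
  have h1 := mass_mono_fun hg continuous_const hK c t
  refine h1.trans (le_of_eq ?_)
  unfold mass
  have hv : volume.real (ball c (Real.exp t)) = Real.exp t ^ 2 * π := by
    rw [measureReal_def, Complex.volume_ball, ENNReal.toReal_mul, ENNReal.toReal_pow,
      ENNReal.toReal_ofReal (Real.exp_pos t).le]
    rfl
  rw [setIntegral_const, hv]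
  rw [smul_eq_mul, two_mul t, Real.exp_add]
  have : π ≠ 0 := Real.pi_ne_zero
  field_simp

theorem mass_integrableOn {g : ℂ → ℝ} {K : ℝ} (hg : Continuous g) (h0 : ∀ z, 0 ≤ g z)
    (hK : ∀ z, g z ≤ K) (c : ℂ) (T : ℝ) : IntegrableOn (mass g c) (Iic T) := by
  have h1 : IntegrableOn (fun t : ℝ => K / 2 * Real.exp (2 * t)) (Iic T) :=
    (integrableOn_exp_mul_Iic (by norm_num : (0 : ℝ) < 2) T).const_mul _
  refine Integrable.mono' h1 (mass_continuous hg c).aestronglyMeasurable ?_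
  refine Filter.Eventually.of_forall fun t => ?_
  rw [Real.norm_eq_abs, abs_of_nonneg (mass_nonneg_fun h0 c t)]
  exact mass_le_of_bound hg hK c t

theorem green_eps {Ω : Set ℂ} {p R ε : ℝ} {u : ℂ → ℝ} (hΩ : IsOpen Ω) (hR : 0 < R)
    (hΩR : Ω ⊆ ball 0 R) (hp : 0 < p) (hu : Sol Ω p u) (hε : 0 < ε) {x : ℂ} (hx : x ∈ Ω) :
    psi ε (u x) ≤ ∫ t in Iic (Real.log (2 * R)), mass (fun z => (max (u z) 0) ^ p) x t := by
  set φ : ℂ → ℝ := fun w => psi ε (u w) with hφ
  set g : ℂ → ℝ := fun z => (max (u z) 0) ^ p with hg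
  set T0 := Real.log (2 * R) with hT0
  have hgc : Continuous g := plus_cont hu hp
  have hg0 : ∀ z, 0 ≤ g z := fun z => Real.rpow_nonneg (le_max_right _ _) _
  have hφ2 : ContDiff ℝ 2 φ := phi_contDiff hΩ hu hε
  have hlc : Continuous (lap φ) := phi_lap_cont hΩ hu hε
  obtain ⟨K, hK⟩ : ∃ K, ∀ z, g z ≤ K := by
    obtain ⟨K, hK⟩ := hgc.bounded_above_of_compact_support (plus_compact hΩR hu hp)
    exact ⟨K, fun z => (le_abs_self _).trans (hK z)⟩
  have hint : IntegrableOn (mass g x) (Iic T0) := mass_integrableOn hgc hg0 hK x T0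
  have hexp : Real.exp T0 = 2 * R := Real.exp_log (by linarith)
  have h0 : avg φ x T0 = 0 := by
    unfold avg
    have : ∀ θ : ℝ, φ (pt x T0 θ) = 0 := by
      intro θ
      have hout : pt x T0 θ ∉ Ω := by
        intro hc
        have h1 := hΩR hc
        have h2 := hΩR hx
        rw [mem_ball_zero_iff] at h1 h2
        have h3 : ‖ew T0 θ‖ ≤ ‖pt x T0 θ‖ + ‖x‖ := by
          have : ew T0 θ = pt x T0 θ - x := by rw [pt_eq]; ring
          rw [this]
          exact norm_sub_le _ _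
        rw [norm_ew, hexp] at h3
        linarith
      simp only [hφ]
      rw [hu.zero _ hout]
      exact psi_zero hε.le
    simp [this]
  have hder : ∀ t, HasDerivAt (avg φ x) (mass (lap φ) x t) t := fun t =>
    avg_hasDerivAt (T := t + 1) hφ2.contDiffOn (by linarith)
  have hneg : ∀ t, -mass g x t ≤ mass (lap φ) x t := by
    intro t
    rw [← mass_neg_fun]
    exact mass_mono_fun hgc.neg hlc (fun z => phi_lap_lower hΩ hu hε z) x t
  have key : ∀ t ≤ T0, avg φ x t ≤ ∫ s in Iic T0, mass g x s := by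
    intro t ht
    have h1 : ∫ s in t..T0, mass (lap φ) x s = avg φ x T0 - avg φ x t :=
      intervalIntegral.integral_eq_sub_of_hasDerivAt (fun s _ => hder s)
        ((mass_continuous hlc x).intervalIntegrable _ _)
    have h2 : ∫ s in t..T0, -mass g x s ≤ ∫ s in t..T0, mass (lap φ) x s :=
      intervalIntegral.integral_mono_on ht ((mass_continuous hgc x).neg.intervalIntegrable _ _)
        ((mass_continuous hlc x).intervalIntegrable _ _) (fun s _ => hneg s)
    rw [intervalIntegral.integral_neg] at h2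
    have h3 : ∫ s in t..T0, mass g x s ≤ ∫ s in Iic T0, mass g x s := by
      rw [intervalIntegral.integral_of_le ht]
      refine setIntegral_mono_set hint
        (Filter.Eventually.of_forall fun s => mass_nonneg_fun hg0 x s) ?_
      exact (Ioc_subset_Iic_self).eventuallyLE
    linarith
  have hlim : Tendsto (avg φ x) atBot (𝓝 (φ x)) :=
    avg_tendsto (T := 0) hφ2.continuous.continuousOn
  refine le_of_tendsto hlim ?_
  filter_upwards [Iic_mem_atBot T0] with t ht
  exact key t ht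

theorem green {Ω : Set ℂ} {p R : ℝ} {u : ℂ → ℝ} (hΩ : IsOpen Ω) (hR : 0 < R)
    (hΩR : Ω ⊆ ball 0 R) (hp : 1 < p) (hu : Sol Ω p u) (x : ℂ) :
    max (u x) 0 ≤ ∫ t in Iic (Real.log (2 * R)), mass (fun z => (max (u z) 0) ^ p) x t := by
  have hg0 : ∀ z, 0 ≤ (max (u z) 0) ^ p := fun z => Real.rpow_nonneg (le_max_right _ _) _
  have hnn : 0 ≤ ∫ t in Iic (Real.log (2 * R)), mass (fun z => (max (u z) 0) ^ p) x t :=
    integral_nonneg fun t => mass_nonneg_fun hg0 x t
  refine max_le ?_ hnn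
  by_cases hx : x ∈ Ω
  · refine le_of_forall_pos_le_add fun δ hδ => ?_
    have h1 := green_eps hΩ hR hΩR (by linarith) hu (by positivity : 0 < δ / 3) hx
    have h2 := psi_lower (by positivity : 0 < δ / 3) (u x)
    linarith
  · rw [hu.zero x hx]
    exact hnn

end Pool.Agent.LE87
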