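import Pool.Agent.LE87.PolA
import Pool.Agent.LE87.PohB
import Pool.Agent.LE87.TrC
import Pool.Agent.LE87.BarD

set_option autoImplicit false

open Complex MeasureTheory Set Filter Topology Metric
open scoped Real

namespace Pool.Agent.LE87

theorem barrier {Ω : Set ℂ} {p m T t : ℝ} {u : ℂ → ℝ} {c : ℂ} (hΩ : IsOpen Ω)
    (hp : 1 < p) (hu : Sol Ω p u) (hc : ball c (Real.exp T) ⊆ Ω) (ht : t < T)
    (hm : mass (fun z => |u z| ^ p) c t ≤ m) :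
    (max (|avg u c t| - m) 0) ^ p * (Real.exp (2 * t) * (1 - Real.exp (-2)) / 2) ≤ m :=
  BD.barrier hΩ hp hu hc ht hm

theorem two_centres {Ω : Set ℂ} {p m M r t : ℝ} {u : ℂ → ℝ} {c c' : ℂ} (hΩ : IsOpen Ω)
    (hp : 1 < p) (hu : Sol Ω p u) (hr : 0 < r) (hrΩ : ball 0 (2 * r) ⊆ Ω)
    (hM : ∀ z, |u z| ≤ M)
    (hm : ∀ (x : ℂ) (τ : ℝ), mass (fun z => |u z| ^ p) x τ ≤ m)
    (hc : ‖c‖ ≤ r / 4) (hc' : ‖c'‖ ≤ r / 4) (hcc : ‖c - c'‖ ≤ Real.exp t)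
    (ht : Real.exp t ≤ r / 4) :
    |avg u c t - avg u c' t| ≤ 100 * M * ‖c - c'‖ / r + 4 * m :=
  BD.two_centres hΩ hp hu hr hrΩ hM hm hc hc' hcc ht

end Pool.Agent.LE87
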