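import Pool.Agent.LE87.P2Defs
import Pool.Agent.LE87.Prelim

set_option autoImplicit false

open Complex MeasureTheory Set Filter Topology Metric
open scoped Real

namespace Pool.Agent.LE87

variable {Ω : Set ℂ} {R ρ : ℝ} {k : ℕ} {C0 p : ℝ} {u : ℂ → ℝ}

theorem Good.neg' (h : Good Ω k C0 p u) : Good Ω k C0 p (fun z => -u z) where
  hp := h.hp
  sol := h.sol.neg
  symm := fun z => by rw [h.symm]
  pos := by obtain ⟨z, hz⟩ := h.neg; exact ⟨z, by linarith⟩
  neg := by obtain ⟨z, hz⟩ := h.pos; exact ⟨z, by linarith⟩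
  hint := by
    have := h.hint
    simpa only [fderiv_fun_neg, norm_neg] using this
  energy := by
    have := h.energy
    simpa only [fderiv_fun_neg, norm_neg] using this

theorem aM_neg (c : ℂ) (s : ℝ) : aM p (fun z => -u z) c s = aP p u c s := by
  unfold aM; simp

theorem tM_neg (c : ℂ) (s : ℝ) : tM p (fun z => -u z) c s = tP p u c s := by
  unfold tM; simp

theorem VV_neg (c : ℂ) (s : ℝ) : VV p (fun z => -u z) c s = -VV p u c s := by
  unfold VV avg
  rw [intervalIntegral.integral_neg]; ring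

/-! ### integrability -/

theorem pp_nonneg (q : ℝ) (z : ℂ) : 0 ≤ pp q u z := Real.rpow_nonneg (le_max_right _ _) _

theorem pp_cont {q : ℝ} (hq : 0 ≤ q) (hu : Continuous u) : Continuous (pp q u) :=
  (hu.max continuous_const).rpow_const (fun _ => Or.inr hq)

theorem pp_zero {q : ℝ} (hq : 0 < q) {z : ℂ} (hz : u z = 0) : pp q u z = 0 := by
  unfold pp; rw [hz, max_self, Real.zero_rpow hq.ne']

theorem pp_compact {q : ℝ} (hq : 0 < q) (hD : Dom Ω R ρ k C0) (hu : Sol Ω p u) :
    HasCompactSupport (pp q u) := by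
  apply HasCompactSupport.of_support_subset_isCompact (isCompact_closedBall (0 : ℂ) R)
  intro z hz
  by_contra h
  apply hz
  apply pp_zero hq
  apply hu.zero
  intro hz2
  exact h (ball_subset_closedBall (hD.sub hz2))

theorem pp_integrable {q : ℝ} (hq : 0 < q) (hD : Dom Ω R ρ k C0) (hu : Sol Ω p u) :
    Integrable (pp q u) :=
  (pp_cont hq.le hu.cont).integrable_of_hasCompactSupport (pp_compact hq hD hu)

/-- total -/
noncomputable def tot (g : ℂ → ℝ) : ℝ := (2 * π)⁻¹ * ∫ z, g z

theorem mass_nonneg {g : ℂ → ℝ} (hg : ∀ z, 0 ≤ g z) (c : ℂ) (t : ℝ) : 0 ≤ mass g c t := by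
  unfold mass
  have : 0 ≤ ∫ z in ball c (Real.exp t), g z := integral_nonneg hg
  positivity

theorem mass_mono {g : ℂ → ℝ} (hg : ∀ z, 0 ≤ g z) (hi : Integrable g) (c : ℂ) {t t' : ℝ}
    (h : t ≤ t') : mass g c t ≤ mass g c t' := by
  unfold mass
  apply mul_le_mul_of_nonneg_left _ (by positivity)
  exact setIntegral_mono_set hi.integrableOn (Eventually.of_forall hg)
    (ball_subset_ball (Real.exp_le_exp.2 h)).eventuallyLE

theorem mass_le_tot {g : ℂ → ℝ} (hg : ∀ z, 0 ≤ g z) (hi : Integrable g) (c : ℂ) (t : ℝ) :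
    mass g c t ≤ tot g := by
  unfold mass tot
  apply mul_le_mul_of_nonneg_left _ (by positivity)
  exact setIntegral_le_integral hi (Eventually.of_forall hg)

/-- two balls, one inside the other -/
theorem mass_mono_ball {g : ℂ → ℝ} (hg : ∀ z, 0 ≤ g z) (hi : Integrable g) {c c' : ℂ} {t t' : ℝ}
    (h : ball c (Real.exp t) ⊆ ball c' (Real.exp t')) : mass g c t ≤ mass g c' t' := by
  unfold mass
  apply mul_le_mul_of_nonneg_left _ (by positivity)
  exact setIntegral_mono_set hi.integrableOn (Eventually.of_forall hg) h.eventuallyLE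

theorem mass_le_sup {g : ℂ → ℝ} (hg : ∀ z, 0 ≤ g z) {c : ℂ} {t K : ℝ}
    (hK : ∀ z ∈ ball c (Real.exp t), g z ≤ K) (hi : Integrable g) :
    mass g c t ≤ K * Real.exp (2 * t) / 2 := by
  unfold mass
  have h1 : ∫ z in ball c (Real.exp t), g z ≤ ∫ z in ball c (Real.exp t), K := by
    apply setIntegral_mono_on hi.integrableOn _ measurableSet_ball hK
    exact integrableOn_const (hs := (measure_ball_lt_top).ne)
  have h2 : ∫ z in ball c (Real.exp t), K = π * Real.exp (2 * t) * K := by
    rw [setIntegral_const, Measure.real, Complex.volume_ball, smul_eq_mul]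
    have : (ENNReal.ofReal (Real.exp t) ^ 2 * (NNReal.pi : ENNReal)).toReal = Real.exp t ^ 2 * π := by
      rw [ENNReal.toReal_mul, ENNReal.toReal_pow, ENNReal.toReal_ofReal (Real.exp_pos t).le]
      rfl
    rw [this, ← Real.exp_nat_mul]
    push_cast
    ring_nf
  rw [h2] at h1
  have hπ := Real.pi_pos
  calc (2 * π)⁻¹ * ∫ z in ball c (Real.exp t), g z
      ≤ (2 * π)⁻¹ * (π * Real.exp (2 * t) * K) := by
        apply mul_le_mul_of_nonneg_left h1 (by positivity)
    _ = K * Real.exp (2 * t) / 2 := by field_simp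

end Pool.Agent.LE87
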