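import Pool.Agent.LE87.P2A

set_option autoImplicit false

open Complex MeasureTheory Set Filter Topology Metric
open scoped Real

namespace Pool.Agent.LE87

variable {Ω : Set ℂ} {R ρ : ℝ} {k : ℕ} {C0 p : ℝ} {u : ℂ → ℝ}

/-! ### elementary limits -/

/-- `A p exp(-b p) → 0` -/
theorem small_exp {b : ℝ} (hb : 0 < b) (A : ℝ) {ε : ℝ} (hε : 0 < ε) :
    ∃ P0 : ℝ, ∀ p ≥ P0, A * p * Real.exp (-(b * p)) ≤ ε := by
  have h1 := Real.tendsto_pow_mul_exp_neg_atTop_nhds_zero 1
  have h2 : Tendsto (fun p : ℝ => b * p) atTop atTop := tendsto_id.const_mul_atTop hb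
  have h3 := (h1.comp h2).const_mul (A / b)
  simp only [mul_zero, Function.comp_def, pow_one] at h3
  have h4 := (h3.eventually (ge_mem_nhds hε))
  obtain ⟨P0, hP⟩ := eventually_atTop.1 h4
  refine ⟨P0, fun p hp => ?_⟩
  have := hP p hp
  have e : A / b * (b * p * Real.exp (-(b * p))) = A * p * Real.exp (-(b * p)) := by
    field_simp
  rw [e] at this
  exact this

/-- `A / p → 0` -/
theorem small_inv (A : ℝ) {ε : ℝ} (hε : 0 < ε) : ∃ P0 : ℝ, 0 < P0 ∧ ∀ p ≥ P0, A / p ≤ ε := by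
  refine ⟨|A| / ε + 1, by positivity, fun p hp => ?_⟩
  have hp0 : 0 < p := lt_of_lt_of_le (by positivity) hp
  rw [div_le_iff₀ hp0]
  have : |A| = |A| / ε * ε := by field_simp
  nlinarith [le_abs_self A, abs_nonneg A]

/-! ### energies -/

theorem pp_add (q : ℝ) (hq : 0 < q) (z : ℂ) :
    pp q u z + pp q (fun z => -u z) z = |u z| ^ q := by
  unfold pp
  rcases le_total 0 (u z) with h | h
  · rw [max_eq_left h, max_eq_right (by linarith), Real.zero_rpow hq.ne', abs_of_nonneg h, add_zero]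
  · rw [max_eq_right h, max_eq_left (by linarith), Real.zero_rpow hq.ne', abs_of_nonpos h, zero_add]

theorem tot_energy (hD : Dom Ω R ρ k C0) (hu : Good Ω k C0 p u) :
    p / 2 * tot (pp (p + 1) u) + p / 2 * tot (pp (p + 1) (fun z => -u z)) ≤ C0 := by
  have hp := hu.hp
  have h1 : ∫ z, |u z| ^ (p + 1) = (∫ z, pp (p + 1) u z) + ∫ z, pp (p + 1) (fun z => -u z) z := by
    rw [← integral_add (pp_integrable (by linarith) hD hu.sol)
      (pp_integrable (by linarith) hD hu.sol.neg)]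
    congr 1
    ext z
    exact (pp_add _ (by linarith) z).symm
  have h2 := energy hD.isOpen hD.sub hp hu.sol hu.hint
  rw [h1] at h2
  have h3 := hu.energy
  have hπ := Real.pi_pos
  unfold tot
  rw [← mul_add, ← mul_add]
  have h4 : p * ((∫ z, pp (p + 1) u z) + ∫ z, pp (p + 1) (fun z => -u z) z) ≤ 4 * π * C0 := by
    refine le_trans (mul_le_mul_of_nonneg_left h2 (by linarith)) h3
  calc p / 2 * ((2 * π)⁻¹ * ((∫ z, pp (p + 1) u z) + ∫ z, pp (p + 1) (fun z => -u z) z))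
      = (p * ((∫ z, pp (p + 1) u z) + ∫ z, pp (p + 1) (fun z => -u z) z)) / (4 * π) := by
        field_simp; ring
    _ ≤ 4 * π * C0 / (4 * π) := by gcongr
    _ = C0 := by field_simp

/-- total scaled masses and energies -/
noncomputable def mu (p : ℝ) (u : ℂ → ℝ) : ℝ := p / 2 * tot (pp p u)
noncomputable def te (p : ℝ) (u : ℂ → ℝ) : ℝ := p / 2 * tot (pp (p + 1) u)

theorem aP_nonneg (hp : 0 ≤ p) (c : ℂ) (s : ℝ) : 0 ≤ aP p u c s :=
  mul_nonneg (by linarith) (mass_nonneg (pp_nonneg _) _ _)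

theorem tP_nonneg (hp : 0 ≤ p) (c : ℂ) (s : ℝ) : 0 ≤ tP p u c s :=
  mul_nonneg (by linarith) (mass_nonneg (pp_nonneg _) _ _)

theorem aP_le_mu (hD : Dom Ω R ρ k C0) (hp : 0 < p) (hu : Sol Ω p u) (c : ℂ) (s : ℝ) :
    aP p u c s ≤ mu p u :=
  mul_le_mul_of_nonneg_left (mass_le_tot (pp_nonneg _) (pp_integrable hp hD hu) _ _) (by linarith)

theorem tP_le_te (hD : Dom Ω R ρ k C0) (hp : 0 < p) (hu : Sol Ω p u) (c : ℂ) (s : ℝ) :
    tP p u c s ≤ te p u :=
  mul_le_mul_of_nonneg_left (mass_le_tot (pp_nonneg _) (pp_integrable (by linarith) hD hu) _ _)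
    (by linarith)

theorem aP_anti (hD : Dom Ω R ρ k C0) (hp : 0 < p) (hu : Sol Ω p u) (c : ℂ) :
    Antitone (aP p u c) := fun s s' h =>
  mul_le_mul_of_nonneg_left (mass_mono (pp_nonneg _) (pp_integrable hp hD hu) _ (by nlinarith))
    (by linarith)

theorem tP_anti (hD : Dom Ω R ρ k C0) (hp : 0 < p) (hu : Sol Ω p u) (c : ℂ) :
    Antitone (tP p u c) := fun s s' h =>
  mul_le_mul_of_nonneg_left (mass_mono (pp_nonneg _) (pp_integrable (by linarith) hD hu) _
    (by nlinarith)) (by linarith)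

theorem te_nonneg (hp : 0 ≤ p) : 0 ≤ te p u := by
  unfold te tot
  have : 0 ≤ ∫ z, pp (p + 1) u z := integral_nonneg (pp_nonneg _)
  positivity

theorem mu_nonneg (hp : 0 ≤ p) : 0 ≤ mu p u := by
  unfold mu tot
  have : 0 ≤ ∫ z, pp p u z := integral_nonneg (pp_nonneg _)
  positivity

/-- pointwise comparison of the powers -/
theorem pp_le {ε : ℝ} (hε : 0 < ε) (hp : 0 < p) (z : ℂ) :
    pp p u z ≤ (1 + ε) * pp (p + 1) u z + (1 + ε) ^ (-p) := by
  have h0 := pp_nonneg (u := u) (p + 1) z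
  have h1 : (0 : ℝ) < (1 + ε) ^ (-p) := Real.rpow_pos_of_pos (by linarith) _
  unfold pp at *
  set y := max (u z) 0
  have hy : 0 ≤ y := le_max_right _ _
  rcases le_total (1 + ε)⁻¹ y with h | h
  · have hy0 : 0 < y := lt_of_lt_of_le (by positivity) h
    have : y ^ p ≤ (1 + ε) * y ^ (p + 1) := by
      rw [Real.rpow_add_one hy0.ne']
      have h2 : 1 ≤ (1 + ε) * y := by
        have := mul_le_mul_of_nonneg_left h (by linarith : (0 : ℝ) ≤ 1 + ε)
        rwa [mul_inv_cancel₀ (by linarith : (1 : ℝ) + ε ≠ 0)] at this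
      have h3 : 0 ≤ y ^ p := Real.rpow_nonneg hy _
      nlinarith
    linarith
  · have : y ^ p ≤ (1 + ε) ^ (-p) := by
      rw [Real.rpow_neg (by linarith), ← Real.inv_rpow (by linarith)]
      exact Real.rpow_le_rpow hy h hp.le
    nlinarith

/-- on any measurable set -/
theorem set_le {ε : ℝ} (hε : 0 < ε) (hD : Dom Ω R ρ k C0) (hp : 0 < p) (hu : Sol Ω p u)
    {S : Set ℂ} (hS : MeasurableSet S) :
    ∫ z in S, pp p u z ≤ (1 + ε) * (∫ z in S, pp (p + 1) u z) + π * R ^ 2 * (1 + ε) ^ (-p) := by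
  have hi1 := pp_integrable hp hD hu
  have hi2 := pp_integrable (by linarith : 0 < p + 1) hD hu
  have hR := hD.hR
  have h1 : ∫ z in S, pp p u z ≤ ∫ z in S, ((1 + ε) * pp (p + 1) u z +
      (ball (0 : ℂ) R).indicator (fun _ => (1 + ε) ^ (-p)) z) := by
    apply setIntegral_mono_on hi1.integrableOn
    · apply Integrable.add (hi2.integrableOn.const_mul _)
      exact ((integrable_indicator_iff measurableSet_ball).2
        (integrableOn_const (hs := (measure_ball_lt_top).ne))).integrableOn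
    · exact hS
    · intro z _
      by_cases hz : z ∈ ball (0 : ℂ) R
      · rw [indicator_of_mem hz]; exact pp_le hε hp z
      · rw [indicator_of_notMem hz, add_zero]
        have hz0 : u z = 0 := hu.zero z (fun h => hz (hD.sub h))
        rw [pp_zero hp hz0, pp_zero (by linarith) hz0]; simp
  have hind : Integrable ((ball (0 : ℂ) R).indicator (fun _ => (1 + ε) ^ (-p))) :=
    (integrable_indicator_iff measurableSet_ball).2
        (integrableOn_const (hs := (measure_ball_lt_top).ne))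
  rw [integral_add (hi2.integrableOn.const_mul _) hind.integrableOn, integral_const_mul] at h1
  refine le_trans h1 ?_
  apply add_le_add le_rfl
  have hpos : (0 : ℝ) ≤ (1 + ε) ^ (-p) := (Real.rpow_pos_of_pos (by linarith) _).le
  calc ∫ z in S, (ball (0 : ℂ) R).indicator (fun _ => (1 + ε) ^ (-p)) z
      ≤ ∫ z, (ball (0 : ℂ) R).indicator (fun _ => (1 + ε) ^ (-p)) z := by
        apply setIntegral_le_integral hind
        exact Eventually.of_forall (fun z => indicator_nonneg (fun _ _ => hpos) z)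
    _ = π * R ^ 2 * (1 + ε) ^ (-p) := by
        rw [integral_indicator measurableSet_ball, setIntegral_const, Measure.real,
          Complex.volume_ball, smul_eq_mul]
        have : (ENNReal.ofReal R ^ 2 * (NNReal.pi : ENNReal)).toReal = R ^ 2 * π := by
          rw [ENNReal.toReal_mul, ENNReal.toReal_pow, ENNReal.toReal_ofReal (by linarith)]
          rfl
        rw [this]; ring

theorem err_small (R : ℝ) {ε : ℝ} (hε : 0 < ε) {η : ℝ} (hη : 0 < η) :
    ∃ P0 : ℝ, 0 < P0 ∧ ∀ p ≥ P0, p / 4 * (R ^ 2 * (1 + ε) ^ (-p)) ≤ η := by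
  obtain ⟨P0, hP⟩ := small_exp (Real.log_pos (by linarith : 1 < 1 + ε)) (R ^ 2 / 4) hη
  refine ⟨max P0 1, by positivity, fun p hp => ?_⟩
  have := hP p (le_trans (le_max_left _ _) hp)
  have e : (1 + ε) ^ (-p) = Real.exp (-(Real.log (1 + ε) * p)) := by
    rw [Real.rpow_def_of_pos (by linarith)]; ring_nf
  rw [e]
  linarith

theorem aP_le_tP (hD : Dom Ω R ρ k C0) {ε : ℝ} (hε : 0 < ε) : ∃ P0 : ℝ, ∀ p ≥ P0, ∀ u : ℂ → ℝ,
    Good Ω k C0 p u → ∀ c s, aP p u c s ≤ (1 + ε) * tP p u c s + ε := by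
  obtain ⟨P0, hP0, hP⟩ := err_small R hε hε
  refine ⟨P0, fun p hp u hu c s => ?_⟩
  have hp1 := hu.hp
  have h1 := set_le hε hD (by linarith) hu.sol (measurableSet_ball (x := c)
    (ε := Real.exp (-(p * s))))
  have h2 := hP p hp
  have hπ := Real.pi_pos
  unfold aP tP mass
  have : p / 2 * ((2 * π)⁻¹ * ∫ z in ball c (Real.exp (-(p * s))), pp p u z) ≤
      p / 2 * ((2 * π)⁻¹ * ((1 + ε) * (∫ z in ball c (Real.exp (-(p * s))), pp (p + 1) u z) +
        π * R ^ 2 * (1 + ε) ^ (-p))) := by gcongr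
  refine le_trans this ?_
  have e : p / 2 * ((2 * π)⁻¹ * ((1 + ε) * (∫ z in ball c (Real.exp (-(p * s))), pp (p + 1) u z) +
        π * R ^ 2 * (1 + ε) ^ (-p))) = (1 + ε) * (p / 2 * ((2 * π)⁻¹ *
          ∫ z in ball c (Real.exp (-(p * s))), pp (p + 1) u z)) +
          p / 4 * (R ^ 2 * (1 + ε) ^ (-p)) := by
    field_simp; ring
  rw [e]; linarith

theorem mu_le_te (hD : Dom Ω R ρ k C0) {ε : ℝ} (hε : 0 < ε) : ∃ P0 : ℝ, ∀ p ≥ P0, ∀ u : ℂ → ℝ,
    Good Ω k C0 p u → mu p u ≤ (1 + ε) * te p u + ε := by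
  obtain ⟨P0, hP0, hP⟩ := err_small R hε hε
  refine ⟨P0, fun p hp u hu => ?_⟩
  have hp1 := hu.hp
  have h1 := set_le hε hD (by linarith) hu.sol (MeasurableSet.univ)
  have h2 := hP p hp
  have hπ := Real.pi_pos
  simp only [setIntegral_univ] at h1
  unfold mu te tot
  have : p / 2 * ((2 * π)⁻¹ * ∫ z, pp p u z) ≤
      p / 2 * ((2 * π)⁻¹ * ((1 + ε) * (∫ z, pp (p + 1) u z) +
        π * R ^ 2 * (1 + ε) ^ (-p))) := by gcongr
  refine le_trans this ?_
  have e : p / 2 * ((2 * π)⁻¹ * ((1 + ε) * (∫ z, pp (p + 1) u z) +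
        π * R ^ 2 * (1 + ε) ^ (-p))) = (1 + ε) * (p / 2 * ((2 * π)⁻¹ *
          ∫ z, pp (p + 1) u z)) +
          p / 4 * (R ^ 2 * (1 + ε) ^ (-p)) := by
    field_simp; ring
  rw [e]; linarith

theorem te_add (hD : Dom Ω R ρ k C0) (hu : Good Ω k C0 p u) :
    te p u + te p (fun z => -u z) ≤ C0 := tot_energy hD hu

/-- total masses bounded by `C0 + ε` -/
theorem mu_add_le (hD : Dom Ω R ρ k C0) {ε : ℝ} (hε : 0 < ε) : ∃ P0 : ℝ, ∀ p ≥ P0, ∀ u : ℂ → ℝ,
    Good Ω k C0 p u → mu p u + mu p (fun z => -u z) ≤ C0 + ε := by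
  have hC0 := hD.hC0
  obtain ⟨P0, hP⟩ := mu_le_te hD (by positivity : 0 < ε / (C0 + 2))
  refine ⟨P0, fun p hp u hu => ?_⟩
  have h1 := hP p hp u hu
  have h2 := hP p hp _ hu.neg'
  have h3 := te_add hD hu
  have h4 : 0 ≤ ε / (C0 + 2) := by positivity
  have h5 : ε / (C0 + 2) * (C0 + 2) = ε := by field_simp
  nlinarith

end Pool.Agent.LE87
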