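import Pool.Agent.LE87.P2B

set_option autoImplicit false

open Complex MeasureTheory Set Filter Topology Metric
open scoped Real

namespace Pool.Agent.LE87

variable {Ω : Set ℂ} {R ρ : ℝ} {k : ℕ} {C0 p : ℝ} {u : ℂ → ℝ}

/-- density bound -/
theorem aP_density (hD : Dom Ω R ρ k C0) (hp : 0 < p) (hu : Sol Ω p u) {c : ℂ} {s h : ℝ}
    (hh : 0 < h) (hsup : ∀ z ∈ ball c (Real.exp (-(p * s))), u z ≤ h) {σ : ℝ} (hσ : s ≤ σ) :
    aP p u c σ ≤ p / 4 * h ^ p * Real.exp (-(2 * p) * σ) := by
  have h1 : mass (pp p u) c (-(p * σ)) ≤ h ^ p * Real.exp (2 * (-(p * σ))) / 2 := by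
    apply mass_le_sup (pp_nonneg _) _ (pp_integrable hp hD hu)
    intro z hz
    have hz2 : z ∈ ball c (Real.exp (-(p * s))) := by
      refine ball_subset_ball (Real.exp_le_exp.2 ?_) hz
      nlinarith
    have := hsup z hz2
    unfold pp
    exact Real.rpow_le_rpow (le_max_right _ _) (max_le this hh.le) hp.le
  unfold aP
  have h2 := mul_le_mul_of_nonneg_left h1 (by linarith : 0 ≤ p / 2)
  refine le_trans h2 (le_of_eq ?_)
  have : 2 * (-(p * σ)) = -(2 * p) * σ := by ring
  rw [this]; ring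

theorem aP_intOn (hD : Dom Ω R ρ k C0) (hp : 0 < p) (hu : Sol Ω p u) {c : ℂ} {s h : ℝ}
    (hh : 0 < h) (hsup : ∀ z ∈ ball c (Real.exp (-(p * s))), u z ≤ h) :
    IntegrableOn (aP p u c) (Ioi s) := by
  have h1 : IntegrableOn (fun σ => p / 4 * h ^ p * Real.exp (-(2 * p) * σ)) (Ioi s) :=
    (integrableOn_exp_mul_Ioi (by linarith) s).const_mul _
  refine Integrable.mono' h1 (aP_anti hD hp hu c).measurable.aestronglyMeasurable ?_
  rw [ae_restrict_iff' measurableSet_Ioi]
  refine Eventually.of_forall (fun σ hσ => ?_)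
  rw [Real.norm_eq_abs, abs_of_nonneg (aP_nonneg hp.le _ _)]
  exact aP_density hD hp hu hh hsup (le_of_lt hσ)

/-- tail integral, explicit form -/
theorem tail_int (hD : Dom Ω R ρ k C0) (hp : 0 < p) (hu : Sol Ω p u) {c : ℂ} {s h η : ℝ}
    (hh : 0 < h) (hη : 0 ≤ η) (hsup : ∀ z ∈ ball c (Real.exp (-(p * s))), u z ≤ h) :
    ∫ σ in Ioi s, aP p u c σ ≤ aP p u c s * (max (Real.log h / 2 - s) 0 + η) +
      Real.exp (-(2 * η * p)) / 8 := by
  set s' := max s (Real.log h / 2) + η with hs'
  have hss : s ≤ s' := by have := le_max_left s (Real.log h / 2); linarith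
  have hi := aP_intOn hD hp hu hh hsup (c := c)
  have hun : Ioi s = Ioc s s' ∪ Ioi s' := (Ioc_union_Ioi_eq_Ioi hss).symm
  have hdis : Disjoint (Ioc s s') (Ioi s') := by
    rw [Set.disjoint_left]; intro x hx hx2; exact absurd hx.2 (not_le.2 hx2)
  rw [hun, setIntegral_union hdis measurableSet_Ioi (hi.mono_set Ioc_subset_Ioi_self)
    (hi.mono_set (Ioi_subset_Ioi hss))]
  apply add_le_add
  · have h1 : ∫ σ in Ioc s s', aP p u c σ ≤ ∫ σ in Ioc s s', aP p u c s := by
      apply setIntegral_mono_on (hi.mono_set Ioc_subset_Ioi_self) _ measurableSet_Ioc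
      · intro σ hσ; exact aP_anti hD hp hu c hσ.1.le
      · exact integrableOn_const (hs := by simp)
    refine le_trans h1 ?_
    rw [setIntegral_const, Measure.real, Real.volume_Ioc, smul_eq_mul,
      ENNReal.toReal_ofReal (by linarith), mul_comm]
    apply mul_le_mul_of_nonneg_left _ (aP_nonneg hp.le _ _)
    rw [hs']
    rcases le_total s (Real.log h / 2) with h2 | h2
    · rw [max_eq_right h2, max_eq_left (by linarith)]; linarith
    · rw [max_eq_left h2, max_eq_right (by linarith)]; linarith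
  · have h1 : ∫ σ in Ioi s', aP p u c σ ≤
        ∫ σ in Ioi s', p / 4 * h ^ p * Real.exp (-(2 * p) * σ) := by
      apply setIntegral_mono_on (hi.mono_set (Ioi_subset_Ioi hss))
        ((integrableOn_exp_mul_Ioi (by linarith) s').const_mul _) measurableSet_Ioi
      intro σ hσ
      exact aP_density hD hp hu hh hsup (hss.trans (le_of_lt hσ))
    refine le_trans h1 ?_
    rw [integral_const_mul, integral_exp_mul_Ioi (by linarith)]
    have e1 : h ^ p = Real.exp (2 * p * (Real.log h / 2)) := by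
      rw [Real.rpow_def_of_pos hh]; ring_nf
    have e2 : p / 4 * h ^ p * (-Real.exp (-(2 * p) * s') / -(2 * p)) =
        Real.exp (2 * p * (Real.log h / 2) + -(2 * p) * s') / 8 := by
      rw [Real.exp_add, ← e1]; field_simp; ring
    rw [e2]
    apply div_le_div_of_nonneg_right _ (by norm_num)
    apply Real.exp_le_exp.2
    have := le_max_right s (Real.log h / 2)
    nlinarith

/-- every point: the Green bound in the scale variable -/
theorem green_scaled (hD : Dom Ω R ρ k C0) (hp : 1 < p) (hu : Sol Ω p u) (x : ℂ) :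
    max (u x) 0 ≤ 2 * ∫ σ in Ioi (-(Real.log (2 * R) / p)), aP p u x σ := by
  have hR := hD.hR
  have h1 := green hD.isOpen (by linarith) hD.sub hp hu x
  refine le_trans h1 (le_of_eq ?_)
  have h2 := integral_comp_mul_left_Ioi (fun y => mass (pp p u) x (-y))
    (-(Real.log (2 * R) / p)) (by linarith : 0 < p)
  have h3 := integral_comp_neg_Ioi (-Real.log (2 * R)) (mass (pp p u) x)
  rw [neg_neg] at h3
  have e : p * (-(Real.log (2 * R) / p)) = -Real.log (2 * R) := by field_simp
  rw [e, h3] at h2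
  have e3 : (∫ σ in Ioi (-(Real.log (2 * R) / p)), aP p u x σ) =
      p / 2 * ∫ σ in Ioi (-(Real.log (2 * R) / p)), mass (pp p u) x (-(p * σ)) := by
    unfold aP
    rw [integral_const_mul]
  rw [e3, h2, smul_eq_mul]
  show (∫ t in Iic (Real.log (2 * R)), mass (pp p u) x t) = _
  field_simp

/-- the supremum of `u` is attained -/
theorem exists_max (hD : Dom Ω R ρ k C0) (hu : Good Ω k C0 p u) :
    ∃ x, 0 < u x ∧ ∀ z, u z ≤ u x := by
  obtain ⟨z0, hz0⟩ := hu.pos
  obtain ⟨x, hx, hmax⟩ := (isCompact_closedBall (0 : ℂ) R).exists_isMaxOn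
    (nonempty_closedBall.2 (by linarith [hD.hR])) hu.sol.cont.continuousOn
  have hz0' : z0 ∈ closedBall (0 : ℂ) R := by
    by_contra h
    have : u z0 = 0 := hu.sol.zero z0 (fun h' => h (ball_subset_closedBall (hD.sub h')))
    linarith
  have hpos : 0 < u x := lt_of_lt_of_le hz0 (hmax hz0')
  refine ⟨x, hpos, fun z => ?_⟩
  by_cases hz : z ∈ closedBall (0 : ℂ) R
  · exact hmax hz
  · have : u z = 0 := hu.sol.zero z (fun h' => hz (ball_subset_closedBall (hD.sub h')))
    linarith

/-- uniform bound -/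
theorem sup_bound (hD : Dom Ω R ρ k C0) : ∃ M0 P0 : ℝ, 1 ≤ M0 ∧ ∀ p ≥ P0, ∀ u : ℂ → ℝ,
    Good Ω k C0 p u → ∀ z, |u z| ≤ M0 := by
  have hC0 := hD.hC0
  have hR := hD.hR
  obtain ⟨P1, hP1⟩ := mu_add_le hD (one_pos)
  obtain ⟨P2, hP20, hP2⟩ := small_inv (2 * Real.log (2 * R)) one_pos
  set C1 := C0 + 1 with hC1
  have hC1' : 1 ≤ C1 := by linarith
  have hlog : 0 ≤ Real.log (2 * C1) := Real.log_nonneg (by linarith)
  set M0 := 2 * (C1 * Real.log (2 * C1) + 4 * C1 + 2) with hM0
  have key : ∀ p ≥ max P1 P2, ∀ u : ℂ → ℝ, Good Ω k C0 p u → ∀ z, u z ≤ M0 := by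
    intro p hp u hu z
    obtain ⟨x, hx, hmax⟩ := exists_max hD hu
    refine le_trans (hmax z) ?_
    have hp1 := hu.hp
    have hp0 : 0 < p := by linarith
    have h1 := green_scaled hD hp1 hu.sol x
    rw [max_eq_left hx.le] at h1
    have h2 := tail_int hD hp0 hu.sol (c := x) (s := -(Real.log (2 * R) / p)) hx
      (zero_le_one) (fun z _ => hmax z)
    have h3 : aP p u x (-(Real.log (2 * R) / p)) ≤ C1 := by
      have a1 := aP_le_mu hD hp0 hu.sol x (-(Real.log (2 * R) / p))
      have a2 := hP1 p (le_trans (le_max_left _ _) hp) u hu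
      have a3 := mu_nonneg (p := p) (u := fun z => -u z) hp0.le
      linarith
    have h4 := hP2 p (le_trans (le_max_right _ _) hp)
    have h4' : 2 * (Real.log (2 * R) / p) ≤ 1 := by rw [← mul_div_assoc]; exact h4
    have hexp : Real.exp (-(2 * 1 * p)) / 8 ≤ 1 := by
      have : Real.exp (-(2 * 1 * p)) ≤ 1 := Real.exp_le_one_iff.2 (by linarith)
      exact le_trans (div_le_self (Real.exp_pos _).le (by norm_num)) this
    set L := Real.log (u x) / 2 - -(Real.log (2 * R) / p) with hL
    have hmaxL : max L 0 ≤ max (Real.log (u x)) 0 / 2 + 1 := by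
      apply max_le
      · have := le_max_left (Real.log (u x)) 0
        rw [hL]; linarith
      · have := le_max_right (Real.log (u x)) 0
        linarith
    have h5 : u x ≤ 2 * (C1 * (max (Real.log (u x)) 0 / 2 + 2) + 1) := by
      refine le_trans h1 ?_
      have a0 := aP_nonneg (u := u) hp0.le x (-(Real.log (2 * R) / p))
      have a1 : aP p u x (-(Real.log (2 * R) / p)) * (max L 0 + 1) ≤
          C1 * (max (Real.log (u x)) 0 / 2 + 2) := by
        apply mul_le_mul h3 (by linarith) _ (by linarith)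
        have := le_max_right L 0; linarith
      linarith
    have h6 : max (Real.log (u x)) 0 ≤ u x / (2 * C1) + Real.log (2 * C1) := by
      apply max_le
      · have := Real.log_le_sub_one_of_pos (by positivity : 0 < u x / (2 * C1))
        rw [Real.log_div hx.ne' (by positivity)] at this
        linarith
      · positivity
    have h7 : C1 * (u x / (2 * C1)) = u x / 2 := by field_simp
    have h8 : C1 * max (Real.log (u x)) 0 ≤ C1 * (u x / (2 * C1) + Real.log (2 * C1)) :=
      mul_le_mul_of_nonneg_left h6 (by linarith)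
    rw [mul_add, h7] at h8
    rw [hM0]; linarith
  refine ⟨M0, max P1 P2, ?_, fun p hp u hu z => ?_⟩
  · rw [hM0]; nlinarith
  · rw [abs_le]
    refine ⟨?_, key p hp u hu z⟩
    have := key p hp _ hu.neg' z
    linarith

end Pool.Agent.LE87
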