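import Pool.Agent.LE87.P2C

set_option autoImplicit false

open Complex MeasureTheory Set Filter Topology Metric
open scoped Real

namespace Pool.Agent.LE87

variable {Ω : Set ℂ} {R ρ : ℝ} {k : ℕ} {C0 p : ℝ} {u : ℂ → ℝ}

theorem f_eq (hp : 0 < p) (y : ℝ) :
    |y| ^ (p - 1) * y = (max y 0) ^ p - (max (-y) 0) ^ p := by
  rcases lt_trichotomy 0 y with h | h | h
  · rw [abs_of_pos h, max_eq_left h.le, max_eq_right (by linarith), Real.zero_rpow hp.ne', sub_zero,
      Real.rpow_sub_one h.ne']
    field_simp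
  · subst h; simp
  · rw [abs_of_neg h, max_eq_right h.le, max_eq_left (by linarith), Real.zero_rpow hp.ne', zero_sub,
      Real.rpow_sub_one (by linarith : (-y) ≠ 0)]
    have h1 : -y ≠ 0 := by linarith
    have h2 : y ≠ 0 := by linarith
    rw [div_neg, neg_mul, div_mul_cancel₀ _ h2]

theorem mass_add {g h : ℂ → ℝ} (hg : Integrable g) (hh : Integrable h) (c : ℂ) (t : ℝ) :
    mass (fun z => g z + h z) c t = mass g c t + mass h c t := by
  unfold mass
  rw [integral_add hg.integrableOn hh.integrableOn, mul_add]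

theorem mass_sub {g h : ℂ → ℝ} (hg : Integrable g) (hh : Integrable h) (c : ℂ) (t : ℝ) :
    mass (fun z => g z - h z) c t = mass g c t - mass h c t := by
  unfold mass
  rw [integral_sub hg.integrableOn hh.integrableOn, mul_sub]

theorem mass_congr {g h : ℂ → ℝ} {c : ℂ} {t : ℝ} (e : ∀ z ∈ ball c (Real.exp t), g z = h z) :
    mass g c t = mass h c t := by
  unfold mass
  rw [setIntegral_congr_fun measurableSet_ball e]

theorem mass_f (hD : Dom Ω R ρ k C0) (hp : 0 < p) (hu : Sol Ω p u) (c : ℂ) (s : ℝ) :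
    mass (fun z => |u z| ^ (p - 1) * u z) c (-(p * s)) = 2 / p * (aP p u c s - aM p u c s) := by
  have e : (fun z => |u z| ^ (p - 1) * u z) = fun z => pp p u z - pp p (fun z => -u z) z := by
    ext z; exact f_eq hp (u z)
  rw [e, mass_sub (pp_integrable hp hD hu) (pp_integrable hp hD hu.neg)]
  unfold aM aP
  field_simp

theorem mass_abs (hD : Dom Ω R ρ k C0) (hp : 0 < p) (hu : Sol Ω p u) (c : ℂ) (s : ℝ) :
    mass (fun z => |u z| ^ p) c (-(p * s)) = 2 / p * (aP p u c s + aM p u c s) := by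
  have e : (fun z => |u z| ^ p) = fun z => pp p u z + pp p (fun z => -u z) z := by
    ext z; exact (pp_add p hp z).symm
  rw [e, mass_add (pp_integrable hp hD hu) (pp_integrable hp hD hu.neg)]
  unfold aM aP
  field_simp

theorem mass_abs' (hD : Dom Ω R ρ k C0) (hp : 0 < p) (hu : Sol Ω p u) (c : ℂ) (t : ℝ) :
    mass (fun z => |u z| ^ p) c t ≤ 2 / p * (mu p u + mu p (fun z => -u z)) := by
  have h := mass_abs hD hp hu c (-(t / p))
  have e : -(p * -(t / p)) = t := by field_simp
  rw [e] at h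
  rw [h]
  apply mul_le_mul_of_nonneg_left _ (by positivity)
  exact add_le_add (aP_le_mu hD hp hu _ _) (aP_le_mu hD hp hu.neg _ _)

theorem mass_energy (hD : Dom Ω R ρ k C0) (hp : 0 < p) (hu : Sol Ω p u) (c : ℂ) (s : ℝ) :
    mass (fun z => |u z| ^ (p + 1)) c (-(p * s)) = 2 / p * (tP p u c s + tM p u c s) := by
  have e : (fun z => |u z| ^ (p + 1)) = fun z => pp (p + 1) u z + pp (p + 1) (fun z => -u z) z := by
    ext z; exact (pp_add (p + 1) (by linarith) z).symm
  rw [e, mass_add (pp_integrable (by linarith) hD hu) (pp_integrable (by linarith) hD hu.neg)]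
  unfold tM tP
  field_simp

/-- derivative of the scaled average -/
theorem VV_deriv (hD : Dom Ω R ρ k C0) (hp : 0 < p) (hu : Sol Ω p u) {c : ℂ} {T s : ℝ}
    (hc : ball c (Real.exp T) ⊆ Ω) (hs : -(p * s) < T) :
    HasDerivAt (VV p u c) (2 * (aP p u c s - aM p u c s)) s := by
  have h1 := avg_hasDerivAt (hu.smooth.mono hc) hs
  have h2 : HasDerivAt (fun s : ℝ => -(p * s)) (-(p * 1)) s :=
    ((hasDerivAt_id s).const_mul p).neg
  have h3 := h1.comp s h2
  have e : mass (lap u) c (-(p * s)) = -(2 / p * (aP p u c s - aM p u c s)) := by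
    rw [← mass_f hD hp hu]
    have : mass (lap u) c (-(p * s)) = mass (fun z => -(|u z| ^ (p - 1) * u z)) c (-(p * s)) := by
      apply mass_congr
      intro z hz
      have hz' : z ∈ Ω := hc (ball_subset_ball (Real.exp_le_exp.2 hs.le) hz)
      rw [← hu.eq z hz', neg_neg]
    rw [this]
    unfold mass
    rw [integral_neg]; ring
  rw [e] at h3
  refine h3.congr_deriv ?_
  have hp' := hp.ne'
  have : (p * 1) * (2 / p * (aP p u c s - aM p u c s)) = 2 * (aP p u c s - aM p u c s) := by
    field_simp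
  rw [← this]; ring

/-- slopes -/
theorem VV_slope (hD : Dom Ω R ρ k C0) (hp : 0 < p) (hu : Sol Ω p u) {c : ℂ} {T s s' : ℝ}
    (hc : ball c (Real.exp T) ⊆ Ω) (hs : -(p * s) < T) (hss : s ≤ s') :
    2 * (aP p u c s' - aM p u c s) * (s' - s) ≤ VV p u c s' - VV p u c s ∧
    VV p u c s' - VV p u c s ≤ 2 * (aP p u c s - aM p u c s') * (s' - s) := by
  rcases eq_or_lt_of_le hss with h | h
  · subst h; simp
  · have hd : ∀ x ∈ Icc s s', HasDerivAt (VV p u c) (2 * (aP p u c x - aM p u c x)) x := by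
      intro x hx
      exact VV_deriv hD hp hu hc (by nlinarith [hx.1])
    obtain ⟨ξ, hξ, he⟩ := exists_hasDerivAt_eq_slope (VV p u c) _ h
      (fun x hx => (hd x hx).continuousAt.continuousWithinAt)
      (fun x hx => hd x (Ioo_subset_Icc_self hx))
    have hpos : 0 < s' - s := by linarith
    have e : VV p u c s' - VV p u c s = 2 * (aP p u c ξ - aM p u c ξ) * (s' - s) := by
      rw [he]; field_simp
    have a1 := aP_anti hD hp hu c hξ.1.le
    have a2 := aP_anti hD hp hu c hξ.2.le
    have b1 := aP_anti hD hp hu.neg c hξ.1.le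
    have b2 := aP_anti hD hp hu.neg c hξ.2.le
    rw [e]
    constructor
    · apply mul_le_mul_of_nonneg_right _ hpos.le
      unfold aM; linarith
    · apply mul_le_mul_of_nonneg_right _ hpos.le
      unfold aM; linarith

/-- value at the centre, upper bound -/
theorem centre_le (hD : Dom Ω R ρ k C0) (hp : 0 < p) (hu : Sol Ω p u) {c : ℂ} {T s h : ℝ}
    (hc : ball c (Real.exp T) ⊆ Ω) (hs : -(p * s) < T) (hh : 0 < h)
    (hsup : ∀ z ∈ ball c (Real.exp (-(p * s))), u z ≤ h) :
    u c ≤ VV p u c s + 2 * ∫ σ in Ioi s, aP p u c σ := by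
  have hlim : Tendsto (VV p u c) atTop (𝓝 (u c)) := by
    have h1 : Tendsto (avg u c) atBot (𝓝 (u c)) :=
      avg_tendsto (T := T) hu.cont.continuousOn
    apply h1.comp
    have : Tendsto (fun s : ℝ => p * s) atTop atTop := tendsto_id.const_mul_atTop hp
    exact tendsto_neg_atTop_atBot.comp this
  have hi := aP_intOn hD hp hu hh hsup
  apply le_of_tendsto hlim
  filter_upwards [eventually_ge_atTop s] with S hS
  have hd : ∀ x ∈ uIcc s S, HasDerivAt (VV p u c) (2 * (aP p u c x - aM p u c x)) x := by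
    intro x hx
    rw [uIcc_of_le hS] at hx
    exact VV_deriv hD hp hu hc (by nlinarith [hx.1])
  have ha : IntervalIntegrable (aP p u c) volume s S := (aP_anti hD hp hu c).intervalIntegrable
  have hb : IntervalIntegrable (aM p u c) volume s S := (aP_anti hD hp hu.neg c).intervalIntegrable
  have h2 := intervalIntegral.integral_eq_sub_of_hasDerivAt hd ((ha.sub hb).const_mul 2)
  have h3 : ∫ x in s..S, 2 * (aP p u c x - aM p u c x) ≤ ∫ x in s..S, 2 * aP p u c x := by
    apply intervalIntegral.integral_mono_on hS ((ha.sub hb).const_mul 2) (ha.const_mul 2)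
    intro x _
    have := aP_nonneg (p := p) (u := fun z => -u z) hp.le c x
    unfold aM; linarith
  simp only [intervalIntegral.integral_const_mul] at h2 h3
  have h4 : ∫ x in s..S, aP p u c x ≤ ∫ σ in Ioi s, aP p u c σ := by
    rw [intervalIntegral.integral_of_le hS]
    apply setIntegral_mono_set hi _ (Ioc_subset_Ioi_self.eventuallyLE)
    exact Eventually.of_forall (fun σ => aP_nonneg hp.le c σ)
  linarith

theorem centre_ge (hD : Dom Ω R ρ k C0) (hp : 0 < p) (hu : Sol Ω p u) {c : ℂ} {T s h : ℝ}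
    (hc : ball c (Real.exp T) ⊆ Ω) (hs : -(p * s) < T) (hh : 0 < h)
    (hsup : ∀ z ∈ ball c (Real.exp (-(p * s))), -u z ≤ h) :
    VV p u c s - 2 * (∫ σ in Ioi s, aM p u c σ) ≤ u c := by
  have h1 := centre_le hD hp hu.neg hc hs hh hsup
  rw [VV_neg] at h1
  have e : (∫ σ in Ioi s, aM p u c σ) = ∫ σ in Ioi s, aP p (fun z => -u z) c σ := rfl
  rw [e]; linarith

end Pool.Agent.LE87
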