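import Pool.Agent.LE87.Base

set_option autoImplicit false

open Complex MeasureTheory Set Filter Topology Metric
open scoped Real

namespace Pool.Agent.LE87

/-- the rotation number `exp(2πi/k)` -/
noncomputable def zt (k : ℕ) : ℂ := Complex.exp (2 * π * Complex.I / k)

/-- constants of the domain -/
structure Dom (Ω : Set ℂ) (R ρ : ℝ) (k : ℕ) (C0 : ℝ) : Prop where
  isOpen : IsOpen Ω
  sub : Ω ⊆ ball 0 R
  hR : 1 ≤ R
  hρ : 0 < ρ
  hρ1 : ρ ≤ 1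
  ball_sub : ball 0 (2 * ρ) ⊆ Ω
  hk : 11 ≤ k
  hC : C0 < 10 * Real.exp 1
  hC0 : 0 ≤ C0

/-- a solution with the symmetry and the energy bound -/
structure Good (Ω : Set ℂ) (k : ℕ) (C0 p : ℝ) (u : ℂ → ℝ) : Prop where
  hp : 1 < p
  sol : Sol Ω p u
  symm : ∀ z, u (zt k * z) = u z
  pos : ∃ z, 0 < u z
  neg : ∃ z, u z < 0
  hint : IntegrableOn (fun z => ‖fderiv ℝ u z‖ ^ 2) Ω
  energy : p * ∫ z in Ω, ‖fderiv ℝ u z‖ ^ 2 ≤ 4 * π * C0

/-- positive part to the power `q` -/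
noncomputable def pp (q : ℝ) (u : ℂ → ℝ) : ℂ → ℝ := fun z => (max (u z) 0) ^ q

/-- scaled mass of the positive part -/
noncomputable def aP (p : ℝ) (u : ℂ → ℝ) (c : ℂ) (s : ℝ) : ℝ := p / 2 * mass (pp p u) c (-(p * s))
/-- scaled mass of the negative part -/
noncomputable def aM (p : ℝ) (u : ℂ → ℝ) (c : ℂ) (s : ℝ) : ℝ := aP p (fun z => -u z) c s
/-- scaled energy of the positive part -/
noncomputable def tP (p : ℝ) (u : ℂ → ℝ) (c : ℂ) (s : ℝ) : ℝ :=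
  p / 2 * mass (pp (p + 1) u) c (-(p * s))
noncomputable def tM (p : ℝ) (u : ℂ → ℝ) (c : ℂ) (s : ℝ) : ℝ := tP p (fun z => -u z) c s
/-- circle average at scale `s` -/
noncomputable def VV (p : ℝ) (u : ℂ → ℝ) (c : ℂ) (s : ℝ) : ℝ := avg u c (-(p * s))

end Pool.Agent.LE87
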