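import Pool.Agent.LE87.P2S

set_option autoImplicit false

open Complex MeasureTheory Set Filter Topology Metric
open scoped Real

namespace Pool.Agent.LE87

variable {Ω : Set ℂ} {R ρ : ℝ} {k : ℕ} {C0 p : ℝ} {u : ℂ → ℝ}

theorem pp_symm (hsym : ∀ z, u (zt k * z) = u z) (q : ℝ) (z : ℂ) :
    pp q u (zt k * z) = pp q u z := by
  unfold pp; rw [hsym]

/-- local mass: at most `1/k` of the total -/
theorem aP_copies (hD : Dom Ω R ρ k C0) (hu : Good Ω k C0 p u) {x : ℂ} {s : ℝ}
    (hr : Real.exp (-(p * s)) ≤ ‖x‖ / k) : k * aP p u x s ≤ mu p u := by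
  have hp := hu.hp
  have h := copies (k := k) (by have := hD.hk; omega) (pp_nonneg p)
    (pp_integrable (by linarith) hD hu.sol) (pp_symm hu.symm p) hr
  unfold aP mu
  have := mul_le_mul_of_nonneg_left h (by linarith : 0 ≤ p / 2)
  linarith

theorem tP_copies (hD : Dom Ω R ρ k C0) (hu : Good Ω k C0 p u) {x : ℂ} {s : ℝ}
    (hr : Real.exp (-(p * s)) ≤ ‖x‖ / k) : k * tP p u x s ≤ te p u := by
  have hp := hu.hp
  have h := copies (k := k) (by have := hD.hk; omega) (pp_nonneg (p + 1))
    (pp_integrable (by linarith) hD hu.sol) (pp_symm hu.symm (p + 1)) hr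
  unfold tP te
  have := mul_le_mul_of_nonneg_left h (by linarith : 0 ≤ p / 2)
  linarith

/-- (★) -/
theorem star (hD : Dom Ω R ρ k C0) {ε : ℝ} (hε : 0 < ε) : ∃ P0 : ℝ, ∀ p ≥ P0, ∀ u : ℂ → ℝ,
    Good Ω k C0 p u → ∀ (x : ℂ) (s h : ℝ), 0 ≤ s → Real.exp (-(p * s)) ≤ ‖x‖ → 0 < h →
      (∀ z ∈ ball x (Real.exp (-(p * s)) / k), u z ≤ h) →
      u x ≤ 2 * (C0 + ε) * s + (C0 + ε) / k * max (Real.log h) 0 + ε := by
  have hC0 := hD.hC0
  have hR := hD.hR
  have hk := hD.hk
  have hkR : (11 : ℝ) ≤ k := by exact_mod_cast hk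
  -- η small
  set η := ε / (8 * (C0 + ε)) with hη
  have hη0 : 0 < η := by positivity
  have hηe : (C0 + ε) * η = ε / 8 := by rw [hη]; field_simp
  obtain ⟨P1, hP1⟩ := mu_add_le hD hε
  obtain ⟨P2, hP20, hP2⟩ := small_inv ((C0 + ε) * Real.log (2 * R * k)) (by positivity : 0 < ε / 8)
  obtain ⟨P3, hP3⟩ := small_exp (by positivity : 0 < 2 * η) 1 (by positivity : 0 < ε / 8)
  refine ⟨max (max P1 P2) (max P3 1), fun p hp u hu x s h hs hx hh hsup => ?_⟩
  have hp1 : P1 ≤ p := le_trans (le_trans (le_max_left _ _) (le_max_left _ _)) hp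
  have hp2 : P2 ≤ p := le_trans (le_trans (le_max_right _ _) (le_max_left _ _)) hp
  have hp3 : P3 ≤ p := le_trans (le_trans (le_max_left _ _) (le_max_right _ _)) hp
  have hpg := hu.hp
  have hp0 : 0 < p := by linarith
  set s1 := s + Real.log k / p with hs1
  have hlogk : 0 < Real.log k := Real.log_pos (by linarith)
  have hlogR : 0 ≤ Real.log (2 * R) := Real.log_nonneg (by linarith)
  have hr1 : Real.exp (-(p * s1)) = Real.exp (-(p * s)) / k := by
    rw [hs1, mul_add, neg_add, Real.exp_add]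
    have : p * (Real.log k / p) = Real.log k := by field_simp
    rw [this, Real.exp_neg (Real.log k), Real.exp_log (by linarith)]
    rfl
  set sl := -(Real.log (2 * R) / p) with hsl
  have hsl0 : sl ≤ 0 := by rw [hsl]; have : 0 ≤ Real.log (2 * R) / p := by positivity
                           linarith
  have hs1s : s ≤ s1 := by rw [hs1]; have : 0 ≤ Real.log k / p := by positivity
                           linarith
  have hmu : mu p u ≤ C0 + ε := by
    have a2 := hP1 p hp1 u hu
    have a3 := mu_nonneg (p := p) (u := fun z => -u z) hp0.le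
    linarith
  -- integrability
  obtain ⟨xm, hxm, hxmax⟩ := exists_max hD hu
  have hi := aP_intOn hD hp0 hu.sol hxm (c := x) (s := sl) (fun z _ => hxmax z)
  have hg := green_scaled hD hpg hu.sol x
  have hsplit : (∫ σ in Ioi sl, aP p u x σ) = (∫ σ in Ioc sl s1, aP p u x σ) +
      ∫ σ in Ioi s1, aP p u x σ := by
    rw [← Ioc_union_Ioi_eq_Ioi (by linarith : sl ≤ s1)]
    apply setIntegral_union _ measurableSet_Ioi (hi.mono_set Ioc_subset_Ioi_self)
      (hi.mono_set (Ioi_subset_Ioi (by linarith)))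
    rw [Set.disjoint_left]; intro y hy hy2; exact absurd hy.2 (not_le.2 hy2)
  have h1 : (∫ σ in Ioc sl s1, aP p u x σ) ≤ (C0 + ε) * (s1 - sl) := by
    have h2 : ∫ σ in Ioc sl s1, aP p u x σ ≤ ∫ σ in Ioc sl s1, (C0 + ε) := by
      apply setIntegral_mono_on (hi.mono_set Ioc_subset_Ioi_self) _ measurableSet_Ioc
      · intro σ hσ; exact (aP_le_mu hD hp0 hu.sol _ _).trans hmu
      · exact integrableOn_const (hs := by simp)
    refine le_trans h2 ?_
    rw [setIntegral_const, Measure.real, Real.volume_Ioc, smul_eq_mul,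
      ENNReal.toReal_ofReal (by linarith), mul_comm]
  have h2 := tail_int hD hp0 hu.sol (c := x) (s := s1) hh hη0.le (by rw [hr1]; exact hsup)
  have h3 : aP p u x s1 ≤ (C0 + ε) / k := by
    have := aP_copies hD hu (x := x) (s := s1) (by rw [hr1]; gcongr)
    rw [le_div_iff₀ (by linarith)]
    linarith
  have h4 : max (Real.log h / 2 - s1) 0 ≤ max (Real.log h) 0 / 2 := by
    apply max_le
    · have := le_max_left (Real.log h) 0
      linarith
    · have := le_max_right (Real.log h) 0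
      linarith
  have h5 : aP p u x s1 * (max (Real.log h / 2 - s1) 0 + η) ≤
      (C0 + ε) / k * (max (Real.log h) 0 / 2 + η) := by
    apply mul_le_mul h3 (by linarith) _ (by positivity)
    have := le_max_right (Real.log h / 2 - s1) 0
    linarith
  have h6 : (C0 + ε) / k * η ≤ ε / 8 := by
    rw [← hηe]
    apply mul_le_mul_of_nonneg_right _ hη0.le
    exact div_le_self (by linarith) (by linarith)
  have h7 : Real.exp (-(2 * η * p)) ≤ ε / 8 := by
    have := hP3 p hp3
    have h1p : 1 ≤ p := hpg.le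
    have e0 := Real.exp_pos (-(2 * η * p))
    nlinarith
  have h8 : (C0 + ε) * (s1 - sl) ≤ (C0 + ε) * s + ε / 8 := by
    have := hP2 p hp2
    have e : (C0 + ε) * (s1 - sl) = (C0 + ε) * s + (C0 + ε) * Real.log (2 * R * k) / p := by
      have e1 : Real.log (2 * R * k) = Real.log (2 * R) + Real.log k :=
        Real.log_mul (by positivity) (by positivity)
      rw [hs1, hsl, e1]
      field_simp
      ring
    linarith
  have h9 := le_max_left (u x) 0
  rw [hsplit] at hg
  have h10 : (C0 + ε) / k * (max (Real.log h) 0 / 2 + η) =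
    (C0 + ε) / k * max (Real.log h) 0 / 2 + (C0 + ε) / k * η := by ring
  linarith

/-- the statement `|u| ≤ β` in an outer region -/
def Out (Ω : Set ℂ) (k : ℕ) (C0 β : ℝ) : Prop := ∃ sb : ℝ, 0 < sb ∧ ∃ P0 : ℝ,
    ∀ p ≥ P0, ∀ u : ℂ → ℝ, Good Ω k C0 p u → ∀ x : ℂ, Real.exp (-(p * sb)) ≤ ‖x‖ → |u x| ≤ β

theorem Out.mono {β β' : ℝ} (h : Out Ω k C0 β) (hb : β ≤ β') : Out Ω k C0 β' := by
  obtain ⟨sb, hsb, P0, hP⟩ := h
  exact ⟨sb, hsb, P0, fun p hp u hu x hx => (hP p hp u hu x hx).trans hb⟩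

theorem out_step (hD : Dom Ω R ρ k C0) {β c : ℝ} (hβ : 0 < β) (hc : 0 < c)
    (h : Out Ω k C0 β) : Out Ω k C0 ((C0 + 1) / (11 * Real.exp 1) * β + c) := by
  have hC0 := hD.hC0
  have hk := hD.hk
  have hkR : (11 : ℝ) ≤ k := by exact_mod_cast hk
  obtain ⟨sb, hsb, P1, hP1⟩ := h
  set ε := min 1 (c / 2) with hε
  have hε0 : 0 < ε := lt_min one_pos (by linarith)
  have hε1 : ε ≤ 1 := min_le_left _ _
  have hε2 : ε ≤ c / 2 := min_le_right _ _
  obtain ⟨P2, hP2⟩ := star hD hε0
  set s := min (sb / 2) (c / (4 * (C0 + 1))) with hs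
  have hs0 : 0 < s := lt_min (by linarith) (by positivity)
  have hs1 : s ≤ sb / 2 := min_le_left _ _
  have hs2 : s ≤ c / (4 * (C0 + 1)) := min_le_right _ _
  have hs3 : (C0 + 1) * s ≤ c / 4 := by
    have : (C0 + 1) * (c / (4 * (C0 + 1))) = c / 4 := by field_simp
    rw [← this]
    exact mul_le_mul_of_nonneg_left hs2 (by linarith)
  have hlog : max (Real.log β) 0 ≤ β / Real.exp 1 := by
    apply max_le
    · have h1 := Real.log_le_sub_one_of_pos (by positivity : 0 < β / Real.exp 1)
      rw [Real.log_div hβ.ne' (Real.exp_pos 1).ne', Real.log_exp] at h1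
      linarith
    · positivity
  have key : ∀ p ≥ max (max P1 P2) (1 / s), ∀ u : ℂ → ℝ, Good Ω k C0 p u → ∀ x : ℂ,
      Real.exp (-(p * s)) ≤ ‖x‖ → u x ≤ (C0 + 1) / (11 * Real.exp 1) * β + c := by
    intro p hp u hu x hx
    have hp1 : P1 ≤ p := le_trans (le_trans (le_max_left _ _) (le_max_left _ _)) hp
    have hp2 : P2 ≤ p := le_trans (le_trans (le_max_right _ _) (le_max_left _ _)) hp
    have hp3 : 1 / s ≤ p := le_trans (le_max_right _ _) hp
    have hps : 1 ≤ p * s := by rwa [div_le_iff₀ hs0] at hp3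
    have hpg := hu.hp
    have he2 : Real.exp (-(p * s)) ≤ 1 / 2 := by
      have h1 : Real.exp (-(p * s)) ≤ Real.exp (-1) := Real.exp_le_exp.2 (by linarith)
      have h2 : Real.exp (-1) ≤ 1 / 2 := by
        rw [Real.exp_neg, inv_eq_one_div]
        apply one_div_le_one_div_of_le (by norm_num)
        have := Real.add_one_le_exp (1 : ℝ)
        linarith
      linarith
    have he3 : Real.exp (-(p * sb)) ≤ Real.exp (-(p * s)) * Real.exp (-(p * s)) := by
      rw [← Real.exp_add]
      apply Real.exp_le_exp.2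
      nlinarith
    have hes := Real.exp_pos (-(p * s))
    have h1 := hP2 p hp2 u hu x s β hs0.le hx hβ (by
      intro z hz
      refine le_trans (le_abs_self _) (hP1 p hp1 u hu z ?_)
      rw [mem_ball, dist_eq_norm] at hz
      have a1 : ‖x‖ ≤ ‖z - x‖ + ‖z‖ := by
        have := norm_sub_norm_le x (x - z)
        rw [sub_sub_cancel, norm_sub_rev x z] at this
        linarith
      have a2 : Real.exp (-(p * s)) / k ≤ Real.exp (-(p * s)) / 11 := by gcongr
      nlinarith)
    have h2 : (C0 + ε) / k * max (Real.log β) 0 ≤ (C0 + 1) / (11 * Real.exp 1) * β := by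
      have e : (C0 + 1) / (11 * Real.exp 1) * β = (C0 + 1) / 11 * (β / Real.exp 1) := by
        field_simp
      rw [e]
      apply mul_le_mul _ hlog (le_max_right _ _) (by positivity)
      gcongr
    have h3 : 2 * (C0 + ε) * s ≤ c / 2 := by
      have : (C0 + ε) * s ≤ (C0 + 1) * s := mul_le_mul_of_nonneg_right (by linarith) hs0.le
      linarith
    linarith
  refine ⟨s, hs0, max (max P1 P2) (1 / s), fun p hp u hu x hx => abs_le.2 ⟨?_, key p hp u hu x hx⟩⟩
  have := key p hp _ hu.neg' x hx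
  linarith

/-- outer region: `u` small -/
theorem outer_small (hD : Dom Ω R ρ k C0) {ε : ℝ} (hε : 0 < ε) : ∃ sb : ℝ, 0 < sb ∧ ∃ P0 : ℝ,
    ∀ p ≥ P0, ∀ u : ℂ → ℝ, Good Ω k C0 p u → ∀ x : ℂ, Real.exp (-(p * sb)) ≤ ‖x‖ →
      |u x| ≤ ε := by
  have hC0 := hD.hC0
  have hC := hD.hC
  have he := Real.exp_one_gt_d9
  set q := (C0 + 1) / (11 * Real.exp 1) with hq
  have hq1 : q < 1 := by
    rw [hq, div_lt_one (by positivity)]
    linarith
  have hq0 : 0 ≤ q := by positivity
  obtain ⟨M0, P1, hM1, hM⟩ := sup_bound hD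
  set d := (1 - q) * ε / 2 with hd
  have hd0 : 0 < d := by
    have : 0 < 1 - q := by linarith
    positivity
  have key : ∀ n : ℕ, Out Ω k C0 (max (M0 - n * d) ε) := by
    intro n
    induction n with
    | zero =>
      refine Out.mono ⟨1, one_pos, P1, fun p hp u hu x _ => hM p hp u hu x⟩ ?_
      simp
    | succ n ih =>
      set β := max (M0 - n * d) ε with hβ
      have hβε : ε ≤ β := le_max_right _ _
      refine (out_step hD (lt_of_lt_of_le hε hβε) hd0 ih).mono ?_
      rw [← hq]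
      have h1 : q * β + d ≤ β - d := by
        have : (1 - q) * ε ≤ (1 - q) * β := mul_le_mul_of_nonneg_left hβε (by linarith)
        rw [hd]; linarith
      refine h1.trans ?_
      rcases le_total (M0 - n * d) ε with h2 | h2
      · rw [hβ, max_eq_right h2]
        exact le_trans (by linarith) (le_max_right _ _)
      · rw [hβ, max_eq_left h2]
        refine le_trans ?_ (le_max_left _ _)
        push_cast
        linarith
  obtain ⟨n, hn⟩ := exists_nat_gt (M0 / d)
  obtain ⟨sb, hsb, P0, hP⟩ := key n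
  refine ⟨sb, hsb, P0, fun p hp u hu x hx => (hP p hp u hu x hx).trans ?_⟩
  apply max_le _ le_rfl
  have : M0 < n * d := by rwa [div_lt_iff₀ hd0] at hn
  linarith

end Pool.Agent.LE87
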