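import Pool.Agent.LE87.P2E1

set_option autoImplicit false

open Complex MeasureTheory Set Filter Topology Metric
open scoped Real

namespace Pool.Agent.LE87

variable {Ω : Set ℂ} {R ρ : ℝ} {k : ℕ} {C0 : ℝ}

/-- the mass outside a ball beyond which `|u| ≤ 1/2` -/
theorem tot_out {p q r : ℝ} {u : ℂ → ℝ} (hD : Dom Ω R ρ k C0) (hq : 0 < q) (hu : Sol Ω p u)
    (hs : ∀ x : ℂ, r ≤ ‖x‖ → |u x| ≤ 1 / 2) :
    ∫ z, pp q u z ≤ (∫ z in ball (0 : ℂ) r, pp q u z) + π * R ^ 2 * (1 / 2) ^ q := by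
  have hi := pp_integrable hq hD hu
  have hR := hD.hR
  have hpos : (0 : ℝ) ≤ (1 / 2) ^ q := Real.rpow_nonneg (by norm_num) _
  have hind : Integrable ((ball (0 : ℂ) R).indicator (fun _ => ((1 : ℝ) / 2) ^ q)) :=
    (integrable_indicator_iff measurableSet_ball).2
      (integrableOn_const (hs := (measure_ball_lt_top).ne))
  rw [← integral_add_compl (measurableSet_ball (x := (0 : ℂ)) (ε := r)) hi]
  apply add_le_add le_rfl
  have h1 : ∫ z in (ball (0 : ℂ) r)ᶜ, pp q u z ≤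
      ∫ z in (ball (0 : ℂ) r)ᶜ, (ball (0 : ℂ) R).indicator (fun _ => ((1 : ℝ) / 2) ^ q) z := by
    apply setIntegral_mono_on hi.integrableOn hind.integrableOn measurableSet_ball.compl
    intro z hz
    by_cases hzR : z ∈ ball (0 : ℂ) R
    · rw [indicator_of_mem hzR]
      have hz1 : r ≤ ‖z‖ := by
        have : ¬ (‖z‖ < r) := fun h => hz (by rw [mem_ball_zero_iff]; exact h)
        linarith
      have hz2 := hs z hz1
      unfold pp
      exact Real.rpow_le_rpow (le_max_right _ _)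
        (max_le (le_trans (le_abs_self _) hz2) (by norm_num)) hq.le
    · rw [indicator_of_notMem hzR, pp_zero hq (hu.zero z (fun h => hzR (hD.sub h)))]
  refine le_trans h1 ?_
  calc ∫ z in (ball (0 : ℂ) r)ᶜ, (ball (0 : ℂ) R).indicator (fun _ => ((1 : ℝ) / 2) ^ q) z
      ≤ ∫ z, (ball (0 : ℂ) R).indicator (fun _ => ((1 : ℝ) / 2) ^ q) z := by
        apply setIntegral_le_integral hind
        exact Eventually.of_forall (fun z => indicator_nonneg (fun _ _ => hpos) z)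
    _ = π * R ^ 2 * (1 / 2) ^ q := by
        rw [integral_indicator measurableSet_ball, setIntegral_const, Measure.real,
          Complex.volume_ball, smul_eq_mul]
        have : (ENNReal.ofReal R ^ 2 * (NNReal.pi : ENNReal)).toReal = R ^ 2 * π := by
          rw [ENNReal.toReal_mul, ENNReal.toReal_pow, ENNReal.toReal_ofReal (by linarith)]
          rfl
        rw [this]; ring

theorem half_rpow (p : ℝ) : ((1 : ℝ) / 2) ^ p = Real.exp (-(Real.log 2 * p)) := by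
  rw [Real.rpow_def_of_pos (by norm_num), one_div, Real.log_inv]
  ring_nf

theorem outer_mass (hD : Dom Ω R ρ k C0) : ∃ sb : ℝ, 0 < sb ∧ ∀ ε > 0, ∃ P0 : ℝ,
    ∀ p ≥ P0, ∀ u : ℂ → ℝ, Good Ω k C0 p u →
      (∀ x : ℂ, Real.exp (-(p * sb)) ≤ ‖x‖ → |u x| ≤ 1 / 2) ∧
      ∀ s ≤ sb, mu p u ≤ aP p u 0 s + ε ∧ te p u ≤ tP p u 0 s + ε := by
  obtain ⟨sb, hsb, P1, hP1⟩ := outer_small hD (by norm_num : (0 : ℝ) < 1 / 2)
  refine ⟨sb, hsb, fun ε hε => ?_⟩
  obtain ⟨P2, hP2⟩ := small_exp (Real.log_pos (by norm_num : (1 : ℝ) < 2)) (R ^ 2 / 4) hε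
  refine ⟨max P1 P2, fun p hp u hu => ?_⟩
  have hs := hP1 p (le_trans (le_max_left _ _) hp) u hu
  have he := hP2 p (le_trans (le_max_right _ _) hp)
  have hp1 := hu.hp
  have hp0 : 0 < p := by linarith
  have hπ := Real.pi_pos
  have hhalf : (0 : ℝ) < (1 / 2) ^ p := Real.rpow_pos_of_pos (by norm_num) _
  rw [← half_rpow] at he
  refine ⟨hs, fun s hss => ⟨?_, ?_⟩⟩
  · have h1 := tot_out hD hp0 hu.sol hs
    have h2 := aP_anti hD hp0 hu.sol 0 hss
    have h3 : mu p u ≤ aP p u 0 sb + R ^ 2 / 4 * p * (1 / 2) ^ p := by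
      unfold mu tot aP mass
      calc p / 2 * ((2 * π)⁻¹ * ∫ z, pp p u z)
          ≤ p / 2 * ((2 * π)⁻¹ * ((∫ z in ball (0 : ℂ) (Real.exp (-(p * sb))), pp p u z) +
            π * R ^ 2 * (1 / 2) ^ p)) := by gcongr
        _ = _ := by field_simp; ring
    linarith
  · have h1 := tot_out hD (by linarith : 0 < p + 1) hu.sol hs
    have h2 := tP_anti hD hp0 hu.sol 0 hss
    have h3 : te p u ≤ tP p u 0 sb + R ^ 2 / 4 * p * (1 / 2) ^ (p + 1) := by
      unfold te tot tP mass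
      calc p / 2 * ((2 * π)⁻¹ * ∫ z, pp (p + 1) u z)
          ≤ p / 2 * ((2 * π)⁻¹ * ((∫ z in ball (0 : ℂ) (Real.exp (-(p * sb))), pp (p + 1) u z) +
            π * R ^ 2 * (1 / 2) ^ (p + 1))) := by gcongr
        _ = _ := by field_simp; ring
    have h4 : ((1 : ℝ) / 2) ^ (p + 1) ≤ (1 / 2) ^ p := by
      rw [Real.rpow_add_one (by norm_num)]; linarith
    have h5 : R ^ 2 / 4 * p * (1 / 2) ^ (p + 1) ≤ R ^ 2 / 4 * p * (1 / 2) ^ p :=
      mul_le_mul_of_nonneg_left h4 (by positivity)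
    linarith

theorem norm_pt_zero (t θ : ℝ) : ‖pt 0 t θ‖ = Real.exp t := by
  unfold pt
  rw [zero_add, Complex.norm_exp]
  simp

/-- an average of values bounded by `K` is bounded by `K` -/
theorem avg_abs_le {u : ℂ → ℝ} {c : ℂ} {t K : ℝ} (h : ∀ θ : ℝ, |u (pt c t θ)| ≤ K) :
    |avg u c t| ≤ K := by
  have hπ := Real.pi_pos
  unfold avg
  have h1 := intervalIntegral.norm_integral_le_of_norm_le_const (a := (0 : ℝ)) (b := 2 * π)
    (f := fun θ => u (pt c t θ)) (C := K) (fun θ _ => by rw [Real.norm_eq_abs]; exact h θ)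
  rw [Real.norm_eq_abs, sub_zero, abs_of_pos (by positivity : (0 : ℝ) < 2 * π)] at h1
  rw [abs_mul, abs_of_pos (by positivity : (0 : ℝ) < (2 * π)⁻¹)]
  calc (2 * π)⁻¹ * |∫ θ in (0 : ℝ)..(2 * π), u (pt c t θ)| ≤ (2 * π)⁻¹ * (K * (2 * π)) := by gcongr
    _ = K := by field_simp

theorem balance (hD : Dom Ω R ρ k C0) {ε : ℝ} (hε : 0 < ε) : ∃ P0 : ℝ, ∀ p ≥ P0, ∀ u : ℂ → ℝ,
    Good Ω k C0 p u → |(mu p u - mu p (fun z => -u z)) ^ 2 -
      2 * (te p u + te p (fun z => -u z))| ≤ ε := by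
  have hC0 := hD.hC0
  have hρ := hD.hρ
  obtain ⟨sb, hsb, hout⟩ := outer_mass hD
  set K : ℝ := 3 / sb + 2 * (C0 + 1) + 4 with hK
  have hKpos : 0 < K := by positivity
  set e2 : ℝ := ε / (2 * K) with he2
  have he2pos : 0 < e2 := by positivity
  have he2K : e2 * K = ε / 2 := by rw [he2]; field_simp
  obtain ⟨P1, hP1⟩ := hout e2 he2pos
  obtain ⟨P2, hP2⟩ := mu_add_le hD one_pos
  obtain ⟨P3, hP3⟩ := window_scaled hD (by positivity : 0 < sb / 6) (by positivity : 0 < sb / 3)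
    (by positivity : 0 < ε / 2)
  set P4 : ℝ := 6 * |Real.log (2 * ρ)| / sb + 1 with hP4
  refine ⟨max (max P1 P2) (max P3 P4), fun p hp u hu => ?_⟩
  have q1 : P1 ≤ p := le_trans (le_trans (le_max_left _ _) (le_max_left _ _)) hp
  have q2 : P2 ≤ p := le_trans (le_trans (le_max_right _ _) (le_max_left _ _)) hp
  have q3 : P3 ≤ p := le_trans (le_trans (le_max_left _ _) (le_max_right _ _)) hp
  have q4 : P4 ≤ p := le_trans (le_trans (le_max_right _ _) (le_max_right _ _)) hp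
  have hp1 := hu.hp
  have hp0 : 0 < p := by linarith
  obtain ⟨hs, hm⟩ := hP1 p q1 u hu
  obtain ⟨hs', hm'⟩ := hP1 p q1 _ hu.neg'
  have hmu := hP2 p q2 u hu
  have hball : ball (0 : ℂ) (Real.exp (Real.log (2 * ρ))) ⊆ Ω := by
    rw [Real.exp_log (by linarith)]; exact hD.ball_sub
  have hT : -(p * (sb / 3 - sb / 6)) < Real.log (2 * ρ) := by
    have h1 : 6 * |Real.log (2 * ρ)| / sb < p := by linarith
    rw [div_lt_iff₀ hsb] at h1
    have h2 := neg_abs_le (Real.log (2 * ρ))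
    nlinarith
  have hW : ∀ σ ∈ Icc (sb / 3 - sb / 6) (2 * sb / 3 + sb / 6), ∀ θ : ℝ,
      |u (pt 0 (-(p * σ)) θ) - VV p u 0 σ| ≤ 1 := by
    intro σ hσ θ
    have h1 : ∀ θ : ℝ, |u (pt 0 (-(p * σ)) θ)| ≤ 1 / 2 := by
      intro θ
      apply hs
      rw [norm_pt_zero]
      apply Real.exp_le_exp.2
      have : σ ≤ sb := by linarith [hσ.2]
      nlinarith
    have h2 : |VV p u 0 σ| ≤ 1 / 2 := avg_abs_le h1
    calc |u (pt 0 (-(p * σ)) θ) - VV p u 0 σ| ≤ |u (pt 0 (-(p * σ)) θ)| + |VV p u 0 σ| :=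
          abs_sub _ _
      _ ≤ 1 := by linarith [h1 θ]
  obtain ⟨σ, hσ, hwin⟩ := hP3 p q3 u hu 0 (Real.log (2 * ρ)) (sb / 3) (2 * sb / 3) 1 hball hT
    (by linarith) (by norm_num) hW
  -- comparison at `σ` and at the ends
  have hσb : σ ≤ sb := by linarith [hσ.2]
  have hend : 2 * sb / 3 + sb / 6 ≤ sb := by linarith
  obtain ⟨a1, a2⟩ := hm σ hσb
  obtain ⟨b1, b2⟩ := hm' σ hσb
  obtain ⟨c1, -⟩ := hm _ hend
  obtain ⟨d1, -⟩ := hm' _ hend
  have a3 := aP_le_mu hD hp0 hu.sol 0 σ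
  have b3 := aP_le_mu hD hp0 hu.sol.neg 0 σ
  have a4 := tP_le_te hD hp0 hu.sol 0 σ
  have b4 := tP_le_te hD hp0 hu.sol.neg 0 σ
  have c3 := aP_le_mu hD hp0 hu.sol 0 (sb / 3 - sb / 6)
  have d3 := aP_le_mu hD hp0 hu.sol.neg 0 (sb / 3 - sb / 6)
  have m1 := mu_nonneg (p := p) (u := u) hp0.le
  have m2 := mu_nonneg (p := p) (u := fun z => -u z) hp0.le
  have n1 := aP_nonneg (p := p) (u := u) hp0.le 0 σ
  have n2 := aP_nonneg (p := p) (u := fun z => -u z) hp0.le 0 σ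
  unfold aM tM at hwin
  have hfrac : 1 * ((aP p u 0 (sb / 3 - sb / 6) + aP p (fun z => -u z) 0 (sb / 3 - sb / 6)) -
      (aP p u 0 (2 * sb / 3 + sb / 6) + aP p (fun z => -u z) 0 (2 * sb / 3 + sb / 6)))
        / (2 * (2 * sb / 3 - sb / 3)) ≤ e2 * (3 / sb) := by
    have : e2 * (3 / sb) = (2 * e2) / (2 * (2 * sb / 3 - sb / 3)) := by
      field_simp; ring
    rw [this]
    apply div_le_div_of_nonneg_right _ (by linarith)
    linarith
  set A := aP p u 0 σ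
  set B := aP p (fun z => -u z) 0 σ
  set A' := mu p u
  set B' := mu p (fun z => -u z)
  set E := tP p u 0 σ
  set F := tP p (fun z => -u z) 0 σ
  set E' := te p u
  set F' := te p (fun z => -u z)
  have hsq : |(A' - B') ^ 2 - (A - B) ^ 2| ≤ e2 * (2 * (C0 + 1)) := by
    have e1 : (A' - B') ^ 2 - (A - B) ^ 2 = ((A' - A) - (B' - B)) * ((A' - B') + (A - B)) := by ring
    rw [e1, abs_mul]
    apply mul_le_mul _ _ (abs_nonneg _) he2pos.le
    · rw [abs_le]; constructor <;> linarith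
    · rw [abs_le]; constructor <;> linarith
  have hte : |2 * (E' + F') - 2 * (E + F)| ≤ e2 * 4 := by
    rw [abs_le]; constructor <;> linarith
  have hfin : |(A' - B') ^ 2 - 2 * (E' + F')| ≤
      |(A' - B') ^ 2 - (A - B) ^ 2| + |(A - B) ^ 2 - 2 * (E + F)| +
        |2 * (E' + F') - 2 * (E + F)| := by
    have e1 : (A' - B') ^ 2 - 2 * (E' + F') = ((A' - B') ^ 2 - (A - B) ^ 2) +
        ((A - B) ^ 2 - 2 * (E + F)) - (2 * (E' + F') - 2 * (E + F)) := by ring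
    rw [e1]
    refine le_trans (abs_sub _ _) ?_
    gcongr
    exact abs_add_le _ _
  have hKe : e2 * (3 / sb) + e2 * (2 * (C0 + 1)) + e2 * 4 = ε / 2 := by
    rw [← he2K, hK]; ring
  linarith

end Pool.Agent.LE87
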