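import Pool.Agent.LE87.P2E2

set_option autoImplicit false

open Complex MeasureTheory Set Filter Topology Metric
open scoped Real

namespace Pool.Agent.LE87

variable {Ω : Set ℂ} {R ρ : ℝ} {k : ℕ} {C0 : ℝ}

theorem ball_in (hD : Dom Ω R ρ k C0) {y : ℂ} (hy : ‖y‖ ≤ ρ) :
    ball y (Real.exp (Real.log ρ)) ⊆ Ω := by
  rw [Real.exp_log hD.hρ]
  refine subset_trans ?_ hD.ball_sub
  intro z hz
  rw [mem_ball, dist_eq_norm] at hz
  rw [mem_ball, dist_zero_right]
  have : ‖z‖ ≤ ‖z - y‖ + ‖y‖ := by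
    have := norm_add_le (z - y) y
    rwa [sub_add_cancel] at this
  linarith

/-- for large `p` the small ball is deep inside -/
theorem deep (hD : Dom Ω R ρ k C0) {s0 : ℝ} (hs0 : 0 < s0) : ∃ P0 : ℝ, 1 ≤ P0 ∧ ∀ p ≥ P0,
    2 * Real.exp (-(p * s0)) ≤ Real.exp (-(p * (s0 / 2))) ∧
    Real.exp (-(p * (s0 / 2))) ≤ ρ ∧ ∀ s, s0 ≤ s → -(p * s) < Real.log ρ := by
  have hρ := hD.hρ
  refine ⟨max 1 (max (2 / s0) (2 * |Real.log ρ| / s0)), le_max_left _ _, fun p hp => ?_⟩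
  have h1 : 1 ≤ p := le_trans (le_max_left _ _) hp
  have h2 : 2 / s0 ≤ p := le_trans (le_trans (le_max_left _ _) (le_max_right _ _)) hp
  have h3 : 2 * |Real.log ρ| / s0 ≤ p :=
    le_trans (le_trans (le_max_right _ _) (le_max_right _ _)) hp
  rw [div_le_iff₀ hs0] at h2 h3
  have h4 : 1 ≤ p * (s0 / 2) := by linarith
  have h5 : |Real.log ρ| ≤ p * (s0 / 2) := by linarith
  have h6 := neg_abs_le (Real.log ρ)
  refine ⟨?_, ?_, ?_⟩
  · have e : -(p * s0) = -(p * (s0 / 2)) + -(p * (s0 / 2)) := by ring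
    rw [e, Real.exp_add]
    have h7 : 2 * Real.exp (-(p * (s0 / 2))) ≤ 1 := by
      have : Real.exp (-(p * (s0 / 2))) ≤ Real.exp (-1) := Real.exp_le_exp.2 (by linarith)
      have h8 : (2 : ℝ) ≤ Real.exp 1 := by
        have := Real.add_one_le_exp (1 : ℝ); linarith
      have h9 : Real.exp (-1) * Real.exp 1 = 1 := by rw [← Real.exp_add]; simp
      nlinarith [Real.exp_pos (-1)]
    nlinarith [Real.exp_pos (-(p * (s0 / 2)))]
  · rw [← Real.le_log_iff_exp_le hρ]; linarith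
  · intro s hs
    have : p * s0 ≤ p * s := mul_le_mul_of_nonneg_left hs (by linarith)
    linarith

theorem exp_small {b : ℝ} (hb : 0 < b) {ε : ℝ} (hε : 0 < ε) :
    ∃ P0 : ℝ, 1 ≤ P0 ∧ ∀ p ≥ P0, Real.exp (-(b * p)) ≤ ε := by
  obtain ⟨P0, hP⟩ := small_exp hb 1 hε
  refine ⟨max 1 P0, le_max_left _ _, fun p hp => ?_⟩
  have h1 : 1 ≤ p := le_trans (le_max_left _ _) hp
  have h2 := hP p (le_trans (le_max_right _ _) hp)
  have := Real.exp_pos (-(b * p))
  nlinarith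

theorem osc_up (hD : Dom Ω R ρ k C0) {s0 ε : ℝ} (hs0 : 0 < s0) (hε : 0 < ε) : ∃ P0 : ℝ,
    ∀ p ≥ P0, ∀ u : ℂ → ℝ, Good Ω k C0 p u → ∀ (x : ℂ) (τ h lam : ℝ), s0 ≤ τ →
      ‖x‖ ≤ Real.exp (-(p * s0)) → 0 < h → 0 ≤ lam → Real.log h / 2 - τ ≤ lam →
      (∀ z ∈ ball x (2 * Real.exp (-(p * τ))), |u z| ≤ h) →
      ∀ y, ‖y - x‖ ≤ Real.exp (-(p * τ)) → u y - VV p u x τ ≤ 2 * (C0 + 1) * lam + ε := by
  have hC0 := hD.hC0
  obtain ⟨P1, hP1⟩ := mu_add_le hD one_pos
  obtain ⟨P2, hP2⟩ := two_scaled hD (half_pos hs0) (by positivity : 0 < ε / 4)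
  obtain ⟨P3, hP31, hP3⟩ := deep hD hs0
  have hη : 0 < ε / (8 * (C0 + 1)) := by positivity
  obtain ⟨P4, hP41, hP4⟩ := exp_small (by linarith : 0 < 2 * (ε / (8 * (C0 + 1)))) hε
  refine ⟨max (max P1 P2) (max P3 P4), fun p hp u hu x τ h lam hτ hx hh hlam hl hsup y hy => ?_⟩
  have hp1 := le_trans (le_trans (le_max_left _ _) (le_max_left _ _)) hp
  have hp2 := le_trans (le_trans (le_max_right _ _) (le_max_left _ _)) hp
  have hp3 := le_trans (le_trans (le_max_left _ _) (le_max_right _ _)) hp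
  have hp4 := le_trans (le_trans (le_max_right _ _) (le_max_right _ _)) hp
  have hp0 : 0 < p := by linarith
  obtain ⟨d1, d2, d3⟩ := hP3 p hp3
  have hexp : Real.exp (-(p * τ)) ≤ Real.exp (-(p * s0)) :=
    Real.exp_le_exp.2 (by nlinarith)
  have hyn : ‖y‖ ≤ Real.exp (-(p * (s0 / 2))) := by
    have : ‖y‖ ≤ ‖y - x‖ + ‖x‖ := by
      have := norm_add_le (y - x) x
      rwa [sub_add_cancel] at this
    linarith
  have hxn : ‖x‖ ≤ Real.exp (-(p * (s0 / 2))) := by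
    have := Real.exp_pos (-(p * s0)); linarith
  have h1 := hP2 p hp2 u hu y x τ (by linarith) hyn hxn hy
  have hsub : ball y (Real.exp (-(p * τ))) ⊆ ball x (2 * Real.exp (-(p * τ))) := by
    apply ball_subset_ball'
    rw [dist_eq_norm]; linarith
  have h2 := centre_le hD hp0 hu.sol (ball_in hD (hyn.trans d2)) (d3 τ hτ) hh
    (fun z hz => (le_abs_self _).trans (hsup z (hsub hz)))
  have h3 := tail_int hD hp0 hu.sol (c := y) (s := τ) hh hη.le
    (fun z hz => (le_abs_self _).trans (hsup z (hsub hz)))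
  have h4 : aP p u y τ ≤ C0 + 1 := by
    have a1 := aP_le_mu hD hp0 hu.sol y τ
    have a2 := hP1 p hp1 u hu
    have a3 := mu_nonneg (p := p) (u := fun z => -u z) hp0.le
    linarith
  have h5 := hP4 p hp4
  have h6 : max (Real.log h / 2 - τ) 0 ≤ lam := max_le hl hlam
  have a0 := aP_nonneg (u := u) hp0.le y τ
  have h7 : aP p u y τ * (max (Real.log h / 2 - τ) 0 + ε / (8 * (C0 + 1))) ≤
      (C0 + 1) * (lam + ε / (8 * (C0 + 1))) := by
    apply mul_le_mul h4 (by linarith) _ (by linarith)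
    have := le_max_right (Real.log h / 2 - τ) 0; linarith
  have h8 : (C0 + 1) * (ε / (8 * (C0 + 1))) = ε / 8 := by field_simp
  rw [mul_add (C0 + 1), h8] at h7
  have e9 : 2 * (ε / (8 * (C0 + 1))) * p = 2 * (ε / (8 * (C0 + 1))) * p := rfl
  have h10 := (abs_le.1 h1).2
  linarith

theorem osc_ball (hD : Dom Ω R ρ k C0) {s0 ε : ℝ} (hs0 : 0 < s0) (hε : 0 < ε) : ∃ P0 : ℝ,
    ∀ p ≥ P0, ∀ u : ℂ → ℝ, Good Ω k C0 p u → ∀ (x : ℂ) (τ h lam : ℝ), s0 ≤ τ →
      ‖x‖ ≤ Real.exp (-(p * s0)) → 0 < h → 0 ≤ lam → Real.log h / 2 - τ ≤ lam →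
      (∀ z ∈ ball x (2 * Real.exp (-(p * τ))), |u z| ≤ h) →
      ∀ y, ‖y - x‖ ≤ Real.exp (-(p * τ)) → |u y - VV p u x τ| ≤ 2 * (C0 + 1) * lam + ε := by
  obtain ⟨P1, hP1⟩ := osc_up hD hs0 hε
  refine ⟨P1, fun p hp u hu x τ h lam hτ hx hh hlam hl hsup y hy => ?_⟩
  have h1 := hP1 p hp u hu x τ h lam hτ hx hh hlam hl hsup y hy
  have h2 := hP1 p hp _ hu.neg' x τ h lam hτ hx hh hlam hl
    (fun z hz => by rw [abs_neg]; exact hsup z hz) y hy
  rw [VV_neg] at h2
  rw [abs_le]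
  constructor <;> linarith

/-! ### facts near a point where `u` is almost constant -/

theorem aM_zero {p s : ℝ} {u : ℂ → ℝ} {c : ℂ} (hp : 0 < p)
    (h : ∀ z ∈ ball c (Real.exp (-(p * s))), 0 ≤ u z) : aM p u c s = 0 ∧ tM p u c s = 0 := by
  have key : ∀ q : ℝ, 0 < q → mass (pp q (fun z => -u z)) c (-(p * s)) = 0 := by
    intro q hq
    have : mass (pp q (fun z => -u z)) c (-(p * s)) = mass (fun _ => (0 : ℝ)) c (-(p * s)) := by
      apply mass_congr
      intro z hz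
      unfold pp
      rw [max_eq_right (by linarith [h z hz]), Real.zero_rpow hq.ne']
    rw [this]; unfold mass; simp
  constructor
  · unfold aM aP; rw [key p hp, mul_zero]
  · unfold tM tP; rw [key (p + 1) (by linarith), mul_zero]

theorem VV_near {p s σ h κ : ℝ} {u : ℂ → ℝ} {c : ℂ} (hp : 0 ≤ p) (hu : Continuous u)
    (h1 : ∀ y, ‖y - c‖ ≤ Real.exp (-(p * s)) → |u y - h| ≤ κ) (hσ : s ≤ σ) :
    (∀ θ : ℝ, |u (pt c (-(p * σ)) θ) - h| ≤ κ) ∧ |VV p u c σ - h| ≤ κ := by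
  have h2 : ∀ θ : ℝ, |u (pt c (-(p * σ)) θ) - h| ≤ κ := by
    intro θ
    apply h1
    rw [pt_sub, norm_ew]
    exact Real.exp_le_exp.2 (by nlinarith)
  refine ⟨h2, ?_⟩
  have hπ := Real.pi_pos
  have hc : Continuous (fun θ : ℝ => u (pt c (-(p * σ)) θ)) :=
    hu.comp (continuous_pt_right c _)
  have e : VV p u c σ - h = (2 * π)⁻¹ * ∫ θ in (0 : ℝ)..(2 * π), (u (pt c (-(p * σ)) θ) - h) := by
    unfold VV avg
    rw [intervalIntegral.integral_sub (hc.intervalIntegrable _ _)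
      (continuous_const.intervalIntegrable _ _), intervalIntegral.integral_const, smul_eq_mul,
      mul_sub]
    field_simp
    ring
  have h3 : ‖∫ θ in (0 : ℝ)..(2 * π), (u (pt c (-(p * σ)) θ) - h)‖ ≤ κ * |2 * π - 0| :=
    intervalIntegral.norm_integral_le_of_norm_le_const (fun θ _ => h2 θ)
  rw [Real.norm_eq_abs, sub_zero, abs_of_pos (by positivity : 0 < 2 * π)] at h3
  rw [e, abs_mul, abs_of_pos (by positivity : 0 < (2 * π)⁻¹)]
  calc (2 * π)⁻¹ * |∫ θ in (0 : ℝ)..(2 * π), (u (pt c (-(p * σ)) θ) - h)|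
      ≤ (2 * π)⁻¹ * (κ * (2 * π)) := by
        apply mul_le_mul_of_nonneg_left h3 (by positivity)
    _ = κ := by field_simp

theorem tP_ge (hD : Dom Ω R ρ k C0) {p s m : ℝ} {u : ℂ → ℝ} (hp : 0 < p) (hu : Sol Ω p u) {c : ℂ}
    (hm : 0 < m) (h : ∀ z ∈ ball c (Real.exp (-(p * s))), m ≤ u z) :
    m * aP p u c s ≤ tP p u c s := by
  have h1 : m * mass (pp p u) c (-(p * s)) ≤ mass (pp (p + 1) u) c (-(p * s)) := by
    unfold mass
    rw [mul_left_comm]
    apply mul_le_mul_of_nonneg_left _ (by positivity)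
    rw [← integral_const_mul]
    apply setIntegral_mono_on ((pp_integrable hp hD hu).integrableOn.const_mul _)
      (pp_integrable (by linarith) hD hu).integrableOn measurableSet_ball
    intro z hz
    have h2 := h z hz
    have h3 : 0 < u z := lt_of_lt_of_le hm h2
    unfold pp
    rw [max_eq_left h3.le, Real.rpow_add_one h3.ne', mul_comm]
    exact mul_le_mul_of_nonneg_left h2 (Real.rpow_nonneg h3.le _)
  unfold aP tP
  have := mul_le_mul_of_nonneg_left h1 (by linarith : 0 ≤ p / 2)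
  linarith

/-- the bound near the maximum point -/
theorem near_max {p : ℝ} {u : ℂ → ℝ} (hp : 0 < p) {x0 : ℂ} {K : ℝ} (hK : 11 ≤ K) (hu : 0 < u x0)
    (hx0 : 0 < ‖x0‖) (hmax : ∀ z, ‖z‖ ^ 2 * |u z| ^ p ≤ ‖x0‖ ^ 2 * |u x0| ^ p) :
    ∀ z ∈ ball x0 (‖x0‖ / K), |u z| ≤ Real.exp (2 * (Real.log (u x0) / 2 + 1 / (5 * p))) := by
  intro z hz
  rw [mem_ball, dist_eq_norm] at hz
  have h0 : ‖x0‖ / K ≤ ‖x0‖ / 11 := div_le_div_of_nonneg_left hx0.le (by norm_num) hK
  have hzn : 10 / 11 * ‖x0‖ ≤ ‖z‖ := by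
    have : ‖x0‖ ≤ ‖x0 - z‖ + ‖z‖ := by
      have := norm_add_le (x0 - z) z
      rwa [sub_add_cancel] at this
    rw [norm_sub_rev] at this
    linarith
  have h1 := hmax z
  rw [abs_of_pos hu] at h1
  have h2 : (10 / 11 * ‖x0‖) ^ 2 ≤ ‖z‖ ^ 2 := by gcongr
  have h3 : 0 ≤ |u z| ^ p := Real.rpow_nonneg (abs_nonneg _) _
  have h4 : (10 / 11 * ‖x0‖) ^ 2 * |u z| ^ p ≤ ‖x0‖ ^ 2 * (u x0) ^ p :=
    (mul_le_mul_of_nonneg_right h2 h3).trans h1
  have hx2 : 0 < ‖x0‖ ^ 2 := by positivity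
  have h5 : (10 / 11) ^ 2 * |u z| ^ p ≤ (u x0) ^ p := by
    have e : (10 / 11 * ‖x0‖) ^ 2 * |u z| ^ p = ‖x0‖ ^ 2 * ((10 / 11) ^ 2 * |u z| ^ p) := by ring
    rw [e] at h4
    exact le_of_mul_le_mul_left h4 hx2
  have h6 : Real.exp (2 * (Real.log (u x0) / 2 + 1 / (5 * p))) ^ p =
      (u x0) ^ p * Real.exp (2 / 5) := by
    rw [← Real.exp_mul, Real.rpow_def_of_pos hu, ← Real.exp_add]
    congr 1
    field_simp
  have h7 : (7 : ℝ) / 5 ≤ Real.exp (2 / 5) := by
    have := Real.add_one_le_exp (2 / 5 : ℝ); linarith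
  have h8 : 0 < (u x0) ^ p := Real.rpow_pos_of_pos hu _
  have h9 : |u z| ^ p ≤ Real.exp (2 * (Real.log (u x0) / 2 + 1 / (5 * p))) ^ p := by
    rw [h6]
    nlinarith
  exact (Real.rpow_le_rpow_iff (abs_nonneg _) (Real.exp_pos _).le hp).1 h9

/-- one of many scales is quiet -/
theorem pigeon {N : ℕ} {K C1 : ℝ} (hK : 0 < K) (hN : 0 < N) (hNK : 100 * K * C1 ≤ N)
    (f : ℝ → ℝ) (hf : Antitone f) (hf0 : ∀ s, 0 ≤ f s) (hf1 : ∀ s, f s ≤ C1) (τ l0 : ℝ)
    (hl0 : 0 < l0) :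
    ∃ j < N, K * (f (τ - 9 * (l0 / 4 ^ j) / 4) - f (τ - 3 * (l0 / 4 ^ j) / 4)) ≤ 1 / 100 := by
  by_contra hcon
  push Not at hcon
  have h1 : ∀ j ∈ Finset.range N, (1 : ℝ) / 100 < K * (f (τ - 9 * (l0 / 4 ^ j) / 4) -
      f (τ - 9 * (l0 / 4 ^ (j + 1)) / 4)) := by
    intro j hj
    refine lt_of_lt_of_le (hcon j (Finset.mem_range.1 hj)) ?_
    apply mul_le_mul_of_nonneg_left _ hK.le
    have hp4 : (0 : ℝ) < 4 ^ j := by positivity
    have e : l0 / 4 ^ (j + 1) = l0 / 4 ^ j / 4 := by rw [pow_succ]; field_simp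
    have hpos : 0 < l0 / 4 ^ j := by positivity
    have := hf (show τ - 3 * (l0 / 4 ^ j) / 4 ≤ τ - 9 * (l0 / 4 ^ (j + 1)) / 4 by
      rw [e]; linarith)
    linarith
  have h2 := Finset.sum_lt_sum_of_nonempty (Finset.nonempty_range_iff.2 hN.ne') h1
  rw [← Finset.mul_sum, Finset.sum_range_sub' (fun j => f (τ - 9 * (l0 / 4 ^ j) / 4))] at h2
  simp only [Finset.sum_const, Finset.card_range, nsmul_eq_mul] at h2
  have a1 := hf1 (τ - 9 * (l0 / 4 ^ 0) / 4)
  have a2 := hf0 (τ - 9 * (l0 / 4 ^ N) / 4)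
  have h3 : K * (f (τ - 9 * (l0 / 4 ^ 0) / 4) - f (τ - 9 * (l0 / 4 ^ N) / 4)) ≤ K * C1 :=
    mul_le_mul_of_nonneg_left (by linarith) hK.le
  linarith

/-- eleven copies are too heavy -/
theorem heavy (hD : Dom Ω R ρ k C0) {p σ : ℝ} {u : ℂ → ℝ} {x0 : ℂ} (hu : Good Ω k C0 p u)
    (hbal : |(mu p u - mu p (fun z => -u z)) ^ 2 - 2 * (te p u + te p (fun z => -u z))| ≤ 1)
    (hmt : mu p (fun z => -u z) ≤ (1 + 1 / 100) * te p (fun z => -u z) + 1 / 100)
    (hr : Real.exp (-(p * σ)) ≤ ‖x0‖ / k) (ha : 1.95 ≤ aP p u x0 σ) (ht : 1.93 ≤ tP p u x0 σ) :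
    False := by
  have hp0 : 0 < p := by linarith [hu.hp]
  have hk := hD.hk
  have hk' : (11 : ℝ) ≤ k := by exact_mod_cast hk
  have hsym : ∀ q : ℝ, ∀ z, pp q u (zt k * z) = pp q u z := by
    intro q z; unfold pp; rw [hu.symm]
  have c1 := copies (by omega : 2 ≤ k) (pp_nonneg p) (pp_integrable hp0 hD hu.sol) (hsym p) hr
  have c2 := copies (by omega : 2 ≤ k) (pp_nonneg (p + 1))
    (pp_integrable (by linarith) hD hu.sol) (hsym (p + 1)) hr
  have m1 : 11 * 1.95 ≤ mu p u := by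
    have : (k : ℝ) * aP p u x0 σ ≤ mu p u := by
      unfold aP mu
      have := mul_le_mul_of_nonneg_left c1 (by linarith : 0 ≤ p / 2)
      linarith
    nlinarith
  have m2 : 11 * 1.93 ≤ te p u := by
    have : (k : ℝ) * tP p u x0 σ ≤ te p u := by
      unfold tP te
      have := mul_le_mul_of_nonneg_left c2 (by linarith : 0 ≤ p / 2)
      linarith
    nlinarith
  have hte := te_add hD hu
  have hC := hD.hC
  have he := Real.exp_one_lt_d9
  have m3 : te p (fun z => -u z) ≤ 6 := by linarith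
  have m4 : mu p (fun z => -u z) ≤ 6.1 := by linarith
  have m5 := (abs_le.1 hbal).2
  have m6 : te p u + te p (fun z => -u z) ≤ 27.2 := by linarith
  nlinarith

/-- `u` is almost constant near the maximum point -/
theorem cluster (hD : Dom Ω R ρ k C0) {p sb q e δ τ0 lN l : ℝ} {u : ℂ → ℝ} {x0 : ℂ}
    (hq : 0 ≤ q) (hlN : 0 < lN) (hl1 : lN ≤ l) (hl2 : 3 * l ≤ δ / 4)
    (hs1 : sb + δ / 4 ≤ τ0)
    (hx0 : ‖x0‖ ≤ Real.exp (-(p * sb)))
    (hosc : ∀ (x : ℂ) (τ h lam : ℝ), sb ≤ τ →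
      ‖x‖ ≤ Real.exp (-(p * sb)) → 0 < h → 0 ≤ lam → Real.log h / 2 - τ ≤ lam →
      (∀ z ∈ ball x (2 * Real.exp (-(p * τ))), |u z| ≤ h) →
      ∀ y, ‖y - x‖ ≤ Real.exp (-(p * τ)) → |u y - VV p u x τ| ≤ 2 * (C0 + 1) * lam + e)
    (hsmall : 4 * (C0 + 1) * q + 2 * e ≤ (C0 + 1) * lN)
    (hrad : 2 * Real.exp (-(p * (τ0 - 3 * l))) ≤ ‖x0‖ / k)
    (hnear : ∀ z ∈ ball x0 (‖x0‖ / k), |u z| ≤ Real.exp (2 * (τ0 + q))) :
    ∀ y, ‖y - x0‖ ≤ Real.exp (-(p * (τ0 - 3 * l))) → |u y - u x0| ≤ 13 * (C0 + 1) * l := by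
  intro y hy
  have hC0 := hD.hC0
  have h1 := hosc x0 (τ0 - 3 * l) (Real.exp (2 * (τ0 + q))) (3 * l + q) (by linarith) hx0
    (Real.exp_pos _) (by linarith) (by rw [Real.log_exp]; linarith)
    (fun z hz => hnear z (ball_subset_ball hrad hz))
  have h2 := h1 y hy
  have h3 := h1 x0 (by rw [sub_self, norm_zero]; exact (Real.exp_pos _).le)
  have h4 : (C0 + 1) * lN ≤ (C0 + 1) * l := mul_le_mul_of_nonneg_left hl1 (by linarith)
  rw [abs_le] at *
  constructor <;> linarith [h2.1, h2.2, h3.1, h3.2]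

/-- the algebra at the quiet scale -/
theorem quiet_alg {a t : ℝ} (h1 : |a ^ 2 - 2 * t| ≤ 1 / 50) (h2 : 0.9 ≤ a)
    (h3 : 0.99 * a ≤ t) : 1.95 ≤ a ∧ 1.93 ≤ t := by
  have h4 := (abs_le.1 h1).1
  have h5 : 1.95 ≤ a := by
    by_contra hc
    push Not at hc
    nlinarith
  exact ⟨h5, by linarith⟩

theorem T1_core (hD : Dom Ω R ρ k C0) {δ : ℝ} (hδ : 0 < δ) : ∃ P0 : ℝ, ∀ p ≥ P0,
    ∀ u : ℂ → ℝ, Good Ω k C0 p u → ∀ x0 : ℂ, 0 < u x0 →
      (∀ z, ‖z‖ ^ 2 * |u z| ^ p ≤ ‖x0‖ ^ 2 * |u x0| ^ p) →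
      ‖x0‖ ^ 2 * |u x0| ^ p ≤ Real.exp (δ * p) := by
  have hC0 := hD.hC0
  have hR := hD.hR
  have hk := hD.hk
  have hk' : (11 : ℝ) ≤ k := by exact_mod_cast hk
  set C1 := C0 + 1 with hC1d
  have hC1 : 1 ≤ C1 := by linarith
  set K := 13 * C1 with hKd
  have hK : 0 < K := by positivity
  set l0 := min (δ / 12) (1 / (100 * K)) with hl0d
  have hl0 : 0 < l0 := by rw [hl0d]; positivity
  have hl0a : l0 ≤ δ / 12 := min_le_left _ _
  have hl0b : K * l0 ≤ 1 / 100 := by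
    have : l0 ≤ 1 / (100 * K) := min_le_right _ _
    calc K * l0 ≤ K * (1 / (100 * K)) := mul_le_mul_of_nonneg_left this hK.le
      _ = 1 / 100 := by field_simp
  obtain ⟨N, hN⟩ := exists_nat_ge (100 * K * C1)
  have hN0 : 0 < N := by
    rcases Nat.eq_zero_or_pos N with h | h
    · subst h
      have : 0 < 100 * K * C1 := by positivity
      simp at hN; linarith
    · exact h
  set lN := l0 / 4 ^ N with hlNd
  have hlN : 0 < lN := by positivity
  -- the parameters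
  obtain ⟨P1, hP1⟩ := mu_add_le hD one_pos
  obtain ⟨sb, hsb, P2, hP2⟩ := outer_small hD (by norm_num : (0 : ℝ) < 1 / 2)
  obtain ⟨P3, hP30, hP3⟩ := small_inv (Real.log R) (by positivity : 0 < δ / 8)
  obtain ⟨P4, hP41, hP4⟩ := exp_small (by positivity : 0 < δ / 4)
    (by positivity : (0 : ℝ) < 1 / (2 * k))
  obtain ⟨P5, hP5⟩ := osc_ball hD hsb (by positivity : 0 < C1 * lN / 4)
  obtain ⟨P6, hP60, hP6⟩ := small_inv (1 / 5) (by positivity : 0 < lN / 40)
  obtain ⟨P7, hP7⟩ := window_scaled hD (by positivity : 0 < lN / 4) hlN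
    (by norm_num : (0 : ℝ) < 1 / 100)
  obtain ⟨P8, hP8⟩ := barrier_scaled hD (by positivity : 0 < lN / 40)
  obtain ⟨P9, hP91, hP9⟩ := exp_small (by positivity : 0 < 2 * (lN / 40))
    (by positivity : 0 < lN / 10)
  obtain ⟨P10, hP10⟩ := mu_le_te hD (by norm_num : (0 : ℝ) < 1 / 100)
  obtain ⟨P11, hP11⟩ := balance hD (by norm_num : (0 : ℝ) < 1)
  obtain ⟨P12, hP121, hP12⟩ := deep hD hsb
  refine ⟨max (max (max P1 P2) (max P3 P4)) (max (max (max P5 P6) (max P7 P8))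
    (max (max P9 P10) (max P11 P12))), fun p hp u hu x0 hux hmax => ?_⟩
  have hqa := le_trans (le_max_left _ _) hp
  have hqb := le_trans (le_max_right _ _) hp
  have hqc := le_trans (le_max_left _ _) hqb
  have hqd := le_trans (le_max_right _ _) hqb
  have hp1 := le_trans (le_trans (le_max_left _ _) (le_max_left _ _)) hqa
  have hp2 := le_trans (le_trans (le_max_right _ _) (le_max_left _ _)) hqa
  have hp3 := le_trans (le_trans (le_max_left _ _) (le_max_right _ _)) hqa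
  have hp4 := le_trans (le_trans (le_max_right _ _) (le_max_right _ _)) hqa
  have hp5 := le_trans (le_trans (le_max_left _ _) (le_max_left _ _)) hqc
  have hp6 := le_trans (le_trans (le_max_right _ _) (le_max_left _ _)) hqc
  have hp7 := le_trans (le_trans (le_max_left _ _) (le_max_right _ _)) hqc
  have hp8 := le_trans (le_trans (le_max_right _ _) (le_max_right _ _)) hqc
  have hp9 := le_trans (le_trans (le_max_left _ _) (le_max_left _ _)) hqd
  have hp10 := le_trans (le_trans (le_max_right _ _) (le_max_left _ _)) hqd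
  have hp11 := le_trans (le_trans (le_max_left _ _) (le_max_right _ _)) hqd
  have hp12 := le_trans (le_trans (le_max_right _ _) (le_max_right _ _)) hqd
  have hp0 : 0 < p := by linarith
  have hpge1 : 1 < p := hu.hp
  by_contra hcon
  push Not at hcon
  have hx0 : 0 < ‖x0‖ := by
    rcases (norm_nonneg x0).eq_or_lt with h | h
    · rw [← h] at hcon
      have := Real.exp_pos (δ * p)
      simp at hcon; linarith
    · exact h
  set h := u x0 with hh
  set τ0 := Real.log h / 2 with hτ0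
  have hexp2 : Real.exp (2 * τ0) = h := by
    rw [hτ0, show 2 * (Real.log h / 2) = Real.log h by ring, Real.exp_log hux]
  -- `τ0 - s1 > δ/2`
  set s1 := -(Real.log ‖x0‖ / p) with hs1
  have hps1 : p * s1 = -Real.log ‖x0‖ := by rw [hs1]; field_simp
  have hnx0 : ‖x0‖ = Real.exp (-(p * s1)) := by rw [hps1, neg_neg, Real.exp_log hx0]
  have hgap : s1 + δ / 2 < τ0 := by
    have h1 : Real.exp (δ * p) < Real.exp (-(2 * (p * s1)) + 2 * τ0 * p) := by
      refine lt_of_lt_of_eq hcon ?_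
      rw [abs_of_pos hux, hnx0, Real.exp_add, Real.exp_mul (2 * τ0) p, hexp2, ← Real.exp_nat_mul]
      congr 2
      push_cast; ring
    have h2 := Real.exp_lt_exp.1 h1
    have h3 : p * (s1 + δ / 2) < p * τ0 := by linarith
    exact lt_of_mul_lt_mul_left h3 hp0.le
  have hxΩ : x0 ∈ Ω := by
    by_contra hc
    have := hu.sol.zero x0 hc
    linarith
  have hxR : ‖x0‖ < R := by
    have := hD.sub hxΩ
    rwa [mem_ball, dist_zero_right] at this
  have hs1R : -(δ / 8) ≤ s1 := by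
    have h1 := hP3 p hp3
    have h2 : Real.log ‖x0‖ ≤ Real.log R := Real.log_le_log hx0 hxR.le
    have h3 : Real.log ‖x0‖ / p ≤ Real.log R / p := div_le_div_of_nonneg_right h2 hp0.le
    linarith
  have hτ0pos : 0 < τ0 := by linarith
  have hh1 : 1 < h := by
    rw [← hexp2]; exact Real.one_lt_exp_iff.2 (by linarith)
  have hx0sb : ‖x0‖ < Real.exp (-(p * sb)) := by
    by_contra hc
    push Not at hc
    have := hP2 p hp2 u hu x0 hc
    rw [← hh, abs_of_pos hux] at this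
    linarith
  have hs1sb : sb < s1 := by
    rw [hnx0] at hx0sb
    have := Real.exp_lt_exp.1 hx0sb
    have h2 : p * sb < p * s1 := by linarith
    exact lt_of_mul_lt_mul_left h2 hp0.le
  -- small quantities
  set q := 1 / (5 * p) with hqd'
  have hq0 : 0 < q := by positivity
  have hq : q ≤ lN / 40 := by
    have := hP6 p hp6
    have e : (1 : ℝ) / 5 / p = q := by rw [hqd', div_div]
    rwa [e] at this
  have hnear : ∀ z ∈ ball x0 (‖x0‖ / k), |u z| ≤ Real.exp (2 * (τ0 + q)) :=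
    near_max hp0 hk' hux hx0 hmax
  have hrad : ∀ s, s1 + δ / 4 ≤ s → 2 * Real.exp (-(p * s)) ≤ ‖x0‖ / k := by
    intro s hs
    have h1 : Real.exp (-(p * s)) ≤ ‖x0‖ * Real.exp (-(δ / 4 * p)) := by
      rw [hnx0, ← Real.exp_add]
      apply Real.exp_le_exp.2
      nlinarith
    have h2 := hP4 p hp4
    have h3 : ‖x0‖ * Real.exp (-(δ / 4 * p)) ≤ ‖x0‖ * (1 / (2 * k)) :=
      mul_le_mul_of_nonneg_left h2 hx0.le
    calc 2 * Real.exp (-(p * s)) ≤ 2 * (‖x0‖ * (1 / (2 * k))) := by linarith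
      _ = ‖x0‖ / k := by field_simp
  have hclus : ∀ l, lN ≤ l → l ≤ l0 → ∀ y, ‖y - x0‖ ≤ Real.exp (-(p * (τ0 - 3 * l))) →
      |u y - h| ≤ K * l := by
    intro l h1 h2
    apply cluster hD hq0.le hlN h1 (by linarith : 3 * l ≤ δ / 4) (by linarith) hx0sb.le
      (hP5 p hp5 u hu)
    · have := mul_le_mul_of_nonneg_left hq (by linarith : 0 ≤ 4 * C1)
      nlinarith
    · exact hrad _ (by linarith)
    · exact hnear
  -- the quiet scale
  have haP1 : ∀ s, aP p u x0 s ≤ C1 := by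
    intro s
    have a1 := aP_le_mu hD hp0 hu.sol x0 s
    have a2 := hP1 p hp1 u hu
    have a3 := mu_nonneg (p := p) (u := fun z => -u z) hp0.le
    linarith
  obtain ⟨j, hjN, hj⟩ := pigeon hK hN0 hN (aP p u x0) (aP_anti hD hp0 hu.sol x0)
    (aP_nonneg hp0.le x0) haP1 τ0 l0 hl0
  set l := l0 / 4 ^ j with hl
  have hlpos : 0 < l := by positivity
  have hll0 : l ≤ l0 := div_le_self hl0.le (one_le_pow₀ (by norm_num))
  have hlNl : lN ≤ l := by
    rw [hlNd, hl]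
    apply div_le_div_of_nonneg_left hl0.le (by positivity)
    exact pow_le_pow_right₀ (by norm_num) hjN.le
  have hcl := hclus l hlNl hll0
  have hKl : K * l ≤ 1 / 100 := (mul_le_mul_of_nonneg_left hll0 hK.le).trans hl0b
  have hsbτ : sb ≤ τ0 - 3 * l := by linarith
  have hposball : ∀ s, τ0 - 3 * l ≤ s → ∀ z ∈ ball x0 (Real.exp (-(p * s))), h - K * l ≤ u z := by
    intro s hs z hz
    rw [mem_ball, dist_eq_norm] at hz
    have h1 := hcl z (hz.le.trans (Real.exp_le_exp.2 (by nlinarith)))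
    linarith [(abs_le.1 h1).1]
  have hzero : ∀ s, τ0 - 3 * l ≤ s → aM p u x0 s = 0 ∧ tM p u x0 s = 0 := by
    intro s hs
    exact aM_zero hp0 (fun z hz => by linarith [hposball s hs z hz])
  obtain ⟨d1, d2, d3⟩ := hP12 p hp12
  have hxn : ‖x0‖ ≤ ρ := by
    have := Real.exp_pos (-(p * sb)); linarith
  have hball := ball_in hD hxn
  obtain ⟨σ, hσ, hwin⟩ := hP7 p hp7 u hu x0 (Real.log ρ) (τ0 - 2 * l) (τ0 - l) (2 * (K * l)) hball
    (d3 _ (by linarith)) (by linarith) (by positivity) (by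
      intro σ hσ θ
      have h1 := VV_near hp0.le hu.sol.cont hcl (σ := σ) (by linarith [hσ.1])
      have h2 := h1.1 θ
      have h3 := h1.2
      rw [abs_le] at *
      constructor <;> linarith [h2.1, h2.2, h3.1, h3.2])
  have hz1 := hzero (τ0 - 2 * l - lN / 4) (by linarith)
  have hz2 := hzero (τ0 - l + lN / 4) (by linarith)
  have hz3 := hzero σ (by linarith [hσ.1])
  rw [hz1.1, hz2.1, hz3.1, hz3.2] at hwin
  simp only [add_zero, sub_zero] at hwin
  have hA1 : aP p u x0 (τ0 - 2 * l - lN / 4) ≤ aP p u x0 (τ0 - 9 * l / 4) :=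
    aP_anti hD hp0 hu.sol x0 (by linarith)
  have hA2 : aP p u x0 (τ0 - 3 * l / 4) ≤ aP p u x0 (τ0 - l + lN / 4) :=
    aP_anti hD hp0 hu.sol x0 (by linarith)
  have hquiet : |aP p u x0 σ ^ 2 - 2 * tP p u x0 σ| ≤ 1 / 50 := by
    refine hwin.trans ?_
    have e1 : 2 * (τ0 - l - (τ0 - 2 * l)) = 2 * l := by ring
    rw [e1]
    have e2 : 2 * (K * l) * (aP p u x0 (τ0 - 2 * l - lN / 4) - aP p u x0 (τ0 - l + lN / 4)) /
        (2 * l) = K * (aP p u x0 (τ0 - 2 * l - lN / 4) - aP p u x0 (τ0 - l + lN / 4)) := by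
      field_simp
    rw [e2]
    have e3 : K * (aP p u x0 (τ0 - 2 * l - lN / 4) - aP p u x0 (τ0 - l + lN / 4)) ≤
        K * (aP p u x0 (τ0 - 9 * l / 4) - aP p u x0 (τ0 - 3 * l / 4)) :=
      mul_le_mul_of_nonneg_left (by linarith) hK.le
    linarith
  -- the mass is not small
  have hσ1 := hσ.1
  have hσ2 := hσ.2
  have hlow : 0.9 ≤ aP p u x0 σ := by
    have hsup : ∀ z ∈ ball x0 (Real.exp (-(p * σ))), u z ≤ Real.exp (2 * (τ0 + q)) := by
      intro z hz
      apply (le_abs_self _).trans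
      apply hnear z
      refine ball_subset_ball ?_ hz
      have := hrad σ (by linarith)
      have := Real.exp_pos (-(p * σ))
      linarith
    have c1 := centre_le hD hp0 hu.sol hball (d3 σ (by linarith)) (Real.exp_pos _) hsup
    have c2 := tail_int hD hp0 hu.sol (c := x0) (s := σ) (η := lN / 40) (Real.exp_pos _)
      (by positivity) hsup
    rw [Real.log_exp, show 2 * (τ0 + q) / 2 - σ = τ0 + q - σ by ring,
      max_eq_left (by linarith)] at c2
    have c3 := (abs_le.1 (hP8 p hp8 u hu x0 (Real.log ρ) σ hball (d3 σ (by linarith)))).2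
    have c4 := hP9 p hp9
    have c5 : Real.exp (2 * σ) + 2 * (τ0 - σ) ≤ h := by
      have e1 : Real.exp (2 * τ0) = Real.exp (2 * σ) * Real.exp (2 * (τ0 - σ)) := by
        rw [← Real.exp_add]; ring_nf
      have e2 := Real.add_one_le_exp (2 * (τ0 - σ))
      have e3 : 1 ≤ Real.exp (2 * σ) := Real.one_le_exp (by linarith)
      rw [← hexp2, e1]
      nlinarith
    by_contra hc
    push Not at hc
    have c6 : aP p u x0 σ * (τ0 + q - σ + lN / 40) ≤ 0.9 * (τ0 + q - σ + lN / 40) :=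
      mul_le_mul_of_nonneg_right hc.le (by linarith)
    linarith
  have htP : 0.99 * aP p u x0 σ ≤ tP p u x0 σ := by
    have h1 := tP_ge hD hp0 hu.sol (c := x0) (s := σ) (by linarith : 0 < h - K * l)
      (hposball σ (by linarith))
    have h2 : 0.99 * aP p u x0 σ ≤ (h - K * l) * aP p u x0 σ :=
      mul_le_mul_of_nonneg_right (by linarith) (by linarith)
    linarith
  obtain ⟨ha, ht⟩ := quiet_alg hquiet hlow htP
  refine heavy hD hu (hP11 p hp11 u hu) (hP10 p hp10 _ hu.neg') ?_ ha ht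
  have := hrad σ (by linarith)
  have := Real.exp_pos (-(p * σ))
  linarith

theorem T1 (hD : Dom Ω R ρ k C0) {δ : ℝ} (hδ : 0 < δ) : ∃ P0 : ℝ, ∀ p ≥ P0, ∀ u : ℂ → ℝ,
    Good Ω k C0 p u → ∀ x : ℂ, ‖x‖ ^ 2 * |u x| ^ p ≤ Real.exp (δ * p) := by
  obtain ⟨P0, hP0⟩ := T1_core hD hδ
  refine ⟨P0, fun p hp u hu x => ?_⟩
  have hp0 : 0 < p := by linarith [hu.hp]
  have hR := hD.hR
  have hcont : Continuous (fun z : ℂ => ‖z‖ ^ 2 * |u z| ^ p) := by
    apply Continuous.mul (by fun_prop)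
    exact (hu.sol.cont.abs).rpow_const (fun _ => Or.inr hp0.le)
  obtain ⟨x0, hx0, hm⟩ := (isCompact_closedBall (0 : ℂ) R).exists_isMaxOn
    (nonempty_closedBall.2 (by linarith)) hcont.continuousOn
  have hmax : ∀ z, ‖z‖ ^ 2 * |u z| ^ p ≤ ‖x0‖ ^ 2 * |u x0| ^ p := by
    intro z
    by_cases hz : z ∈ closedBall (0 : ℂ) R
    · exact hm hz
    · have h0 : u z = 0 := hu.sol.zero z (fun h' => hz (ball_subset_closedBall (hD.sub h')))
      rw [h0, abs_zero, Real.zero_rpow hp0.ne', mul_zero]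
      have := Real.rpow_nonneg (abs_nonneg (u x0)) p
      positivity
  refine (hmax x).trans ?_
  rcases lt_trichotomy 0 (u x0) with h | h | h
  · exact hP0 p hp u hu x0 h hmax
  · rw [← h, abs_zero, Real.zero_rpow hp0.ne', mul_zero]
    exact (Real.exp_pos _).le
  · have := hP0 p hp _ hu.neg' x0 (by linarith) (by simpa only [abs_neg] using hmax)
    simpa only [abs_neg] using this

theorem OSC (hD : Dom Ω R ρ k C0) {s0 ε : ℝ} (hs0 : 0 < s0) (hε : 0 < ε) : ∃ P0 : ℝ, ∀ p ≥ P0,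
    ∀ u : ℂ → ℝ, Good Ω k C0 p u → ∀ (x : ℂ) (s : ℝ), s0 ≤ s → ‖x‖ = Real.exp (-(p * s)) →
      |u x - VV p u 0 s| ≤ ε := by
  have hC0 := hD.hC0
  have hδ : 0 < ε / (4 * (C0 + 1)) := by positivity
  obtain ⟨P1, hP1⟩ := mu_add_le hD one_pos
  obtain ⟨P2, hP2⟩ := two_scaled hD hs0 (by positivity : 0 < ε / 4)
  obtain ⟨P3, hP31, hP3⟩ := deep hD hs0
  obtain ⟨P4, hP4⟩ := osc_ball hD hs0 (by positivity : 0 < ε / 4)
  obtain ⟨P5, hP5⟩ := T1 hD hδ
  obtain ⟨P6, hP60, hP6⟩ := small_inv (2 * (C0 + 1) * Real.log 4) (by positivity : 0 < ε / 4)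
  refine ⟨max (max (max P1 P2) (max P3 P4)) (max P5 P6), fun p hp u hu x s hs hx => ?_⟩
  have hq := le_trans (le_max_left _ _) hp
  have hp1 := le_trans (le_trans (le_max_left _ _) (le_max_left _ _)) hq
  have hp2 := le_trans (le_trans (le_max_right _ _) (le_max_left _ _)) hq
  have hp3 := le_trans (le_trans (le_max_left _ _) (le_max_right _ _)) hq
  have hp4 := le_trans (le_trans (le_max_right _ _) (le_max_right _ _)) hq
  have hp5 := le_trans (le_trans (le_max_left _ _) (le_max_right _ _)) hp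
  have hp6 := le_trans (le_trans (le_max_right _ _) (le_max_right _ _)) hp
  have hp0 : 0 < p := by linarith
  obtain ⟨d1, d2, d3⟩ := hP3 p hp3
  set δ := ε / (4 * (C0 + 1)) with hδd
  have hexp : Real.exp (-(p * s)) ≤ Real.exp (-(p * s0)) := Real.exp_le_exp.2 (by nlinarith)
  have hlog2 : 0 < Real.log 2 := Real.log_pos (by norm_num)
  have hlog4 : Real.log 4 = 2 * Real.log 2 := by
    rw [show (4 : ℝ) = 2 ^ 2 by norm_num, Real.log_pow]; push_cast; ring
  set τ := s + Real.log 4 / p with hτ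
  have hτs : s ≤ τ := by
    have : 0 ≤ Real.log 4 / p := by rw [hlog4]; positivity
    linarith
  have hpτ : p * τ = p * s + Real.log 4 := by rw [hτ]; field_simp
  have hexpτ : Real.exp (-(p * τ)) = Real.exp (-(p * s)) / 4 := by
    rw [hpτ, neg_add, Real.exp_add, Real.exp_neg (Real.log 4), Real.exp_log (by norm_num)]; ring
  have hxpos : 0 < ‖x‖ := by rw [hx]; exact Real.exp_pos _
  -- the local sup bound
  have hsup : ∀ z ∈ ball x (2 * Real.exp (-(p * τ))),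
      |u z| ≤ Real.exp (2 * s + δ + 2 * Real.log 2 / p) := by
    intro z hz
    rw [mem_ball, dist_eq_norm, hexpτ] at hz
    have hzn : ‖x‖ / 2 ≤ ‖z‖ := by
      have : ‖x‖ ≤ ‖x - z‖ + ‖z‖ := by
        have := norm_add_le (x - z) z
        rwa [sub_add_cancel] at this
      rw [norm_sub_rev] at this
      linarith
    have h1 := hP5 p hp5 u hu z
    have h2 : (‖x‖ / 2) ^ 2 ≤ ‖z‖ ^ 2 := by gcongr
    have h3 : 0 ≤ |u z| ^ p := Real.rpow_nonneg (abs_nonneg _) _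
    have h4 : |u z| ^ p ≤ Real.exp (δ * p) * 4 * Real.exp (2 * (p * s)) := by
      have e1 : Real.exp (-(p * s)) ^ 2 * Real.exp (2 * (p * s)) = 1 := by
        rw [← Real.exp_nat_mul, ← Real.exp_add]; push_cast; ring_nf; simp
      have h5 : (‖x‖ / 2) ^ 2 * |u z| ^ p ≤ Real.exp (δ * p) :=
        (mul_le_mul_of_nonneg_right h2 h3).trans h1
      rw [hx] at h5
      have h6 : (0 : ℝ) < Real.exp (2 * (p * s)) := Real.exp_pos _
      have h7 := mul_le_mul_of_nonneg_right h5 (by positivity : 0 ≤ 4 * Real.exp (2 * (p * s)))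
      calc |u z| ^ p = (Real.exp (-(p * s)) ^ 2 * Real.exp (2 * (p * s))) * |u z| ^ p := by
            rw [e1, one_mul]
        _ = (Real.exp (-(p * s)) / 2) ^ 2 * |u z| ^ p * (4 * Real.exp (2 * (p * s))) := by ring
        _ ≤ _ := by rw [mul_assoc (Real.exp (δ * p))]; exact h7
    have h5 : Real.exp (2 * s + δ + 2 * Real.log 2 / p) ^ p =
        Real.exp (δ * p) * 4 * Real.exp (2 * (p * s)) := by
      rw [← Real.exp_mul]
      have : (2 * s + δ + 2 * Real.log 2 / p) * p = δ * p + Real.log 4 + 2 * (p * s) := by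
        rw [hlog4]; field_simp; ring
      rw [this, Real.exp_add, Real.exp_add, Real.exp_log (by norm_num)]
    rw [← h5] at h4
    exact (Real.rpow_le_rpow_iff (abs_nonneg _) (Real.exp_pos _).le hp0).1 h4
  have hosc := hP4 p hp4 u hu x τ (Real.exp (2 * s + δ + 2 * Real.log 2 / p)) (δ / 2)
    (hs.trans hτs) (by rw [hx]; exact hexp) (Real.exp_pos _) (by positivity)
    (by
      rw [Real.log_exp, hτ, hlog4]
      have : 0 ≤ Real.log 2 / p := by positivity
      have e : 2 * Real.log 2 / p = 2 * (Real.log 2 / p) := by ring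
      rw [e]; linarith) hsup x (by rw [sub_self, norm_zero]; exact (Real.exp_pos _).le)
  have e1 : 2 * (C0 + 1) * (δ / 2) = ε / 4 := by rw [hδd]; field_simp
  rw [e1] at hosc
  -- slope
  have hxn : ‖x‖ ≤ Real.exp (-(p * (s0 / 2))) := by
    rw [hx]; have := Real.exp_pos (-(p * s0)); linarith
  have hbound : ∀ v : ℂ → ℝ, Good Ω k C0 p v → ∀ σ, aP p v x σ ≤ C0 + 1 := by
    intro v hv σ
    have a1 := aP_le_mu hD hp0 hv.sol x σ
    have a2 := hP1 p hp1 v hv
    have a3 := mu_nonneg (p := p) (u := fun z => -v z) hp0.le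
    linarith
  have hsl := VV_slope hD hp0 hu.sol (ball_in hD (hxn.trans d2)) (d3 s hs) hτs
  have hb1 := hbound u hu s
  have hb2 := hbound _ hu.neg' s
  have hn1 := aP_nonneg (u := u) hp0.le x τ
  have hn2 := aP_nonneg (u := fun z => -u z) hp0.le x τ
  have hdτ : τ - s = Real.log 4 / p := by rw [hτ]; ring
  have hlp : 0 ≤ Real.log 4 / p := by linarith
  have h6 := hP6 p hp6
  have h6' : 2 * (C0 + 1) * (Real.log 4 / p) ≤ ε / 4 := by rw [← mul_div_assoc]; exact h6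
  rw [hdτ] at hsl
  have hs1 : |VV p u x τ - VV p u x s| ≤ ε / 4 := by
    rw [abs_le]
    unfold aM at hsl
    constructor
    · have : -(C0 + 1) ≤ aP p u x τ - aP p (fun z => -u z) x s := by linarith
      have := mul_le_mul_of_nonneg_right (mul_le_mul_of_nonneg_left this (by norm_num : (0:ℝ) ≤ 2))
        hlp
      linarith [hsl.1]
    · have : aP p u x s - aP p (fun z => -u z) x τ ≤ C0 + 1 := by linarith
      have := mul_le_mul_of_nonneg_right (mul_le_mul_of_nonneg_left this (by norm_num : (0:ℝ) ≤ 2))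
        hlp
      linarith [hsl.2]
  have hs2 := hP2 p hp2 u hu x 0 s hs (by rw [hx]; exact hexp)
    (by rw [norm_zero]; exact (Real.exp_pos _).le) (by rw [sub_zero, hx])
  rw [abs_le] at *
  constructor <;> linarith [hosc.1, hosc.2, hs1.1, hs1.2, hs2.1, hs2.2]

end Pool.Agent.LE87
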