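import Pool.Agent.LE87.P2D

set_option autoImplicit false

open Complex MeasureTheory Set Filter Topology Metric
open scoped Real

namespace Pool.Agent.LE87

variable {Ω : Set ℂ} {R ρ : ℝ} {k : ℕ} {C0 p : ℝ} {u : ℂ → ℝ}

/-- `A p² exp(-b p) → 0` -/
theorem small_exp2 {b : ℝ} (hb : 0 < b) (A : ℝ) {ε : ℝ} (hε : 0 < ε) :
    ∃ P0 : ℝ, ∀ p ≥ P0, A * p ^ 2 * Real.exp (-(b * p)) ≤ ε := by
  have h1 := Real.tendsto_pow_mul_exp_neg_atTop_nhds_zero 2
  have h2 : Tendsto (fun p : ℝ => b * p) atTop atTop := tendsto_id.const_mul_atTop hb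
  have h3 := (h1.comp h2).const_mul (A / b ^ 2)
  simp only [mul_zero, Function.comp_def] at h3
  have h4 := (h3.eventually (ge_mem_nhds hε))
  obtain ⟨P0, hP⟩ := eventually_atTop.1 h4
  refine ⟨P0, fun p hp => ?_⟩
  have := hP p hp
  have e : A / b ^ 2 * ((b * p) ^ 2 * Real.exp (-(b * p))) = A * p ^ 2 * Real.exp (-(b * p)) := by
    field_simp
  rw [e] at this
  exact this

/-- comparison of two densities on an annulus -/
theorem ann_le {g1 g2 : ℂ → ℝ} (h1 : Integrable g1) (h2 : Integrable g2) {c : ℂ} {t t' K : ℝ}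
    (ht : t' ≤ t)
    (h : ∀ z, Real.exp t' ≤ ‖z - c‖ → ‖z - c‖ < Real.exp t → g1 z ≤ K * g2 z) :
    mass g1 c t - mass g1 c t' ≤ K * (mass g2 c t - mass g2 c t') := by
  have hsub : ball c (Real.exp t') ⊆ ball c (Real.exp t) :=
    ball_subset_ball (Real.exp_le_exp.2 ht)
  have key : ∀ g : ℂ → ℝ, Integrable g →
      mass g c t - mass g c t' = (2 * π)⁻¹ * ∫ z in ball c (Real.exp t) \ ball c (Real.exp t'), g z := by
    intro g hg
    have := setIntegral_sdiff measurableSet_ball (hg.integrableOn (s := ball c (Real.exp t))) hsub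
    rw [this]
    unfold mass
    ring
  rw [key g1 h1, key g2 h2]
  have h3 : ∫ z in ball c (Real.exp t) \ ball c (Real.exp t'), g1 z
      ≤ ∫ z in ball c (Real.exp t) \ ball c (Real.exp t'), K * g2 z := by
    apply setIntegral_mono_on h1.integrableOn (h2.const_mul K).integrableOn
      (measurableSet_ball.diff measurableSet_ball)
    intro z hz
    apply h z
    · have := hz.2
      rw [mem_ball, dist_eq_norm] at this
      exact not_lt.1 this
    · have := hz.1
      rwa [mem_ball, dist_eq_norm] at this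
  rw [integral_const_mul] at h3
  calc (2 * π)⁻¹ * ∫ z in ball c (Real.exp t) \ ball c (Real.exp t'), g1 z
      ≤ (2 * π)⁻¹ * (K * ∫ z in ball c (Real.exp t) \ ball c (Real.exp t'), g2 z) :=
        mul_le_mul_of_nonneg_left h3 (by positivity)
    _ = K * ((2 * π)⁻¹ * ∫ z in ball c (Real.exp t) \ ball c (Real.exp t'), g2 z) := by ring

theorem pp_succ (q : ℝ) (hq : 0 < q) (z : ℂ) : pp (q + 1) u z = pp q u z * max (u z) 0 := by
  unfold pp
  rcases eq_or_lt_of_le (le_max_right (u z) 0) with h | h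
  · rw [← h, Real.zero_rpow (by linarith), Real.zero_rpow hq.ne', mul_zero]
  · rw [Real.rpow_add_one h.ne']

/-- energies on an annulus: lower and upper bounds -/
theorem tP_sub_le (hD : Dom Ω R ρ k C0) (hp : 0 < p) (hu : Sol Ω p u) {c : ℂ} {s s' K : ℝ}
    (hs : s ≤ s')
    (h : ∀ σ ∈ Icc s s', ∀ θ : ℝ, max (u (pt c (-(p * σ)) θ)) 0 ≤ K) :
    tP p u c s - tP p u c s' ≤ K * (aP p u c s - aP p u c s') := by
  have h1 := ann_le (g1 := pp (p + 1) u) (g2 := pp p u) (pp_integrable (by linarith) hD hu)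
    (pp_integrable hp hD hu) (c := c) (t := -(p * s)) (t' := -(p * s')) (K := K)
    (by nlinarith) (fun z hz1 hz2 => ?_)
  · unfold tP aP
    have := mul_le_mul_of_nonneg_left h1 (by linarith : 0 ≤ p / 2)
    linarith
  · rw [pp_succ p hp z, mul_comm]
    apply mul_le_mul_of_nonneg_right _ (pp_nonneg _ _)
    have hpos : 0 < ‖z - c‖ := lt_of_lt_of_le (Real.exp_pos _) hz1
    obtain ⟨θ, hθ⟩ : ∃ θ : ℝ, z = pt c (Real.log ‖z - c‖) θ := by
      refine ⟨Complex.arg (z - c), ?_⟩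
      rw [pt_eq, ew_eq, Real.exp_log hpos]
      have := Complex.norm_mul_exp_arg_mul_I (z - c)
      rw [this]; ring
    have hσ : -(p * (-(Real.log ‖z - c‖) / p)) = Real.log ‖z - c‖ := by field_simp
    have h2 := h (-(Real.log ‖z - c‖) / p) ⟨?_, ?_⟩ θ
    · rwa [hσ, ← hθ] at h2
    · rw [le_div_iff₀ hp]
      have := (Real.log_lt_iff_lt_exp hpos).2 hz2
      linarith
    · rw [div_le_iff₀ hp]
      have := (Real.le_log_iff_exp_le hpos).2 hz1
      linarith

theorem le_tP_sub (hD : Dom Ω R ρ k C0) (hp : 0 < p) (hu : Sol Ω p u) {c : ℂ} {s s' K : ℝ}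
    (hs : s ≤ s') (hK : 0 < K)
    (h : ∀ σ ∈ Icc s s', ∀ θ : ℝ, K ≤ max (u (pt c (-(p * σ)) θ)) 0) :
    K * (aP p u c s - aP p u c s') ≤ tP p u c s - tP p u c s' := by
  have h1 := ann_le (g1 := pp p u) (g2 := pp (p + 1) u) (pp_integrable hp hD hu)
    (pp_integrable (by linarith) hD hu) (c := c) (t := -(p * s)) (t' := -(p * s')) (K := K⁻¹)
    (by nlinarith) (fun z hz1 hz2 => ?_)
  · unfold tP aP
    have h2 := mul_le_mul_of_nonneg_left h1 (by linarith : 0 ≤ p / 2)
    have h3 := mul_le_mul_of_nonneg_left h2 hK.le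
    have h4 : K * (p / 2 * (K⁻¹ * (mass (pp (p + 1) u) c (-(p * s)) - mass (pp (p + 1) u) c (-(p * s')))))
        = p / 2 * (mass (pp (p + 1) u) c (-(p * s)) - mass (pp (p + 1) u) c (-(p * s'))) := by
      field_simp
    rw [h4] at h3
    linarith
  · rw [pp_succ p hp z]
    have hpos : 0 < ‖z - c‖ := lt_of_lt_of_le (Real.exp_pos _) hz1
    obtain ⟨θ, hθ⟩ : ∃ θ : ℝ, z = pt c (Real.log ‖z - c‖) θ := by
      refine ⟨Complex.arg (z - c), ?_⟩
      rw [pt_eq, ew_eq, Real.exp_log hpos]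
      have := Complex.norm_mul_exp_arg_mul_I (z - c)
      rw [this]; ring
    have hσ : -(p * (-(Real.log ‖z - c‖) / p)) = Real.log ‖z - c‖ := by field_simp
    have h2 := h (-(Real.log ‖z - c‖) / p) ⟨?_, ?_⟩ θ
    · rw [hσ, ← hθ] at h2
      have h3 := mul_le_mul_of_nonneg_left h2 (pp_nonneg (u := u) p z)
      have h4 := mul_le_mul_of_nonneg_left h3 (inv_pos.2 hK).le
      have h5 : K⁻¹ * (pp p u z * K) = pp p u z := by field_simp
      rw [h5] at h4
      exact h4
    · rw [le_div_iff₀ hp]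
      have := (Real.log_lt_iff_lt_exp hpos).2 hz2
      linarith
    · rw [div_le_iff₀ hp]
      have := (Real.le_log_iff_exp_le hpos).2 hz1
      linarith

/-- global comparison of the energy with the mass -/
theorem tP_sub_le_sup (hD : Dom Ω R ρ k C0) (hp : 0 < p) (hu : Sol Ω p u) {c : ℂ} {s s' M : ℝ}
    (hs : s ≤ s') (hM : ∀ z, |u z| ≤ M) :
    tP p u c s - tP p u c s' ≤ M * (aP p u c s - aP p u c s') :=
  tP_sub_le hD hp hu hs (fun _ _ _ => max_le (le_trans (le_abs_self _) (hM _))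
    (le_trans (abs_nonneg _) (hM 0)))

theorem tP_le_sup (hD : Dom Ω R ρ k C0) (hp : 0 < p) (hu : Sol Ω p u) {c : ℂ} {s M : ℝ}
    (hM : ∀ z, |u z| ≤ M) : tP p u c s ≤ M * aP p u c s := by
  unfold tP aP mass
  have h1 : ∫ z in ball c (Real.exp (-(p * s))), pp (p + 1) u z
      ≤ ∫ z in ball c (Real.exp (-(p * s))), M * pp p u z := by
    apply setIntegral_mono (pp_integrable (by linarith) hD hu).integrableOn
      ((pp_integrable hp hD hu).const_mul M).integrableOn
    intro z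
    simp only
    rw [pp_succ p hp z, mul_comm]
    exact mul_le_mul_of_nonneg_right (max_le (le_trans (le_abs_self _) (hM _))
      (le_trans (abs_nonneg _) (hM 0))) (pp_nonneg _ _)
  rw [integral_const_mul] at h1
  have h2 := mul_le_mul_of_nonneg_left h1 (by positivity : (0 : ℝ) ≤ p / 2 * (2 * π)⁻¹)
  linarith

/-- (i) no mass on an annulus where `u ≤ (1-η) e^{2σ}` -/
theorem dens_annulus (hD : Dom Ω R ρ k C0) {η L ε : ℝ} (hη : 0 < η) (hη1 : η < 1) (hε : 0 < ε) :
    ∃ P0 : ℝ, ∀ p ≥ P0, ∀ u : ℂ → ℝ, Good Ω k C0 p u → ∀ (c : ℂ) (s s' : ℝ), s ≤ s' →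
      s' - s ≤ L →
      (∀ σ ∈ Icc s s', ∀ θ : ℝ, u (pt c (-(p * σ)) θ) ≤ (1 - η) * Real.exp (2 * σ)) →
      aP p u c s ≤ aP p u c s' + ε := by
  have hb : 0 < -Real.log (1 - η) := by
    have := Real.log_neg (by linarith : 0 < 1 - η) (by linarith)
    linarith
  obtain ⟨P0, hP0⟩ := small_exp2 hb (L / 2) hε
  refine ⟨P0, fun p hp u hu c s s' hss hL h => ?_⟩
  have hp1 := hu.hp
  have hp0 : 0 < p := by linarith
  have hc : Continuous (pp p u) := pp_cont hp0.le hu.sol.cont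
  -- derivative of `aP`
  have hd : ∀ σ, HasDerivAt (aP p u c)
      (-(p ^ 2 / 2 * (Real.exp (2 * (-(p * σ))) * avg (pp p u) c (-(p * σ))))) σ := by
    intro σ
    have h1 : HasDerivAt (mass (pp p u) c)
        (Real.exp (2 * (-(p * σ))) * avg (pp p u) c (-(p * σ))) (-(p * σ)) :=
      mass_hasDerivAt (T := -(p * σ) + 1) hc.continuousOn (by linarith)
    have h2 : HasDerivAt (fun σ : ℝ => -(p * σ)) (-(p * 1)) σ :=
      ((hasDerivAt_id' σ).const_mul p).neg
    have h3 := (h1.comp σ h2).const_mul (p / 2)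
    refine h3.congr_deriv ?_
    ring
  have hbound : ∀ σ ∈ Icc s s', -(p ^ 2 / 2 * (Real.exp (2 * (-(p * σ)))
      * avg (pp p u) c (-(p * σ)))) ≥ -(p ^ 2 / 2 * (1 - η) ^ p) := by
    intro σ hσ
    have h1 : avg (pp p u) c (-(p * σ)) ≤ ((1 - η) * Real.exp (2 * σ)) ^ p := by
      have h2 := PB.mn_mono (q := fun θ => pp p u (pt c (-(p * σ)) θ))
        (r := fun _ => ((1 - η) * Real.exp (2 * σ)) ^ p)
        (hc.comp (continuous_pt_right c _)) continuous_const (fun θ _ => ?_)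
      · rw [PB.mn_const] at h2
        exact h2
      · unfold pp
        refine Real.rpow_le_rpow (le_max_right _ _) (max_le (h σ hσ θ) ?_) hp0.le
        have : 0 < 1 - η := by linarith
        positivity
    have h3 : ((1 - η) * Real.exp (2 * σ)) ^ p = (1 - η) ^ p * Real.exp (2 * (p * σ)) := by
      rw [Real.mul_rpow (by linarith) (Real.exp_pos _).le, ← Real.exp_mul]
      ring_nf
    rw [h3] at h1
    have h4 : Real.exp (2 * (-(p * σ))) * avg (pp p u) c (-(p * σ)) ≤ (1 - η) ^ p := by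
      have h5 := mul_le_mul_of_nonneg_left h1 (Real.exp_pos (2 * (-(p * σ)))).le
      have h6 : Real.exp (2 * (-(p * σ))) * ((1 - η) ^ p * Real.exp (2 * (p * σ)))
          = (1 - η) ^ p * Real.exp (2 * (-(p * σ)) + 2 * (p * σ)) := by
        rw [Real.exp_add]; ring
      rw [h6, show 2 * (-(p * σ)) + 2 * (p * σ) = 0 by ring, Real.exp_zero, mul_one] at h5
      exact h5
    have h7 := mul_le_mul_of_nonneg_left h4 (by positivity : (0 : ℝ) ≤ p ^ 2 / 2)
    linarith
  have h8 := PB.sub_le_sub_of_deriv (K := fun σ => -(p ^ 2 / 2 * (1 - η) ^ p) * σ)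
    (L := aP p u c) (K' := fun _ => -(p ^ 2 / 2 * (1 - η) ^ p) * 1)
    (L' := fun σ => -(p ^ 2 / 2 * (Real.exp (2 * (-(p * σ))) * avg (pp p u) c (-(p * σ))))) hss
    (fun x _ => (hasDerivAt_id' x).const_mul _) (fun x _ => hd x)
    (fun x hx => by have := hbound x hx; linarith)
  have h9 : (1 - η) ^ p = Real.exp (-(-Real.log (1 - η) * p)) := by
    rw [Real.rpow_def_of_pos (by linarith)]
    ring_nf
  have h10 := hP0 p hp
  rw [← h9] at h10
  have h11 : p ^ 2 / 2 * (1 - η) ^ p * (s' - s) ≤ p ^ 2 / 2 * (1 - η) ^ p * L := by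
    apply mul_le_mul_of_nonneg_left hL
    have : 0 ≤ (1 - η) ^ p := Real.rpow_nonneg (by linarith) _
    positivity
  nlinarith

/-- (ii) the far tail -/
theorem dens_tail (hD : Dom Ω R ρ k C0) :
    ∃ S0 : ℝ, 0 < S0 ∧ ∀ ε > 0, ∃ P0 : ℝ, ∀ p ≥ P0, ∀ u : ℂ → ℝ, Good Ω k C0 p u →
      ∀ (c : ℂ) (s : ℝ), S0 ≤ s → aP p u c s ≤ ε ∧ tP p u c s ≤ ε ∧
        2 * ∫ σ in Ioi s, aP p u c σ ≤ ε := by
  obtain ⟨M0, P1, hM1, hM⟩ := sup_bound hD
  have hM0 : 0 < M0 := by linarith
  have hlog : 0 ≤ Real.log M0 := Real.log_nonneg hM1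
  refine ⟨Real.log M0 / 2 + 1, by positivity, fun ε hε => ?_⟩
  obtain ⟨P2, hP2⟩ := small_exp (b := 2) (by norm_num) (1 / 4)
    (by positivity : 0 < min ε (ε / M0))
  refine ⟨max (max P1 P2) 1, fun p hp u hu c s hs => ?_⟩
  have hpP1 : P1 ≤ p := le_trans (le_trans (le_max_left _ _) (le_max_left _ _)) hp
  have hpP2 : P2 ≤ p := le_trans (le_trans (le_max_right _ _) (le_max_left _ _)) hp
  have hp1 : 1 ≤ p := le_trans (le_max_right _ _) hp
  have hp0 : 0 < p := by linarith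
  have hMu := hM p hpP1 u hu
  have hsup : ∀ t : ℝ, ∀ z ∈ ball c (Real.exp (-(p * t))), u z ≤ M0 :=
    fun t z _ => le_trans (le_abs_self _) (hMu z)
  have hsmall := hP2 p hpP2
  have hexp : ∀ t, Real.log M0 / 2 + 1 ≤ t →
      p / 4 * M0 ^ p * Real.exp (-(2 * p) * t) ≤ 1 / 4 * p * Real.exp (-(2 * p)) := by
    intro t ht
    have e1 : M0 ^ p = Real.exp (2 * p * (Real.log M0 / 2)) := by
      rw [Real.rpow_def_of_pos hM0]; ring_nf
    rw [e1, mul_assoc, ← Real.exp_add]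
    have h1 : Real.exp (2 * p * (Real.log M0 / 2) + -(2 * p) * t) ≤ Real.exp (-(2 * p)) := by
      apply Real.exp_le_exp.2
      nlinarith
    have := mul_le_mul_of_nonneg_left h1 (by positivity : 0 ≤ p / 4)
    linarith
  have ha : aP p u c s ≤ min ε (ε / M0) :=
    le_trans (aP_density hD hp0 hu.sol hM0 (hsup s) le_rfl) (le_trans (hexp s hs) hsmall)
  have ha0 := aP_nonneg (u := u) hp0.le c s
  refine ⟨le_trans ha (min_le_left _ _), ?_, ?_⟩
  · refine le_trans (tP_le_sup hD hp0 hu.sol hMu) ?_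
    have h1 := mul_le_mul_of_nonneg_left (le_trans ha (min_le_right _ _)) hM0.le
    have h2 : M0 * (ε / M0) = ε := by field_simp
    linarith
  · have h1 : ∫ σ in Ioi s, aP p u c σ ≤
        ∫ σ in Ioi s, p / 4 * M0 ^ p * Real.exp (-(2 * p) * σ) := by
      apply setIntegral_mono_on (aP_intOn hD hp0 hu.sol hM0 (hsup s))
        ((integrableOn_exp_mul_Ioi (by linarith) s).const_mul _) measurableSet_Ioi
      intro σ hσ
      exact aP_density hD hp0 hu.sol hM0 (hsup s) (le_of_lt hσ)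
    rw [integral_const_mul, integral_exp_mul_Ioi (by linarith)] at h1
    have h2 : p / 4 * M0 ^ p * (-Real.exp (-(2 * p) * s) / -(2 * p))
        = (p / 4 * M0 ^ p * Real.exp (-(2 * p) * s)) / (2 * p) := by
      field_simp
    rw [h2] at h1
    have h3 : (p / 4 * M0 ^ p * Real.exp (-(2 * p) * s)) / (2 * p) ≤ ε / 2 := by
      have h4 : p / 4 * M0 ^ p * Real.exp (-(2 * p) * s) ≤ ε :=
        le_trans (hexp s hs) (le_trans hsmall (min_le_left _ _))
      rw [div_le_iff₀ (by positivity)]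
      nlinarith
    linarith

end Pool.Agent.LE87
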