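import Pool.Agent.LE87.P2L2
import Pool.Agent.LE87.P2F

set_option autoImplicit false

open Complex MeasureTheory Set Filter Topology Metric
open scoped Real

namespace Pool.Agent.LE87

variable {Ω : Set ℂ} {R ρ : ℝ} {k : ℕ} {C0 : ℝ}

/-- `S = log M0/2 + 1` -/
theorem far_small (hD : Dom Ω R ρ k C0) : ∃ S : ℝ, 0 < S ∧ ∀ ε > 0, ∃ P0 : ℝ, ∀ p ≥ P0,
    ∀ u : ℂ → ℝ, Good Ω k C0 p u → (∀ (c : ℂ) (s : ℝ), S ≤ s → aP p u c s ≤ ε ∧ tP p u c s ≤ ε) ∧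
      ∀ x : ℂ, ‖x‖ ≤ Real.exp (-(p * S)) → |u x - VV p u 0 S| ≤ ε := by
  obtain ⟨S, M0, hS, hM1, hSM, ⟨P1, hM⟩, hfar⟩ := far_small0 hD
  refine ⟨S, hS, fun ε hε => ?_⟩
  obtain ⟨P2, hP2⟩ := hfar ε hε
  obtain ⟨P3, hP3⟩ := osc_ball hD hS hε
  refine ⟨max (max P1 P2) P3, fun p hp u hu => ⟨hP2 p (le_trans (le_trans (le_max_right _ _)
    (le_max_left _ _)) hp) u hu, fun x hx => ?_⟩⟩
  have hMu := hM p (le_trans (le_trans (le_max_left _ _) (le_max_left _ _)) hp) u hu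
  have h1 := hP3 p (le_trans (le_max_right _ _) hp) u hu 0 S M0 0 le_rfl
    (by rw [norm_zero]; exact (Real.exp_pos _).le) (by linarith) le_rfl (by linarith)
    (fun z _ => hMu z) x (by rwa [sub_zero])
  linarith

end Pool.Agent.LE87
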