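import Pool.Agent.LE87.P2D

set_option autoImplicit false

open Complex MeasureTheory Set Filter Topology Metric
open scoped Real

namespace Pool.Agent.LE87

variable {Ω : Set ℂ} {R ρ : ℝ} {k : ℕ} {C0 : ℝ}

/-! ### annuli -/

theorem mass_sub_ball {g : ℂ → ℝ} (hgi : Integrable g) (c : ℂ) {t t' : ℝ} (h : t' ≤ t) :
    mass g c t - mass g c t' =
      (2 * π)⁻¹ * ∫ z in ball c (Real.exp t) \ ball c (Real.exp t'), g z := by
  unfold mass
  rw [← mul_sub]
  congr 1
  have hsub : ball c (Real.exp t') ⊆ ball c (Real.exp t) := ball_subset_ball (Real.exp_le_exp.2 h)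
  rw [setIntegral_sdiff measurableSet_ball hgi.integrableOn hsub]

theorem mass_diff_le {g h : ℂ → ℝ} {K : ℝ} (hgi : Integrable g) (hhi : Integrable h) {t t' : ℝ}
    (ht : t' ≤ t) (hle : ∀ z : ℂ, Real.exp t' ≤ ‖z‖ → ‖z‖ < Real.exp t → g z ≤ K * h z) :
    mass g 0 t - mass g 0 t' ≤ K * (mass h 0 t - mass h 0 t') := by
  rw [mass_sub_ball hgi 0 ht, mass_sub_ball hhi 0 ht]
  have h1 : ∫ z in ball (0 : ℂ) (Real.exp t) \ ball 0 (Real.exp t'), g z ≤
      ∫ z in ball (0 : ℂ) (Real.exp t) \ ball 0 (Real.exp t'), K * h z := by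
    apply setIntegral_mono_on hgi.integrableOn (hhi.integrableOn.const_mul K)
      (measurableSet_ball.diff measurableSet_ball)
    intro z hz
    apply hle z
    · have := hz.2
      rw [mem_ball_zero_iff, not_lt] at this
      exact this
    · exact mem_ball_zero_iff.1 hz.1
  rw [integral_const_mul] at h1
  have hπ := Real.pi_pos
  have h2 := mul_le_mul_of_nonneg_left h1 (by positivity : 0 ≤ (2 * π)⁻¹)
  refine h2.trans (le_of_eq ?_)
  ring

theorem tP_diff_le (hD : Dom Ω R ρ k C0) {p K : ℝ} (hp : 0 < p) {u : ℂ → ℝ} (hu : Sol Ω p u)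
    {s s' : ℝ} (hss : s ≤ s')
    (hK : ∀ z : ℂ, Real.exp (-(p * s')) ≤ ‖z‖ → ‖z‖ < Real.exp (-(p * s)) → u z ≤ K) :
    tP p u 0 s - tP p u 0 s' ≤ K * (aP p u 0 s - aP p u 0 s') := by
  have h := mass_diff_le (K := K) (pp_integrable (by linarith : 0 < p + 1) hD hu)
    (pp_integrable hp hD hu) (t := -(p * s)) (t' := -(p * s')) (by nlinarith) (by
      intro z h1 h2
      have h3 := hK z h1 h2
      rcases le_or_gt (u z) 0 with h0 | h0
      · unfold pp
        rw [max_eq_right h0, Real.zero_rpow hp.ne', Real.zero_rpow (by positivity : p + 1 ≠ 0)]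
        simp
      · unfold pp
        rw [max_eq_left h0.le, Real.rpow_add_one h0.ne', mul_comm K]
        exact mul_le_mul_of_nonneg_left h3 (Real.rpow_nonneg h0.le _))
  unfold tP aP
  have h2 := mul_le_mul_of_nonneg_left h (by linarith : 0 ≤ p / 2)
  calc _ = p / 2 * (mass (pp (p + 1) u) 0 (-(p * s)) - mass (pp (p + 1) u) 0 (-(p * s'))) := by ring
    _ ≤ _ := h2
    _ = _ := by ring

theorem tP_diff_ge (hD : Dom Ω R ρ k C0) {p K : ℝ} (hp : 0 < p) {u : ℂ → ℝ} (hu : Sol Ω p u)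
    {s s' : ℝ} (hss : s ≤ s')
    (hK : ∀ z : ℂ, Real.exp (-(p * s')) ≤ ‖z‖ → ‖z‖ < Real.exp (-(p * s)) → K ≤ u z) :
    K * (aP p u 0 s - aP p u 0 s') ≤ tP p u 0 s - tP p u 0 s' := by
  have h := mass_diff_le (g := fun z => K * pp p u z) (h := pp (p + 1) u) (K := 1)
    ((pp_integrable hp hD hu).const_mul K) (pp_integrable (by linarith : 0 < p + 1) hD hu)
    (t := -(p * s)) (t' := -(p * s')) (by nlinarith) (by
      intro z h1 h2
      have h3 := hK z h1 h2
      rw [one_mul]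
      rcases le_or_gt (u z) 0 with h0 | h0
      · unfold pp
        rw [max_eq_right h0, Real.zero_rpow hp.ne', Real.zero_rpow (by positivity : p + 1 ≠ 0)]
        simp
      · unfold pp
        rw [max_eq_left h0.le, Real.rpow_add_one h0.ne', mul_comm K]
        exact mul_le_mul_of_nonneg_left h3 (Real.rpow_nonneg h0.le _))
  have e : ∀ t, mass (fun z => K * pp p u z) 0 t = K * mass (pp p u) 0 t := by
    intro t
    unfold mass
    rw [integral_const_mul]; ring
  rw [e, e, one_mul] at h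
  unfold tP aP
  have h2 := mul_le_mul_of_nonneg_left h (by linarith : 0 ≤ p / 2)
  calc _ = p / 2 * (K * mass (pp p u) 0 (-(p * s)) - K * mass (pp p u) 0 (-(p * s'))) := by ring
    _ ≤ _ := h2
    _ = _ := by ring

/-! ### circle averages -/

theorem VV_abs_le {p s M : ℝ} {u : ℂ → ℝ}
    (h : ∀ z : ℂ, ‖z‖ = Real.exp (-(p * s)) → |u z| ≤ M) : |VV p u 0 s| ≤ M := by
  unfold VV avg
  have hπ := Real.pi_pos
  have h1 : ‖∫ θ in (0 : ℝ)..(2 * π), u (pt 0 (-(p * s)) θ)‖ ≤ M * |2 * π - 0| := by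
    apply intervalIntegral.norm_integral_le_of_norm_le_const
    intro θ _
    rw [Real.norm_eq_abs]
    apply h
    unfold pt
    rw [zero_add, Complex.norm_exp]
    simp
  rw [Real.norm_eq_abs, sub_zero, abs_of_pos (by positivity : 0 < 2 * π)] at h1
  rw [abs_mul, abs_of_pos (by positivity : 0 < (2 * π)⁻¹)]
  calc (2 * π)⁻¹ * |∫ θ in (0 : ℝ)..(2 * π), u (pt 0 (-(p * s)) θ)| ≤ (2 * π)⁻¹ * (M * (2 * π)) := by
        apply mul_le_mul_of_nonneg_left h1 (by positivity)
    _ = M := by field_simp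

/-! ### lower bound for the total masses -/

/-- the maximum is at least `R^(-2/(p-1))` -/
theorem max_low (hD : Dom Ω R ρ k C0) {p : ℝ} {u : ℂ → ℝ} (hu : Good Ω k C0 p u) {x : ℂ}
    (hx : 0 < u x) (hmax : ∀ z, u z ≤ u x) : 1 ≤ (u x) ^ (p - 1) * R ^ 2 := by
  have hp1 := hu.hp
  have hp0 : 0 < p := by linarith
  have hR := hD.hR
  have h1 := green_scaled hD hp1 hu.sol x
  rw [max_eq_left hx.le] at h1
  set s := -(Real.log (2 * R) / p) with hs
  have hi := aP_intOn hD hp0 hu.sol (c := x) (s := s) hx (fun z _ => hmax z)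
  have h2 : ∫ σ in Ioi s, aP p u x σ ≤
      ∫ σ in Ioi s, p / 4 * (u x) ^ p * Real.exp (-(2 * p) * σ) := by
    apply setIntegral_mono_on hi ((integrableOn_exp_mul_Ioi (by linarith) s).const_mul _)
      measurableSet_Ioi
    intro σ hσ
    exact aP_density hD hp0 hu.sol hx (fun z _ => hmax z) (le_of_lt hσ)
  rw [integral_const_mul, integral_exp_mul_Ioi (by linarith)] at h2
  have e : Real.exp (-(2 * p) * s) = (2 * R) ^ 2 := by
    rw [hs, show -(2 * p) * -(Real.log (2 * R) / p) = Real.log (2 * R) * 2 by field_simp]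
    rw [Real.exp_mul, Real.exp_log (by positivity)]
    norm_num
  rw [e] at h2
  have h3 : u x ≤ (u x) ^ p * R ^ 2 := by
    calc u x ≤ 2 * ∫ σ in Ioi s, aP p u x σ := h1
      _ ≤ 2 * (p / 4 * (u x) ^ p * (-(2 * R) ^ 2 / -(2 * p))) := by linarith
      _ = (u x) ^ p * R ^ 2 := by field_simp; ring
  have h4 : (u x) ^ p = (u x) ^ (p - 1) * u x := by
    rw [Real.rpow_sub_one hx.ne']; field_simp
  rw [h4] at h3
  have h5 : u x * 1 ≤ u x * ((u x) ^ (p - 1) * R ^ 2) := by linarith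
  exact le_of_mul_le_mul_left h5 hx

theorem mu_low (hD : Dom Ω R ρ k C0) : ∃ P0 : ℝ, ∀ p ≥ P0, ∀ u : ℂ → ℝ, Good Ω k C0 p u →
    1 / 4 ≤ mu p u := by
  have hR := hD.hR
  obtain ⟨P1, hP10, hP1⟩ := small_inv (Real.log (2 * R)) (by norm_num : (0 : ℝ) < 1 / 8)
  -- (1/2)^(p-1) R^2 < 1 for large p
  have hlim : Tendsto (fun p : ℝ => ((1 / 2 : ℝ)) ^ (p - 1) * R ^ 2) atTop (𝓝 (0 * R ^ 2)) := by
    apply Tendsto.mul_const
    have h1 := tendsto_rpow_atTop_of_base_lt_one (1 / 2 : ℝ) (by norm_num) (by norm_num)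
    exact h1.comp (tendsto_atTop_add_const_right _ _ tendsto_id)
  rw [zero_mul] at hlim
  obtain ⟨P2, hP2⟩ := eventually_atTop.1 (hlim.eventually (gt_mem_nhds (one_pos)))
  refine ⟨max (max P1 P2) 16, fun p hp u hu => ?_⟩
  have hp1' : P1 ≤ p := le_trans (le_trans (le_max_left _ _) (le_max_left _ _)) hp
  have hp2' : P2 ≤ p := le_trans (le_trans (le_max_right _ _) (le_max_left _ _)) hp
  have hp3' : (16 : ℝ) ≤ p := le_trans (le_max_right _ _) hp
  have hp0 : 0 < p := by linarith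
  by_contra hmu
  push Not at hmu
  obtain ⟨x, hx, hmax⟩ := exists_max hD hu
  have hlow := max_low hD hu hx hmax
  have hhalf : 1 / 2 < u x := by
    by_contra h
    push Not at h
    have h1 : (u x) ^ (p - 1) ≤ (1 / 2 : ℝ) ^ (p - 1) :=
      Real.rpow_le_rpow hx.le h (by linarith)
    have h2 := hP2 p hp2'
    have h3 : (u x) ^ (p - 1) * R ^ 2 ≤ (1 / 2 : ℝ) ^ (p - 1) * R ^ 2 :=
      mul_le_mul_of_nonneg_right h1 (by positivity)
    linarith
  have h1 := green_scaled hD hu.hp hu.sol x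
  rw [max_eq_left hx.le] at h1
  have h2 := tail_int hD hp0 hu.sol (c := x) (s := -(Real.log (2 * R) / p)) (η := 1 / 8) hx
    (by norm_num) (fun z _ => hmax z)
  have h3 : aP p u x (-(Real.log (2 * R) / p)) ≤ 1 / 4 :=
    (aP_le_mu hD hp0 hu.sol x _).trans hmu.le
  have h4 := hP1 p hp1'
  have hexp : Real.exp (-(2 * (1 / 8) * p)) / 8 ≤ 1 / 32 := by
    have e1 : Real.exp (-(2 * (1 / 8) * p)) ≤ 1 / 4 := by
      have e2 : (4 : ℝ) ≤ Real.exp (2 * (1 / 8) * p) := by
        have := Real.add_one_le_exp (2 * (1 / 8) * p)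
        linarith
      rw [Real.exp_neg]
      have := inv_anti₀ (by norm_num) e2
      linarith
    linarith
  set L := Real.log (u x) / 2 - -(Real.log (2 * R) / p) with hL
  have hmaxL : max L 0 ≤ u x / 2 + 1 / 8 := by
    apply max_le
    · have := Real.log_le_self hx.le
      rw [hL]; linarith
    · linarith
  have a0 := aP_nonneg (u := u) hp0.le x (-(Real.log (2 * R) / p))
  have a1 : aP p u x (-(Real.log (2 * R) / p)) * (max L 0 + 1 / 8) ≤
      1 / 4 * (u x / 2 + 1 / 8 + 1 / 8) := by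
    apply mul_le_mul h3 (by linarith) _ (by norm_num)
    have := le_max_right L 0; linarith
  linarith

end Pool.Agent.LE87
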