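import Pool.Agent.LE87.P2K
import Pool.Agent.LE87.P2L1

set_option autoImplicit false

open Complex MeasureTheory Set Filter Topology Metric
open scoped Real

namespace Pool.Agent.LE87

variable {Ω : Set ℂ} {R ρ : ℝ} {k : ℕ} {C0 p : ℝ} {u : ℂ → ℝ}

/-! ## Module L: facts at centre `0` for finite `p` -/

theorem t_diff_le (hD : Dom Ω R ρ k C0) (hp : 0 < p) (hu : Sol Ω p u) {s s' h : ℝ} (hs : s ≤ s')
    (_hh0 : 0 ≤ h)
    (hh : ∀ z : ℂ, Real.exp (-(p * s')) ≤ ‖z‖ → ‖z‖ < Real.exp (-(p * s)) → u z ≤ h) :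
    tP p u 0 s - tP p u 0 s' ≤ h * (aP p u 0 s - aP p u 0 s') :=
  tP_diff_le hD hp hu hs hh

theorem t_diff_ge (hD : Dom Ω R ρ k C0) (hp : 0 < p) (hu : Sol Ω p u) {s s' h : ℝ} (hs : s ≤ s')
    (_hh0 : 0 ≤ h)
    (hh : ∀ z : ℂ, Real.exp (-(p * s')) ≤ ‖z‖ → ‖z‖ < Real.exp (-(p * s)) → h ≤ u z) :
    h * (aP p u 0 s - aP p u 0 s') ≤ tP p u 0 s - tP p u 0 s' :=
  tP_diff_ge hD hp hu hs hh

theorem a_diff_zero (hD : Dom Ω R ρ k C0) (hp : 0 < p) (hu : Sol Ω p u) {s s' : ℝ} (hs : s ≤ s')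
    (hh : ∀ z : ℂ, Real.exp (-(p * s')) ≤ ‖z‖ → ‖z‖ < Real.exp (-(p * s)) → u z ≤ 0) :
    aP p u 0 s = aP p u 0 s' ∧ tP p u 0 s = tP p u 0 s' := by
  have key : ∀ q : ℝ, 0 < q → mass (pp q u) 0 (-(p * s)) ≤ mass (pp q u) 0 (-(p * s')) := by
    intro q hq
    have h1 := ann_le (g1 := pp q u) (g2 := pp q u) (pp_integrable hq hD hu)
      (pp_integrable hq hD hu) (c := 0) (t := -(p * s)) (t' := -(p * s')) (K := 0)
      (by nlinarith) (fun z hz1 hz2 => ?_)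
    · linarith
    · rw [sub_zero] at hz1 hz2
      unfold pp
      rw [max_eq_right (hh z hz1 hz2), Real.zero_rpow hq.ne', zero_mul]
  constructor
  · apply le_antisymm
    · unfold aP
      exact mul_le_mul_of_nonneg_left (key p hp) (by linarith)
    · exact aP_anti hD hp hu 0 hs
  · apply le_antisymm
    · unfold tP
      exact mul_le_mul_of_nonneg_left (key (p + 1) (by linarith)) (by linarith)
    · exact tP_anti hD hp hu 0 hs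

theorem norm_pt0 (t θ : ℝ) : ‖pt 0 t θ‖ = Real.exp t := by
  rw [pt_eq, zero_add, norm_ew]

theorem aP_diff_small (hD : Dom Ω R ρ k C0) {s0 S η ε : ℝ} (hs0 : 0 < s0) (hη : 0 < η)
    (hε : 0 < ε) : ∃ P0 : ℝ, ∀ p ≥ P0, ∀ u : ℂ → ℝ, Good Ω k C0 p u → ∀ s s', s0 ≤ s → s ≤ s' →
      s' ≤ S → (∀ (z : ℂ), ∀ x ∈ Icc s s', ‖z‖ = Real.exp (-(p * x)) →
        u z ≤ Real.exp (2 * x) - η) → aP p u 0 s - aP p u 0 s' ≤ ε := by
  set η' := min (η * Real.exp (-(2 * S))) (1 / 2) with hη'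
  have hη'0 : 0 < η' := lt_min (by positivity) (by norm_num)
  have hη'1 : η' < 1 := lt_of_le_of_lt (min_le_right _ _) (by norm_num)
  obtain ⟨P0, hP0⟩ := dens_annulus hD (L := S) hη'0 hη'1 hε
  refine ⟨P0, fun p hp u hu s s' h1 h2 h3 h => ?_⟩
  have h4 := hP0 p hp u hu 0 s s' h2 (by linarith) (fun σ hσ θ => ?_)
  · linarith
  · have h5 := h (pt 0 (-(p * σ)) θ) σ hσ (norm_pt0 _ _)
    have h6 : η' * Real.exp (2 * σ) ≤ η := by
      have h7 : Real.exp (2 * σ) ≤ Real.exp (2 * S) :=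
        Real.exp_le_exp.2 (by linarith [hσ.2])
      calc η' * Real.exp (2 * σ) ≤ (η * Real.exp (-(2 * S))) * Real.exp (2 * S) :=
            mul_le_mul (min_le_left _ _) h7 (Real.exp_pos _).le (by positivity)
        _ = η := by rw [mul_assoc, ← Real.exp_add]; simp
    linarith

theorem mu_lower (hD : Dom Ω R ρ k C0) : ∃ c0 : ℝ, 0 < c0 ∧ ∃ P0 : ℝ, ∀ p ≥ P0, ∀ u : ℂ → ℝ,
    Good Ω k C0 p u → c0 ≤ mu p u ∧ ∃ x, 1 / 2 ≤ u x := by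
  obtain ⟨P1, hP1⟩ := mu_low hD
  have hlim : Tendsto (fun p : ℝ => ((1 / 2 : ℝ)) ^ (p - 1) * R ^ 2) atTop (𝓝 (0 * R ^ 2)) := by
    apply Tendsto.mul_const
    have h1 := tendsto_rpow_atTop_of_base_lt_one (1 / 2 : ℝ) (by norm_num) (by norm_num)
    exact h1.comp (tendsto_atTop_add_const_right _ _ tendsto_id)
  rw [zero_mul] at hlim
  obtain ⟨P2, hP2⟩ := eventually_atTop.1 (hlim.eventually (gt_mem_nhds (one_pos)))
  refine ⟨1 / 4, by norm_num, max P1 P2, fun p hp u hu =>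
    ⟨hP1 p (le_trans (le_max_left _ _) hp) u hu, ?_⟩⟩
  obtain ⟨x, hx, hmax⟩ := exists_max hD hu
  have hlow := max_low hD hu hx hmax
  have hp1 := hu.hp
  refine ⟨x, ?_⟩
  by_contra h
  push Not at h
  have h1 : (u x) ^ (p - 1) ≤ (1 / 2 : ℝ) ^ (p - 1) :=
    Real.rpow_le_rpow hx.le h.le (by linarith)
  have h2 := hP2 p (le_trans (le_max_right _ _) hp)
  have h3 : (u x) ^ (p - 1) * R ^ 2 ≤ (1 / 2 : ℝ) ^ (p - 1) * R ^ 2 :=
    mul_le_mul_of_nonneg_right h1 (by positivity)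
  linarith

/-- the part of `far_small` that does not need `osc_ball` -/
theorem far_small0 (hD : Dom Ω R ρ k C0) : ∃ S M0 : ℝ, 0 < S ∧ 1 ≤ M0 ∧
    Real.log M0 / 2 + 1 ≤ S ∧ (∃ P0 : ℝ, ∀ p ≥ P0, ∀ u : ℂ → ℝ, Good Ω k C0 p u →
      ∀ z, |u z| ≤ M0) ∧ ∀ ε > 0, ∃ P0 : ℝ, ∀ p ≥ P0,
    ∀ u : ℂ → ℝ, Good Ω k C0 p u → ∀ (c : ℂ) (s : ℝ), S ≤ s → aP p u c s ≤ ε ∧ tP p u c s ≤ ε := by
  obtain ⟨M0, P1, hM1, hM⟩ := sup_bound hD
  obtain ⟨S0, hS0, hS⟩ := dens_tail hD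
  refine ⟨max S0 (Real.log M0 / 2 + 1), M0, lt_of_lt_of_le hS0 (le_max_left _ _), hM1,
    le_max_right _ _, ⟨P1, hM⟩, fun ε hε => ?_⟩
  obtain ⟨P0, hP0⟩ := hS ε hε
  refine ⟨P0, fun p hp u hu c s hs => ?_⟩
  have := hP0 p hp u hu c s (le_trans (le_max_left _ _) hs)
  exact ⟨this.1, this.2.1⟩

end Pool.Agent.LE87
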