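import Pool.Agent.LE87.P2D

set_option autoImplicit false

open Complex MeasureTheory Set Filter Topology Metric
open scoped Real

namespace Pool.Agent.LE87

variable {Ω : Set ℂ} {R ρ : ℝ} {k : ℕ} {C0 : ℝ}

/-! ### rotated copies -/

theorem norm_zt (k : ℕ) : ‖zt k‖ = 1 := by
  unfold zt
  have : 2 * (π : ℂ) * Complex.I / k = ((2 * π / k : ℝ) : ℂ) * Complex.I := by
    push_cast; ring
  rw [this, Complex.norm_exp_ofReal_mul_I]

theorem zt_prim {k : ℕ} (hk : k ≠ 0) : IsPrimitiveRoot (zt k) k :=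
  Complex.isPrimitiveRoot_exp k hk

theorem geom_gap {k m : ℕ} (hk : 2 ≤ k) (hm0 : 0 < m) (hm : m < k) :
    2 / (k : ℝ) ≤ ‖1 - zt k ^ m‖ := by
  set w := zt k ^ m with hw
  have hk0 : k ≠ 0 := by omega
  have hwn : ‖w‖ = 1 := by rw [hw, norm_pow, norm_zt, one_pow]
  have hw1 : w ≠ 1 := (zt_prim hk0).pow_ne_one_of_pos_of_lt hm0.ne' hm
  have hwk : w ^ k = 1 := by
    rw [hw, ← pow_mul, mul_comm, pow_mul, (zt_prim hk0).pow_eq_one, one_pow]
  have hsum : ∑ i ∈ Finset.range k, w ^ i = 0 := by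
    have h := geom_sum_eq hw1 k
    rw [h, hwk, sub_self, zero_div]
  have hstep : ∀ i : ℕ, ‖1 - w ^ i‖ ≤ i * ‖1 - w‖ := by
    intro i
    induction i with
    | zero => simp
    | succ i ih =>
      have e : 1 - w ^ (i + 1) = (1 - w ^ i) + w ^ i * (1 - w) := by ring
      rw [e]
      refine (norm_add_le _ _).trans ?_
      rw [norm_mul, norm_pow, hwn, one_pow, one_mul]
      push_cast
      linarith
  have hk1 : (k : ℝ) ≤ ∑ i ∈ Finset.range k, (i : ℝ) * ‖1 - w‖ := by
    have e1 : (k : ℂ) = ∑ i ∈ Finset.range k, (1 - w ^ i) := by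
      rw [Finset.sum_sub_distrib, hsum]; simp
    have e2 : ‖(k : ℂ)‖ = k := by simp
    calc (k : ℝ) = ‖(k : ℂ)‖ := e2.symm
      _ = ‖∑ i ∈ Finset.range k, (1 - w ^ i)‖ := by rw [← e1]
      _ ≤ ∑ i ∈ Finset.range k, ‖1 - w ^ i‖ := norm_sum_le _ _
      _ ≤ ∑ i ∈ Finset.range k, (i : ℝ) * ‖1 - w‖ := Finset.sum_le_sum fun i _ => hstep i
  rw [← Finset.sum_mul] at hk1
  have h3 : (∑ i ∈ Finset.range k, (i : ℝ)) * 2 = k * (k - 1) := by
    have := Finset.sum_range_id_mul_two k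
    have h4 : ((∑ i ∈ Finset.range k, i : ℕ) : ℝ) * 2 = ((k * (k - 1) : ℕ) : ℝ) := by
      exact_mod_cast this
    rw [Nat.cast_mul, Nat.cast_sub (by omega : 1 ≤ k)] at h4
    push_cast at h4
    exact h4
  have hkp : (2 : ℝ) ≤ k := by exact_mod_cast hk
  have hn : 0 ≤ ‖1 - w‖ := norm_nonneg _
  rw [div_le_iff₀ (by linarith)]
  nlinarith

theorem mass_rot {g : ℂ → ℝ} (hsym : ∀ z, g (zt k * z) = g z) (j : ℕ) (x : ℂ) (t : ℝ) :
    ∫ z in ball (zt k ^ j * x) (Real.exp t), g z = ∫ z in ball x (Real.exp t), g z := by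
  have hn : ‖zt k ^ j‖ = 1 := by rw [norm_pow, norm_zt, one_pow]
  set a : Circle := ⟨zt k ^ j, mem_sphere_zero_iff_norm.2 hn⟩ with ha
  have hrot : ∀ z, rotation a z = zt k ^ j * z := fun z => by
    rw [rotation_apply]
  have hsymj : ∀ (j : ℕ) (z : ℂ), g (zt k ^ j * z) = g z := by
    intro j
    induction j with
    | zero => intro z; simp
    | succ j ih =>
      intro z
      rw [pow_succ', mul_assoc, hsym, ih]
  have hmp : MeasurePreserving (rotation a) volume volume := (rotation a).measurePreserving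
  have hemb : MeasurableEmbedding (rotation a) :=
    (rotation a).toHomeomorph.measurableEmbedding
  have h := hmp.setIntegral_preimage_emb hemb g (ball (zt k ^ j * x) (Real.exp t))
  rw [← h]
  have hpre : (rotation a) ⁻¹' ball (zt k ^ j * x) (Real.exp t) = ball x (Real.exp t) := by
    ext z
    rw [mem_preimage, mem_ball_iff_norm, mem_ball_iff_norm, hrot, ← mul_sub, norm_mul, hn, one_mul]
  rw [hpre]
  refine setIntegral_congr_fun measurableSet_ball fun z _ => ?_
  show g (rotation a z) = g z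
  rw [hrot, hsymj]

/-- `k` disjoint rotated copies of a ball -/
theorem copies {g : ℂ → ℝ} (hk : 2 ≤ k) (hg : ∀ z, 0 ≤ g z) (hgi : Integrable g)
    (hsym : ∀ z, g (zt k * z) = g z) {x : ℂ} {t : ℝ} (hr : Real.exp t ≤ ‖x‖ / k) :
    k * mass g x t ≤ tot g := by
  have hkr : (2 : ℝ) ≤ k := by exact_mod_cast hk
  have hk0 : k ≠ 0 := by omega
  set B : ℕ → Set ℂ := fun j => ball (zt k ^ j * x) (Real.exp t) with hB
  have hdis : ∀ i j : ℕ, i < j → j < k → Disjoint (B i) (B j) := by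
    intro i j hij hjk
    apply ball_disjoint_ball
    have e : zt k ^ i * x - zt k ^ j * x = zt k ^ i * ((1 - zt k ^ (j - i)) * x) := by
      have : zt k ^ j = zt k ^ i * zt k ^ (j - i) := by rw [← pow_add]; congr 1; omega
      rw [this]; ring
    rw [dist_eq_norm, e, norm_mul, norm_pow, norm_zt, one_pow, one_mul, norm_mul]
    have hgap := geom_gap hk (by omega : 0 < j - i) (by omega : j - i < k)
    have : 2 / (k : ℝ) * ‖x‖ ≤ ‖1 - zt k ^ (j - i)‖ * ‖x‖ :=
      mul_le_mul_of_nonneg_right hgap (norm_nonneg _)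
    have e2 : 2 / (k : ℝ) * ‖x‖ = 2 * (‖x‖ / k) := by ring
    linarith
  have hpair : (↑(Finset.range k) : Set ℕ).Pairwise (Function.onFun Disjoint B) := by
    intro i hi j hj hij
    simp only [Finset.coe_range, mem_Iio] at hi hj
    rcases lt_or_gt_of_ne hij with h | h
    · exact hdis i j h hj
    · exact (hdis j i h hi).symm
  have hun := integral_biUnion_finset (μ := volume) (f := g) (Finset.range k) (s := B)
    (fun i _ => measurableSet_ball) hpair (fun i _ => hgi.integrableOn)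
  have h1 : ∑ i ∈ Finset.range k, ∫ z in B i, g z = k * ∫ z in ball x (Real.exp t), g z := by
    rw [Finset.sum_congr rfl (fun i _ => mass_rot (k := k) hsym i x t)]
    simp
  have h2 : ∫ z in ⋃ i ∈ Finset.range k, B i, g z ≤ ∫ z, g z :=
    setIntegral_le_integral hgi (Eventually.of_forall hg)
  rw [hun, h1] at h2
  unfold mass tot
  have hπ : (0 : ℝ) ≤ (2 * π)⁻¹ := by positivity
  calc (k : ℝ) * ((2 * π)⁻¹ * ∫ z in ball x (Real.exp t), g z)
      = (2 * π)⁻¹ * (k * ∫ z in ball x (Real.exp t), g z) := by ring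
    _ ≤ (2 * π)⁻¹ * ∫ z, g z := mul_le_mul_of_nonneg_left h2 hπ

/-! ### uniform small mass -/

theorem mass_small (hD : Dom Ω R ρ k C0) {ε : ℝ} (hε : 0 < ε) :
    ∃ P0 : ℝ, 0 < P0 ∧ ∀ p ≥ P0, ∀ u : ℂ → ℝ, Good Ω k C0 p u → ∀ (c : ℂ) (t : ℝ),
      mass (fun z => |u z| ^ p) c t ≤ 2 / p * (C0 + 1) ∧ 2 / p * (C0 + 1) ≤ ε := by
  obtain ⟨P1, hP1⟩ := mu_add_le hD one_pos
  obtain ⟨P2, hP20, hP2⟩ := small_inv (2 * (C0 + 1)) hε
  refine ⟨max P1 P2, lt_of_lt_of_le hP20 (le_max_right _ _), fun p hp u hu c t => ?_⟩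
  have hp0 : 0 < p := by linarith [hu.hp]
  constructor
  · refine (mass_abs' hD hp0 hu.sol c t).trans ?_
    exact mul_le_mul_of_nonneg_left (hP1 p (le_trans (le_max_left _ _) hp) u hu) (by positivity)
  · have := hP2 p (le_trans (le_max_right _ _) hp)
    have e : 2 / p * (C0 + 1) = 2 * (C0 + 1) / p := by ring
    rw [e]; exact this

/-- barrier, scaled -/
theorem barrier_scaled (hD : Dom Ω R ρ k C0) {ε : ℝ} (hε : 0 < ε) :
    ∃ P0 : ℝ, ∀ p ≥ P0, ∀ u : ℂ → ℝ, Good Ω k C0 p u → ∀ (c : ℂ) (T s : ℝ),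
      ball c (Real.exp T) ⊆ Ω → -(p * s) < T → |VV p u c s| ≤ Real.exp (2 * s) + ε := by
  have hC0 := hD.hC0
  have he2 : Real.exp (-2) < 1 := by
    have := Real.exp_lt_exp.2 (by norm_num : (-2 : ℝ) < 0)
    rwa [Real.exp_zero] at this
  have hq : 0 < 1 - Real.exp (-2) := by linarith
  obtain ⟨P1, hP10, hP1⟩ := mass_small hD (lt_min hε (by positivity : 0 < (1 - Real.exp (-2)) / 2))
  refine ⟨P1, fun p hp u hu c T s hc hs => ?_⟩
  have hp1 := hu.hp
  have hp0 : 0 < p := by linarith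
  obtain ⟨hm, hm2⟩ := hP1 p hp u hu c (-(p * s))
  set m := 2 / p * (C0 + 1) with hmdef
  have hb := barrier hD.isOpen hp1 hu.sol hc hs hm
  have hmε : m ≤ ε := hm2.trans (min_le_left _ _)
  have hmq : m ≤ (1 - Real.exp (-2)) / 2 := hm2.trans (min_le_right _ _)
  set y := max (|avg u c (-(p * s))| - m) 0 with hy
  have hy0 : 0 ≤ y := le_max_right _ _
  have hE : 0 < Real.exp (2 * (-(p * s))) := Real.exp_pos _
  have h1 : y ^ p * Real.exp (2 * (-(p * s))) ≤ 1 := by
    have e : y ^ p * (Real.exp (2 * (-(p * s))) * (1 - Real.exp (-2)) / 2)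
        = y ^ p * Real.exp (2 * (-(p * s))) * ((1 - Real.exp (-2)) / 2) := by ring
    rw [e] at hb
    have h2 := hb.trans hmq
    have hq2 : 0 < (1 - Real.exp (-2)) / 2 := by positivity
    exact le_of_mul_le_mul_right (by rw [one_mul]; exact h2) hq2
  have h2 : (y * Real.exp (-(2 * s))) ^ p ≤ 1 := by
    rw [Real.mul_rpow hy0 (Real.exp_pos _).le, ← Real.exp_mul]
    have e : -(2 * s) * p = 2 * (-(p * s)) := by ring
    rw [e]; exact h1
  have h3 : y * Real.exp (-(2 * s)) ≤ 1 := by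
    by_contra h
    exact absurd h2 (not_le.2 (Real.one_lt_rpow (not_le.1 h) hp0))
  have h4 : y ≤ Real.exp (2 * s) := by
    have h5 := mul_le_mul_of_nonneg_right h3 (Real.exp_pos (2 * s)).le
    rw [mul_assoc, ← Real.exp_add, neg_add_cancel, Real.exp_zero, mul_one, one_mul] at h5
    exact h5
  have h6 : |avg u c (-(p * s))| - m ≤ y := le_max_left _ _
  unfold VV
  linarith

/-- two centres, scaled -/
theorem two_scaled (hD : Dom Ω R ρ k C0) {s0 ε : ℝ} (hs0 : 0 < s0) (hε : 0 < ε) :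
    ∃ P0 : ℝ, ∀ p ≥ P0, ∀ u : ℂ → ℝ, Good Ω k C0 p u → ∀ (c c' : ℂ) (s : ℝ), s0 ≤ s →
      ‖c‖ ≤ Real.exp (-(p * s0)) → ‖c'‖ ≤ Real.exp (-(p * s0)) →
      ‖c - c'‖ ≤ Real.exp (-(p * s)) → |VV p u c s - VV p u c' s| ≤ ε := by
  have hC0 := hD.hC0
  have hρ := hD.hρ
  obtain ⟨M0, P1, hM0, hP1⟩ := sup_bound hD
  obtain ⟨P2, hP20, hP2⟩ := mass_small hD (by positivity : 0 < ε / 8)
  obtain ⟨P3, hP3⟩ := small_exp hs0 1 (lt_min (by positivity : 0 < ρ / 4)
    (by positivity : 0 < ε * ρ / (200 * M0)))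
  refine ⟨max P1 (max P2 P3), fun p hp u hu c c' s hs hc hc' hcc => ?_⟩
  have hp1 := hu.hp
  have hp0 : 0 < p := by linarith
  have hpP1 : P1 ≤ p := le_trans (le_max_left _ _) hp
  have hpP2 : P2 ≤ p := le_trans (le_trans (le_max_left _ _) (le_max_right _ _)) hp
  have hpP3 : P3 ≤ p := le_trans (le_trans (le_max_right _ _) (le_max_right _ _)) hp
  have hE := hP3 p hpP3
  have hexp : Real.exp (-(p * s0)) ≤ min (ρ / 4) (ε * ρ / (200 * M0)) := by
    refine le_trans ?_ hE
    have e : s0 * p = p * s0 := mul_comm _ _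
    rw [e, one_mul]
    have := Real.exp_pos (-(p * s0))
    nlinarith
  have hss : Real.exp (-(p * s)) ≤ Real.exp (-(p * s0)) := by
    apply Real.exp_le_exp.2
    nlinarith
  have h1 : Real.exp (-(p * s0)) ≤ ρ / 4 := hexp.trans (min_le_left _ _)
  have h2 : Real.exp (-(p * s0)) ≤ ε * ρ / (200 * M0) := hexp.trans (min_le_right _ _)
  have key := two_centres (m := 2 / p * (C0 + 1)) (M := M0) hD.isOpen hp1 hu.sol hρ hD.ball_sub
    (fun z => hP1 p hpP1 u hu z) (fun x τ => (hP2 p hpP2 u hu x τ).1)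
    (hc.trans h1) (hc'.trans h1) hcc (hss.trans h1)
  have hm := (hP2 p hpP2 u hu c 0).2
  have h3 : 100 * M0 * ‖c - c'‖ / ρ ≤ ε / 2 := by
    rw [div_le_iff₀ hρ]
    have h4 : ‖c - c'‖ ≤ ε * ρ / (200 * M0) := hcc.trans (hss.trans h2)
    have h5 : 100 * M0 * ‖c - c'‖ ≤ 100 * M0 * (ε * ρ / (200 * M0)) :=
      mul_le_mul_of_nonneg_left h4 (by positivity)
    have h6 : 100 * M0 * (ε * ρ / (200 * M0)) = ε / 2 * ρ := by
      have : M0 ≠ 0 := by linarith
      field_simp; ring
    linarith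
  unfold VV
  linarith

/-! ### the window -/

theorem aP_continuous {p : ℝ} {u : ℂ → ℝ} (hp : 0 < p) (hu : Continuous u) (c : ℂ) :
    Continuous (aP p u c) := by
  unfold aP
  exact continuous_const.mul ((mass_continuous (pp_cont hp.le hu) c).comp (by fun_prop))

theorem tP_continuous {p : ℝ} {u : ℂ → ℝ} (hp : 0 < p) (hu : Continuous u) (c : ℂ) :
    Continuous (tP p u c) := by
  unfold tP
  exact continuous_const.mul ((mass_continuous (pp_cont (by linarith) hu) c).comp (by fun_prop))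

theorem abs_f {p : ℝ} (hp : 0 < p) (y : ℝ) : |(|y| ^ (p - 1) * y)| = |y| ^ p := by
  rw [abs_mul, abs_of_nonneg (Real.rpow_nonneg (abs_nonneg _) _)]
  rcases eq_or_ne y 0 with h | h
  · subst h; simp [Real.zero_rpow hp.ne']
  · have h1 : 0 < |y| := abs_pos.2 h
    rw [Real.rpow_sub_one h1.ne']
    field_simp

/-- window, scaled -/
theorem window_scaled (hD : Dom Ω R ρ k C0) {δ L ε : ℝ} (hδ : 0 < δ) (hL : 0 < L) (hε : 0 < ε) :
    ∃ P0 : ℝ, ∀ p ≥ P0, ∀ u : ℂ → ℝ, Good Ω k C0 p u → ∀ (c : ℂ) (T s s' W : ℝ),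
      ball c (Real.exp T) ⊆ Ω → -(p * (s - δ)) < T → s + L ≤ s' → 0 ≤ W →
      (∀ σ ∈ Icc (s - δ) (s' + δ), ∀ θ : ℝ, |u (pt c (-(p * σ)) θ) - VV p u c σ| ≤ W) →
      ∃ σ ∈ Icc s s', |(aP p u c σ - aM p u c σ) ^ 2 - 2 * (tP p u c σ + tM p u c σ)| ≤
        W * ((aP p u c (s - δ) + aM p u c (s - δ)) - (aP p u c (s' + δ) + aM p u c (s' + δ)))
          / (2 * (s' - s)) + ε := by
  have hC0 := hD.hC0
  obtain ⟨P1, hP10, hP1⟩ := small_inv (C0 / L + 2 * C0) (by positivity : 0 < ε / 2)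
  obtain ⟨P2, hP2⟩ := small_exp (by positivity : 0 < 2 * δ / π) (C0 / (2 * L))
    (by positivity : 0 < ε / 2)
  refine ⟨max P1 P2, fun p hp u hu c T s s' W hc hT hLs hW0 hW => ?_⟩
  have hp1 := hu.hp
  have hp0 : 0 < p := by linarith
  have hpP1 := hP1 p (le_trans (le_max_left _ _) hp)
  have hpP2 := hP2 p (le_trans (le_max_right _ _) hp)
  have hu' := hu.sol
  set f : ℝ → ℝ := fun y => |y| ^ (p - 1) * y with hf
  set F : ℝ → ℝ := fun y => |y| ^ (p + 1) / (p + 1) with hF
  have hfc : Continuous f := by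
    rw [hf]
    exact (continuous_abs.rpow_const (fun _ => Or.inr (by linarith))).mul continuous_id
  have hFd : ∀ y, HasDerivAt F (f y) y := by
    intro y
    have h1 := (hasDerivAt_abs_rpow y (by linarith : 1 < p + 1)).div_const (p + 1)
    refine h1.congr_deriv ?_
    have e : p + 1 - 2 = p - 1 := by ring
    rw [e, hf]
    field_simp
  have hF0 : ∀ y, 0 ≤ F y := fun y => by
    rw [hF]
    have := Real.rpow_nonneg (abs_nonneg y) (p + 1)
    positivity
  have hss : s < s' := by linarith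
  have hwin := window (u := u) (f := f) (F := F) (c := c) (T := T) (t1 := -(p * s'))
    (t2 := -(p * s)) (d := p * δ) (W := W) (hu'.smooth.mono hc) hfc hFd hF0
    (fun z hz => hu'.eq z (hc hz)) (by nlinarith) (by positivity) (by nlinarith) (by
      intro t ht θ
      have e : t = -(p * (-(t / p))) := by field_simp
      have hmem : -(t / p) ∈ Icc (s - δ) (s' + δ) := by
        constructor
        · rw [le_neg, div_le_iff₀ hp0]
          have := ht.2; nlinarith
        · rw [neg_le, le_div_iff₀ hp0]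
          have := ht.1; nlinarith
      have := hW _ hmem θ
      unfold VV at this
      rw [← e] at this
      exact this)
  -- rewrite the masses
  have emf : ∀ σ, mass (fun z => f (u z)) c (-(p * σ)) = 2 / p * (aP p u c σ - aM p u c σ) :=
    fun σ => mass_f hD hp0 hu' c σ
  have emabs : ∀ σ, mass (fun z => |f (u z)|) c (-(p * σ))
      = 2 / p * (aP p u c σ + aM p u c σ) := by
    intro σ
    rw [← mass_abs hD hp0 hu' c σ]
    apply mass_congr
    intro z _
    exact abs_f hp0 (u z)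
  have emF : ∀ σ, mass (fun z => F (u z)) c (-(p * σ))
      = 2 / (p * (p + 1)) * (tP p u c σ + tM p u c σ) := by
    intro σ
    have h1 : mass (fun z => F (u z)) c (-(p * σ))
        = (p + 1)⁻¹ * mass (fun z => |u z| ^ (p + 1)) c (-(p * σ)) := by
      unfold mass
      rw [hF]
      simp only [div_eq_inv_mul]
      rw [integral_const_mul]
      ring
    rw [h1, mass_energy hD hp0 hu' c σ]
    field_simp
  set G : ℝ → ℝ := fun σ => |(aP p u c σ - aM p u c σ) ^ 2
    - 2 * (p / (p + 1)) * (tP p u c σ + tM p u c σ)| with hG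
  have haMc : Continuous (aM p u c) := aP_continuous hp0 hu'.cont.neg c
  have htMc : Continuous (tM p u c) := tP_continuous hp0 hu'.cont.neg c
  have haPc : Continuous (aP p u c) := aP_continuous hp0 hu'.cont c
  have htPc : Continuous (tP p u c) := tP_continuous hp0 hu'.cont c
  have hGc : Continuous G := by
    rw [hG]
    exact (((haPc.sub haMc).pow 2).sub (continuous_const.mul (htPc.add htMc))).abs
  have hint : ∫ t in (-(p * s'))..(-(p * s)), |(mass (fun z => f (u z)) c t) ^ 2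
      - 4 * mass (fun z => F (u z)) c t| = 4 / p * ∫ σ in s..s', G σ := by
    have h1 := intervalIntegral.integral_comp_mul_left (a := s) (b := s')
      (fun t => |(mass (fun z => f (u z)) c t) ^ 2 - 4 * mass (fun z => F (u z)) c t|)
      (by linarith : (-p) ≠ 0)
    have h2 : ∀ σ, |(mass (fun z => f (u z)) c (-p * σ)) ^ 2
        - 4 * mass (fun z => F (u z)) c (-p * σ)| = 4 / p ^ 2 * G σ := by
      intro σ
      rw [neg_mul, emf, emF, hG]
      simp only
      have e : (2 / p * (aP p u c σ - aM p u c σ)) ^ 2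
          - 4 * (2 / (p * (p + 1)) * (tP p u c σ + tM p u c σ))
          = 4 / p ^ 2 * ((aP p u c σ - aM p u c σ) ^ 2
            - 2 * (p / (p + 1)) * (tP p u c σ + tM p u c σ)) := by
        field_simp
        ring
      rw [e, abs_mul, abs_of_nonneg (by positivity : (0 : ℝ) ≤ 4 / p ^ 2)]
    simp only [h2] at h1
    rw [intervalIntegral.integral_const_mul, neg_mul, neg_mul, smul_eq_mul,
      intervalIntegral.integral_symm (-(p * s')) (-(p * s))] at h1
    have h3 : ∫ t in (-(p * s'))..(-(p * s)), |(mass (fun z => f (u z)) c t) ^ 2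
      - 4 * mass (fun z => F (u z)) c t| = p * (4 / p ^ 2 * ∫ σ in s..s', G σ) := by
      rw [h1]
      have hpn : p ≠ 0 := hp0.ne'
      field_simp
    rw [h3]
    field_simp
  rw [hint] at hwin
  have e1 : -(p * s) + p * δ = -(p * (s - δ)) := by ring
  have e2 : -(p * s') - p * δ = -(p * (s' + δ)) := by ring
  rw [e1, e2, emabs, emabs, emF] at hwin
  set D : ℝ := (aP p u c (s - δ) + aM p u c (s - δ)) - (aP p u c (s' + δ) + aM p u c (s' + δ))
    with hDdef
  set τ : ℝ → ℝ := fun σ => tP p u c σ + tM p u c σ with hτ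
  have hτ0 : ∀ σ, 0 ≤ τ σ := fun σ => add_nonneg (tP_nonneg hp0.le _ _) (tP_nonneg hp0.le _ _)
  have hτC : ∀ σ, τ σ ≤ C0 := fun σ =>
    (add_le_add (tP_le_te hD hp0 hu' c σ) (tP_le_te hD hp0 hu'.neg c σ)).trans (te_add hD hu)
  have hgrad : mass (fun z => ‖fderiv ℝ u z‖ ^ 2) c (-(p * (s - δ))) ≤ 2 * C0 / p := by
    have h1 : ∫ z in ball c (Real.exp (-(p * (s - δ)))), ‖fderiv ℝ u z‖ ^ 2
        ≤ ∫ z in Ω, ‖fderiv ℝ u z‖ ^ 2 := by
      apply setIntegral_mono_set hu.hint
      · exact Eventually.of_forall fun z => by positivity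
      · exact ((ball_subset_ball (Real.exp_le_exp.2 hT.le)).trans hc).eventuallyLE
    have h2 := hu.energy
    have h3 : ∫ z in Ω, ‖fderiv ℝ u z‖ ^ 2 ≤ 4 * π * C0 / p := by
      rw [le_div_iff₀ hp0]; linarith
    unfold mass
    calc (2 * π)⁻¹ * ∫ z in ball c (Real.exp (-(p * (s - δ)))), ‖fderiv ℝ u z‖ ^ 2
        ≤ (2 * π)⁻¹ * (4 * π * C0 / p) :=
          mul_le_mul_of_nonneg_left (h1.trans h3) (by positivity)
      _ = 2 * C0 / p := by
          have := Real.pi_pos
          field_simp; ring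
  have hexpeq : Real.exp (-(2 * (p * δ) / π)) = Real.exp (-(2 * δ / π * p)) := by
    congr 1; ring
  rw [hexpeq] at hwin
  have hbound : ∫ σ in s..s', G σ ≤ W * D / 2 + C0 / 2 * Real.exp (-(2 * δ / π * p))
      + C0 / (p + 1) := by
    have h1 : Real.exp (-(2 * δ / π * p)) * mass (fun z => ‖fderiv ℝ u z‖ ^ 2) c (-(p * (s - δ)))
        ≤ Real.exp (-(2 * δ / π * p)) * (2 * C0 / p) :=
      mul_le_mul_of_nonneg_left hgrad (Real.exp_pos _).le
    have h2 : 2 * (2 / (p * (p + 1)) * (tP p u c s + tM p u c s))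
        ≤ 2 * (2 / (p * (p + 1)) * C0) := by
      have := hτC s
      rw [hτ] at this
      simp only at this
      have h0 : 0 ≤ 2 / (p * (p + 1)) := by positivity
      nlinarith
    have h3 : 4 / p * ∫ σ in s..s', G σ ≤ W * (2 / p * (aP p u c (s - δ) + aM p u c (s - δ))
        - 2 / p * (aP p u c (s' + δ) + aM p u c (s' + δ)))
        + Real.exp (-(2 * δ / π * p)) * (2 * C0 / p) + 2 * (2 / (p * (p + 1)) * C0) := by
      linarith
    have h4 : p / 4 * (4 / p * ∫ σ in s..s', G σ) = ∫ σ in s..s', G σ := by field_simp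
    rw [← h4]
    refine (mul_le_mul_of_nonneg_left h3 (by positivity)).trans (le_of_eq ?_)
    rw [hDdef]
    field_simp
    ring
  set K : ℝ := W * D / (2 * (s' - s)) + (C0 / 2 * Real.exp (-(2 * δ / π * p))
      + C0 / (p + 1)) / L with hK
  have hex : ∃ σ ∈ Icc s s', G σ ≤ K := by
    by_contra hcon
    push Not at hcon
    have hpos : 0 < ∫ σ in s..s', (G σ - K) := by
      apply intervalIntegral.intervalIntegral_pos_of_pos_on
        ((hGc.sub continuous_const).intervalIntegrable _ _) _ hss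
      intro σ hσ
      show 0 < G σ - K
      exact sub_pos.2 (hcon σ (Ioo_subset_Icc_self hσ))
    rw [intervalIntegral.integral_sub (hGc.intervalIntegrable _ _) intervalIntegrable_const,
      intervalIntegral.integral_const, smul_eq_mul] at hpos
    have h5 : W * D / 2 + C0 / 2 * Real.exp (-(2 * δ / π * p)) + C0 / (p + 1)
        ≤ (s' - s) * K := by
      rw [hK]
      have h6 : 0 ≤ C0 / 2 * Real.exp (-(2 * δ / π * p)) + C0 / (p + 1) := by positivity
      have h7 : (s' - s) * (W * D / (2 * (s' - s)) + (C0 / 2 * Real.exp (-(2 * δ / π * p))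
          + C0 / (p + 1)) / L) = W * D / 2 + (s' - s) / L * (C0 / 2 * Real.exp (-(2 * δ / π * p))
          + C0 / (p + 1)) := by
        have h8 : s' - s ≠ 0 := by linarith
        field_simp
      rw [h7]
      have h9 : 1 ≤ (s' - s) / L := by rw [le_div_iff₀ hL]; linarith
      nlinarith
    linarith
  obtain ⟨σ, hσ, hσK⟩ := hex
  refine ⟨σ, hσ, ?_⟩
  have hfin : |(aP p u c σ - aM p u c σ) ^ 2 - 2 * (tP p u c σ + tM p u c σ)|
      ≤ G σ + 2 * C0 / (p + 1) := by
    have h1 : (aP p u c σ - aM p u c σ) ^ 2 - 2 * (tP p u c σ + tM p u c σ)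
        = ((aP p u c σ - aM p u c σ) ^ 2 - 2 * (p / (p + 1)) * (tP p u c σ + tM p u c σ))
          - 2 / (p + 1) * (tP p u c σ + tM p u c σ) := by
      field_simp
      ring
    rw [h1]
    refine (abs_sub _ _).trans ?_
    have h2 : |2 / (p + 1) * (tP p u c σ + tM p u c σ)| ≤ 2 * C0 / (p + 1) := by
      have ha := hτ0 σ
      have hb := hτC σ
      rw [hτ] at ha hb
      simp only at ha hb
      rw [abs_of_nonneg (by positivity)]
      have h0 : 0 ≤ 2 / (p + 1) := by positivity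
      calc 2 / (p + 1) * (tP p u c σ + tM p u c σ) ≤ 2 / (p + 1) * C0 :=
            mul_le_mul_of_nonneg_left hb h0
        _ = 2 * C0 / (p + 1) := by ring
    linarith
  refine hfin.trans ?_
  have hE1 : C0 / 2 * Real.exp (-(2 * δ / π * p)) / L ≤ ε / 2 := by
    refine le_trans ?_ hpP2
    have h1 := Real.exp_pos (-(2 * δ / π * p))
    have h2 : C0 / 2 * Real.exp (-(2 * δ / π * p)) / L
        = C0 / (2 * L) * Real.exp (-(2 * δ / π * p)) := by field_simp
    rw [h2, mul_assoc, mul_comm p, ← mul_assoc]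
    have h3 : 0 ≤ C0 / (2 * L) * Real.exp (-(2 * δ / π * p)) := by positivity
    nlinarith
  have hE2 : C0 / (p + 1) / L + 2 * C0 / (p + 1) ≤ ε / 2 := by
    refine le_trans ?_ hpP1
    have h1 : C0 / (p + 1) / L + 2 * C0 / (p + 1) = (C0 / L + 2 * C0) / (p + 1) := by
      field_simp
    rw [h1]
    apply div_le_div_of_nonneg_left (by positivity) hp0 (by linarith)
  rw [hK, add_div] at hσK
  linarith

end Pool.Agent.LE87
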