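import Pool.Agent.LE87.PolA

set_option autoImplicit false

open Complex MeasureTheory Set Filter Topology Metric
open scoped Real

namespace Pool.Agent.LE87.PB

/-- the mean over `[0, 2π]` -/
noncomputable def mn (q : ℝ → ℝ) : ℝ := (2 * π)⁻¹ * ∫ θ in (0 : ℝ)..(2 * π), q θ

theorem avg_eq_mn (g : ℂ → ℝ) (c : ℂ) (t : ℝ) : avg g c t = mn (fun θ => g (pt c t θ)) := rfl

theorem twopi_pos : (0 : ℝ) < 2 * π := by positivity

theorem mn_add {q r : ℝ → ℝ} (hq : Continuous q) (hr : Continuous r) :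
    mn (fun θ => q θ + r θ) = mn q + mn r := by
  unfold mn
  rw [intervalIntegral.integral_add (hq.intervalIntegrable _ _) (hr.intervalIntegrable _ _)]
  ring

theorem mn_sub {q r : ℝ → ℝ} (hq : Continuous q) (hr : Continuous r) :
    mn (fun θ => q θ - r θ) = mn q - mn r := by
  unfold mn
  rw [intervalIntegral.integral_sub (hq.intervalIntegrable _ _) (hr.intervalIntegrable _ _)]
  ring

theorem mn_const_mul (a : ℝ) (q : ℝ → ℝ) : mn (fun θ => a * q θ) = a * mn q := by
  unfold mn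
  rw [intervalIntegral.integral_const_mul]
  ring

theorem mn_neg (q : ℝ → ℝ) : mn (fun θ => -q θ) = -mn q := by
  unfold mn
  rw [intervalIntegral.integral_neg]
  ring

theorem mn_const (a : ℝ) : mn (fun _ => a) = a := by
  unfold mn
  have : (2 * π) ≠ 0 := twopi_pos.ne'
  rw [intervalIntegral.integral_const]
  simp only [smul_eq_mul, sub_zero]
  field_simp

theorem mn_mono {q r : ℝ → ℝ} (hq : Continuous q) (hr : Continuous r)
    (h : ∀ θ ∈ Icc (0 : ℝ) (2 * π), q θ ≤ r θ) : mn q ≤ mn r := by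
  unfold mn
  have h1 : ∫ θ in (0 : ℝ)..(2 * π), q θ ≤ ∫ θ in (0 : ℝ)..(2 * π), r θ :=
    intervalIntegral.integral_mono_on twopi_pos.le (hq.intervalIntegrable _ _)
      (hr.intervalIntegrable _ _) h
  exact mul_le_mul_of_nonneg_left h1 (by positivity)

theorem mn_nonneg {q : ℝ → ℝ} (hq : Continuous q) (h : ∀ θ, 0 ≤ q θ) : 0 ≤ mn q := by
  have := mn_mono (continuous_const (y := (0 : ℝ))) hq (fun θ _ => h θ)
  rwa [mn_const] at this

theorem abs_mn_le {q r : ℝ → ℝ} (hq : Continuous q) (hr : Continuous r)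
    (h : ∀ θ ∈ Icc (0 : ℝ) (2 * π), |q θ| ≤ r θ) : |mn q| ≤ mn r := by
  rw [abs_le]
  constructor
  · rw [← mn_neg]
    exact mn_mono hr.neg hq (fun θ hθ => (abs_le.1 (h θ hθ)).1)
  · exact mn_mono hq hr (fun θ hθ => (abs_le.1 (h θ hθ)).2)

/-- integration of a derivative of a periodic function -/
theorem mn_deriv {G G' : ℝ → ℝ} (hG : ∀ θ, HasDerivAt G (G' θ) θ) (hG' : Continuous G')
    (hper : G (2 * π) = G 0) : mn G' = 0 := by
  unfold mn
  rw [intervalIntegral.integral_eq_sub_of_hasDerivAt (f := G) (fun θ _ => hG θ)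
    (hG'.intervalIntegrable _ _), hper, sub_self, mul_zero]

theorem sq_mn_le {q : ℝ → ℝ} (hq : Continuous q) : mn q ^ 2 ≤ mn (fun θ => q θ ^ 2) := by
  have h1 : 0 ≤ mn (fun θ => (q θ - mn q) ^ 2) :=
    mn_nonneg ((hq.sub continuous_const).pow 2) (fun θ => sq_nonneg _)
  have h2 : mn (fun θ => (q θ - mn q) ^ 2) = mn (fun θ => q θ ^ 2) - mn q ^ 2 := by
    have h3 : (fun θ => (q θ - mn q) ^ 2)
        = fun θ => (q θ ^ 2 - (2 * mn q) * q θ) + mn q ^ 2 := by
      funext θ; ring
    rw [h3, mn_add (q := fun θ => q θ ^ 2 - (2 * mn q) * q θ) (r := fun _ => mn q ^ 2)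
      ((hq.pow 2).sub (continuous_const.mul hq)) continuous_const,
      mn_sub (q := fun θ => q θ ^ 2) (r := fun θ => (2 * mn q) * q θ) (hq.pow 2)
        (continuous_const.mul hq), mn_const_mul, mn_const]
    ring
  linarith

/-- the variance formula -/
theorem mn_var {q : ℝ → ℝ} (hq : Continuous q) (a : ℝ) :
    mn (fun θ => (q θ - a) ^ 2) = mn (fun θ => q θ ^ 2) - 2 * a * mn q + a ^ 2 := by
  have h3 : (fun θ => (q θ - a) ^ 2) = fun θ => (q θ ^ 2 - (2 * a) * q θ) + a ^ 2 := by
    funext θ; ring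
  rw [h3, mn_add (q := fun θ => q θ ^ 2 - (2 * a) * q θ) (r := fun _ => a ^ 2)
    ((hq.pow 2).sub (continuous_const.mul hq)) continuous_const,
    mn_sub (q := fun θ => q θ ^ 2) (r := fun θ => (2 * a) * q θ) (hq.pow 2)
      (continuous_const.mul hq), mn_const_mul, mn_const]

/-- a zero-mean periodic function is bounded by `π` times the mean of its derivative -/
theorem abs_le_pi_mn {w w' : ℝ → ℝ} (hw : ∀ θ, HasDerivAt w (w' θ) θ) (hw' : Continuous w')
    (hper : w (2 * π) = w 0) (h0 : mn w = 0) {θ : ℝ} (hθ : θ ∈ Icc (0 : ℝ) (2 * π)) :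
    |w θ| ≤ π * mn (fun θ => |w' θ|) := by
  have hpi := twopi_pos
  have hwc : Continuous w := continuous_iff_continuousAt.2 fun x => (hw x).continuousAt
  -- a zero
  obtain ⟨x, hx, hwx⟩ : ∃ x ∈ Ioo (0 : ℝ) (2 * π), w x = 0 := by
    have hd : ∀ x ∈ Ioo (0 : ℝ) (2 * π), HasDerivAt (fun y => ∫ s in (0 : ℝ)..y, w s) (w x) x :=
      fun x _ => intervalIntegral.integral_hasDerivAt_right (hwc.intervalIntegrable _ _)
        (hwc.stronglyMeasurableAtFilter _ _) hwc.continuousAt
    have hc : ContinuousOn (fun y => ∫ s in (0 : ℝ)..y, w s) (Icc 0 (2 * π)) := by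
      have : Continuous (fun y => ∫ s in (0 : ℝ)..y, w s) :=
        continuous_iff_continuousAt.2 fun x => (intervalIntegral.integral_hasDerivAt_right
          (hwc.intervalIntegrable _ _) (hwc.stronglyMeasurableAtFilter _ _) hwc.continuousAt).continuousAt
      exact this.continuousOn
    have he : (fun y => ∫ s in (0 : ℝ)..y, w s) 0 = (fun y => ∫ s in (0 : ℝ)..y, w s) (2 * π) := by
      simp only [intervalIntegral.integral_same]
      unfold mn at h0
      rcases mul_eq_zero.1 h0 with h | h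
      · exact absurd h (by positivity)
      · exact h.symm
    exact exists_hasDerivAt_eq_zero hpi hc he hd
  -- primitive of `|w'|`
  have hi : ∀ a b : ℝ, IntervalIntegrable (fun θ => |w' θ|) volume a b :=
    fun a b => hw'.abs.intervalIntegrable _ _
  have hft : ∀ a b : ℝ, a ≤ b → |w b - w a| ≤ ∫ s in a..b, |w' s| := by
    intro a b hab
    rw [← intervalIntegral.integral_eq_sub_of_hasDerivAt (f := w) (fun θ _ => hw θ)
      (hw'.intervalIntegrable a b)]
    exact intervalIntegral.abs_integral_le_integral_abs hab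
  have key : ∀ a b : ℝ, 0 ≤ a → a ≤ b → b ≤ 2 * π →
      2 * |w b - w a| ≤ ∫ s in (0 : ℝ)..(2 * π), |w' s| := by
    intro a b ha hab hb
    have h1 := hft a b hab
    have h2 := hft 0 a ha
    have h3 := hft b (2 * π) hb
    have h4 : w b - w a = -((w a - w 0) + (w (2 * π) - w b)) := by rw [hper]; ring
    have h5 : |w b - w a| ≤ |w a - w 0| + |w (2 * π) - w b| := by
      rw [h4, abs_neg]; exact abs_add_le _ _
    have h6 : ∫ s in (0 : ℝ)..(2 * π), |w' s|
        = (∫ s in (0 : ℝ)..a, |w' s|) + (∫ s in a..b, |w' s|) + ∫ s in b..(2 * π), |w' s| := by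
      rw [intervalIntegral.integral_add_adjacent_intervals (hi _ _) (hi _ _),
        intervalIntegral.integral_add_adjacent_intervals (hi _ _) (hi _ _)]
    rw [h6]
    linarith
  have hfin : 2 * |w θ| ≤ ∫ s in (0 : ℝ)..(2 * π), |w' s| := by
    rcases le_total θ x with h | h
    · have := key θ x hθ.1 h hx.2.le
      rwa [hwx, zero_sub, abs_neg] at this
    · have := key x θ hx.1.le h hθ.2
      rwa [hwx, sub_zero] at this
  have h7 : π * mn (fun θ => |w' θ|) = (∫ s in (0 : ℝ)..(2 * π), |w' s|) / 2 := by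
    unfold mn
    have : π ≠ 0 := Real.pi_ne_zero
    field_simp
  rw [h7]
  linarith

/-- Poincaré inequality on the circle with constant `π²` -/
theorem poincare {w w' : ℝ → ℝ} (hw : ∀ θ, HasDerivAt w (w' θ) θ) (hw' : Continuous w')
    (hper : w (2 * π) = w 0) (h0 : mn w = 0) :
    mn (fun θ => w θ ^ 2) ≤ π ^ 2 * mn (fun θ => w' θ ^ 2) := by
  have hwc : Continuous w := continuous_iff_continuousAt.2 fun x => (hw x).continuousAt
  have h1 : mn (fun θ => |w' θ|) ^ 2 ≤ mn (fun θ => w' θ ^ 2) := by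
    have := sq_mn_le hw'.abs
    simpa only [sq_abs] using this
  have h2 : mn (fun θ => w θ ^ 2) ≤ mn (fun _ => π ^ 2 * mn (fun θ => w' θ ^ 2)) := by
    refine mn_mono (hwc.pow 2) continuous_const fun θ hθ => ?_
    have h3 := abs_le_pi_mn hw hw' hper h0 hθ
    have h4 : w θ ^ 2 ≤ (π * mn (fun θ => |w' θ|)) ^ 2 := by
      rw [← sq_abs (w θ)]
      exact pow_le_pow_left₀ (abs_nonneg _) h3 2
    rw [mul_pow] at h4
    exact h4.trans (mul_le_mul_of_nonneg_left h1 (by positivity))
  rwa [mn_const] at h2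

end Pool.Agent.LE87.PB
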