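import Pool.Agent.LE87.PohB1

set_option autoImplicit false

open Complex MeasureTheory Set Filter Topology Metric
open scoped Real

namespace Pool.Agent.LE87.PB

theorem hasDerivAt_mn {F F' : ℝ → ℝ → ℝ} {T t : ℝ} (ht : t < T)
    (hd : ∀ s < T, ∀ θ, HasDerivAt (fun s => F s θ) (F' s θ) s)
    (hF : ContinuousOn (fun p : ℝ × ℝ => F p.1 p.2) (Iio T ×ˢ univ))
    (hF' : ContinuousOn (fun p : ℝ × ℝ => F' p.1 p.2) (Iio T ×ˢ univ)) :
    HasDerivAt (fun s => mn (F s)) (mn (F' t)) t := mean_hasDerivAt ht hd hF hF'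

theorem const_Iio {B : ℝ → ℝ} {T s t : ℝ} (hd : ∀ x < T, HasDerivAt B 0 x) (hs : s < T)
    (ht : t < T) : B s = B t :=
  (convex_Iio T).is_const_of_fderivWithin_eq_zero (𝕜 := ℝ)
    (fun x hx => (hd x hx).differentiableAt.differentiableWithinAt)
    (fun x hx => by
      rw [fderivWithin_of_isOpen isOpen_Iio hx]
      ext
      simp [(hd x hx).deriv]) hs ht

theorem zero_of_tendsto {B : ℝ → ℝ} {T t : ℝ} (hd : ∀ x < T, HasDerivAt B 0 x) (ht : t < T)
    (hl : Tendsto B atBot (𝓝 0)) : B t = 0 := by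
  have h2 : Tendsto B atBot (𝓝 (B t)) := by
    refine tendsto_const_nhds.congr' ?_
    filter_upwards [Iio_mem_atBot T] with s hs
    exact const_Iio hd ht hs
  exact tendsto_nhds_unique h2 hl

/-- mean of `(∂_t u)^2` -/
noncomputable def T1 (u : ℂ → ℝ) (c : ℂ) (s : ℝ) : ℝ := mn (fun θ => Qt u c s θ ^ 2)

/-- mean of `(∂_θ u)^2` -/
noncomputable def T2 (u : ℂ → ℝ) (c : ℂ) (s : ℝ) : ℝ := mn (fun θ => Qh u c s θ ^ 2)

/-- `Var (∂_t u) + mean (∂_θ u)^2` -/
noncomputable def NN (u : ℂ → ℝ) (c : ℂ) (s : ℝ) : ℝ := T1 u c s - mn (Qt u c s) ^ 2 + T2 u c s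

/-- the covariance of `u` and `∂_t u` -/
noncomputable def QQ (u : ℂ → ℝ) (c : ℂ) (s : ℝ) : ℝ :=
  mn (fun θ => u (pt c s θ) * Qt u c s θ) - avg u c s * mn (Qt u c s)

section
variable {u : ℂ → ℝ} {f F : ℝ → ℝ} {c : ℂ} {T t : ℝ}

theorem cP (hu : ContDiffOn ℝ 2 u (ball c (Real.exp T))) :
    ContinuousOn (fun p : ℝ × ℝ => u (pt c p.1 p.2)) (Iio T ×ˢ univ) :=
  cont_comp_pt hu.continuousOn

theorem sP (hu : ContDiffOn ℝ 2 u (ball c (Real.exp T))) (ht : t < T) :
    Continuous (fun θ => u (pt c t θ)) :=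
  slice_right (F := fun t θ => u (pt c t θ)) (cP hu) ht

theorem sQt (hu : ContDiffOn ℝ 2 u (ball c (Real.exp T))) (ht : t < T) :
    Continuous (Qt u c t) := slice_right (cont_Qt hu) ht

theorem sQh (hu : ContDiffOn ℝ 2 u (ball c (Real.exp T))) (ht : t < T) :
    Continuous (Qh u c t) := slice_right (cont_Qh hu) ht

theorem sQtt (hu : ContDiffOn ℝ 2 u (ball c (Real.exp T))) (ht : t < T) :
    Continuous (Qtt u c t) := slice_right (cont_Qtt hu) ht

theorem sQth (hu : ContDiffOn ℝ 2 u (ball c (Real.exp T))) (ht : t < T) :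
    Continuous (Qth u c t) := slice_right (cont_Qth hu) ht

theorem sQhh (hu : ContDiffOn ℝ 2 u (ball c (Real.exp T))) (ht : t < T) :
    Continuous (Qhh u c t) := slice_right (cont_Qhh hu) ht

theorem T1_hasDerivAt (hu : ContDiffOn ℝ 2 u (ball c (Real.exp T))) (ht : t < T) :
    HasDerivAt (T1 u c) (mn (fun θ => 2 * (Qt u c t θ * Qtt u c t θ))) t := by
  unfold T1
  refine hasDerivAt_mn (F := fun s θ => Qt u c s θ ^ 2)
    (F' := fun s θ => 2 * (Qt u c s θ * Qtt u c s θ)) ht (fun s hs θ => ?_) ((cont_Qt hu).pow 2)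
    (continuousOn_const.mul ((cont_Qt hu).mul (cont_Qtt hu)))
  refine ((hasDerivAt_Qt_t hu hs θ).pow 2).congr_deriv ?_
  simp; ring

theorem T2_hasDerivAt (hu : ContDiffOn ℝ 2 u (ball c (Real.exp T))) (ht : t < T) :
    HasDerivAt (T2 u c) (mn (fun θ => 2 * (Qh u c t θ * Qth u c t θ))) t := by
  unfold T2
  refine hasDerivAt_mn (F := fun s θ => Qh u c s θ ^ 2)
    (F' := fun s θ => 2 * (Qh u c s θ * Qth u c s θ)) ht (fun s hs θ => ?_) ((cont_Qh hu).pow 2)
    (continuousOn_const.mul ((cont_Qh hu).mul (cont_Qth hu)))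
  refine ((hasDerivAt_Qh_t hu hs θ).pow 2).congr_deriv ?_
  simp; ring

theorem mQt_hasDerivAt (hu : ContDiffOn ℝ 2 u (ball c (Real.exp T))) (ht : t < T) :
    HasDerivAt (fun s => mn (Qt u c s)) (mn (Qtt u c t)) t :=
  hasDerivAt_mn (F := Qt u c) (F' := Qtt u c) ht
      (fun _ hs θ => hasDerivAt_Qt_t hu hs θ) (cont_Qt hu) (cont_Qtt hu)

theorem mPQ_hasDerivAt (hu : ContDiffOn ℝ 2 u (ball c (Real.exp T))) (ht : t < T) :
    HasDerivAt (fun s => mn (fun θ => u (pt c s θ) * Qt u c s θ))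
      (mn (fun θ => Qt u c t θ ^ 2 + u (pt c t θ) * Qtt u c t θ)) t := by
  refine hasDerivAt_mn (F := fun s θ => u (pt c s θ) * Qt u c s θ)
    (F' := fun s θ => Qt u c s θ ^ 2 + u (pt c s θ) * Qtt u c s θ) ht (fun s hs θ => ?_)
    ((cP hu).mul (cont_Qt hu)) (((cont_Qt hu).pow 2).add ((cP hu).mul (cont_Qtt hu)))
  refine ((hasDerivAt_u_t hu hs θ).mul (hasDerivAt_Qt_t hu hs θ)).congr_deriv ?_
  ring

theorem avg_hasDerivAt' (hu : ContDiffOn ℝ 2 u (ball c (Real.exp T))) (ht : t < T) :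
    HasDerivAt (avg u c) (mn (Qt u c t)) t :=
  hasDerivAt_mn (F := fun s θ => u (pt c s θ)) (F' := Qt u c) ht
    (fun _ hs θ => hasDerivAt_u_t hu hs θ) (cP hu) (cont_Qt hu)

theorem avgF_hasDerivAt (hu : ContDiffOn ℝ 2 u (ball c (Real.exp T))) (hf : Continuous f)
    (hF : ∀ y, HasDerivAt F (f y) y) (ht : t < T) :
    HasDerivAt (avg (fun z => F (u z)) c) (mn (fun θ => f (u (pt c t θ)) * Qt u c t θ)) t := by
  have hFc : Continuous F := continuous_iff_continuousAt.2 fun x => (hF x).continuousAt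
  exact hasDerivAt_mn (F := fun s θ => F (u (pt c s θ)))
    (F' := fun s θ => f (u (pt c s θ)) * Qt u c s θ) ht
    (fun s hs θ => (hF _).comp s (hasDerivAt_u_t hu hs θ))
    (hFc.comp_continuousOn (cP hu)) ((hf.comp_continuousOn (cP hu)).mul (cont_Qt hu))

theorem polar_eq (hu : ContDiffOn ℝ 2 u (ball c (Real.exp T)))
    (heq : ∀ z ∈ ball c (Real.exp T), -lap u z = f (u z)) (ht : t < T) (θ : ℝ) :
    Qtt u c t θ = -Qhh u c t θ - Real.exp (2 * t) * f (u (pt c t θ)) := by
  have h1 := Qtt_add_Qhh hu ht θ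
  have h2 := heq _ (mem_ball_pt ht θ)
  have h3 : lap u (pt c t θ) = -f (u (pt c t θ)) := by linarith
  rw [h3] at h1
  linarith

theorem mn_HtQ (hu : ContDiffOn ℝ 2 u (ball c (Real.exp T))) (ht : t < T) :
    mn (fun θ => Qh u c t θ * Qth u c t θ) = -mn (fun θ => Qt u c t θ * Qhh u c t θ) := by
  have h1 : mn (fun θ => Qhh u c t θ * Qt u c t θ + Qh u c t θ * Qth u c t θ) = 0 := by
    refine mn_deriv (G := fun θ => Qh u c t θ * Qt u c t θ)
      (fun θ => (hasDerivAt_Qh_h hu ht θ).mul (hasDerivAt_Qt_h hu ht θ))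
      (((sQhh hu ht).mul (sQt hu ht)).add ((sQh hu ht).mul (sQth hu ht))) ?_
    have e1 := Qh_periodic u c t 0
    have e2 := Qt_periodic u c t 0
    rw [zero_add] at e1 e2
    simp only [e1, e2]
  rw [mn_add (q := fun θ => Qhh u c t θ * Qt u c t θ) (r := fun θ => Qh u c t θ * Qth u c t θ)
    ((sQhh hu ht).mul (sQt hu ht)) ((sQh hu ht).mul (sQth hu ht))] at h1
  have h2 : (fun θ => Qhh u c t θ * Qt u c t θ) = fun θ => Qt u c t θ * Qhh u c t θ := by
    funext θ; ring
  rw [h2] at h1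
  linarith

theorem mn_PQhh (hu : ContDiffOn ℝ 2 u (ball c (Real.exp T))) (ht : t < T) :
    mn (fun θ => u (pt c t θ) * Qhh u c t θ) = -T2 u c t := by
  have h1 : mn (fun θ => Qh u c t θ * Qh u c t θ + u (pt c t θ) * Qhh u c t θ) = 0 := by
    refine mn_deriv (G := fun θ => u (pt c t θ) * Qh u c t θ)
      (fun θ => (hasDerivAt_u_h hu ht θ).mul (hasDerivAt_Qh_h hu ht θ))
      (((sQh hu ht).mul (sQh hu ht)).add ((sP hu ht).mul (sQhh hu ht))) ?_
    have e1 := Qh_periodic u c t 0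
    have e2 := pt_periodic c t 0
    rw [zero_add] at e1 e2
    simp only [e1, e2]
  rw [mn_add (q := fun θ => Qh u c t θ * Qh u c t θ) (r := fun θ => u (pt c t θ) * Qhh u c t θ)
    ((sQh hu ht).mul (sQh hu ht)) ((sP hu ht).mul (sQhh hu ht))] at h1
  have h2 : (fun θ => Qh u c t θ * Qh u c t θ) = fun θ => Qh u c t θ ^ 2 := by
    funext θ; ring
  rw [h2] at h1
  unfold T2
  linarith

theorem mn_Qhh_zero (hu : ContDiffOn ℝ 2 u (ball c (Real.exp T))) (ht : t < T) :
    mn (Qhh u c t) = 0 := by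
  refine mn_deriv (G := fun θ => Qh u c t θ) (fun θ => hasDerivAt_Qh_h hu ht θ) (sQhh hu ht) ?_
  have e1 := Qh_periodic u c t 0
  rwa [zero_add] at e1

theorem sf (hu : ContDiffOn ℝ 2 u (ball c (Real.exp T))) (hf : Continuous f) (ht : t < T) :
    Continuous (fun θ => f (u (pt c t θ))) := hf.comp (sP hu ht)

theorem Q_small (hu : ContDiffOn ℝ 2 u (ball c (Real.exp T))) {T' : ℝ} (hT : T' < T) :
    ∃ C : ℝ, ∀ s ≤ T', |T1 u c s - T2 u c s| ≤ C * Real.exp (2 * s) := by
  obtain ⟨C, hC0, hC⟩ := Q_bound hu hT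
  refine ⟨2 * C ^ 2, fun s hs => ?_⟩
  have hsT : s < T := lt_of_le_of_lt hs hT
  have he : Real.exp (2 * s) = Real.exp s ^ 2 := by
    rw [← Real.exp_nat_mul]; norm_num
  unfold T1 T2
  rw [← mn_sub (q := fun θ => Qt u c s θ ^ 2) (r := fun θ => Qh u c s θ ^ 2)
    ((sQt hu hsT).pow 2) ((sQh hu hsT).pow 2)]
  have h1 := abs_mn_le (q := fun θ => Qt u c s θ ^ 2 - Qh u c s θ ^ 2)
    (r := fun _ => 2 * C ^ 2 * Real.exp (2 * s))
    (((sQt hu hsT).pow 2).sub ((sQh hu hsT).pow 2)) continuous_const ?_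
  · rwa [mn_const] at h1
  · intro θ _
    have h2 : Qt u c s θ ^ 2 ≤ (C * Real.exp s) ^ 2 := by
      rw [← sq_abs (Qt u c s θ)]
      exact pow_le_pow_left₀ (abs_nonneg _) (hC s hs θ).1 2
    have h3 : Qh u c s θ ^ 2 ≤ (C * Real.exp s) ^ 2 := by
      rw [← sq_abs (Qh u c s θ)]
      exact pow_le_pow_left₀ (abs_nonneg _) (hC s hs θ).2.1 2
    rw [he]
    rw [mul_pow] at h2 h3
    rw [abs_le]
    constructor <;> nlinarith [sq_nonneg (Qt u c s θ), sq_nonneg (Qh u c s θ)]

/-- **Pohozaev identity** -/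
theorem poho (hu : ContDiffOn ℝ 2 u (ball c (Real.exp T))) (hf : Continuous f)
    (hF : ∀ y, HasDerivAt F (f y) y)
    (heq : ∀ z ∈ ball c (Real.exp T), -lap u z = f (u z)) (ht : t < T) :
    T1 u c t - T2 u c t + 2 * (Real.exp (2 * t) * avg (fun z => F (u z)) c t)
      = 4 * mass (fun z => F (u z)) c t := by
  have hFc : Continuous F := continuous_iff_continuousAt.2 fun x => (hF x).continuousAt
  have hFu : ContinuousOn (fun z => F (u z)) (ball c (Real.exp T)) :=
    hFc.comp_continuousOn hu.continuousOn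
  set B : ℝ → ℝ := fun s => T1 u c s - T2 u c s
    + 2 * (Real.exp (2 * s) * avg (fun z => F (u z)) c s) - 4 * mass (fun z => F (u z)) c s with hB
  have hexp : ∀ s : ℝ, HasDerivAt (fun s => Real.exp (2 * s)) (2 * Real.exp (2 * s)) s := by
    intro s
    have := ((hasDerivAt_id s).const_mul 2).exp
    simpa [mul_comm] using this
  have hBd : ∀ s < T, HasDerivAt B 0 s := by
    intro s hs
    have h1 := (((T1_hasDerivAt hu hs).sub (T2_hasDerivAt hu hs)).add
      (((hexp s).mul (avgF_hasDerivAt hu hf hF hs)).const_mul 2)).sub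
      ((mass_hasDerivAt hFu hs).const_mul 4)
    refine h1.congr_deriv ?_
    have e1 : mn (fun θ => 2 * (Qt u c s θ * Qtt u c s θ))
        = -2 * mn (fun θ => Qt u c s θ * Qhh u c s θ)
          - 2 * Real.exp (2 * s) * mn (fun θ => f (u (pt c s θ)) * Qt u c s θ) := by
      have e2 : (fun θ => 2 * (Qt u c s θ * Qtt u c s θ))
          = fun θ => -2 * (Qt u c s θ * Qhh u c s θ)
            - (2 * Real.exp (2 * s)) * (f (u (pt c s θ)) * Qt u c s θ) := by
        funext θ
        rw [polar_eq hu heq hs θ]; ring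
      rw [e2, mn_sub (q := fun θ => -2 * (Qt u c s θ * Qhh u c s θ))
        (r := fun θ => (2 * Real.exp (2 * s)) * (f (u (pt c s θ)) * Qt u c s θ))
        (continuous_const.mul ((sQt hu hs).mul (sQhh hu hs)))
        (continuous_const.mul ((sf hu hf hs).mul (sQt hu hs))), mn_const_mul, mn_const_mul]
    have e3 : mn (fun θ => 2 * (Qh u c s θ * Qth u c s θ))
        = -2 * mn (fun θ => Qt u c s θ * Qhh u c s θ) := by
      rw [mn_const_mul, mn_HtQ hu hs]; ring
    rw [e1, e3]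
    ring
  have hBlim : Tendsto B atBot (𝓝 0) := by
    obtain ⟨C, hC⟩ := Q_small hu ht
    have hexp0 : Tendsto (fun s : ℝ => Real.exp (2 * s)) atBot (𝓝 0) :=
      Real.tendsto_exp_atBot.comp (tendsto_id.const_mul_atBot (by norm_num : (0 : ℝ) < 2))
    have h1 : Tendsto (fun s => T1 u c s - T2 u c s) atBot (𝓝 0) := by
      have h2 : Tendsto (fun s : ℝ => C * Real.exp (2 * s)) atBot (𝓝 0) := by
        simpa using hexp0.const_mul C
      refine squeeze_zero_norm' ?_ h2
      filter_upwards [Iic_mem_atBot t] with s hs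
      rw [Real.norm_eq_abs]
      exact hC s hs
    have h3 : Tendsto (fun s => 2 * (Real.exp (2 * s) * avg (fun z => F (u z)) c s)) atBot
        (𝓝 (2 * (0 * F (u c)))) :=
      (hexp0.mul (avg_tendsto hFu)).const_mul 2
    have h4 : Tendsto (fun s => 4 * mass (fun z => F (u z)) c s) atBot (𝓝 (4 * 0)) :=
      (mass_tendsto hFu).const_mul 4
    have h5 := (h1.add h3).sub h4
    simpa using h5
  have h9 : B t = 0 := zero_of_tendsto hBd ht hBlim
  have h10 : B t = T1 u c t - T2 u c t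
    + 2 * (Real.exp (2 * t) * avg (fun z => F (u z)) c t) - 4 * mass (fun z => F (u z)) c t := rfl
  linarith

theorem mn_Qt_eq (hu : ContDiffOn ℝ 2 u (ball c (Real.exp T)))
    (heq : ∀ z ∈ ball c (Real.exp T), -lap u z = f (u z)) (ht : t < T) :
    mn (Qt u c t) = -mass (fun z => f (u z)) c t := by
  have h1 : mn (Qt u c t) = mass (lap u) c t := mean_Qt hu ht
  rw [h1]
  unfold mass
  rw [← mul_neg, ← integral_neg]
  congr 1
  refine setIntegral_congr_fun measurableSet_ball fun z hz => ?_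
  have hz' : z ∈ ball c (Real.exp T) :=
    ball_subset_ball (Real.exp_le_exp.2 ht.le) hz
  have := heq z hz'
  linarith

theorem var_Qt_nonneg (hu : ContDiffOn ℝ 2 u (ball c (Real.exp T))) (ht : t < T) :
    mn (Qt u c t) ^ 2 ≤ T1 u c t := sq_mn_le (sQt hu ht)

theorem T2_nonneg (hu : ContDiffOn ℝ 2 u (ball c (Real.exp T))) (ht : t < T) :
    0 ≤ T2 u c t := mn_nonneg ((sQh hu ht).pow 2) (fun _ => sq_nonneg _)

theorem NN_nonneg (hu : ContDiffOn ℝ 2 u (ball c (Real.exp T))) (ht : t < T) :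
    0 ≤ NN u c t := by
  have := var_Qt_nonneg hu ht
  have := T2_nonneg hu ht
  unfold NN
  linarith

/-- pointwise form of the window inequality -/
theorem pointwise_window (hu : ContDiffOn ℝ 2 u (ball c (Real.exp T))) (hf : Continuous f)
    (hF : ∀ y, HasDerivAt F (f y) y) (hF0 : ∀ y, 0 ≤ F y)
    (heq : ∀ z ∈ ball c (Real.exp T), -lap u z = f (u z)) (ht : t < T) :
    |(mass (fun z => f (u z)) c t) ^ 2 - 4 * mass (fun z => F (u z)) c t| ≤
      NN u c t + 2 * (Real.exp (2 * t) * avg (fun z => F (u z)) c t) := by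
  have h1 := poho hu hf hF heq ht
  have h2 := mn_Qt_eq hu heq ht
  have h3 := var_Qt_nonneg hu ht
  have h4 := T2_nonneg hu ht
  have hFc : Continuous F := continuous_iff_continuousAt.2 fun x => (hF x).continuousAt
  have h5 : 0 ≤ avg (fun z => F (u z)) c t := by
    rw [avg_eq_mn]
    exact mn_nonneg (hFc.comp (sP hu ht)) (fun _ => hF0 _)
  have h6 : 0 ≤ Real.exp (2 * t) * avg (fun z => F (u z)) c t := by positivity
  have h7 : (mass (fun z => f (u z)) c t) ^ 2 = mn (Qt u c t) ^ 2 := by rw [h2]; ring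
  rw [h7]
  unfold NN
  rw [abs_le]
  constructor <;> linarith

theorem QQ_hasDerivAt (hu : ContDiffOn ℝ 2 u (ball c (Real.exp T))) (hf : Continuous f)
    (heq : ∀ z ∈ ball c (Real.exp T), -lap u z = f (u z)) (ht : t < T) :
    HasDerivAt (QQ u c) (NN u c t
      - Real.exp (2 * t) * mn (fun θ => (u (pt c t θ) - avg u c t) * f (u (pt c t θ)))) t := by
  have h1 := (mPQ_hasDerivAt hu ht).sub ((avg_hasDerivAt' hu ht).mul (mQt_hasDerivAt hu ht))
  refine h1.congr_deriv ?_
  have hP := sP hu ht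
  have e1 : mn (fun θ => Qt u c t θ ^ 2 + u (pt c t θ) * Qtt u c t θ)
      = T1 u c t + T2 u c t
        - Real.exp (2 * t) * mn (fun θ => u (pt c t θ) * f (u (pt c t θ))) := by
    have e2 : (fun θ => Qt u c t θ ^ 2 + u (pt c t θ) * Qtt u c t θ)
        = fun θ => (Qt u c t θ ^ 2 - u (pt c t θ) * Qhh u c t θ)
          - Real.exp (2 * t) * (u (pt c t θ) * f (u (pt c t θ))) := by
      funext θ
      rw [polar_eq hu heq ht θ]; ring
    rw [e2, mn_sub (q := fun θ => Qt u c t θ ^ 2 - u (pt c t θ) * Qhh u c t θ)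
      (r := fun θ => Real.exp (2 * t) * (u (pt c t θ) * f (u (pt c t θ))))
      (((sQt hu ht).pow 2).sub (hP.mul (sQhh hu ht)))
      (continuous_const.mul (hP.mul (sf hu hf ht))), mn_const_mul,
      mn_sub (q := fun θ => Qt u c t θ ^ 2) (r := fun θ => u (pt c t θ) * Qhh u c t θ)
      ((sQt hu ht).pow 2) (hP.mul (sQhh hu ht)), mn_PQhh hu ht]
    unfold T1
    ring
  have e3 : mn (Qtt u c t) = -(Real.exp (2 * t) * mn (fun θ => f (u (pt c t θ)))) := by
    have e2 : Qtt u c t = fun θ => -Qhh u c t θ - Real.exp (2 * t) * f (u (pt c t θ)) := by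
      funext θ
      rw [polar_eq hu heq ht θ]
    rw [e2, mn_sub (q := fun θ => -Qhh u c t θ)
      (r := fun θ => Real.exp (2 * t) * f (u (pt c t θ))) (sQhh hu ht).neg
      (continuous_const.mul (sf hu hf ht)), mn_neg, mn_const_mul, mn_Qhh_zero hu ht]
    ring
  have e4 : mn (fun θ => (u (pt c t θ) - avg u c t) * f (u (pt c t θ)))
      = mn (fun θ => u (pt c t θ) * f (u (pt c t θ)))
        - avg u c t * mn (fun θ => f (u (pt c t θ))) := by
    have e5 : (fun θ => (u (pt c t θ) - avg u c t) * f (u (pt c t θ)))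
        = fun θ => u (pt c t θ) * f (u (pt c t θ)) - avg u c t * f (u (pt c t θ)) := by
      funext θ; ring
    rw [e5, mn_sub (q := fun θ => u (pt c t θ) * f (u (pt c t θ)))
      (r := fun θ => avg u c t * f (u (pt c t θ))) (hP.mul (sf hu hf ht))
      (continuous_const.mul (sf hu hf ht)), mn_const_mul]
  rw [e1, e3, e4]
  unfold NN
  ring

/-- the Saint-Venant bound `|Q| ≤ (π/2) N` -/
theorem QQ_bound (hu : ContDiffOn ℝ 2 u (ball c (Real.exp T))) (ht : t < T) :
    |QQ u c t| ≤ π / 2 * NN u c t := by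
  have hP := sP hu ht
  have hQ := sQt hu ht
  set A := avg u c t with hA
  set m := mn (Qt u c t) with hm
  have hAm : mn (fun θ => u (pt c t θ)) = A := rfl
  have h1 : QQ u c t = mn (fun θ => (u (pt c t θ) - A) * (Qt u c t θ - m)) := by
    have e1 : (fun θ => (u (pt c t θ) - A) * (Qt u c t θ - m))
        = fun θ => (u (pt c t θ) * Qt u c t θ - m * u (pt c t θ)) - (A * Qt u c t θ - A * m) := by
      funext θ; ring
    rw [e1, mn_sub (q := fun θ => u (pt c t θ) * Qt u c t θ - m * u (pt c t θ))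
      (r := fun θ => A * Qt u c t θ - A * m) ((hP.mul hQ).sub (continuous_const.mul hP))
      ((continuous_const.mul hQ).sub continuous_const),
      mn_sub (q := fun θ => u (pt c t θ) * Qt u c t θ) (r := fun θ => m * u (pt c t θ))
      (hP.mul hQ) (continuous_const.mul hP),
      mn_sub (q := fun θ => A * Qt u c t θ) (r := fun _ => A * m)
      (continuous_const.mul hQ) continuous_const, mn_const_mul, mn_const_mul, mn_const, hAm]
    unfold QQ
    rw [← hA, ← hm]
    ring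
  -- Poincaré
  have hw : ∀ θ, HasDerivAt (fun θ => u (pt c t θ) - A) (Qh u c t θ) θ :=
    fun θ => (hasDerivAt_u_h hu ht θ).sub_const A
  have hper : (fun θ => u (pt c t θ) - A) (2 * π) = (fun θ => u (pt c t θ) - A) 0 := by
    have e2 := pt_periodic c t 0
    rw [zero_add] at e2
    simp only [e2]
  have h0 : mn (fun θ => u (pt c t θ) - A) = 0 := by
    rw [mn_sub (q := fun θ => u (pt c t θ)) (r := fun _ => A) hP continuous_const, mn_const, hAm,
      sub_self]
  have h2 := poincare hw (sQh hu ht) hper h0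
  have h3 : mn (fun θ => (Qt u c t θ - m) ^ 2) = T1 u c t - m ^ 2 := by
    have := mn_var (sQt hu ht) m
    rw [this, ← hm]
    unfold T1
    ring
  have hpi : 0 < π := Real.pi_pos
  have h4 : |mn (fun θ => (u (pt c t θ) - A) * (Qt u c t θ - m))|
      ≤ mn (fun θ => (1 / (2 * π)) * (u (pt c t θ) - A) ^ 2 + (π / 2) * (Qt u c t θ - m) ^ 2) := by
    refine abs_mn_le ((hP.sub continuous_const).mul (hQ.sub continuous_const))
      ((continuous_const.mul ((hP.sub continuous_const).pow 2)).add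
        (continuous_const.mul ((hQ.sub continuous_const).pow 2))) fun θ _ => ?_
    set a := u (pt c t θ) - A
    set b := Qt u c t θ - m
    have hs : 0 ≤ (1 / (2 * π)) * (a - π * b) ^ 2 := by positivity
    have hs' : 0 ≤ (1 / (2 * π)) * (a + π * b) ^ 2 := by positivity
    have e1 : (1 / (2 * π)) * (a - π * b) ^ 2
        = (1 / (2 * π)) * a ^ 2 + (π / 2) * b ^ 2 - a * b := by
      field_simp; ring
    have e2 : (1 / (2 * π)) * (a + π * b) ^ 2
        = (1 / (2 * π)) * a ^ 2 + (π / 2) * b ^ 2 + a * b := by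
      field_simp; ring
    rw [e1] at hs
    rw [e2] at hs'
    rw [abs_le]
    constructor <;> linarith
  rw [mn_add (q := fun θ => (1 / (2 * π)) * (u (pt c t θ) - A) ^ 2)
    (r := fun θ => (π / 2) * (Qt u c t θ - m) ^ 2)
    (continuous_const.mul ((hP.sub continuous_const).pow 2))
    (continuous_const.mul ((hQ.sub continuous_const).pow 2)), mn_const_mul, mn_const_mul, h3] at h4
  rw [h1]
  refine h4.trans ?_
  have h5 : (1 / (2 * π)) * mn (fun θ => (u (pt c t θ) - A) ^ 2) ≤ π / 2 * T2 u c t := by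
    calc (1 / (2 * π)) * mn (fun θ => (u (pt c t θ) - A) ^ 2)
        ≤ (1 / (2 * π)) * (π ^ 2 * mn (fun θ => Qh u c t θ ^ 2)) :=
          mul_le_mul_of_nonneg_left h2 (by positivity)
      _ = π / 2 * T2 u c t := by
          unfold T2
          field_simp
  unfold NN
  rw [← hm]
  linarith

theorem NN_le (hu : ContDiffOn ℝ 2 u (ball c (Real.exp T))) (ht : t < T) :
    NN u c t ≤ Real.exp (2 * t) * avg (fun z => ‖fderiv ℝ u z‖ ^ 2) c t := by
  have h1 : T1 u c t + T2 u c t = Real.exp (2 * t) * avg (fun z => ‖fderiv ℝ u z‖ ^ 2) c t := by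
    unfold T1 T2
    rw [← mn_add (q := fun θ => Qt u c t θ ^ 2) (r := fun θ => Qh u c t θ ^ 2)
      ((sQt hu ht).pow 2) ((sQh hu ht).pow 2), avg_eq_mn, ← mn_const_mul]
    congr 1
    funext θ
    exact Qt_sq_add_Qh_sq u c t θ
  rw [← h1]
  unfold NN
  have := sq_nonneg (mn (Qt u c t))
  linarith

theorem NN_continuousAt (hu : ContDiffOn ℝ 2 u (ball c (Real.exp T))) (ht : t < T) :
    ContinuousAt (NN u c) t := by
  have h1 := (T1_hasDerivAt hu ht).continuousAt
  have h2 := (T2_hasDerivAt hu ht).continuousAt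
  have h3 := (mQt_hasDerivAt hu ht).continuousAt
  exact (h1.sub (h3.pow 2)).add h2

end

end Pool.Agent.LE87.PB
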