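import Pool.Agent.LE87.Base

set_option autoImplicit false

open Complex MeasureTheory Set Filter Topology Metric
open scoped Real

namespace Pool.Agent.LE87

/-- the vector `exp (t + iθ)`; `pt c t θ = c + ew t θ` -/
noncomputable def ew (t θ : ℝ) : ℂ := Complex.exp ((t : ℂ) + θ * Complex.I)

theorem pt_eq (c : ℂ) (t θ : ℝ) : pt c t θ = c + ew t θ := rfl

theorem pt_sub (c : ℂ) (t θ : ℝ) : pt c t θ - c = ew t θ := by rw [pt_eq]; ring

theorem norm_ew (t θ : ℝ) : ‖ew t θ‖ = Real.exp t := by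
  unfold ew
  rw [Complex.norm_exp]
  simp

theorem continuous_ew : Continuous (fun p : ℝ × ℝ => ew p.1 p.2) := by
  unfold ew; fun_prop

theorem continuous_pt (c : ℂ) : Continuous (fun p : ℝ × ℝ => pt c p.1 p.2) := by
  unfold pt; fun_prop

theorem continuous_pt_right (c : ℂ) (t : ℝ) : Continuous (fun θ : ℝ => pt c t θ) := by
  unfold pt; fun_prop

theorem continuous_pt_left (c : ℂ) (θ : ℝ) : Continuous (fun t : ℝ => pt c t θ) := by
  unfold pt; fun_prop

theorem ew_periodic (t θ : ℝ) : ew t (θ + 2 * π) = ew t θ := by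
  unfold ew
  have : ((t : ℂ) + ((θ + 2 * π : ℝ) : ℂ) * Complex.I) = (t : ℂ) + θ * Complex.I + 2 * π * Complex.I := by
    push_cast; ring
  rw [this, Complex.exp_add _ (2 * (π : ℂ) * Complex.I), Complex.exp_two_pi_mul_I, mul_one]

theorem pt_periodic (c : ℂ) (t θ : ℝ) : pt c t (θ + 2 * π) = pt c t θ := by
  rw [pt_eq, pt_eq, ew_periodic]

theorem mem_ball_pt {c : ℂ} {T t : ℝ} (ht : t < T) (θ : ℝ) :
    pt c t θ ∈ ball c (Real.exp T) := by
  rw [mem_ball_iff_norm, pt_sub, norm_ew]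
  exact Real.exp_lt_exp.2 ht

theorem ew_hasDerivAt_t (t θ : ℝ) : HasDerivAt (fun s : ℝ => ew s θ) (ew t θ) t := by
  unfold ew
  have h : HasDerivAt (fun s : ℝ => (s : ℂ) + θ * Complex.I) 1 t := by
    simpa using (Complex.ofRealCLM.hasDerivAt (x := t)).add_const (θ * Complex.I)
  simpa using h.cexp

theorem ew_hasDerivAt_h (t θ : ℝ) : HasDerivAt (fun s : ℝ => ew t s) (ew t θ * Complex.I) θ := by
  unfold ew
  have h : HasDerivAt (fun s : ℝ => (t : ℂ) + s * Complex.I) Complex.I θ := by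
    simpa using ((Complex.ofRealCLM.hasDerivAt (x := θ)).mul_const Complex.I).const_add (t : ℂ)
  simpa using h.cexp

theorem pt_hasDerivAt_t (c : ℂ) (t θ : ℝ) : HasDerivAt (fun s : ℝ => pt c s θ) (ew t θ) t := by
  simpa [pt_eq] using (ew_hasDerivAt_t t θ).const_add c

theorem pt_hasDerivAt_h (c : ℂ) (t θ : ℝ) :
    HasDerivAt (fun s : ℝ => pt c t s) (ew t θ * Complex.I) θ := by
  simpa [pt_eq] using (ew_hasDerivAt_h t θ).const_add c

theorem ew_eq (t θ : ℝ) : ew t θ = (Real.exp t : ℂ) * Complex.exp (θ * Complex.I) := by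
  unfold ew
  rw [Complex.exp_add, Complex.ofReal_exp]

/-- composition of a function continuous on the ball with `pt` -/
theorem cont_comp_pt {E : Type*} [TopologicalSpace E] {g : ℂ → E} {c : ℂ} {T : ℝ}
    (hg : ContinuousOn g (ball c (Real.exp T))) :
    ContinuousOn (fun p : ℝ × ℝ => g (pt c p.1 p.2)) (Iio T ×ˢ univ) :=
  hg.comp (continuous_pt c).continuousOn (fun p hp => mem_ball_pt hp.1 p.2)

theorem slice_right {E : Type*} [TopologicalSpace E] {F : ℝ → ℝ → E} {T t : ℝ}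
    (hF : ContinuousOn (fun p : ℝ × ℝ => F p.1 p.2) (Iio T ×ˢ univ)) (ht : t < T) :
    Continuous (F t) := by
  have h1 : Continuous (fun x : ℝ => (t, x)) := by fun_prop
  exact hF.comp_continuous h1 (fun x => ⟨ht, mem_univ _⟩)

/-- derivative under the circle mean -/
theorem mean_hasDerivAt {F F' : ℝ → ℝ → ℝ} {T t : ℝ} (ht : t < T)
    (hd : ∀ s < T, ∀ θ, HasDerivAt (fun s => F s θ) (F' s θ) s)
    (hF : ContinuousOn (fun p : ℝ × ℝ => F p.1 p.2) (Iio T ×ˢ univ))
    (hF' : ContinuousOn (fun p : ℝ × ℝ => F' p.1 p.2) (Iio T ×ˢ univ)) :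
    HasDerivAt (fun s => (2 * π)⁻¹ * ∫ θ in (0 : ℝ)..(2 * π), F s θ)
      ((2 * π)⁻¹ * ∫ θ in (0 : ℝ)..(2 * π), F' t θ) t := by
  refine HasDerivAt.const_mul _ ?_
  set δ : ℝ := (T - t) / 2 with hδ
  have hδ0 : 0 < δ := by rw [hδ]; linarith
  have hsub : Icc (t - δ) (t + δ) ×ˢ Icc (0 : ℝ) (2 * π) ⊆ Iio T ×ˢ univ := by
    rintro ⟨a, b⟩ ⟨h1, -⟩
    refine ⟨?_, mem_univ _⟩
    have := h1.2
    simp only [mem_Iio]
    simp only at this
    linarith
  obtain ⟨C, hC⟩ := (isCompact_Icc.prod isCompact_Icc).exists_bound_of_continuousOn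
    (hF'.mono hsub)
  have key := intervalIntegral.hasDerivAt_integral_of_dominated_loc_of_deriv_le
    (F := F) (F' := F') (x₀ := t) (s := Ioo (t - δ) (t + δ)) (a := 0) (b := 2 * π) (μ := volume)
    (bound := fun _ => C) (Ioo_mem_nhds (by linarith) (by linarith))
    ?_ ?_ ?_ ?_ ?_ ?_
  · exact key.2
  · filter_upwards [Iio_mem_nhds ht] with s hs
    exact (slice_right hF hs).aestronglyMeasurable
  · exact (slice_right hF ht).intervalIntegrable _ _
  · exact (slice_right hF' ht).aestronglyMeasurable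
  · filter_upwards with θ hθ s hs
    rw [uIoc_of_le (by positivity)] at hθ
    exact hC (s, θ) ⟨⟨hs.1.le, hs.2.le⟩, ⟨hθ.1.le, hθ.2⟩⟩
  · exact intervalIntegrable_const
  · filter_upwards with θ hθ s hs
    exact hd s (by linarith [hs.2]) θ

/-- polar coordinates on a ball around `c` -/
theorem polar_gen {g : ℂ → ℝ} {c : ℂ} {R r : ℝ} (hg : ContinuousOn g (ball c R))
    (hr0 : 0 ≤ r) (hr : r < R) :
    ∫ z in ball c r, g z
      = ∫ ρ in (0 : ℝ)..r, ρ * ∫ θ in (0 : ℝ)..(2 * π),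
          g (c + (ρ : ℂ) * Complex.exp (θ * Complex.I)) := by
  have hshift : ∫ z in ball c r, g z = ∫ z in ball (0 : ℂ) r, g (c + z) := by
    rw [← integral_indicator measurableSet_ball, ← integral_indicator measurableSet_ball,
      ← integral_add_left_eq_self (μ := volume) ((ball c r).indicator g) c]
    congr 1
    funext z
    have h : c + z ∈ ball c r ↔ z ∈ ball (0 : ℂ) r := by
      simp
    by_cases hz : z ∈ ball (0 : ℂ) r
    · rw [indicator_of_mem hz, indicator_of_mem (h.2 hz)]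
    · rw [indicator_of_notMem hz, indicator_of_notMem (fun h' => hz (h.1 h'))]
  rw [hshift]
  set G : ℂ → ℝ := fun z => g (c + z) with hGdef
  have hmap : MapsTo (fun p : ℝ × ℝ => c + (p.1 : ℂ) * Complex.exp (p.2 * Complex.I))
      (Ioo (-R) R ×ˢ univ) (ball c R) := by
    rintro ⟨a, b⟩ ⟨h1, -⟩
    rw [mem_ball_iff_norm, add_sub_cancel_left, norm_mul, Complex.norm_real,
      Complex.norm_exp_ofReal_mul_I, mul_one, Real.norm_eq_abs]
    exact abs_lt.2 h1
  have hP : ContinuousOn (fun p : ℝ × ℝ => p.1 * G ((p.1 : ℂ) * Complex.exp (p.2 * Complex.I)))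
      (Ioo (-R) R ×ˢ univ) :=
    continuous_fst.continuousOn.mul (hg.comp (by fun_prop) hmap)
  have hcomp : IsCompact (Icc (0 : ℝ) r ×ˢ Icc (-π) π) :=
    isCompact_Icc.prod isCompact_Icc
  have hint : IntegrableOn (fun p : ℝ × ℝ => p.1 * G ((p.1 : ℂ) * Complex.exp (p.2 * Complex.I)))
      (Ioo (0 : ℝ) r ×ˢ Ioo (-π) π) (volume.prod volume) := by
    refine ((hP.mono ?_).integrableOn_compact hcomp).mono_set
      (prod_mono Ioo_subset_Icc_self Ioo_subset_Icc_self)
    rintro ⟨t, θ⟩ ⟨h1, -⟩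
    exact ⟨⟨by linarith [h1.1], by linarith [h1.2]⟩, mem_univ _⟩
  have h1 := Complex.integral_comp_polarCoord_symm ((ball (0 : ℂ) r).indicator G)
  rw [integral_indicator measurableSet_ball] at h1
  rw [← h1]
  have hsub : Ioo (0 : ℝ) r ×ˢ Ioo (-π) π ⊆ polarCoord.target := by
    rw [polarCoord_target]
    exact prod_mono Ioo_subset_Ioi_self le_rfl
  have hsymm : ∀ p : ℝ × ℝ, Complex.polarCoord.symm p
      = (p.1 : ℂ) * Complex.exp (p.2 * Complex.I) := by
    intro p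
    rw [Complex.polarCoord_symm_apply, Complex.exp_mul_I]
    push_cast
    ring
  have hnorm : ∀ p : ℝ × ℝ, ‖(p.1 : ℂ) * Complex.exp (p.2 * Complex.I)‖ = |p.1| := by
    intro p
    rw [norm_mul, Complex.norm_real, Complex.norm_exp_ofReal_mul_I, mul_one, Real.norm_eq_abs]
  rw [setIntegral_eq_of_subset_of_forall_sdiff_eq_zero
    (s := Ioo (0 : ℝ) r ×ˢ Ioo (-π) π)
    polarCoord.open_target.measurableSet hsub]
  · have h2 : ∫ p in Ioo (0 : ℝ) r ×ˢ Ioo (-π) π,
        p.1 • (ball (0 : ℂ) r).indicator G (Complex.polarCoord.symm p)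
        = ∫ p in Ioo (0 : ℝ) r ×ˢ Ioo (-π) π,
            p.1 * G ((p.1 : ℂ) * Complex.exp (p.2 * Complex.I)) := by
      apply setIntegral_congr_fun (measurableSet_Ioo.prod measurableSet_Ioo)
      intro p hp
      simp only
      rw [hsymm, indicator_of_mem, smul_eq_mul]
      rw [mem_ball_zero_iff, hnorm, abs_of_pos hp.1.1]
      exact hp.1.2
    rw [h2]
    rw [Measure.volume_eq_prod, setIntegral_prod]
    · rw [intervalIntegral.integral_of_le hr0, integral_Ioc_eq_integral_Ioo]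
      apply setIntegral_congr_fun measurableSet_Ioo
      intro t ht
      simp only
      rw [integral_const_mul]
      congr 1
      rw [← integral_Ioc_eq_integral_Ioo, ← intervalIntegral.integral_of_le (by linarith [Real.pi_pos])]
      have hper : Function.Periodic
          (fun θ : ℝ => g (c + (t : ℂ) * Complex.exp (θ * Complex.I))) (2 * π) := by
        intro θ
        simp only
        congr 3
        push_cast
        rw [add_mul, Complex.exp_add, Complex.exp_two_pi_mul_I, mul_one]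
      have := hper.intervalIntegral_add_eq (-π) 0
      rw [show -π + 2 * π = π by ring, zero_add] at this
      exact this
    · exact hint
  · intro p hp
    rw [polarCoord_target] at hp
    rw [hsymm, indicator_of_notMem, smul_zero]
    intro hb
    apply hp.2
    rw [mem_ball_zero_iff, hnorm, abs_of_pos hp.1.1] at hb
    exact ⟨⟨hp.1.1, hb⟩, hp.1.2⟩

/-- continuity of a parametric integral over a bounded interval -/
theorem param_continuousOn {F : ℝ → ℝ → ℝ} {U : Set ℝ} (hU : IsOpen U) (a b : ℝ)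
    (hF : ContinuousOn (fun p : ℝ × ℝ => F p.1 p.2) (U ×ˢ univ)) :
    ContinuousOn (fun s => ∫ θ in a..b, F s θ) U := by
  intro s0 hs0
  refine ContinuousAt.continuousWithinAt ?_
  obtain ⟨δ, hδ, hδU⟩ := Metric.isOpen_iff.1 hU s0 hs0
  have hK : Icc (s0 - δ / 2) (s0 + δ / 2) ⊆ U := by
    intro s hs
    apply hδU
    rw [mem_ball, Real.dist_eq, abs_lt]
    constructor <;> linarith [hs.1, hs.2]
  obtain ⟨C, hC⟩ := (isCompact_Icc.prod isCompact_uIcc).exists_bound_of_continuousOn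
    (hF.mono (prod_mono hK (subset_univ (uIcc a b))))
  have hnear : Icc (s0 - δ / 2) (s0 + δ / 2) ∈ 𝓝 s0 :=
    Icc_mem_nhds (by linarith) (by linarith)
  have hsl : ∀ s ∈ U, Continuous (F s) := fun s hs =>
    hF.comp_continuous (by fun_prop : Continuous (fun x : ℝ => (s, x))) (fun x => ⟨hs, mem_univ _⟩)
  refine intervalIntegral.continuousAt_of_dominated_interval (bound := fun _ => C) ?_ ?_ ?_ ?_
  · filter_upwards [hnear] with s hs
    exact (hsl s (hK hs)).aestronglyMeasurable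
  · filter_upwards [hnear] with s hs
    filter_upwards with θ hθ
    exact hC (s, θ) ⟨hs, uIoc_subset_uIcc hθ⟩
  · exact intervalIntegrable_const
  · filter_upwards with θ hθ
    have h1 : ContinuousAt (fun p : ℝ × ℝ => F p.1 p.2) (s0, θ) :=
      hF.continuousAt ((hU.prod isOpen_univ).mem_nhds ⟨hs0, mem_univ _⟩)
    exact h1.comp (f := fun s : ℝ => (s, θ)) (by fun_prop)

/-- the radial function `ρ * ∫ g (c + ρ e^{iθ}) dθ` -/
noncomputable def rad (g : ℂ → ℝ) (c : ℂ) (ρ : ℝ) : ℝ :=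
  ρ * ∫ θ in (0 : ℝ)..(2 * π), g (c + (ρ : ℂ) * Complex.exp (θ * Complex.I))

theorem continuousOn_rad {g : ℂ → ℝ} {c : ℂ} {R : ℝ} (hg : ContinuousOn g (ball c R)) :
    ContinuousOn (rad g c) (Ioo (-R) R) := by
  have hmap : MapsTo (fun p : ℝ × ℝ => c + (p.1 : ℂ) * Complex.exp (p.2 * Complex.I))
      (Ioo (-R) R ×ˢ univ) (ball c R) := by
    rintro ⟨a, b⟩ ⟨h1, -⟩
    rw [mem_ball_iff_norm, add_sub_cancel_left, norm_mul, Complex.norm_real,
      Complex.norm_exp_ofReal_mul_I, mul_one, Real.norm_eq_abs]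
    exact abs_lt.2 h1
  have hP : ContinuousOn (fun p : ℝ × ℝ => g (c + (p.1 : ℂ) * Complex.exp (p.2 * Complex.I)))
      (Ioo (-R) R ×ˢ univ) := hg.comp (by fun_prop) hmap
  exact continuousOn_id.mul (param_continuousOn
    (F := fun ρ θ => g (c + (ρ : ℂ) * Complex.exp (θ * Complex.I))) isOpen_Ioo 0 (2 * π) hP)

theorem mass_eq {g : ℂ → ℝ} {c : ℂ} {T t : ℝ}
    (hg : ContinuousOn g (ball c (Real.exp T))) (ht : t < T) :
    mass g c t = (2 * π)⁻¹ * ∫ ρ in (0 : ℝ)..Real.exp t, rad g c ρ := by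
  unfold mass rad
  rw [polar_gen hg (Real.exp_pos t).le (Real.exp_lt_exp.2 ht)]

theorem rad_exp (g : ℂ → ℝ) (c : ℂ) (t : ℝ) :
    rad g c (Real.exp t) = 2 * π * (Real.exp t * avg g c t) := by
  unfold rad avg
  simp_rw [pt_eq, ew_eq]
  have h0 : (2 * π) ≠ 0 := by positivity
  set J : ℝ := ∫ θ in (0 : ℝ)..(2 * π), g (c + (Real.exp t : ℂ) * Complex.exp (θ * Complex.I))
  have h1 : 2 * π * (Real.exp t * ((2 * π)⁻¹ * J)) = (2 * π * (2 * π)⁻¹) * (Real.exp t * J) := by
    ring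
  rw [h1, mul_inv_cancel₀ h0, one_mul]

theorem prim_hasDerivAt {g : ℂ → ℝ} {c : ℂ} {R r : ℝ} (hg : ContinuousOn g (ball c R))
    (hr : r ∈ Ioo (-R) R) :
    HasDerivAt (fun x => ∫ ρ in (0 : ℝ)..x, rad g c ρ) (rad g c r) r := by
  have hR : 0 < R := by
    have := hr.1; have := hr.2; linarith
  have hc := continuousOn_rad hg
  have hsub : uIcc 0 r ⊆ Ioo (-R) R := by
    intro x hx
    rcases mem_uIcc.1 hx with h | h
    · exact ⟨by linarith [h.1], by linarith [h.2, hr.2]⟩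
    · exact ⟨by linarith [h.1, hr.1], by linarith [h.2]⟩
  refine intervalIntegral.integral_hasDerivAt_right ((hc.mono hsub).intervalIntegrable) ?_ ?_
  · exact ContinuousOn.stronglyMeasurableAtFilter isOpen_Ioo hc _ hr
  · exact hc.continuousAt (isOpen_Ioo.mem_nhds hr)

theorem mass_hasDerivAt {g : ℂ → ℝ} {c : ℂ} {T t : ℝ}
    (hg : ContinuousOn g (ball c (Real.exp T))) (ht : t < T) :
    HasDerivAt (mass g c) (Real.exp (2 * t) * avg g c t) t := by
  have hr : Real.exp t ∈ Ioo (-Real.exp T) (Real.exp T) :=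
    ⟨by linarith [Real.exp_pos t, Real.exp_pos T], Real.exp_lt_exp.2 ht⟩
  have h1 := ((prim_hasDerivAt hg hr).comp t (Real.hasDerivAt_exp t)).const_mul ((2 * π)⁻¹)
  have h2 : (2 * π)⁻¹ * (rad g c (Real.exp t) * Real.exp t) = Real.exp (2 * t) * avg g c t := by
    rw [rad_exp, two_mul t, Real.exp_add]
    have : (2 * π) ≠ 0 := by positivity
    field_simp
  rw [h2] at h1
  refine h1.congr_of_eventuallyEq ?_
  filter_upwards [Iio_mem_nhds ht] with s hs
  rw [mass_eq hg hs]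
  rfl

theorem mass_tendsto {g : ℂ → ℝ} {c : ℂ} {T : ℝ}
    (hg : ContinuousOn g (ball c (Real.exp T))) :
    Tendsto (mass g c) atBot (𝓝 0) := by
  have hr : (0 : ℝ) ∈ Ioo (-Real.exp T) (Real.exp T) :=
    ⟨by linarith [Real.exp_pos T], Real.exp_pos T⟩
  have h1 : Tendsto (fun x => ∫ ρ in (0 : ℝ)..x, rad g c ρ) (𝓝 0) (𝓝 0) := by
    have := (prim_hasDerivAt hg hr).continuousAt.tendsto
    simpa using this
  have h2 := (h1.comp Real.tendsto_exp_atBot).const_mul ((2 * π)⁻¹)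
  rw [mul_zero] at h2
  refine h2.congr' ?_
  filter_upwards [Iio_mem_atBot T] with s hs
  rw [mass_eq hg hs]
  rfl

theorem avg_continuous_slice {g : ℂ → ℝ} {c : ℂ} {T t : ℝ}
    (hg : ContinuousOn g (ball c (Real.exp T))) (ht : t < T) :
    Continuous (fun θ : ℝ => g (pt c t θ)) :=
  slice_right (F := fun t θ => g (pt c t θ)) (cont_comp_pt hg) ht

theorem avg_tendsto {g : ℂ → ℝ} {c : ℂ} {T : ℝ}
    (hg : ContinuousOn g (ball c (Real.exp T))) :
    Tendsto (avg g c) atBot (𝓝 (g c)) := by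
  rw [Metric.tendsto_nhds]
  intro ε hε
  have hc : ContinuousAt g c :=
    hg.continuousAt (isOpen_ball.mem_nhds (mem_ball_self (Real.exp_pos T)))
  obtain ⟨δ, hδ, hδg⟩ := Metric.continuousAt_iff.1 hc (ε / 2) (by linarith)
  filter_upwards [Iio_mem_atBot T, Iio_mem_atBot (Real.log δ)] with t ht ht2
  have hsl := avg_continuous_slice hg ht
  have hpi : (0 : ℝ) ≤ 2 * π := by positivity
  have hpi0 : (2 * π) ≠ 0 := by positivity
  have hpt : ∀ θ, |g (pt c t θ) - g c| ≤ ε / 2 := by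
    intro θ
    have h3 : dist (pt c t θ) c < δ := by
      rw [dist_eq_norm, pt_sub, norm_ew]
      exact (Real.lt_log_iff_exp_lt hδ).1 ht2
    exact (by simpa [Real.dist_eq] using (hδg h3) : |g (pt c t θ) - g c| < ε / 2).le
  have h4 : avg g c t - g c = (2 * π)⁻¹ * ∫ θ in (0 : ℝ)..(2 * π), (g (pt c t θ) - g c) := by
    unfold avg
    rw [intervalIntegral.integral_sub (hsl.intervalIntegrable _ _) intervalIntegrable_const,
      intervalIntegral.integral_const]
    simp only [smul_eq_mul]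
    field_simp
    ring
  rw [Real.dist_eq, h4, abs_mul, abs_of_nonneg (by positivity : (0 : ℝ) ≤ (2 * π)⁻¹)]
  have h5 : ‖∫ θ in (0 : ℝ)..(2 * π), (g (pt c t θ) - g c)‖ ≤ ε / 2 * |2 * π - 0| :=
    intervalIntegral.norm_integral_le_of_norm_le_const (fun θ _ => by
      simpa [Real.norm_eq_abs] using hpt θ)
  rw [Real.norm_eq_abs, sub_zero, abs_of_nonneg hpi] at h5
  calc (2 * π)⁻¹ * |∫ θ in (0 : ℝ)..(2 * π), (g (pt c t θ) - g c)|
      ≤ (2 * π)⁻¹ * (ε / 2 * (2 * π)) := by gcongr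
    _ = ε / 2 := by field_simp
    _ < ε := by linarith

/-! ### polar derivatives of a `C²` function -/

/-- `∂_t u(pt c t θ)` -/
noncomputable def Qt (u : ℂ → ℝ) (c : ℂ) (t θ : ℝ) : ℝ := fderiv ℝ u (pt c t θ) (ew t θ)

/-- `∂_θ u(pt c t θ)` -/
noncomputable def Qh (u : ℂ → ℝ) (c : ℂ) (t θ : ℝ) : ℝ :=
  fderiv ℝ u (pt c t θ) (ew t θ * Complex.I)

/-- `∂_t ∂_t` -/
noncomputable def Qtt (u : ℂ → ℝ) (c : ℂ) (t θ : ℝ) : ℝ :=
  (fderiv ℝ (fderiv ℝ u) (pt c t θ) (ew t θ)) (ew t θ) + fderiv ℝ u (pt c t θ) (ew t θ)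

/-- `∂_θ ∂_t = ∂_t ∂_θ` -/
noncomputable def Qth (u : ℂ → ℝ) (c : ℂ) (t θ : ℝ) : ℝ :=
  (fderiv ℝ (fderiv ℝ u) (pt c t θ) (ew t θ * Complex.I)) (ew t θ)
    + fderiv ℝ u (pt c t θ) (ew t θ * Complex.I)

/-- `∂_θ ∂_θ` -/
noncomputable def Qhh (u : ℂ → ℝ) (c : ℂ) (t θ : ℝ) : ℝ :=
  (fderiv ℝ (fderiv ℝ u) (pt c t θ) (ew t θ * Complex.I)) (ew t θ * Complex.I)
    - fderiv ℝ u (pt c t θ) (ew t θ)

section
variable {u : ℂ → ℝ} {c : ℂ} {T t θ : ℝ}

theorem diffAt_u (hu : ContDiffOn ℝ 2 u (ball c (Real.exp T))) {z : ℂ}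
    (hz : z ∈ ball c (Real.exp T)) : HasFDerivAt u (fderiv ℝ u z) z :=
  ((hu.contDiffAt (isOpen_ball.mem_nhds hz)).differentiableAt (by norm_num)).hasFDerivAt

theorem contDiffOn_fderiv (hu : ContDiffOn ℝ 2 u (ball c (Real.exp T))) :
    ContDiffOn ℝ 1 (fderiv ℝ u) (ball c (Real.exp T)) :=
  hu.fderiv_of_isOpen isOpen_ball (by norm_num)

theorem diffAt_du (hu : ContDiffOn ℝ 2 u (ball c (Real.exp T))) {z : ℂ}
    (hz : z ∈ ball c (Real.exp T)) :
    HasFDerivAt (fderiv ℝ u) (fderiv ℝ (fderiv ℝ u) z) z :=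
  (((contDiffOn_fderiv hu).contDiffAt (isOpen_ball.mem_nhds hz)).differentiableAt
    (by norm_num)).hasFDerivAt

theorem cont_du (hu : ContDiffOn ℝ 2 u (ball c (Real.exp T))) :
    ContinuousOn (fderiv ℝ u) (ball c (Real.exp T)) := (contDiffOn_fderiv hu).continuousOn

theorem cont_ddu (hu : ContDiffOn ℝ 2 u (ball c (Real.exp T))) :
    ContinuousOn (fderiv ℝ (fderiv ℝ u)) (ball c (Real.exp T)) :=
  (contDiffOn_fderiv hu).continuousOn_fderiv_of_isOpen isOpen_ball (by norm_num)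

theorem hasDerivAt_u_t (hu : ContDiffOn ℝ 2 u (ball c (Real.exp T))) (ht : t < T) (θ : ℝ) :
    HasDerivAt (fun s => u (pt c s θ)) (Qt u c t θ) t :=
  (diffAt_u hu (mem_ball_pt ht θ)).comp_hasDerivAt t (pt_hasDerivAt_t c t θ)

theorem hasDerivAt_u_h (hu : ContDiffOn ℝ 2 u (ball c (Real.exp T))) (ht : t < T) (θ : ℝ) :
    HasDerivAt (fun s => u (pt c t s)) (Qh u c t θ) θ :=
  (diffAt_u hu (mem_ball_pt ht θ)).comp_hasDerivAt θ (pt_hasDerivAt_h c t θ)

theorem hasDerivAt_Qt_t (hu : ContDiffOn ℝ 2 u (ball c (Real.exp T))) (ht : t < T) (θ : ℝ) :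
    HasDerivAt (fun s => Qt u c s θ) (Qtt u c t θ) t := by
  have h1 := (diffAt_du hu (mem_ball_pt ht θ)).comp_hasDerivAt t (pt_hasDerivAt_t c t θ)
  exact h1.clm_apply (ew_hasDerivAt_t t θ)

theorem hasDerivAt_Qt_h (hu : ContDiffOn ℝ 2 u (ball c (Real.exp T))) (ht : t < T) (θ : ℝ) :
    HasDerivAt (fun s => Qt u c t s) (Qth u c t θ) θ := by
  have h1 := (diffAt_du hu (mem_ball_pt ht θ)).comp_hasDerivAt θ (pt_hasDerivAt_h c t θ)
  exact h1.clm_apply (ew_hasDerivAt_h t θ)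

theorem hasDerivAt_Qh_h (hu : ContDiffOn ℝ 2 u (ball c (Real.exp T))) (ht : t < T) (θ : ℝ) :
    HasDerivAt (fun s => Qh u c t s) (Qhh u c t θ) θ := by
  have h1 := (diffAt_du hu (mem_ball_pt ht θ)).comp_hasDerivAt θ (pt_hasDerivAt_h c t θ)
  have h2 := h1.clm_apply ((ew_hasDerivAt_h t θ).mul_const Complex.I)
  have h3 : ew t θ * Complex.I * Complex.I = -ew t θ := by
    rw [mul_assoc, Complex.I_mul_I]; ring
  rw [h3] at h2
  unfold Qhh
  rw [sub_eq_add_neg, ← map_neg]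
  exact h2

theorem hasDerivAt_Qh_t (hu : ContDiffOn ℝ 2 u (ball c (Real.exp T))) (ht : t < T) (θ : ℝ) :
    HasDerivAt (fun s => Qh u c s θ) (Qth u c t θ) t := by
  have h1 := (diffAt_du hu (mem_ball_pt ht θ)).comp_hasDerivAt t (pt_hasDerivAt_t c t θ)
  have h2 := h1.clm_apply ((ew_hasDerivAt_t t θ).mul_const Complex.I)
  have hs : IsSymmSndFDerivAt ℝ u (pt c t θ) :=
    (hu.contDiffAt (isOpen_ball.mem_nhds (mem_ball_pt ht θ))).isSymmSndFDerivAt (by simp)
  unfold Qth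
  rw [hs.eq (ew t θ * Complex.I) (ew t θ)]
  exact h2

theorem cont_Qt (hu : ContDiffOn ℝ 2 u (ball c (Real.exp T))) :
    ContinuousOn (fun p : ℝ × ℝ => Qt u c p.1 p.2) (Iio T ×ˢ univ) :=
  (cont_comp_pt (cont_du hu)).clm_apply continuous_ew.continuousOn

theorem cont_Qh (hu : ContDiffOn ℝ 2 u (ball c (Real.exp T))) :
    ContinuousOn (fun p : ℝ × ℝ => Qh u c p.1 p.2) (Iio T ×ˢ univ) :=
  (cont_comp_pt (cont_du hu)).clm_apply (continuous_ew.mul continuous_const).continuousOn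

theorem cont_Qtt (hu : ContDiffOn ℝ 2 u (ball c (Real.exp T))) :
    ContinuousOn (fun p : ℝ × ℝ => Qtt u c p.1 p.2) (Iio T ×ˢ univ) :=
  (((cont_comp_pt (cont_ddu hu)).clm_apply continuous_ew.continuousOn).clm_apply
    continuous_ew.continuousOn).add (cont_Qt hu)

theorem cont_Qth (hu : ContDiffOn ℝ 2 u (ball c (Real.exp T))) :
    ContinuousOn (fun p : ℝ × ℝ => Qth u c p.1 p.2) (Iio T ×ˢ univ) :=
  (((cont_comp_pt (cont_ddu hu)).clm_apply
    (continuous_ew.mul continuous_const).continuousOn).clm_apply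
    continuous_ew.continuousOn).add (cont_Qh hu)

theorem cont_Qhh (hu : ContDiffOn ℝ 2 u (ball c (Real.exp T))) :
    ContinuousOn (fun p : ℝ × ℝ => Qhh u c p.1 p.2) (Iio T ×ˢ univ) :=
  (((cont_comp_pt (cont_ddu hu)).clm_apply
    (continuous_ew.mul continuous_const).continuousOn).clm_apply
    (continuous_ew.mul continuous_const).continuousOn).sub (cont_Qt hu)

theorem Qt_periodic (u : ℂ → ℝ) (c : ℂ) (t θ : ℝ) : Qt u c t (θ + 2 * π) = Qt u c t θ := by
  unfold Qt; rw [pt_periodic, ew_periodic]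

theorem Qh_periodic (u : ℂ → ℝ) (c : ℂ) (t θ : ℝ) : Qh u c t (θ + 2 * π) = Qh u c t θ := by
  unfold Qh; rw [pt_periodic, ew_periodic]

/-- the two pure second derivatives through `fderiv (fderiv u)` -/
theorem lap_eq (hu : ContDiffOn ℝ 2 u (ball c (Real.exp T))) {z : ℂ}
    (hz : z ∈ ball c (Real.exp T)) :
    lap u z = (fderiv ℝ (fderiv ℝ u) z 1) 1 + (fderiv ℝ (fderiv ℝ u) z Complex.I) Complex.I := by
  have h : ∀ v : ℂ, ∀ v' : ℂ, fderiv ℝ (fun w => fderiv ℝ u w v) z v'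
      = (fderiv ℝ (fderiv ℝ u) z v') v := by
    intro v v'
    have h1 : HasFDerivAt (fun w => fderiv ℝ u w v)
        (((fderiv ℝ (fderiv ℝ u) z).flip) v) z := by
      have := (diffAt_du hu hz).clm_apply (hasFDerivAt_const v z)
      refine this.congr_fderiv ?_
      ext w
      simp
    rw [h1.fderiv]
    rfl
  unfold lap
  rw [h, h]

theorem Qtt_add_Qhh (hu : ContDiffOn ℝ 2 u (ball c (Real.exp T))) (ht : t < T) (θ : ℝ) :
    Qtt u c t θ + Qhh u c t θ = Real.exp (2 * t) * lap u (pt c t θ) := by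
  rw [lap_eq hu (mem_ball_pt ht θ)]
  unfold Qtt Qhh
  set B := fderiv ℝ (fderiv ℝ u) (pt c t θ) with hB
  set w := ew t θ with hw
  have hdec : w = (w.re : ℝ) • (1 : ℂ) + (w.im : ℝ) • Complex.I := by
    simp [Complex.re_add_im]
  have hdec2 : w * Complex.I = (-w.im : ℝ) • (1 : ℂ) + (w.re : ℝ) • Complex.I := by
    apply Complex.ext <;> simp
  have hn : Real.exp (2 * t) = w.re ^ 2 + w.im ^ 2 := by
    have h1 := norm_ew t θ
    have h2 : ‖w‖ ^ 2 = w.re ^ 2 + w.im ^ 2 := by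
      rw [Complex.sq_norm, Complex.normSq_apply]; ring
    rw [← h2, hw, h1, ← Real.exp_nat_mul]
    norm_num
  have e1 : (B w) w = w.re ^ 2 * (B 1) 1 + w.re * w.im * ((B 1) Complex.I + (B Complex.I) 1)
      + w.im ^ 2 * (B Complex.I) Complex.I := by
    conv_lhs => rw [hdec]
    simp only [map_add, map_smul, ContinuousLinearMap.add_apply, ContinuousLinearMap.smul_apply,
      smul_eq_mul]
    ring
  have e2 : (B (w * Complex.I)) (w * Complex.I)
      = w.im ^ 2 * (B 1) 1 - w.re * w.im * ((B 1) Complex.I + (B Complex.I) 1)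
      + w.re ^ 2 * (B Complex.I) Complex.I := by
    rw [hdec2]
    simp only [map_add, map_smul, ContinuousLinearMap.add_apply, ContinuousLinearMap.smul_apply,
      smul_eq_mul]
    ring
  rw [e1, e2, hn]
  ring

theorem norm_sq_clm (L : ℂ →L[ℝ] ℝ) : ‖L‖ ^ 2 = (L 1) ^ 2 + (L Complex.I) ^ 2 := by
  have happ : ∀ z : ℂ, L z = z.re * L 1 + z.im * L Complex.I := by
    intro z
    have hdec : z = (z.re : ℝ) • (1 : ℂ) + (z.im : ℝ) • Complex.I := by
      simp [Complex.re_add_im]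
    conv_lhs => rw [hdec]
    simp only [map_add, map_smul, smul_eq_mul]
  set a := L 1
  set b := L Complex.I
  have hn : ∀ z : ℂ, ‖z‖ ^ 2 = z.re ^ 2 + z.im ^ 2 := by
    intro z
    rw [Complex.sq_norm, Complex.normSq_apply]; ring
  have hs0 : 0 ≤ a ^ 2 + b ^ 2 := by positivity
  have hle : ‖L‖ ≤ Real.sqrt (a ^ 2 + b ^ 2) := by
    refine L.opNorm_le_bound (Real.sqrt_nonneg _) fun z => ?_
    rw [Real.norm_eq_abs]
    apply abs_le_of_sq_le_sq
    · rw [happ z, mul_pow, Real.sq_sqrt hs0, hn]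
      nlinarith [sq_nonneg (z.re * b - z.im * a)]
    · positivity
  have hge : Real.sqrt (a ^ 2 + b ^ 2) ≤ ‖L‖ := by
    rcases eq_or_lt_of_le hs0 with h0 | h0
    · rw [← h0, Real.sqrt_zero]; positivity
    have h1 := L.le_opNorm (⟨a, b⟩ : ℂ)
    rw [happ, Real.norm_eq_abs] at h1
    simp only at h1
    have h2 : ‖(⟨a, b⟩ : ℂ)‖ = Real.sqrt (a ^ 2 + b ^ 2) := by
      rw [← Real.sqrt_sq (norm_nonneg (⟨a, b⟩ : ℂ)), hn]
    rw [h2, show a * a + b * b = Real.sqrt (a ^ 2 + b ^ 2) * Real.sqrt (a ^ 2 + b ^ 2) by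
      rw [Real.mul_self_sqrt hs0]; ring, abs_of_nonneg (by positivity)] at h1
    exact le_of_mul_le_mul_right h1 (Real.sqrt_pos.2 h0)
  rw [le_antisymm hle hge, Real.sq_sqrt hs0]

theorem Qt_sq_add_Qh_sq (u : ℂ → ℝ) (c : ℂ) (t θ : ℝ) :
    Qt u c t θ ^ 2 + Qh u c t θ ^ 2
      = Real.exp (2 * t) * ‖fderiv ℝ u (pt c t θ)‖ ^ 2 := by
  rw [norm_sq_clm]
  unfold Qt Qh
  set L := fderiv ℝ u (pt c t θ) with hL
  set w := ew t θ with hw
  have hdec : w = (w.re : ℝ) • (1 : ℂ) + (w.im : ℝ) • Complex.I := by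
    simp [Complex.re_add_im]
  have hdec2 : w * Complex.I = (-w.im : ℝ) • (1 : ℂ) + (w.re : ℝ) • Complex.I := by
    apply Complex.ext <;> simp
  have hn : Real.exp (2 * t) = w.re ^ 2 + w.im ^ 2 := by
    have h1 := norm_ew t θ
    have h2 : ‖w‖ ^ 2 = w.re ^ 2 + w.im ^ 2 := by
      rw [Complex.sq_norm, Complex.normSq_apply]; ring
    rw [← h2, hw, h1, ← Real.exp_nat_mul]
    norm_num
  have e1 : L w = w.re * L 1 + w.im * L Complex.I := by
    conv_lhs => rw [hdec]
    simp only [map_add, map_smul, smul_eq_mul]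
  have e2 : L (w * Complex.I) = -w.im * L 1 + w.re * L Complex.I := by
    rw [hdec2]
    simp only [map_add, map_smul, smul_eq_mul]
  rw [e1, e2, hn]
  ring

/-- the first polar derivatives are `O(exp t)` -/
theorem Q_bound (hu : ContDiffOn ℝ 2 u (ball c (Real.exp T))) {T' : ℝ} (hT : T' < T) :
    ∃ C : ℝ, 0 ≤ C ∧ ∀ t ≤ T', ∀ θ, |Qt u c t θ| ≤ C * Real.exp t ∧ |Qh u c t θ| ≤ C * Real.exp t
      ∧ ‖fderiv ℝ u (pt c t θ)‖ ≤ C := by
  have hsub : closedBall c (Real.exp T') ⊆ ball c (Real.exp T) :=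
    closedBall_subset_ball (Real.exp_lt_exp.2 hT)
  obtain ⟨C, hC⟩ := (isCompact_closedBall c (Real.exp T')).exists_bound_of_continuousOn
    ((cont_du hu).mono hsub)
  have hC0 : 0 ≤ C := le_trans (norm_nonneg _) (hC c (mem_closedBall_self (Real.exp_pos _).le))
  refine ⟨C, hC0, fun t ht θ => ?_⟩
  have hmem : pt c t θ ∈ closedBall c (Real.exp T') := by
    rw [mem_closedBall_iff_norm, pt_sub, norm_ew]
    exact Real.exp_le_exp.2 ht
  have hb := hC _ hmem
  refine ⟨?_, ?_, hb⟩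
  · have h1 := (fderiv ℝ u (pt c t θ)).le_opNorm (ew t θ)
    rw [norm_ew] at h1
    exact h1.trans (by gcongr)
  · have h1 := (fderiv ℝ u (pt c t θ)).le_opNorm (ew t θ * Complex.I)
    rw [norm_mul, Complex.norm_I, mul_one, norm_ew] at h1
    exact h1.trans (by gcongr)

theorem cont_lap (hu : ContDiffOn ℝ 2 u (ball c (Real.exp T))) :
    ContinuousOn (lap u) (ball c (Real.exp T)) := by
  have h : ContinuousOn (fun z => (fderiv ℝ (fderiv ℝ u) z 1) 1
      + (fderiv ℝ (fderiv ℝ u) z Complex.I) Complex.I) (ball c (Real.exp T)) :=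
    (((cont_ddu hu).clm_apply continuousOn_const).clm_apply continuousOn_const).add
      (((cont_ddu hu).clm_apply continuousOn_const).clm_apply continuousOn_const)
  exact h.congr fun z hz => lap_eq hu hz

/-- the mean of the `θ`-second derivative vanishes -/
theorem mean_Qhh (hu : ContDiffOn ℝ 2 u (ball c (Real.exp T))) (ht : t < T) :
    ∫ θ in (0 : ℝ)..(2 * π), Qhh u c t θ = 0 := by
  rw [intervalIntegral.integral_eq_sub_of_hasDerivAt (f := fun θ => Qh u c t θ)]
  · have := Qh_periodic u c t 0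
    rw [zero_add] at this
    rw [this, sub_self]
  · intro θ _
    exact hasDerivAt_Qh_h hu ht θ
  · exact (slice_right (F := Qhh u c) (cont_Qhh hu) ht).intervalIntegrable _ _

/-- the circle mean of `∂_t u` is the mass of the Laplacian -/
theorem mean_Qt (hu : ContDiffOn ℝ 2 u (ball c (Real.exp T))) (ht : t < T) :
    (2 * π)⁻¹ * ∫ θ in (0 : ℝ)..(2 * π), Qt u c t θ = mass (lap u) c t := by
  set B : ℝ → ℝ := fun s => (2 * π)⁻¹ * ∫ θ in (0 : ℝ)..(2 * π), Qt u c s θ with hB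
  have hBd : ∀ s < T, HasDerivAt B (Real.exp (2 * s) * avg (lap u) c s) s := by
    intro s hs
    have h1 := mean_hasDerivAt (F := Qt u c) (F' := Qtt u c) hs
      (fun s hs θ => hasDerivAt_Qt_t hu hs θ) (cont_Qt hu) (cont_Qtt hu)
    have h2 : (2 * π)⁻¹ * ∫ θ in (0 : ℝ)..(2 * π), Qtt u c s θ
        = Real.exp (2 * s) * avg (lap u) c s := by
      have h3 : ∫ θ in (0 : ℝ)..(2 * π), Qtt u c s θ
          = ∫ θ in (0 : ℝ)..(2 * π), Real.exp (2 * s) * lap u (pt c s θ) := by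
        have h4 : ∀ θ, Qtt u c s θ = Real.exp (2 * s) * lap u (pt c s θ) - Qhh u c s θ := by
          intro θ
          rw [← Qtt_add_Qhh hu hs θ]; ring
        simp_rw [h4]
        rw [intervalIntegral.integral_sub, mean_Qhh hu hs, sub_zero]
        · exact ((avg_continuous_slice (cont_lap hu) hs).const_mul _).intervalIntegrable _ _
        · exact (slice_right (F := Qhh u c) (cont_Qhh hu) hs).intervalIntegrable _ _
      rw [h3, intervalIntegral.integral_const_mul]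
      unfold avg
      ring
    rw [h2] at h1
    exact h1
  have hmd : ∀ s < T, HasDerivAt (mass (lap u) c) (Real.exp (2 * s) * avg (lap u) c s) s :=
    fun s hs => mass_hasDerivAt (cont_lap hu) hs
  have hconst : ∀ s < T, B s - mass (lap u) c s = B t - mass (lap u) c t := by
    intro s hs
    have hd : ∀ x ∈ Iio T, HasDerivAt (fun x => B x - mass (lap u) c x) 0 x := by
      intro x hx
      have := (hBd x hx).sub (hmd x hx)
      rwa [sub_self] at this
    exact (convex_Iio T).is_const_of_fderivWithin_eq_zero (𝕜 := ℝ)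
      (fun x hx => (hd x hx).differentiableAt.differentiableWithinAt)
      (fun x hx => by
        rw [fderivWithin_of_isOpen isOpen_Iio hx]
        ext
        simp [(hd x hx).deriv]) hs ht
  obtain ⟨C, hC0, hC⟩ := Q_bound hu ht
  have hBlim : Tendsto B atBot (𝓝 0) := by
    have h1 : Tendsto (fun s => C * Real.exp s) atBot (𝓝 0) := by
      simpa using Real.tendsto_exp_atBot.const_mul C
    refine squeeze_zero_norm' ?_ h1
    filter_upwards [Iic_mem_atBot t] with s hs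
    have hpi : (0 : ℝ) ≤ 2 * π := by positivity
    have hpi0 : (2 * π) ≠ 0 := by positivity
    have h5 : ‖∫ θ in (0 : ℝ)..(2 * π), Qt u c s θ‖ ≤ C * Real.exp s * |2 * π - 0| :=
      intervalIntegral.norm_integral_le_of_norm_le_const (fun θ _ => by
        rw [Real.norm_eq_abs]; exact (hC s hs θ).1)
    rw [sub_zero, abs_of_nonneg hpi] at h5
    rw [hB]
    simp only
    rw [norm_mul, Real.norm_eq_abs, abs_of_nonneg (by positivity : (0 : ℝ) ≤ (2 * π)⁻¹)]
    calc (2 * π)⁻¹ * ‖∫ θ in (0 : ℝ)..(2 * π), Qt u c s θ‖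
        ≤ (2 * π)⁻¹ * (C * Real.exp s * (2 * π)) := by gcongr
      _ = C * Real.exp s := by field_simp
  have hlim : Tendsto (fun s => B s - mass (lap u) c s) atBot (𝓝 (0 - 0)) :=
    hBlim.sub (mass_tendsto (cont_lap hu))
  have hlim2 : Tendsto (fun s => B s - mass (lap u) c s) atBot (𝓝 (B t - mass (lap u) c t)) := by
    refine tendsto_const_nhds.congr' ?_
    filter_upwards [Iio_mem_atBot T] with s hs
    exact (hconst s hs).symm
  have := tendsto_nhds_unique hlim hlim2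
  have h6 : B t = mass (lap u) c t := by linarith
  exact h6

theorem avg_hasDerivAt (hu : ContDiffOn ℝ 2 u (ball c (Real.exp T))) (ht : t < T) :
    HasDerivAt (avg u c) (mass (lap u) c t) t := by
  have h1 := mean_hasDerivAt (F := fun s θ => u (pt c s θ)) (F' := Qt u c) ht
    (fun s hs θ => hasDerivAt_u_t hu hs θ) (cont_comp_pt hu.continuousOn) (cont_Qt hu)
  rw [mean_Qt hu ht] at h1
  exact h1

end

end Pool.Agent.LE87
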