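import Mathlib

set_option autoImplicit false

open Set Filter Topology

namespace Pool.Agent.LE87

/-- the properties of a limit profile -/
structure Prof (V a b T : ℝ → ℝ) (C0 M0 : ℝ) : Prop where
  ha0 : ∀ s, 0 < s → 0 ≤ a s
  hb0 : ∀ s, 0 < s → 0 ≤ b s
  hT0 : ∀ s, 0 < s → 0 ≤ T s
  hTC : ∀ s, 0 < s → T s ≤ C0
  ha : AntitoneOn a (Ioi 0)
  hb : AntitoneOn b (Ioi 0)
  hT : AntitoneOn T (Ioi 0)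
  hVl : ∀ s s', 0 < s → s < s' → 2 * (a s' - b s) * (s' - s) ≤ V s' - V s
  hVu : ∀ s s', 0 < s → s < s' → V s' - V s ≤ 2 * (a s - b s') * (s' - s)
  hbar : ∀ s, 0 < s → |V s| ≤ Real.exp (2 * s)
  hV0 : Tendsto V (𝓝[>] 0) (𝓝 0)
  hbd : ∀ s, 0 < s → |V s| ≤ M0
  hPa : ∀ s s', 0 < s → s ≤ s' → (∀ x ∈ Icc s s', V x < Real.exp (2 * x)) → a s = a s'
  hPb : ∀ s s', 0 < s → s ≤ s' → (∀ x ∈ Icc s s', -Real.exp (2 * x) < V x) → b s = b s'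
  hTu : ∀ s s', 0 < s → s ≤ s' → T s - T s' ≤ M0 * ((a s - a s') + (b s - b s'))
  hTa : ∀ s s' v ε, 0 < s → s ≤ s' → 0 < v - ε →
      (∀ x ∈ Icc s s', v - ε ≤ V x ∧ V x ≤ v + ε) →
      (v - ε) * (a s - a s') ≤ T s - T s' ∧ T s - T s' ≤ (v + ε) * (a s - a s')
  hTb : ∀ s s' v ε, 0 < s → s ≤ s' → 0 < v - ε →
      (∀ x ∈ Icc s s', v - ε ≤ -V x ∧ -V x ≤ v + ε) →
      (v - ε) * (b s - b s') ≤ T s - T s' ∧ T s - T s' ≤ (v + ε) * (b s - b s')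
  hPoh : ∀ s s', 0 < s → s < s' → ∃ A Tm : ℝ, a s' - b s ≤ A ∧ A ≤ a s - b s' ∧
      T s' ≤ Tm ∧ Tm ≤ T s ∧ A ^ 2 = 2 * Tm
  hinf : ∃ S, 0 < S ∧ ∀ s, S ≤ s → a s = 0 ∧ b s = 0 ∧ T s = 0
  hapos : ∃ s, 0 < s ∧ 0 < a s
  hbpos : ∃ s, 0 < s ∧ 0 < b s

end Pool.Agent.LE87
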