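import Pool.Agent.LE87.Base

set_option autoImplicit false

open Complex MeasureTheory Set Filter Topology Metric
open scoped Real

namespace Pool.Agent.LE87

/-! ## The truncation function (C², convex, zero on `(-∞, ε]`) -/

/-- truncation -/
noncomputable def psi (ε s : ℝ) : ℝ := max (s - ε) 0 - ε * Real.arctan (max (s - ε) 0 / ε)

/-- its derivative -/
noncomputable def psi1 (ε s : ℝ) : ℝ := (max (s - ε) 0) ^ 2 / ((max (s - ε) 0) ^ 2 + ε ^ 2)

/-- its second derivative -/
noncomputable def psi2 (ε s : ℝ) : ℝ :=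
  2 * (max (s - ε) 0) * ε ^ 2 / ((max (s - ε) 0) ^ 2 + ε ^ 2) ^ 2

theorem psi_cont (ε : ℝ) : Continuous (psi ε) := by
  unfold psi
  exact (by fun_prop : Continuous fun s : ℝ => max (s - ε) 0).sub
    (continuous_const.mul (Real.continuous_arctan.comp (by fun_prop)))

theorem psi1_cont {ε : ℝ} (hε : 0 < ε) : Continuous (psi1 ε) := by
  unfold psi1
  refine Continuous.div (by fun_prop) (by fun_prop) (fun s => ?_)
  positivity

theorem psi2_cont {ε : ℝ} (hε : 0 < ε) : Continuous (psi2 ε) := by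
  unfold psi2
  refine Continuous.div (by fun_prop) (by fun_prop) (fun s => ?_)
  positivity

theorem psi_zero {ε s : ℝ} (h : s ≤ ε) : psi ε s = 0 := by
  simp [psi, max_eq_right (by linarith : s - ε ≤ 0)]

theorem psi1_zero {ε s : ℝ} (h : s ≤ ε) : psi1 ε s = 0 := by
  simp [psi1, max_eq_right (by linarith : s - ε ≤ 0)]

theorem psi2_zero {ε s : ℝ} (h : s ≤ ε) : psi2 ε s = 0 := by
  simp [psi2, max_eq_right (by linarith : s - ε ≤ 0)]

theorem psi1_nonneg (ε s : ℝ) : 0 ≤ psi1 ε s := by
  unfold psi1; positivity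

theorem psi1_le_one {ε : ℝ} (hε : 0 < ε) (s : ℝ) : psi1 ε s ≤ 1 := by
  unfold psi1
  rw [div_le_one (by positivity)]
  nlinarith [sq_nonneg ε]

theorem psi2_nonneg (ε s : ℝ) : 0 ≤ psi2 ε s := by
  unfold psi2
  have : 0 ≤ max (s - ε) 0 := le_max_right _ _
  positivity

theorem psi_lower {ε : ℝ} (hε : 0 < ε) (s : ℝ) : s - 3 * ε ≤ psi ε s := by
  unfold psi
  have h1 : s - ε ≤ max (s - ε) 0 := le_max_left _ _
  have h2 : Real.arctan (max (s - ε) 0 / ε) < π / 2 := Real.arctan_lt_pi_div_two _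
  have h3 : π < 4 := by linarith [Real.pi_lt_four]
  nlinarith

theorem psi_hasDerivAt {ε : ℝ} (hε : 0 < ε) (s : ℝ) : HasDerivAt (psi ε) (psi1 ε s) s := by
  have key : ∀ y ≠ ε, HasDerivAt (psi ε) (psi1 ε y) y := by
    intro y hy
    rcases lt_or_gt_of_ne hy with h | h
    · rw [psi1_zero h.le]
      refine (hasDerivAt_const y (0 : ℝ)).congr_of_eventuallyEq ?_
      filter_upwards [Iio_mem_nhds h] with w hw
      exact psi_zero (le_of_lt hw)
    · have e : psi1 ε y = 1 - ε * (1 / (1 + ((y - ε) / ε) ^ 2) * (1 / ε)) := by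
        unfold psi1
        rw [max_eq_left (by linarith : 0 ≤ y - ε)]
        field_simp
        ring
      rw [e]
      have h1 : HasDerivAt (fun w : ℝ => (w - ε) - ε * Real.arctan ((w - ε) / ε))
          (1 - ε * (1 / (1 + ((y - ε) / ε) ^ 2) * (1 / ε))) y := by
        have a1 : HasDerivAt (fun w : ℝ => w - ε) 1 y := (hasDerivAt_id y).sub_const ε
        exact a1.sub ((a1.div_const ε).arctan.const_mul ε)
      refine h1.congr_of_eventuallyEq ?_
      filter_upwards [Ioi_mem_nhds h] with w hw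
      have hw' : 0 ≤ w - ε := by have : ε < w := hw; linarith
      simp [psi, max_eq_left hw']
  by_cases hs : s = ε
  · subst hs
    exact hasDerivAt_of_hasDerivAt_of_ne key (psi_cont s).continuousAt (psi1_cont hε).continuousAt
  · exact key s hs

theorem psi1_hasDerivAt {ε : ℝ} (hε : 0 < ε) (s : ℝ) : HasDerivAt (psi1 ε) (psi2 ε s) s := by
  have key : ∀ y ≠ ε, HasDerivAt (psi1 ε) (psi2 ε y) y := by
    intro y hy
    rcases lt_or_gt_of_ne hy with h | h
    · rw [psi2_zero h.le]
      refine (hasDerivAt_const y (0 : ℝ)).congr_of_eventuallyEq ?_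
      filter_upwards [Iio_mem_nhds h] with w hw
      exact psi1_zero (le_of_lt hw)
    · have hpos : (y - ε) ^ 2 + ε ^ 2 ≠ 0 := by positivity
      have a1 : HasDerivAt (fun w : ℝ => w - ε) 1 y := (hasDerivAt_id y).sub_const ε
      have a2 : HasDerivAt (fun w : ℝ => (w - ε) ^ 2) (2 * (y - ε)) y := by
        have := a1.fun_pow 2
        simpa using this
      have a3 := a2.div (a2.add_const (ε ^ 2)) hpos
      have e : psi2 ε y = (2 * (y - ε) * ((y - ε) ^ 2 + ε ^ 2) - (y - ε) ^ 2 * (2 * (y - ε))) /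
          ((y - ε) ^ 2 + ε ^ 2) ^ 2 := by
        unfold psi2
        rw [max_eq_left (by linarith : 0 ≤ y - ε)]
        congr 1
        ring
      rw [e]
      refine a3.congr_of_eventuallyEq ?_
      filter_upwards [Ioi_mem_nhds h] with w hw
      have hw' : 0 ≤ w - ε := by have : ε < w := hw; linarith
      simp [psi1, max_eq_left hw']
  by_cases hs : s = ε
  · subst hs
    exact hasDerivAt_of_hasDerivAt_of_ne key (psi1_cont hε).continuousAt
      (psi2_cont hε).continuousAt
  · exact key s hs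

theorem psi1_contDiff {ε : ℝ} (hε : 0 < ε) : ContDiff ℝ 1 (psi1 ε) := by
  rw [contDiff_one_iff_deriv]
  refine ⟨fun s => (psi1_hasDerivAt hε s).differentiableAt, ?_⟩
  have : deriv (psi1 ε) = psi2 ε := funext fun s => (psi1_hasDerivAt hε s).deriv
  rw [this]
  exact psi2_cont hε

theorem psi_contDiff {ε : ℝ} (hε : 0 < ε) : ContDiff ℝ 2 (psi ε) := by
  have h1 : deriv (psi ε) = psi1 ε := funext fun s => (psi_hasDerivAt hε s).deriv
  have : (2 : WithTop ℕ∞) = 1 + 1 := by norm_num
  rw [this, contDiff_succ_iff_deriv]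
  refine ⟨fun s => (psi_hasDerivAt hε s).differentiableAt, by simp, ?_⟩
  rw [h1]
  exact psi1_contDiff hε

end Pool.Agent.LE87
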