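import Pool.Agent.LE87.TrC0

set_option autoImplicit false

open Complex MeasureTheory Set Filter Topology Metric
open scoped Real

namespace Pool.Agent.LE87

/-! ## The truncated gradient field `h(u) ∂_v u` -/

theorem near_off {Ω : Set ℂ} {p ε : ℝ} {u : ℂ → ℝ} (hu : Sol Ω p u) (hε : 0 < ε) {z : ℂ}
    (hz : z ∉ Ω) : ∀ᶠ w in 𝓝 z, u w < ε := by
  have h := hu.cont.continuousAt (x := z)
  have h0 : u z < ε := by rw [hu.zero z hz]; exact hε
  exact h.eventually (gt_mem_nhds h0)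

theorem u_diff {Ω : Set ℂ} {p : ℝ} {u : ℂ → ℝ} (hΩ : IsOpen Ω) (hu : Sol Ω p u) {z : ℂ}
    (hz : z ∈ Ω) : ContDiffAt ℝ 2 u z := hu.smooth.contDiffAt (hΩ.mem_nhds hz)

theorem du_contDiffAt {Ω : Set ℂ} {p : ℝ} {u : ℂ → ℝ} (hΩ : IsOpen Ω) (hu : Sol Ω p u) {z : ℂ}
    (hz : z ∈ Ω) (v : ℂ) : ContDiffAt ℝ 1 (fun w => fderiv ℝ u w v) z := by
  have h := (u_diff hΩ hu hz).fderiv_right (m := 1) (by norm_num)
  exact h.clm_apply contDiffAt_const

theorem X_hasFDerivAt {Ω : Set ℂ} {p ε : ℝ} {u : ℂ → ℝ} {h h' : ℝ → ℝ} (hΩ : IsOpen Ω)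
    (hu : Sol Ω p u) (hε : 0 < ε) (hh : ∀ s, HasDerivAt h (h' s) s) (h0 : ∀ s ≤ ε, h s = 0)
    (h0' : ∀ s ≤ ε, h' s = 0) (z v : ℂ) :
    HasFDerivAt (fun w => h (u w) * fderiv ℝ u w v)
      (h (u z) • fderiv ℝ (fun w => fderiv ℝ u w v) z
        + fderiv ℝ u z v • (h' (u z) • fderiv ℝ u z)) z := by
  by_cases hz : z ∈ Ω
  · have h1 : HasFDerivAt u (fderiv ℝ u z) z :=
      ((u_diff hΩ hu hz).differentiableAt (by norm_num)).hasFDerivAt
    have h2 : HasFDerivAt (fun w => h (u w)) (h' (u z) • fderiv ℝ u z) z :=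
      (hh (u z)).comp_hasFDerivAt z h1
    have h3 : HasFDerivAt (fun w => fderiv ℝ u w v) (fderiv ℝ (fun w => fderiv ℝ u w v) z) z :=
      ((du_contDiffAt hΩ hu hz v).differentiableAt (by norm_num)).hasFDerivAt
    exact h2.mul h3
  · have e0 : u z ≤ ε := by rw [hu.zero z hz]; exact hε.le
    rw [h0 _ e0, h0' _ e0]
    simp only [zero_smul, smul_zero, add_zero]
    refine (hasFDerivAt_const (0 : ℝ) z).congr_of_eventuallyEq ?_
    filter_upwards [near_off hu hε hz] with w hw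
    rw [h0 _ hw.le, zero_mul]

theorem X_contDiff {Ω : Set ℂ} {p ε : ℝ} {u : ℂ → ℝ} {h : ℝ → ℝ} (hΩ : IsOpen Ω)
    (hu : Sol Ω p u) (hε : 0 < ε) (hh : ContDiff ℝ 1 h) (h0 : ∀ s ≤ ε, h s = 0) (v : ℂ) :
    ContDiff ℝ 1 (fun w => h (u w) * fderiv ℝ u w v) := by
  rw [contDiff_iff_contDiffAt]
  intro z
  by_cases hz : z ∈ Ω
  · have h1 : ContDiffAt ℝ 1 u z := (u_diff hΩ hu hz).of_le (by norm_num)
    exact (hh.contDiffAt.comp z h1).mul (du_contDiffAt hΩ hu hz v)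
  · refine (contDiffAt_const (c := (0 : ℝ))).congr_of_eventuallyEq ?_
    filter_upwards [near_off hu hε hz] with w hw
    rw [h0 _ hw.le, zero_mul]

theorem u_compact {Ω : Set ℂ} {p R : ℝ} {u : ℂ → ℝ} (hΩR : Ω ⊆ ball 0 R) (hu : Sol Ω p u) :
    HasCompactSupport u := by
  refine HasCompactSupport.intro (isCompact_closedBall (0 : ℂ) R) (fun z hz => ?_)
  exact hu.zero z (fun h => hz (ball_subset_closedBall (hΩR h)))

theorem X_compact {Ω : Set ℂ} {p R ε : ℝ} {u : ℂ → ℝ} {h : ℝ → ℝ} (hΩR : Ω ⊆ ball 0 R)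
    (hu : Sol Ω p u) (hε : 0 < ε) (h0 : ∀ s ≤ ε, h s = 0) (v : ℂ) :
    HasCompactSupport (fun w => h (u w) * fderiv ℝ u w v) := by
  refine HasCompactSupport.intro (isCompact_closedBall (0 : ℂ) R) (fun z hz => ?_)
  have : u z = 0 := hu.zero z (fun h => hz (ball_subset_closedBall (hΩR h)))
  rw [this, h0 _ hε.le, zero_mul]

/-- divergence of the truncated field -/
theorem X_div {Ω : Set ℂ} {p ε : ℝ} {u : ℂ → ℝ} {h h' : ℝ → ℝ} (hΩ : IsOpen Ω)
    (hu : Sol Ω p u) (hε : 0 < ε) (hh : ∀ s, HasDerivAt h (h' s) s) (h0 : ∀ s ≤ ε, h s = 0)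
    (h0' : ∀ s ≤ ε, h' s = 0) (z : ℂ) :
    fderiv ℝ (fun w => h (u w) * fderiv ℝ u w 1) z 1
      + fderiv ℝ (fun w => h (u w) * fderiv ℝ u w Complex.I) z Complex.I
      = h (u z) * lap u z
        + h' (u z) * ((fderiv ℝ u z 1) ^ 2 + (fderiv ℝ u z Complex.I) ^ 2) := by
  rw [(X_hasFDerivAt hΩ hu hε hh h0 h0' z 1).fderiv,
    (X_hasFDerivAt hΩ hu hε hh h0 h0' z Complex.I).fderiv]
  simp only [_root_.add_apply, _root_.smul_apply, smul_eq_mul, lap]
  ring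

/-- the integral of a directional derivative of a compactly supported `C¹` function vanishes -/
theorem integral_fderiv_zero {f : ℂ → ℝ} (hf : ContDiff ℝ 1 f) (hc : HasCompactSupport f)
    (v : ℂ) : Integrable (fun z => fderiv ℝ f z v) ∧ ∫ z, fderiv ℝ f z v = 0 := by
  have hcont : Continuous (fun z => fderiv ℝ f z v) :=
    (hf.continuous_fderiv (by norm_num)).clm_apply continuous_const
  have hcs : HasCompactSupport (fun z => fderiv ℝ f z v) := hc.fderiv_apply ℝ v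
  have hint : Integrable (fun z => fderiv ℝ f z v) := hcont.integrable_of_hasCompactSupport hcs
  refine ⟨hint, ?_⟩
  have hf1 : Integrable f := hf.continuous.integrable_of_hasCompactSupport hc
  have := integral_mul_fderiv_eq_neg_fderiv_mul_of_integrable (μ := (volume : Measure ℂ))
    (f := f) (g := fun _ : ℂ => (1 : ℝ)) (v := v) (by simpa using hint) (by simp)
    (by simpa using hf1) (fun x _ => hf.differentiable (by norm_num) x) (fun x _ => by fun_prop)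
  simp only [fderiv_fun_const, Pi.zero_apply, _root_.zero_apply, mul_zero,
    integral_zero, mul_one] at this
  linarith

theorem sq_add_sq_le_norm_sq (L : ℂ →L[ℝ] ℝ) : (L 1) ^ 2 + (L Complex.I) ^ 2 ≤ ‖L‖ ^ 2 := by
  set z : ℂ := ⟨L 1, L Complex.I⟩ with hz
  have h1 : L z = (L 1) ^ 2 + (L Complex.I) ^ 2 := by
    have e : z = (L 1) • (1 : ℂ) + (L Complex.I) • Complex.I := by
      apply Complex.ext <;> simp [hz]
    rw [e, map_add, map_smul, map_smul, smul_eq_mul, smul_eq_mul]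
    ring
  have h2 : ‖z‖ ^ 2 = (L 1) ^ 2 + (L Complex.I) ^ 2 := by
    rw [← Complex.normSq_eq_norm_sq, Complex.normSq_apply]
    simp [hz]
    ring
  have h3 : |L z| ≤ ‖L‖ * ‖z‖ := by
    have := L.le_opNorm z
    rwa [Real.norm_eq_abs] at this
  have h4 : ‖z‖ ^ 2 ≤ ‖L‖ * ‖z‖ := by
    rw [h2, ← h1]
    exact (le_abs_self _).trans h3
  rw [← h2]
  rcases eq_or_lt_of_le (norm_nonneg z) with h | h
  · rw [← h]
    nlinarith [sq_nonneg ‖L‖]
  · have : ‖z‖ ≤ ‖L‖ := by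
      by_contra hc
      push Not at hc
      nlinarith
    nlinarith [norm_nonneg z, norm_nonneg L]

end Pool.Agent.LE87
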